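import Pool.Agent.Lib.MP_021685_agO.OB

/-!
# Block B: the trace form of `g`, second part
-/

set_option autoImplicit false

namespace Pool.Agent.Lib.MP_021685_agO

open Module

variable {k H : Type*} [Field k] [CharZero k] [AddCommGroup H] [Module k H] [FiniteDimensional k H]
  {g : Submodule k (End k H)} {c : End k H → k}

omit [CharZero k] [FiniteDimensional k H] in
private theorem OB2_tr {t x Z : End k H} {a : k} (hx : t * x - x * t = x)
    (hZ : t * Z - Z * t = a • Z) (ha : a + 1 ≠ 0) : LinearMap.trace k H (x * Z) = 0 := by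
  have h1 : LinearMap.trace k H ((t * x - x * t) * Z) + LinearMap.trace k H (x * (t * Z - Z * t)) = 0 := by
    rw [← map_add]
    have h2 : (t * x - x * t) * Z + x * (t * Z - Z * t) = t * (x * Z) - x * Z * t := by noncomm_ring
    rw [h2, map_sub, LinearMap.trace_mul_comm, sub_self]
  rw [hx, hZ, mul_smul_comm, map_smul, smul_eq_mul] at h1
  have h3 : (a + 1) * LinearMap.trace k H (x * Z) = 0 := by linear_combination h1
  exact (mul_eq_zero.1 h3).resolve_left ha

omit [CharZero k] [FiniteDimensional k H] in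
private theorem OB2_tr' {t y Z : End k H} {a : k} (hy : t * y - y * t = -y)
    (hZ : t * Z - Z * t = a • Z) (ha : a - 1 ≠ 0) : LinearMap.trace k H (Z * y) = 0 := by
  have h1 : LinearMap.trace k H ((t * Z - Z * t) * y) + LinearMap.trace k H (Z * (t * y - y * t)) = 0 := by
    rw [← map_add]
    have h2 : (t * Z - Z * t) * y + Z * (t * y - y * t) = t * (Z * y) - Z * y * t := by noncomm_ring
    rw [h2, map_sub, LinearMap.trace_mul_comm, sub_self]
  rw [hy, hZ, smul_mul_assoc, map_smul, smul_eq_mul, mul_neg, map_neg] at h1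
  have h3 : (a - 1) * LinearMap.trace k H (Z * y) = 0 := by linear_combination h1
  exact (mul_eq_zero.1 h3).resolve_left ha

/-- An ideal `I` of `g` on which the trace form vanishes commutes with `g`.
PROOF. (1) `R = span {X Y - Y X | X, Y ∈ I}` is an ideal of `g` (Jacobi identity:
`[A, [X, Y]] = [[A, X], Y] + [X, [A, Y]]`), contained in `I ≤ g`, and consists of nilpotent endomorphisms
(`cartan`), so `R = ⊥` (`nil_zero`): the elements of `I` commute with each other.
(2) `R' = span {X A - A X | X ∈ I, A ∈ g}` is an ideal of `g` (`[B, [X, A]] = [[B, X], A] + [X, [B, A]]`)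
contained in `I`. For `X ∈ I`, `A ∈ g` the element `X A - A X ∈ I` commutes with `X`, so it is nilpotent
(`jacobson`). Since the elements of `I` commute, sums of nilpotent elements of `I` are nilpotent
(`Commute.isNilpotent_add`), so all the elements of `R'` are nilpotent (`Submodule.span_induction`), and
`R' = ⊥` by `nil_zero`. -/
theorem ideal_central (hg : IsGaloisAlg g c) {I : Submodule k (End k H)} (hI : I ≤ g)
    (hid : ∀ X ∈ g, ∀ Y ∈ I, X * Y - Y * X ∈ I)
    (htr : ∀ X ∈ I, ∀ Y ∈ I, LinearMap.trace k H (X * Y) = 0) :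
    ∀ X ∈ I, ∀ A ∈ g, X * A = A * X := by
  have hlieI : ∀ X ∈ I, ∀ Y ∈ I, X * Y - Y * X ∈ I := fun X hX Y hY => hid X (hI hX) Y hY
  -- first step: the elements of `I` commute
  have hR1 : Submodule.span k {Z : End k H | ∃ X ∈ I, ∃ Y ∈ I, Z = X * Y - Y * X} ≤ I := by
    rw [Submodule.span_le]
    rintro _ ⟨X, hX, Y, hY, rfl⟩
    exact hlieI X hX Y hY
  have hR : Submodule.span k {Z : End k H | ∃ X ∈ I, ∃ Y ∈ I, Z = X * Y - Y * X} = ⊥ := by
    refine nil_zero hg (hR1.trans hI) ?_ fun Z hZ => cartan hlieI htr hZ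
    intro A hA Z hZ
    induction hZ using Submodule.span_induction with
    | mem Z hZ =>
      obtain ⟨X, hX, Y, hY, rfl⟩ := hZ
      have h1 : A * (X * Y - Y * X) - (X * Y - Y * X) * A =
          ((A * X - X * A) * Y - Y * (A * X - X * A)) + (X * (A * Y - Y * A) - (A * Y - Y * A) * X) := by
        noncomm_ring
      rw [h1]
      exact Submodule.add_mem _ (Submodule.subset_span ⟨_, hid A hA X hX, Y, hY, rfl⟩)
        (Submodule.subset_span ⟨X, hX, _, hid A hA Y hY, rfl⟩)
    | zero =>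
      rw [mul_zero, zero_mul, sub_zero]
      exact Submodule.zero_mem _
    | add Z Z' _ _ h1 h2 =>
      rw [mul_add, add_mul, add_sub_add_comm]
      exact Submodule.add_mem _ h1 h2
    | smul a Z _ h1 =>
      rw [mul_smul_comm, smul_mul_assoc, ← smul_sub]
      exact Submodule.smul_mem _ a h1
  have hcomm : ∀ X ∈ I, ∀ Y ∈ I, X * Y = Y * X := by
    intro X hX Y hY
    have h1 : X * Y - Y * X ∈
        Submodule.span k {Z : End k H | ∃ X ∈ I, ∃ Y ∈ I, Z = X * Y - Y * X} :=
      Submodule.subset_span ⟨X, hX, Y, hY, rfl⟩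
    rw [hR, Submodule.mem_bot] at h1
    exact sub_eq_zero.1 h1
  -- second step
  have hidr : ∀ X ∈ I, ∀ A ∈ g, X * A - A * X ∈ I := by
    intro X hX A hA
    have h1 := I.neg_mem (hid A hA X hX)
    rwa [neg_sub] at h1
  have hR2 : Submodule.span k {Z : End k H | ∃ X ∈ I, ∃ A ∈ g, Z = X * A - A * X} ≤ I := by
    rw [Submodule.span_le]
    rintro _ ⟨X, hX, A, hA, rfl⟩
    exact hidr X hX A hA
  have hR' : Submodule.span k {Z : End k H | ∃ X ∈ I, ∃ A ∈ g, Z = X * A - A * X} = ⊥ := by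
    refine nil_zero hg (hR2.trans hI) ?_ ?_
    · intro B hB Z hZ
      induction hZ using Submodule.span_induction with
      | mem Z hZ =>
        obtain ⟨X, hX, A, hA, rfl⟩ := hZ
        have h1 : B * (X * A - A * X) - (X * A - A * X) * B =
            ((B * X - X * B) * A - A * (B * X - X * B)) +
              (X * (B * A - A * B) - (B * A - A * B) * X) := by
          noncomm_ring
        rw [h1]
        exact Submodule.add_mem _ (Submodule.subset_span ⟨_, hid B hB X hX, A, hA, rfl⟩)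
          (Submodule.subset_span ⟨X, hX, _, hg.lie B hB A hA, rfl⟩)
      | zero =>
        rw [mul_zero, zero_mul, sub_zero]
        exact Submodule.zero_mem _
      | add Z Z' _ _ h1 h2 =>
        rw [mul_add, add_mul, add_sub_add_comm]
        exact Submodule.add_mem _ h1 h2
      | smul a Z _ h1 =>
        rw [mul_smul_comm, smul_mul_assoc, ← smul_sub]
        exact Submodule.smul_mem _ a h1
    · intro Z hZ
      induction hZ using Submodule.span_induction with
      | mem Z hZ =>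
        obtain ⟨X, hX, A, hA, rfl⟩ := hZ
        exact jacobson (hcomm X hX _ (hidr X hX A hA))
      | zero => exact IsNilpotent.zero
      | add Z Z' hZ hZ' h1 h2 =>
        exact Commute.isNilpotent_add (hcomm Z (hR2 hZ) Z' (hR2 hZ')) h1 h2
      | smul a Z _ h1 => exact h1.smul a
  intro X hX A hA
  have h1 : X * A - A * X ∈ Submodule.span k {Z : End k H | ∃ X ∈ I, ∃ A ∈ g, Z = X * A - A * X} :=
    Submodule.subset_span ⟨X, hX, A, hA, rfl⟩
  rw [hR', Submodule.mem_bot] at h1
  exact sub_eq_zero.1 h1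

/-- PROOF. `I = {X ∈ g | ∀ Y ∈ g, trace (X Y) = 0}` is an ideal of `g`
(`trace ((A X - X A) Y) = trace (X (Y A - A Y))`); apply `ideal_central`. -/
theorem radical (hg : IsGaloisAlg g c) {X : End k H} (hX : X ∈ g)
    (h : ∀ Y ∈ g, LinearMap.trace k H (X * Y) = 0) : ∀ A ∈ g, X * A = A * X := by
  let I : Submodule k (End k H) :=
    { carrier := {X | X ∈ g ∧ ∀ Y ∈ g, LinearMap.trace k H (X * Y) = 0}
      add_mem' := by
        rintro X Y ⟨h1, h2⟩ ⟨h3, h4⟩
        refine ⟨g.add_mem h1 h3, fun Z hZ => ?_⟩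
        rw [add_mul, map_add, h2 Z hZ, h4 Z hZ, add_zero]
      zero_mem' := ⟨g.zero_mem, fun Z _ => by rw [zero_mul, map_zero]⟩
      smul_mem' := by
        rintro a X ⟨h1, h2⟩
        refine ⟨g.smul_mem a h1, fun Z hZ => ?_⟩
        rw [smul_mul_assoc, map_smul, h2 Z hZ, smul_zero] }
  have hI : I ≤ g := fun Z hZ => hZ.1
  refine ideal_central hg hI ?_ (fun Z hZ Y hY => hZ.2 Y (hI hY)) X ⟨hX, h⟩
  intro A hA Z hZ
  refine ⟨hg.lie A hA Z hZ.1, fun Y hY => ?_⟩
  have h1 : LinearMap.trace k H (A * Z * Y) = LinearMap.trace k H (Z * (Y * A)) := by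
    rw [mul_assoc, LinearMap.trace_mul_comm, mul_assoc]
  have h2 := hZ.2 (Y * A - A * Y) (hg.lie Y hY A hA)
  rw [sub_mul, map_sub, h1, mul_assoc Z A Y, ← map_sub, ← mul_sub]
  exact h2

/-- PROOF. For `Y ∈ g` let `Y₁ = h Y (1 - h) ∈ gp g h` (`hcomp`). `x = (1 - h) x h`, so
`trace (x Y) = trace ((1 - h) x h Y) = trace (x (h Y (1 - h))) = trace (x Y₁) = 0`. By `radical`, `x` commutes with
`h`: `x = x h = h x = 0`. -/
theorem nd_gm (hg : IsGaloisAlg g c) {h : End k H} (hh : IsHodgeElt g c h) {x : End k H}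
    (hx : x ∈ gm g h) (h0 : ∀ y ∈ gp g h, LinearMap.trace k H (x * y) = 0) : x = 0 := by
  obtain ⟨hxg, hxh, hhx⟩ := mem_gm.1 hx
  have h1 : ∀ Y ∈ g, LinearMap.trace k H (x * Y) = 0 := by
    intro Y hY
    have h2 := h0 _ (hcomp hg.lie hh.1 hh.2.1 hY).1
    have h3 : x * (h * Y * (1 - h)) = x * Y * (1 - h) := by
      rw [← mul_assoc, ← mul_assoc, hxh]
    rw [h3, LinearMap.trace_mul_comm, ← mul_assoc, sub_mul, one_mul, hhx, sub_zero] at h2
    exact h2
  have h4 := radical hg hxg h1 h hh.1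
  rw [hxh, hhx] at h4
  exact h4

/-- PROOF. As `nd_gm`. -/
theorem nd_gp (hg : IsGaloisAlg g c) {h : End k H} (hh : IsHodgeElt g c h) {y : End k H}
    (hy : y ∈ gp g h) (h0 : ∀ x ∈ gm g h, LinearMap.trace k H (x * y) = 0) : y = 0 := by
  obtain ⟨hyg, hhy, hyh⟩ := mem_gp.1 hy
  have h1 : ∀ Y ∈ g, LinearMap.trace k H (y * Y) = 0 := by
    intro Y hY
    have h2 := h0 _ (hcomp hg.lie hh.1 hh.2.1 hY).2.1
    have h3 : (1 - h) * Y * h * y = (1 - h) * (Y * y) := by
      rw [mul_assoc, hhy, mul_assoc]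
    rw [h3, LinearMap.trace_mul_comm, mul_assoc, mul_sub, mul_one, hyh, sub_zero,
      LinearMap.trace_mul_comm] at h2
    exact h2
  have h4 := radical hg hyg h1 h hh.1
  rw [hyh, hhy] at h4
  exact h4.symm

/-- PROOF. `tri`: `x * x = x h x = 0`; `[x, [y, x]] = x (y x - x y) - (y x - x y) x = 2 x y x`, so
`x y x ∈ g`; `x y x h = x y x`, `h x y x = 0`. `tri'` in the same way. `nd`, `nd'`: `nd_gm`, `nd_gp`. -/
theorem jpair_gm (hg : IsGaloisAlg g c) {h : End k H} (hh : IsHodgeElt g c h) :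
    JPair (gm g h) (gp g h) := by
  refine ⟨?_, ?_, fun x hx h0 => nd_gm hg hh hx h0, fun y hy h0 => nd_gp hg hh hy h0⟩
  · intro x hx y hy
    obtain ⟨hxg, hxh, hhx⟩ := mem_gm.1 hx
    obtain ⟨hyg, hhy, hyh⟩ := mem_gp.1 hy
    have hxx : x * x = 0 := by
      calc x * x = x * h * x := by rw [hxh]
        _ = 0 := by rw [mul_assoc, hhx, mul_zero]
    refine mem_gm.2 ⟨?_, ?_, ?_⟩
    · have h1 := hg.lie x hxg _ (hg.lie y hyg x hxg)
      have h2 : x * (y * x - x * y) - (y * x - x * y) * x = (2 : k) • (x * y * x) := by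
        have h3 : x * (y * x - x * y) - (y * x - x * y) * x =
            x * y * x + x * y * x - (x * x) * y - y * (x * x) := by noncomm_ring
        rw [h3, hxx, zero_mul, mul_zero, sub_zero, sub_zero, two_smul]
      rw [h2] at h1
      have h4 := g.smul_mem (2 : k)⁻¹ h1
      rwa [smul_smul, inv_mul_cancel₀ (two_ne_zero), one_smul] at h4
    · rw [mul_assoc, hxh]
    · rw [← mul_assoc, ← mul_assoc, hhx, zero_mul, zero_mul]
  · intro x hx y hy
    obtain ⟨hxg, hxh, hhx⟩ := mem_gm.1 hx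
    obtain ⟨hyg, hhy, hyh⟩ := mem_gp.1 hy
    have hyy : y * y = 0 := by
      calc y * y = y * (h * y) := by rw [hhy]
        _ = 0 := by rw [← mul_assoc, hyh, zero_mul]
    refine mem_gp.2 ⟨?_, ?_, ?_⟩
    · have h1 := hg.lie y hyg _ (hg.lie x hxg y hyg)
      have h2 : y * (x * y - y * x) - (x * y - y * x) * y = (2 : k) • (y * x * y) := by
        have h3 : y * (x * y - y * x) - (x * y - y * x) * y =
            y * x * y + y * x * y - (y * y) * x - x * (y * y) := by noncomm_ring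
        rw [h3, hyy, zero_mul, mul_zero, sub_zero, sub_zero, two_smul]
      rw [h2] at h1
      have h4 := g.smul_mem (2 : k)⁻¹ h1
      rwa [smul_smul, inv_mul_cancel₀ (two_ne_zero), one_smul] at h4
    · rw [← mul_assoc, ← mul_assoc, hhy]
    · rw [mul_assoc, hyh, mul_zero]

/-- PROOF. `tri`: `x y x ∈ gm g h` (`jpair_gm`) and its degree for `tau` is `1 - 1 + 1 = 1` (derivation).
`nd`: let `x ∈ J1` with `trace (x y) = 0` for `y ∈ J1'`. For `Y ∈ gp g h`, `d1 Y ∈ J1'` (`Pair.d1_mem_J1'`) and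
`trace (x Y) = trace (x (d1 e f Y))`: the other components of `Y` (degrees `j ≠ -1`) have
`j trace (x Y_j) = trace (x [tau, Y_j]) = - trace ([tau, x] Y_j) = - trace (x Y_j)`, so `trace (x Y_j) = 0`
(`sum_comp`, `ad_comp`). So `x = 0` by `nd_gm`. `nd'` in the same way. -/
theorem jpair_J1 (hg : IsGaloisAlg g c) {h e f : End k H} (hh : IsHodgeElt g c h)
    (hp : Pair g h e f) : JPair (J1 g h e f) (J1' g h e f) := by
  have hd2 : ∀ X, tau e f * d2 e f X - d2 e f X * tau e f = (-2 : k) • d2 e f X :=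
    fun X => (hp.ad_comp X).1
  have hd1 : ∀ X, tau e f * d1 e f X - d1 e f X * tau e f = (-1 : k) • d1 e f X := by
    intro X
    rw [(hp.ad_comp X).2.1, neg_smul, one_smul]
  have hc0 : ∀ X, tau e f * c0 e f X - c0 e f X * tau e f = (0 : k) • c0 e f X := by
    intro X
    rw [(hp.ad_comp X).2.2.1, zero_smul]
  have hc1 : ∀ X, tau e f * c1 e f X - c1 e f X * tau e f = (1 : k) • c1 e f X := by
    intro X
    rw [(hp.ad_comp X).2.2.2.1, one_smul]
  have hc2 : ∀ X, tau e f * c2 e f X - c2 e f X * tau e f = (2 : k) • c2 e f X :=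
    fun X => (hp.ad_comp X).2.2.2.2
  refine ⟨?_, ?_, ?_, ?_⟩
  · intro x hx y hy
    refine mem_J1.2 ⟨(jpair_gm hg hh).tri x hx.1 y hy.1, ?_⟩
    have h1 : tau e f * (x * y * x) - x * y * x * tau e f =
        (tau e f * x - x * tau e f) * y * x + x * (tau e f * y - y * tau e f) * x +
          x * y * (tau e f * x - x * tau e f) := by noncomm_ring
    rw [h1, hx.2, hy.2]
    noncomm_ring
  · intro x hx y hy
    refine mem_J1'.2 ⟨(jpair_gm hg hh).tri' x hx.1 y hy.1, ?_⟩
    have h1 : tau e f * (y * x * y) - y * x * y * tau e f =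
        (tau e f * y - y * tau e f) * x * y + y * (tau e f * x - x * tau e f) * y +
          y * x * (tau e f * y - y * tau e f) := by noncomm_ring
    rw [h1, hx.2, hy.2]
    noncomm_ring
  · intro x hx h0
    refine nd_gm hg hh hx.1 fun Y hY => ?_
    rw [← sum_comp e f Y, mul_add, mul_add, mul_add, mul_add, map_add, map_add, map_add, map_add,
      OB2_tr hx.2 (hd2 Y) (by norm_num), OB2_tr hx.2 (hc0 Y) (by norm_num),
      OB2_tr hx.2 (hc1 Y) (by norm_num), OB2_tr hx.2 (hc2 Y) (by norm_num),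
      h0 _ (hp.d1_mem_J1' hg.lie hY)]
    simp
  · intro y hy h0
    refine nd_gp hg hh hy.1 fun X hX => ?_
    rw [← sum_comp e f X, add_mul, add_mul, add_mul, add_mul, map_add, map_add, map_add, map_add,
      OB2_tr' hy.2 (hd2 X) (by norm_num), OB2_tr' hy.2 (hd1 X) (by norm_num),
      OB2_tr' hy.2 (hc0 X) (by norm_num), OB2_tr' hy.2 (hc2 X) (by norm_num),
      h0 _ (hp.c1_mem_J1 hg.lie hX)]
    simp

/-- PROOF. For `Y ∈ g`: `trace (X Y) = trace (X (d1 e f Y)) = 0` (as in `jpair_J1`; `d1 e f Y ∈ g` by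
`Pair.comp_mem` for `S = g`). By `radical`, `X` commutes with `tau`: `X = [tau, X] = 0`. -/
theorem nd_deg1 (hg : IsGaloisAlg g c) {h e f : End k H} (hp : Pair g h e f) {X : End k H}
    (hX : X ∈ g) (h1 : tau e f * X - X * tau e f = X)
    (h0 : ∀ Y ∈ g, tau e f * Y - Y * tau e f = -Y → LinearMap.trace k H (X * Y) = 0) : X = 0 := by
  have ht := hp.tau_mem hg.lie
  have h2 : ∀ Y ∈ g, LinearMap.trace k H (X * Y) = 0 := by
    intro Y hY
    have h3 := (hp.comp_mem (S := g) (fun Z hZ => hg.lie _ ht Z hZ) hY).2.1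
    have hc0 : tau e f * c0 e f Y - c0 e f Y * tau e f = (0 : k) • c0 e f Y := by
      rw [(hp.ad_comp Y).2.2.1, zero_smul]
    have hc1 : tau e f * c1 e f Y - c1 e f Y * tau e f = (1 : k) • c1 e f Y := by
      rw [(hp.ad_comp Y).2.2.2.1, one_smul]
    rw [← sum_comp e f Y, mul_add, mul_add, mul_add, mul_add, map_add, map_add, map_add, map_add,
      OB2_tr h1 (hp.ad_comp Y).1 (by norm_num), OB2_tr h1 hc0 (by norm_num),
      OB2_tr h1 hc1 (by norm_num), OB2_tr h1 (hp.ad_comp Y).2.2.2.2 (by norm_num),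
      h0 _ h3 (hp.ad_comp Y).2.1]
    simp
  have h4 := radical hg hX h2 _ ht
  rw [← h1, h4, sub_self]

end Pool.Agent.Lib.MP_021685_agO
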