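import Pool.Agent.Lib.MP_021685_agO.Ctx

/-!
# Block C: Jordan pairs of endomorphisms: partners
-/

set_option autoImplicit false

namespace Pool.Agent.Lib.MP_021685_agO

open Module

variable {k H : Type*} [Field k] [CharZero k] [AddCommGroup H] [Module k H] [FiniteDimensional k H]
  {J J' : Submodule k (End k H)}

/-- Linearisation. PROOF. `tri` for `x + z`, `x`, `z`. -/
theorem JPair.tri_add (hJ : JPair J J') {x z y : End k H} (hx : x ∈ J) (hz : z ∈ J) (hy : y ∈ J') :
    x * y * z + z * y * x ∈ J := by
  have h1 := hJ.tri (x + z) (J.add_mem hx hz) y hy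
  have h2 := hJ.tri x hx y hy
  have h3 := hJ.tri z hz y hy
  have h4 : x * y * z + z * y * x = (x + z) * y * (x + z) - x * y * x - z * y * z := by noncomm_ring
  rw [h4]
  exact J.sub_mem (J.sub_mem h1 h2) h3

/-- Linearisation. PROOF. `tri'` for `y + w`, `y`, `w`. -/
theorem JPair.tri'_add (hJ : JPair J J') {x y w : End k H} (hx : x ∈ J) (hy : y ∈ J') (hw : w ∈ J') :
    y * x * w + w * x * y ∈ J' := by
  have h1 := hJ.tri' x hx (y + w) (J'.add_mem hy hw)
  have h2 := hJ.tri' x hx y hy
  have h3 := hJ.tri' x hx w hw
  have h4 : y * x * w + w * x * y = (y + w) * x * (y + w) - y * x * y - w * x * w := by noncomm_ring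
  rw [h4]
  exact J'.sub_mem (J'.sub_mem h1 h2) h3

/-- Powers. PROOF. By induction on `n`, both statements together:
`P n : ∀ x ∈ J, ∀ y ∈ J', (x * y) ^ n * x ∈ J` and `P' n : ∀ x ∈ J, ∀ y ∈ J', (y * x) ^ n * y ∈ J'`:
`P 0`, `P' 0` are trivial and `(x * y) ^ (n + 1) * x = x * ((y * x) ^ n * y) * x`, so `P' n → P (n + 1)` by `tri`, and
`(y * x) ^ (n + 1) * y = y * ((x * y) ^ n * x) * y`, so `P n → P' (n + 1)` by `tri'`. -/
theorem JPair.pow (hJ : JPair J J') (n : ℕ) {x y : End k H} (hx : x ∈ J) (hy : y ∈ J') :
    (x * y) ^ n * x ∈ J ∧ (y * x) ^ n * y ∈ J' := by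
  induction n with
  | zero => simpa using ⟨hx, hy⟩
  | succ n ih =>
    have e1 : (x * y) ^ (n + 1) * x = x * ((y * x) ^ n * y) * x := by
      rw [pow_succ']
      have h0 : ∀ m : ℕ, y * (x * y) ^ m = (y * x) ^ m * y := fun m => by
        induction m with
        | zero => simp
        | succ m hm => rw [pow_succ, ← mul_assoc, hm, pow_succ]; simp only [mul_assoc]
      rw [mul_assoc x y, h0]
    have e2 : (y * x) ^ (n + 1) * y = y * ((x * y) ^ n * x) * y := by
      rw [pow_succ']
      have h0 : ∀ m : ℕ, x * (y * x) ^ m = (x * y) ^ m * x := fun m => by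
        induction m with
        | zero => simp
        | succ m hm => rw [pow_succ, ← mul_assoc, hm, pow_succ]; simp only [mul_assoc]
      rw [mul_assoc y x, h0]
    rw [e1, e2]
    exact ⟨hJ.tri x hx _ ih.2, hJ.tri' _ ih.1 y hy⟩

/-- Every `x ∈ J` has a partner.
PROOF. (1) There is `y ∈ J'` with `x y x = x`. Let `I = {x y x | y ∈ J'}` (the image of the linear map
`y ↦ x y x` restricted to `J'`), a subspace of `J`. Suppose `x ∉ I`. There is a linear functional `φ` on
`End k H` which vanishes on `I` with `φ x ≠ 0` (`Submodule.exists_le_ker_of_notMem` or `exists_dual_map_eq_bot...`).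
The restriction of `φ` to `J` is `z ↦ trace (z w)` for some `w ∈ J'`: the linear map
`J' → Dual k J`, `w ↦ (z ↦ trace (z w))` is injective by `nd'` and `w ↦ ` in the other direction
`J → Dual k J'` is injective by `nd`, so `finrank J' ≤ finrank J ≤ finrank J'` and both are bijective
(finite dimensional). Then for all `y ∈ J'`: `0 = φ (x y x) = trace (x y x w) = trace ((x w x) y)`, so
`x w x = 0` by `nd` (`x w x ∈ J` by `tri`). So `(x w) ^ 2 = 0`, `x w` is nilpotent and
`φ x = trace (x w) = 0` (`LinearMap.isNilpotent_trace_of_isNilpotent`), a contradiction.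
(2) Replace `y` by `y x y ∈ J'`: `x (y x y) x = x y x = x`, `(y x y) x (y x y) = y x y`. -/
theorem JPair.partner (hJ : JPair J J') {x : End k H} (hx : x ∈ J) :
    ∃ y ∈ J', x * y * x = x ∧ y * x * y = y := by
  have key : ∃ y ∈ J', x * y * x = x := by
    let L : J' →ₗ[k] End k H :=
      { toFun := fun y => x * y * x
        map_add' := fun a b => by simp [mul_add, add_mul]
        map_smul' := fun a b => by simp }
    by_contra hcon
    have hnot : x ∉ LinearMap.range L := by
      rintro ⟨y, hy⟩
      exact hcon ⟨y, y.2, hy⟩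
    obtain ⟨φ, hφ, hφ2⟩ := Submodule.exists_dual_map_eq_bot_of_notMem hnot inferInstance
    let T : J' →ₗ[k] Dual k J :=
      { toFun := fun w =>
          { toFun := fun z => LinearMap.trace k H (z * w)
            map_add' := fun a b => by simp [add_mul]
            map_smul' := fun a b => by simp }
        map_add' := fun a b => by
          ext z
          simp [mul_add]
        map_smul' := fun a b => by
          ext z
          simp }
    let T' : J →ₗ[k] Dual k J' :=
      { toFun := fun z =>
          { toFun := fun w => LinearMap.trace k H (z * w)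
            map_add' := fun a b => by simp [mul_add]
            map_smul' := fun a b => by simp }
        map_add' := fun a b => by
          ext z
          simp [add_mul]
        map_smul' := fun a b => by
          ext z
          simp }
    have hT : Function.Injective T := by
      rw [injective_iff_map_eq_zero]
      intro w hw
      have := hJ.nd' w w.2 fun z hz => LinearMap.congr_fun hw ⟨z, hz⟩
      exact Subtype.ext this
    have hT' : Function.Injective T' := by
      rw [injective_iff_map_eq_zero]
      intro z hz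
      have := hJ.nd z z.2 fun w hw => LinearMap.congr_fun hz ⟨w, hw⟩
      exact Subtype.ext this
    have h1 := LinearMap.finrank_le_finrank_of_injective hT
    have h2 := LinearMap.finrank_le_finrank_of_injective hT'
    rw [Subspace.dual_finrank_eq] at h1 h2
    have hsurj : Function.Surjective T :=
      (LinearMap.injective_iff_surjective_of_finrank_eq_finrank
        (by rw [Subspace.dual_finrank_eq]; exact le_antisymm h1 h2)).1 hT
    obtain ⟨w, hw⟩ := hsurj (φ.comp J.subtype)
    have hw' : ∀ z : J, LinearMap.trace k H (z * w) = φ z := fun z => LinearMap.congr_fun hw z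
    have hz : x * w * x = 0 := by
      refine hJ.nd _ (hJ.tri x hx w w.2) fun y hy => ?_
      have h3 : φ (x * y * x) = 0 := by
        have h4 : φ (x * y * x) ∈ (LinearMap.range L).map φ :=
          Submodule.mem_map_of_mem ⟨⟨y, hy⟩, rfl⟩
        rw [hφ2] at h4
        exact (Submodule.mem_bot k).1 h4
      have h5 := hw' ⟨x * y * x, hJ.tri x hx y hy⟩
      rw [h3] at h5
      rw [← h5]
      change LinearMap.trace k H (x * w * x * y) = LinearMap.trace k H (x * y * x * w)
      rw [mul_assoc (x * (w : End k H)) x y, LinearMap.trace_mul_comm]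
      congr 1
    have hnil : IsNilpotent (x * (w : End k H)) := ⟨2, by
      rw [pow_two, ← mul_assoc, hz, zero_mul]⟩
    have h6 := (LinearMap.isNilpotent_trace_of_isNilpotent hnil).eq_zero
    have h7 := hw' ⟨x, hx⟩
    exact hφ (h7.symm.trans h6)
  obtain ⟨y, hy, hxy⟩ := key
  refine ⟨y * x * y, hJ.tri' x hx y hy, ?_, ?_⟩
  · have : x * (y * x * y) * x = (x * y * x) * y * x := by noncomm_ring
    rw [this, hxy, hxy]
  · have : y * x * y * x * (y * x * y) = y * (x * y * x) * y * x * y := by noncomm_ring
    rw [this, hxy]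
    have : y * x * y * x * y = y * (x * y * x) * y := by noncomm_ring
    rw [this, hxy]

/-- The same for `J'`. PROOF. By symmetry (`JPair J' J` with the traces commuted: `LinearMap.trace_mul_comm`). -/
theorem JPair.partner' (hJ : JPair J J') {y : End k H} (hy : y ∈ J') :
    ∃ x ∈ J, x * y * x = x ∧ y * x * y = y := by
  have hJ' : JPair J' J :=
    { tri := fun a ha b hb => hJ.tri' b hb a ha
      tri' := fun a ha b hb => hJ.tri b hb a ha
      nd := fun a ha h => hJ.nd' a ha fun b hb => by
        rw [LinearMap.trace_mul_comm]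
        exact h b hb
      nd' := fun a ha h => hJ.nd a ha fun b hb => by
        rw [LinearMap.trace_mul_comm]
        exact h b hb }
  obtain ⟨x, hx, h1, h2⟩ := hJ'.partner hy
  exact ⟨x, hx, h2, h1⟩

/-- Partners have the same rank on stable subspaces.
PROOF. `y` maps `W.map x` into `W.map y` (`y x u`, `x u ∈ W`) and is injective there (`x y (x u) = x u`), so
`finrank (W.map x) ≤ finrank (W.map y)`; symmetric. -/
theorem rank_partner {W : Submodule k H} {x y : End k H} (h1 : x * y * x = x) (h2 : y * x * y = y)
    (hx : ∀ u ∈ W, x u ∈ W) (hy : ∀ u ∈ W, y u ∈ W) :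
    finrank k (W.map x) = finrank k (W.map y) := by
  have key : ∀ x y : End k H, x * y * x = x → (∀ u ∈ W, x u ∈ W) →
      finrank k (W.map x) ≤ finrank k (W.map y) := by
    intro x y hxy hx
    have hm : ∀ v ∈ W.map x, y v ∈ W.map y := by
      rintro v ⟨u, hu, rfl⟩
      exact Submodule.mem_map_of_mem (hx u hu)
    refine LinearMap.finrank_le_finrank_of_injective (f := y.restrict hm) ?_
    rintro ⟨_, u, hu, rfl⟩ ⟨_, u', hu', rfl⟩ h
    have h3 : y (x u) = y (x u') := congrArg Subtype.val h
    have h4 : ∀ a, x (y (x a)) = x a := fun a => LinearMap.congr_fun hxy a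
    refine Subtype.ext ?_
    change x u = x u'
    rw [← h4 u, h3, h4]
  exact le_antisymm (key x y h1 hx) (key y x h2 hy)

end Pool.Agent.Lib.MP_021685_agO
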