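import Pool.Agent.Lib.MP_021685_agO.OW

/-!
# OW2: Hodge elements in odd relative position give homogeneous elements of odd rank
-/

set_option autoImplicit false

open Module

namespace Pool.Agent.Lib.MP_021685_agO

variable {k H : Type*} [Field k] [CharZero k] [AddCommGroup H] [Module k H]
  {g : Submodule k (End k H)} {c : End k H → k}

section similitude

variable {W : Submodule k H} {β : H →ₗ[k] H →ₗ[k] k}

omit [CharZero k] in
/-- `t ^ e` is a similitude with the factor `t` -/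
theorem w_similitude [NeZero (2 : k)] (hW : IsStable g W) (hs : IsSympl g c W β) {e : End k H} (he : IsHodgeElt g c e) (t : k) {a b : H}
    (ha : a ∈ W) (hb : b ∈ W) : β ((t • e + (1 - e)) a) ((t • e + (1 - e)) b) = t * β a b := by
  obtain ⟨heg, hee, hce⟩ := he
  have hea := hW e heg a ha
  have heb := hW e heg b hb
  have hee' : ∀ v, e (e v) = e v := fun v => by rw [← Module.End.mul_apply, hee]
  have h1 : β (e a) (e b) = 0 := by
    have h2 := hs.mult e heg (e a) hea (e b) heb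
    rw [hee', hee', hce, one_mul] at h2
    linear_combination h2
  have h2 : β (e a) b + β a (e b) = β a b := by
    have h3 := hs.mult e heg a ha b hb
    rwa [hce, one_mul] at h3
  simp only [LinearMap.add_apply, LinearMap.smul_apply, LinearMap.sub_apply, Module.End.one_apply, map_add, map_sub,
    map_smul, smul_eq_mul]
  linear_combination (t * t - t - t + 1) * h1 + (t - 1) * h2

/-- the multiplier of a conjugate -/
theorem w_mult_conj (hlie : ∀ X ∈ g, ∀ Y ∈ g, X * Y - Y * X ∈ g) (hW : IsStable g W) (hs : IsSympl g c W β) {h f : End k H} (hg : h ∈ g)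
    (hWne : W ≠ ⊥) (hf : InnerConj g c h f) : f ∈ g ∧ c f = c h := by
  obtain ⟨u₀, hu₀, hu₀n⟩ := (Submodule.ne_bot_iff _).mp hWne
  have hv₀ : ∃ v₀ ∈ W, β u₀ v₀ ≠ 0 := by
    by_contra hcon
    push Not at hcon
    exact hu₀n (hs.nondeg u₀ hu₀ hcon)
  obtain ⟨v₀, hv₀, hne⟩ := hv₀
  induction hf with
  | refl => exact ⟨hg, rfl⟩
  | @step f e t _ he ht ih =>
    obtain ⟨hf, hcf⟩ := ih
    have hmem : (t • e + (1 - e)) * f * (t⁻¹ • e + (1 - e)) ∈ g := by
      have h1 := g.smul_mem t⁻¹ (v_conj_mem hlie he.1 he.2.1 hf t)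
      have e2 : e + t • (1 - e) = t • (t⁻¹ • e + (1 - e)) := by
        rw [smul_add, smul_smul, mul_inv_cancel₀ ht, one_smul]
      rw [e2, mul_smul_comm, smul_smul, inv_mul_cancel₀ ht, one_smul] at h1
      exact h1
    refine ⟨hmem, ?_⟩
    -- evaluate on `u = t^e u₀`, `v = t^e v₀`
    have hte : ∀ a ∈ W, (t • e + (1 - e)) a ∈ W := by
      intro a ha
      have hea := hW e he.1 a ha
      rw [LinearMap.add_apply, LinearMap.smul_apply, LinearMap.sub_apply, Module.End.one_apply]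
      exact W.add_mem (W.smul_mem _ hea) (W.sub_mem ha hea)
    have hinv : ∀ a, (t⁻¹ • e + (1 - e)) ((t • e + (1 - e)) a) = a := by
      intro a
      have hee' : ∀ v, e (e v) = e v := fun v => by rw [← Module.End.mul_apply, he.2.1]
      simp only [LinearMap.add_apply, LinearMap.smul_apply, LinearMap.sub_apply, Module.End.one_apply, map_add,
        map_sub, map_smul, hee', sub_self, add_zero, smul_smul, mul_inv_cancel₀ ht, one_smul]
      abel
    have h1 := hs.mult _ hmem _ (hte u₀ hu₀) _ (hte v₀ hv₀)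
    have e1 : ∀ a, ((t • e + (1 - e)) * f * (t⁻¹ • e + (1 - e))) ((t • e + (1 - e)) a) = (t • e + (1 - e)) (f a) := by
      intro a
      rw [Module.End.mul_apply, Module.End.mul_apply, hinv]
    rw [e1, e1, w_similitude hW hs he t (hW f hf u₀ hu₀) hv₀, w_similitude hW hs he t hu₀ (hW f hf v₀ hv₀),
      w_similitude hW hs he t hu₀ hv₀] at h1
    have h2 := hs.mult f hf u₀ hu₀ v₀ hv₀
    rw [← hcf]
    have h3 : t * β u₀ v₀ ≠ 0 := mul_ne_zero ht hne
    apply mul_right_cancel₀ h3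
    rw [← h1, ← mul_add, h2]
    ring

end similitude

variable [FiniteDimensional k H]

theorem OddSimple3.oddSimple (hlie : ∀ X ∈ g, ∀ Y ∈ g, X * Y - Y * X ∈ g) {W : Submodule k H}
    (hW : OddSimple3 g c W) : OddSimple g c W := by
  obtain ⟨h1, ⟨β, hβ⟩, _, ⟨h, h', hh, hh', hconj, rfl⟩, h3⟩ := hW
  have : Infinite k := Infinite.of_injective (Nat.cast : ℕ → k) Nat.cast_injective
  obtain ⟨h₀, h₀g, N, hN, h₀₀, hin, c1, c2, c3⟩ :=
    exists_pair_N_rank hlie hh.1 hh.2.1 hh'.1 hh'.2.1 (InnerConj.of_conjIn hconj)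
  refine ⟨h1, ⟨β, hβ⟩, N, ⟨hN, h₀, ⟨h₀g, h₀₀, ?_⟩, Or.inr ?_⟩, ?_⟩
  · rw [(w_mult_conj hlie h1.2.1 hβ hh.1 h1.1 hin).2]
    exact hh.2.2
  · rw [c1, c2, zero_sub]
  · rw [c3 W h1.2.1]
    exact h3

theorem OddDiv3.oddDiv (hlie : ∀ X ∈ g, ∀ Y ∈ g, X * Y - Y * X ∈ g) {V : Submodule k H}
    (hV : OddDiv3 g c V) : OddDiv g c V := by
  obtain ⟨hst, β, _, E, r, b, hβ, ⟨h, h', hh, hh', hconj, rfl⟩, h1, h2, h3, h4, h5, h6, h7, h8⟩ := hV
  have : Infinite k := Infinite.of_injective (Nat.cast : ℕ → k) Nat.cast_injective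
  obtain ⟨h₀, h₀g, N, hN, s, hs, h₀₀, hin, c1, c2, c3, c4, c5, c6⟩ :=
    exists_pair_N hlie hh.1 hh.2.1 hh'.1 hh'.2.1 (InnerConj.of_conjIn hconj)
  -- `V ≠ 0`
  have hVne : V ≠ ⊥ := by
    obtain ⟨m, hm⟩ := h5
    have hr : 0 < r := by omega
    intro h0
    have h9 := h6.ne_zero ⟨0, hr⟩
    apply h9
    have h10 : ∀ v ∈ V, v = 0 := (Submodule.eq_bot_iff V).mp h0
    exact Subtype.ext (h10 _ (b ⟨0, hr⟩).2)
  -- `N` and `1 - h'` as endomorphisms of `V`
  let N' : End k V := N.restrict (hst N hN)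
  have hN' : ∀ u : V, ((N' u : V) : H) = N u := fun u => rfl
  let q' : End k V := (1 - h').restrict (fun u hu => by
    rw [LinearMap.sub_apply, Module.End.one_apply]
    exact V.sub_mem hu (hst h' hh'.1 u hu))
  have hq' : ∀ u : V, ((q' u : V) : H) = (1 - h') u := fun u => rfl
  have hinj : ∀ v : V, q' (N' v) = 0 → N' v = 0 := by
    intro v hv
    apply Subtype.ext
    exact c6 v (congrArg Subtype.val hv)
  -- the elements of `E` commute with `N'` and `q'`
  have hcN : ∀ a ∈ E, ∀ v : V, a (N' v) = N' (a v) := fun a ha v => Subtype.ext (h2 a ha N hN v (N' v) rfl)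
  have hcq : ∀ a ∈ E, ∀ v : V, a (q' v) = q' (a v) := by
    intro a ha v
    have e1 : q' v = v - (h'.restrict (hst h' hh'.1)) v := rfl
    have e2 : q' (a v) = a v - (h'.restrict (hst h' hh'.1)) (a v) := rfl
    rw [e1, e2, map_sub]
    congr 1
    exact Subtype.ext (h2 a ha h' hh'.1 v _ rfl)
  -- the new basis
  have hu : ∀ i, ∃ u : V, q' (N' u) = b i := by
    intro i
    obtain ⟨u, hu, hub⟩ := (h7 (b i)).mp (Submodule.subset_span ⟨i, rfl⟩)
    refine ⟨⟨h u, hst h hh.1 u hu⟩, Subtype.ext ?_⟩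
    rw [hq', hN', ← hub, ← c5]
    rfl
  choose u hu using hu
  refine ⟨hst, β, N, E, r, fun i => N' (u i), hβ, ⟨hN, h₀, ⟨h₀g, h₀₀, ?_⟩, Or.inr ?_⟩, h1, h2, h3, h4, h5, ?_, ?_, ?_⟩
  · rw [(w_mult_conj hlie hst hβ hh.1 hVne hin).2]
    exact hh.2.2
  · rw [c1, c2, zero_sub]
  · refine LinearIndependent.of_comp q' ?_
    have e1 : (q' ∘ fun i => N' (u i)) = b := funext hu
    rw [e1]
    exact h6
  · intro v
    constructor
    · intro hv
      have e1 : Submodule.span k (Set.range fun i => N' (u i)) ≤ LinearMap.range N' :=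
        Submodule.span_le.mpr (by rintro _ ⟨i, rfl⟩; exact ⟨u i, rfl⟩)
      obtain ⟨w, hw⟩ := e1 hv
      exact ⟨w, w.2, by rw [← hw]; rfl⟩
    · rintro ⟨w, hw, hwv⟩
      have e1 : v = N' ⟨w, hw⟩ := Subtype.ext hwv.symm
      have e2 : q' v ∈ Submodule.span k (Set.range b) := by
        refine (h7 _).mpr ⟨s w, hst s hs w hw, ?_⟩
        rw [← c5, hq', ← hwv]
        change (1 - h') (N (h (s w))) = (1 - h') (N w)
        rw [← Module.End.mul_apply h s, c3, ← Module.End.mul_apply N s, c4]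
      have e3 : Submodule.span k (Set.range b) = (Submodule.span k (Set.range fun i => N' (u i))).map q' := by
        rw [Submodule.map_span, ← Set.range_comp]
        congr 2
        exact (funext hu).symm
      rw [e3] at e2
      obtain ⟨x, hx, hxv⟩ := e2
      have e4 : x ∈ LinearMap.range N' := by
        have e5 : Submodule.span k (Set.range fun i => N' (u i)) ≤ LinearMap.range N' :=
          Submodule.span_le.mpr (by rintro _ ⟨i, rfl⟩; exact ⟨u i, rfl⟩)
        exact e5 hx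
      obtain ⟨y, hy⟩ := e4
      have e6 : N' (⟨w, hw⟩ - y) = 0 := by
        apply hinj
        rw [map_sub, ← e1, hy, map_sub, hxv, sub_self]
      rw [map_sub, ← e1, hy, sub_eq_zero] at e6
      rw [e6]
      exact hx
  · intro a ha i
    obtain ⟨q, hq⟩ := h8 a ha i
    refine ⟨q, ?_⟩
    have e1 : ∑ j, (q j : k) • N' (u j) = N' (∑ j, (q j : k) • u j) := by
      rw [map_sum]
      exact Finset.sum_congr rfl fun j _ => (map_smul N' _ _).symm
    have e2 : N' (a (u i) - ∑ j, (q j : k) • u j) = 0 := by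
      apply hinj
      rw [map_sub, map_sub, ← hcN a ha, ← hcq a ha, hu, hq, ← e1, map_sum, sub_eq_zero]
      refine Finset.sum_congr rfl fun j _ => ?_
      rw [map_smul, hu]
    rw [map_sub, sub_eq_zero] at e2
    rw [hcN a ha, e2, e1]

/-- the subspaces which are odd in the general sense are odd -/
theorem odd_of_odd3 (hlie : ∀ X ∈ g, ∀ Y ∈ g, X * Y - Y * X ∈ g) {V : Submodule k H}
    (hV : OddSimple3 g c V ∨ OddDiv3 g c V) : OddSimple g c V ∨ OddDiv g c V :=
  hV.imp (OddSimple3.oddSimple hlie) (OddDiv3.oddDiv hlie)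

end Pool.Agent.Lib.MP_021685_agO
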