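import Pool.Agent.Lib.MP_021685_agO.OI

/-!
# Block J: the ideal `K` generated by the elements of degree `-1` and `1`
-/

set_option autoImplicit false

namespace Pool.Agent.Lib.MP_021685_agO

open Module

variable {k H : Type*} [Field k] [CharZero k] [AddCommGroup H] [Module k H] [FiniteDimensional k H]
  {g : Submodule k (End k H)} {c : End k H → k} {W : Submodule k H} {β : H →ₗ[k] H →ₗ[k] k}

theorem gm_le_KK (h : End k H) : gm g h ≤ KK g h := le_sup_left.trans le_sup_left

theorem gp_le_KK (h : End k H) : gp g h ≤ KK g h := le_sup_right.trans le_sup_left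

theorem br_mem_KK {h x y : End k H} (hx : x ∈ gm g h) (hy : y ∈ gp g h) :
    x * y - y * x ∈ KK g h :=
  le_sup_right (a := gm g h ⊔ gp g h) (Submodule.subset_span ⟨x, hx, y, hy, rfl⟩)

theorem KK_le (hlie : ∀ X ∈ g, ∀ Y ∈ g, X * Y - Y * X ∈ g) (h : End k H) : KK g h ≤ g := by
  refine sup_le (sup_le (fun X hX => hX.1) (fun X hX => hX.1)) (Submodule.span_le.2 ?_)
  rintro Z ⟨x, hx, y, hy, rfl⟩
  exact hlie x hx.1 y hy.1

private theorem KK_stable {h X : End k H} (h1 : ∀ x ∈ gm g h, X * x - x * X ∈ KK g h)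
    (h2 : ∀ y ∈ gp g h, X * y - y * X ∈ KK g h)
    (h3 : ∀ x ∈ gm g h, ∀ y ∈ gp g h,
      X * (x * y - y * x) - (x * y - y * x) * X ∈ KK g h) {Y : End k H} (hY : Y ∈ KK g h) :
    X * Y - Y * X ∈ KK g h := by
  have hle : KK g h ≤ (KK g h).comap (LinearMap.mulLeft k X - LinearMap.mulRight k X) := by
    refine sup_le (sup_le ?_ ?_) (Submodule.span_le.2 ?_)
    · intro x hx
      exact h1 x hx
    · intro y hy
      exact h2 y hy
    · rintro Z ⟨x, hx, y, hy, rfl⟩
      exact h3 x hx y hy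
  exact hle hY

private theorem br_comm {h x y : End k H} (hx : x ∈ gm g h) (hy : y ∈ gp g h) :
    h * (x * y - y * x) = (x * y - y * x) * h := by
  have e1 : h * (x * y) = 0 := by rw [← mul_assoc, hx.2.2, zero_mul]
  have e2 : h * (y * x) = y * x := by rw [← mul_assoc, hy.2.1]
  have e3 : (x * y) * h = 0 := by rw [mul_assoc, hy.2.2, mul_zero]
  have e4 : (y * x) * h = y * x := by rw [mul_assoc, hx.2.1]
  rw [mul_sub, sub_mul, e1, e2, e3, e4]

private theorem gm_gm {h x y : End k H} (hx : x ∈ gm g h) (hy : y ∈ gm g h) : x * y = 0 := by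
  rw [← hx.2.1, mul_assoc, hy.2.2, mul_zero]

private theorem gp_gp {h x y : End k H} (hx : x ∈ gp g h) (hy : y ∈ gp g h) : x * y = 0 := by
  rw [← hy.2.1, ← mul_assoc, hx.2.2, zero_mul]

private theorem zero_gm (hlie : ∀ X ∈ g, ∀ Y ∈ g, X * Y - Y * X ∈ g) {h X x : End k H}
    (hX : X ∈ g) (hc : h * X = X * h) (hx : x ∈ gm g h) : X * x - x * X ∈ gm g h := by
  refine ⟨hlie X hX x hx.1, ?_, ?_⟩
  · rw [sub_mul, mul_assoc, hx.2.1, mul_assoc, ← hc, ← mul_assoc, hx.2.1]
  · rw [mul_sub, ← mul_assoc, hc, mul_assoc, hx.2.2, mul_zero, ← mul_assoc, hx.2.2, zero_mul,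
      sub_zero]

private theorem zero_gp (hlie : ∀ X ∈ g, ∀ Y ∈ g, X * Y - Y * X ∈ g) {h X y : End k H}
    (hX : X ∈ g) (hc : h * X = X * h) (hy : y ∈ gp g h) : X * y - y * X ∈ gp g h := by
  refine ⟨hlie X hX y hy.1, ?_, ?_⟩
  · rw [mul_sub, ← mul_assoc, hc, mul_assoc, hy.2.1, ← mul_assoc, hy.2.1]
  · rw [sub_mul, mul_assoc, hy.2.2, mul_zero, mul_assoc, ← hc, ← mul_assoc, hy.2.2, zero_mul,
      sub_zero]

private theorem KK_gp (hlie : ∀ X ∈ g, ∀ Y ∈ g, X * Y - Y * X ∈ g) {h X Y : End k H}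
    (hX : X ∈ gp g h) (hY : Y ∈ KK g h) : X * Y - Y * X ∈ KK g h := by
  refine KK_stable ?_ ?_ ?_ hY
  · intro x hx
    have := (KK g h).neg_mem (br_mem_KK hx hX)
    rwa [neg_sub] at this
  · intro y hy
    rw [gp_gp hX hy, gp_gp hy hX, sub_zero]
    exact (KK g h).zero_mem
  · intro x hx y hy
    have h1 := zero_gp hlie (hlie x hx.1 y hy.1) (br_comm hx hy) hX
    have h2 := (KK g h).neg_mem (gp_le_KK h h1)
    rwa [neg_sub] at h2

private theorem KK_gm (hlie : ∀ X ∈ g, ∀ Y ∈ g, X * Y - Y * X ∈ g) {h X Y : End k H}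
    (hX : X ∈ gm g h) (hY : Y ∈ KK g h) : X * Y - Y * X ∈ KK g h := by
  refine KK_stable ?_ ?_ ?_ hY
  · intro x hx
    rw [gm_gm hX hx, gm_gm hx hX, sub_zero]
    exact (KK g h).zero_mem
  · intro y hy
    exact br_mem_KK hX hy
  · intro x hx y hy
    have h1 := zero_gm hlie (hlie x hx.1 y hy.1) (br_comm hx hy) hX
    have h2 := (KK g h).neg_mem (gm_le_KK h h1)
    rwa [neg_sub] at h2

private theorem KK_zero (hlie : ∀ X ∈ g, ∀ Y ∈ g, X * Y - Y * X ∈ g) {h X Y : End k H}
    (hX : X ∈ g) (hc : h * X = X * h) (hY : Y ∈ KK g h) : X * Y - Y * X ∈ KK g h := by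
  refine KK_stable ?_ ?_ ?_ hY
  · intro x hx
    exact gm_le_KK h (zero_gm hlie hX hc hx)
  · intro y hy
    exact gp_le_KK h (zero_gp hlie hX hc hy)
  · intro x hx y hy
    have h1 := br_mem_KK (zero_gm hlie hX hc hx) hy
    have h2 := br_mem_KK hx (zero_gp hlie hX hc hy)
    have h3 := (KK g h).add_mem h1 h2
    have h4 : (X * x - x * X) * y - y * (X * x - x * X) + (x * (X * y - y * X) -
        (X * y - y * X) * x) = X * (x * y - y * x) - (x * y - y * x) * X := by
      noncomm_ring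
    rwa [h4] at h3

/-- `K` is an ideal of `g`.
PROOF. Let `X ∈ g`, `X = X₁ + X₋₁ + X₀` with `X₁ = h X (1-h) ∈ gp`, `X₋₁ = (1-h) X h ∈ gm`, `X₀ ∈ g` commuting with `h` (`hcomp`; the
three terms add up to `X`). For `x ∈ gm`: `[X₀, x] ∈ gm`, `[X₋₁, x] = 0` (`gm * gm = 0`), `[X₁, x] = -(x X₁ - X₁ x) ∈ K`. For `y ∈ gp`:
`[X₀, y] ∈ gp`, `[X₁, y] = 0`, `[X₋₁, y] ∈ K`. For `Z = x y - y x` (`x ∈ gm`, `y ∈ gp`; `Z ∈ g` commutes with `h`): `[X₀, Z] =
[[X₀, x], y] + [x, [X₀, y]] ∈ K`, `[X₋₁, Z] ∈ gm`, `[X₁, Z] ∈ gp`. Use `Submodule.sup_induction` / `span_induction` in `Y`. -/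
theorem KK_ideal (hlie : ∀ X ∈ g, ∀ Y ∈ g, X * Y - Y * X ∈ g) {h : End k H} (hh : h ∈ g)
    (h2 : h * h = h) {X Y : End k H} (hX : X ∈ g) (hY : Y ∈ KK g h) :
    X * Y - Y * X ∈ KK g h := by
  obtain ⟨h1, h3, h4⟩ := hcomp hlie hh h2 hX
  have hc : h * (h * X * h + (1 - h) * X * (1 - h)) =
      (h * X * h + (1 - h) * X * (1 - h)) * h := by
    have e1 : h * (1 - h) = 0 := by rw [mul_sub, mul_one, h2, sub_self]
    have e2 : (1 - h) * h = 0 := by rw [sub_mul, one_mul, h2, sub_self]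
    have e3 : h * (h * X * h) = h * X * h := by rw [← mul_assoc, ← mul_assoc, h2]
    have e4 : h * X * h * h = h * X * h := by rw [mul_assoc, h2]
    have e5 : h * ((1 - h) * X * (1 - h)) = 0 := by
      rw [← mul_assoc, ← mul_assoc, e1, zero_mul, zero_mul]
    have e6 : (1 - h) * X * (1 - h) * h = 0 := by
      rw [mul_assoc, e2, mul_zero]
    rw [mul_add, add_mul, e3, e4, e5, e6]
  have hs : X = h * X * (1 - h) + (1 - h) * X * h + (h * X * h + (1 - h) * X * (1 - h)) := by
    noncomm_ring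
  have k1 := KK_gp hlie h1 hY
  have k2 := KK_gm hlie h3 hY
  have k3 := KK_zero hlie h4 hc hY
  have k4 := (KK g h).add_mem ((KK g h).add_mem k1 k2) k3
  have k5 : X * Y - Y * X = (h * X * (1 - h) + (1 - h) * X * h +
      (h * X * h + (1 - h) * X * (1 - h))) * Y - Y * (h * X * (1 - h) + (1 - h) * X * h +
      (h * X * h + (1 - h) * X * (1 - h))) := by
    rw [← hs]
  rw [k5]
  have k6 : ∀ a b c : End k H, (a + b + c) * Y - Y * (a + b + c) =
      (a * Y - Y * a) + (b * Y - Y * b) + (c * Y - Y * c) := by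
    intro a b c
    noncomm_ring
  rw [k6]
  exact k4

/-- PROOF. `tau = e f - f e`. -/
theorem tau_mem_KK {h e f : End k H} (hp : Pair g h e f) : tau e f ∈ KK g h :=
  br_mem_KK hp.he hp.hf

/-- PROOF. `X = tau X - X tau = -(X tau - tau X)` and `tau ∈ K`. -/
theorem mem_KK_of_deg1 (hlie : ∀ X ∈ g, ∀ Y ∈ g, X * Y - Y * X ∈ g) {h e f : End k H}
    (hh : h ∈ g) (h2 : h * h = h) (hp : Pair g h e f) {X : End k H} (hX : X ∈ g)
    (h1 : tau e f * X - X * tau e f = X) : X ∈ KK g h := by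
  have h3 := (KK g h).neg_mem (KK_ideal hlie hh h2 hX (tau_mem_KK hp))
  rw [neg_sub, h1] at h3
  exact h3

/-- The elements of `K` are scalar on the image of `e`, in degree zero.
PROOF. Linear in `X`. `X ∈ gm`: `e f X e = e f X h e = 0` (`X = X h`, `h e = 0`). `X ∈ gp`: `e f X = e f h X = 0` (`X = h X`, `e f h = 0` as
`f h = 0`). `X = x y - y x`: `e f y = e f h y = 0`, so `e f X e = e f x y e = e f x (e f + f e + rr) y e`. `e f x e = 0` (above). `x` has the
component `c2 e f x = e f x f e = s e` (`Prim.g2`) and `f e y e f = d2 e f y = t f` (`Prim.g2'`), so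
`e f x (f e) y e = e f x (f e) (f e) y (e f) e = s e t f e = s t e`. `e f x rr y e`: `x₁ = c1 e f x ∈ J1`, `y₁ = d1 e f y ∈ J1'`
(`Pair.c1_mem_J1`, `Pair.d1_mem_J1'`); `x₁ y₁ e = (e f x rr + rr x f e) (rr y e f + f e y rr) e = e f x rr y e`
(`rr e = 0`, `(e f) e = e`, `f e rr = 0`): `Big.mul_scalar`. -/
theorem Big.comp_K [IsAlgClosed k] {h e f : End k H} (hB : Big g c W β h e f) {X : End k H}
    (hX : X ∈ KK g h) : ∃ s : k, e * f * X * e = s • e := by
  have hp := hB.pr.toPair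
  have hlie := hB.hg.lie
  obtain ⟨t1, t2, t3, t4, t5, t6, t7, t8, t9, t10, t11, t12, t13, t14, t15, t16⟩ := hp.tableE
  obtain ⟨u1, u2, u3, u4, u5, u6, u7, u8, u9, u10, u11, u12, u13, u14, u15⟩ := hp.table
  let S : Submodule k (End k H) :=
    { carrier := {X | ∃ s : k, e * f * X * e = s • e}
      add_mem' := by
        rintro a b ⟨s, hs⟩ ⟨t, ht⟩
        exact ⟨s + t, by rw [mul_add, add_mul, hs, ht, add_smul]⟩
      zero_mem' := ⟨0, by rw [mul_zero, zero_mul, zero_smul]⟩
      smul_mem' := by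
        rintro a b ⟨s, hs⟩
        exact ⟨a * s, by rw [mul_smul_comm, smul_mul_assoc, hs, smul_smul]⟩ }
  have hle : KK g h ≤ S := by
    refine sup_le (sup_le ?_ ?_) (Submodule.span_le.2 ?_)
    · intro x hx
      refine ⟨0, ?_⟩
      rw [← hx.2.1, ← mul_assoc, mul_assoc, hp.he.2.2, mul_zero, zero_smul]
    · intro y hy
      refine ⟨0, ?_⟩
      have : f * y = 0 := by rw [← hy.2.1, ← mul_assoc, hp.hf.2.2, zero_mul]
      rw [mul_assoc e f y, this, mul_zero, zero_mul, zero_smul]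
    · rintro Z ⟨x, hx, y, hy, rfl⟩
      have hfy : f * y = 0 := by rw [← hy.2.1, ← mul_assoc, hp.hf.2.2, zero_mul]
      obtain ⟨s, hs⟩ := Prim.g2 hB.hg hB.hh hB.pr hx.1
      obtain ⟨t, ht⟩ := Prim.g2' hB.hg hB.hh hB.pr hy.1
      obtain ⟨r, hr⟩ := hB.mul_scalar (hp.c1_mem_J1 hlie hx) (hp.d1_mem_J1' hlie hy)
      refine ⟨s * t + r, ?_⟩
      have a1 : e * f * (y * x) * e = 0 := by
        have : e * f * (y * x) = e * (f * y) * x := by simp only [mul_assoc]
        rw [this, hfy, mul_zero, zero_mul, zero_mul]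
      have a2 : e * f * (x * y) * e = e * f * x * (e * f) * y * e +
          e * f * x * (f * e) * y * e + e * f * x * rr e f * y * e := by
        have : (1 : End k H) = e * f + f * e + rr e f := by
          unfold rr
          abel
        calc e * f * (x * y) * e = e * f * x * 1 * y * e := by simp only [mul_assoc, one_mul]
          _ = e * f * x * (e * f + f * e + rr e f) * y * e := by rw [← this]
          _ = _ := by simp only [mul_add, add_mul]
      have a3 : e * f * x * (e * f) * y * e = 0 := by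
        have : e * f * x * (e * f) * y * e = e * f * x * e * (f * y) * e := by
          simp only [mul_assoc]
        rw [this, hfy, mul_zero, zero_mul]
      have a4 : e * f * x * (f * e) * y * e = (s * t) • e := by
        have b1 : e * f * x * (f * e) * y * e = c2 e f x * (d2 e f y * e) := by
          have b2 : e * f * x * (f * e) * y * e = e * f * x * (f * e * (f * e)) * y *
              (e * f * e) := by rw [u2, t2]
          rw [b2]
          unfold c2 d2
          simp only [mul_assoc]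
        rw [b1, hs, ht, smul_mul_assoc, smul_mul_assoc, mul_smul_comm, t1, smul_smul]
      have a5 : e * f * x * rr e f * y * e = r • e := by
        rw [← hr]
        have b1 : d1 e f y * e = rr e f * y * e := by
          unfold d1
          rw [add_mul, mul_assoc (rr e f * y) (e * f) e, t2, mul_assoc (f * e * y) (rr e f) e, t9,
            mul_zero, add_zero]
        rw [mul_assoc (c1 e f x), b1]
        unfold c1
        rw [add_mul]
        have b2 : e * f * x * rr e f * (rr e f * y * e) = e * f * x * (rr e f * rr e f) * y *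
            e := by simp only [mul_assoc]
        have b3 : rr e f * x * (f * e) * (rr e f * y * e) = rr e f * x * (f * e * rr e f) * y *
            e := by simp only [mul_assoc]
        rw [b2, b3, u5, u8, mul_zero, zero_mul, zero_mul, add_zero]
      rw [mul_sub, sub_mul, a1, sub_zero, a2, a3, zero_add, a4, a5, add_smul]
  exact hle hX

end Pool.Agent.Lib.MP_021685_agO
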