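import Pool.Agent.Lib.MP_021685_agO.OMain
import Pool.Agent.Lib.MP_021685_agO.OW2

/-!
# Hodge elements in odd relative position: the main theorem
-/

set_option autoImplicit false

namespace Pool.Agent.Lib.MP_021685_agO

open Module

variable {k H : Type*} [Field k] [CharZero k] [IsAlgClosed k] [AddCommGroup H] [Module k H]
  [FiniteDimensional k H] {g : Submodule k (End k H)} {c : End k H → k}

theorem main3 (hg : IsGaloisAlg g c) {H₀ H₁ : Submodule k H} (hc : IsCompl H₀ H₁)
    (h₀ : IsStable g H₀) (h₁ : IsStable g H₁)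
    (hHom : ∀ φ : End k H, (∀ X ∈ g, φ * X = X * φ) → ∀ u ∈ H₁, φ u ∈ H₁)
    (hodd : H₁ ≤ sSup {V | OddSimple3 g c V ∨ OddDiv3 g c V})
    (s : ℕ) (T : MultilinearMap k (fun _ : Fin s => H) k) (hT : IsTateForm g c s T) :
    IsGenOver g c H₁ s T :=
  main hg hc h₀ h₁ hHom (hodd.trans (sSup_le_sSup fun _ hV => odd_of_odd3 hg.lie hV)) s T hT

end Pool.Agent.Lib.MP_021685_agO
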