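import Pool.Agent.Lib.MP_021685_agO.Defs

/-!
# Odd toric rank: the working context
-/

set_option autoImplicit false

namespace Pool.Agent.Lib.MP_021685_agO

open Module

variable {k H : Type*} [Field k] [AddCommGroup H] [Module k H]

/-- The rank is odd or two. -/
def OddOrTwo (n : ℕ) : Prop := Odd n ∨ n = 2

/-- There is a `g`-equivariant endomorphism of `H` which maps `W` onto `U`. -/
def Iso (g : Submodule k (End k H)) (W U : Submodule k H) : Prop :=
  ∃ φ : End k H, (∀ X ∈ g, φ * X = X * φ) ∧ W.map φ = U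

/-- The elements of `g` of degree `-1` with respect to the idempotent `h`. -/
def gm (g : Submodule k (End k H)) (h : End k H) : Submodule k (End k H) where
  carrier := {X | X ∈ g ∧ X * h = X ∧ h * X = 0}
  add_mem' := by
    rintro X Y ⟨h1, h2, h3⟩ ⟨h4, h5, h6⟩
    exact ⟨g.add_mem h1 h4, by rw [add_mul, h2, h5], by rw [mul_add, h3, h6, add_zero]⟩
  zero_mem' := ⟨g.zero_mem, by rw [zero_mul], by rw [mul_zero]⟩
  smul_mem' := by
    rintro a X ⟨h1, h2, h3⟩
    exact ⟨g.smul_mem a h1, by rw [smul_mul_assoc, h2], by rw [mul_smul_comm, h3, smul_zero]⟩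

/-- The elements of `g` of degree `1` with respect to the idempotent `h`. -/
def gp (g : Submodule k (End k H)) (h : End k H) : Submodule k (End k H) where
  carrier := {X | X ∈ g ∧ h * X = X ∧ X * h = 0}
  add_mem' := by
    rintro X Y ⟨h1, h2, h3⟩ ⟨h4, h5, h6⟩
    exact ⟨g.add_mem h1 h4, by rw [mul_add, h2, h5], by rw [add_mul, h3, h6, add_zero]⟩
  zero_mem' := ⟨g.zero_mem, by rw [mul_zero], by rw [zero_mul]⟩
  smul_mem' := by
    rintro a X ⟨h1, h2, h3⟩
    exact ⟨g.smul_mem a h1, by rw [mul_smul_comm, h2], by rw [smul_mul_assoc, h3, smul_zero]⟩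

theorem mem_gm {g : Submodule k (End k H)} {h X : End k H} :
    X ∈ gm g h ↔ X ∈ g ∧ X * h = X ∧ h * X = 0 := Iff.rfl

theorem mem_gp {g : Submodule k (End k H)} {h X : End k H} :
    X ∈ gp g h ↔ X ∈ g ∧ h * X = X ∧ X * h = 0 := Iff.rfl

/-- An idempotent pair: `e` of degree `-1`, `f` of degree `1`, `e f e = e`, `f e f = f`. -/
structure Pair (g : Submodule k (End k H)) (h e f : End k H) : Prop where
  he : e ∈ gm g h
  hf : f ∈ gp g h
  efe : e * f * e = e
  fef : f * e * f = f

/-- A primitive idempotent pair. -/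
structure Prim (g : Submodule k (End k H)) (h e f : End k H) : Prop extends Pair g h e f where
  prim : ∀ y ∈ gp g h, ∃ s : k, e * y * e = s • e

/-- The semisimple element `[e, f]`. -/
def tau (e f : End k H) : End k H := e * f - f * e

/-- The third idempotent `R = 1 - e f - f e`. -/
def rr (e f : End k H) : End k H := 1 - e * f - f * e

/-- The component of degree `2` for `[e, f]`. -/
def c2 (e f X : End k H) : End k H := e * f * X * (f * e)

/-- The component of degree `1` for `[e, f]`. -/
def c1 (e f X : End k H) : End k H := e * f * X * rr e f + rr e f * X * (f * e)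

/-- The component of degree `0` for `[e, f]`. -/
def c0 (e f X : End k H) : End k H :=
  e * f * X * (e * f) + f * e * X * (f * e) + rr e f * X * rr e f

/-- The component of degree `-1` for `[e, f]`. -/
def d1 (e f X : End k H) : End k H := rr e f * X * (e * f) + f * e * X * rr e f

/-- The component of degree `-2` for `[e, f]`. -/
def d2 (e f X : End k H) : End k H := f * e * X * (e * f)

/-- The elements of `gm g h` of degree `1` for `[e, f]`. -/
def J1 (g : Submodule k (End k H)) (h e f : End k H) : Submodule k (End k H) where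
  carrier := {X | X ∈ gm g h ∧ tau e f * X - X * tau e f = X}
  add_mem' := by
    rintro X Y ⟨h1, h2⟩ ⟨h4, h5⟩
    refine ⟨(gm g h).add_mem h1 h4, ?_⟩
    rw [mul_add, add_mul, add_sub_add_comm, h2, h5]
  zero_mem' := ⟨(gm g h).zero_mem, by rw [mul_zero, zero_mul, sub_zero]⟩
  smul_mem' := by
    rintro a X ⟨h1, h2⟩
    refine ⟨(gm g h).smul_mem a h1, ?_⟩
    rw [mul_smul_comm, smul_mul_assoc, ← smul_sub, h2]

/-- The elements of `gp g h` of degree `-1` for `[e, f]`. -/
def J1' (g : Submodule k (End k H)) (h e f : End k H) : Submodule k (End k H) where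
  carrier := {X | X ∈ gp g h ∧ tau e f * X - X * tau e f = -X}
  add_mem' := by
    rintro X Y ⟨h1, h2⟩ ⟨h4, h5⟩
    refine ⟨(gp g h).add_mem h1 h4, ?_⟩
    rw [mul_add, add_mul, add_sub_add_comm, h2, h5, neg_add]
  zero_mem' := ⟨(gp g h).zero_mem, by rw [mul_zero, zero_mul, sub_zero, neg_zero]⟩
  smul_mem' := by
    rintro a X ⟨h1, h2⟩
    refine ⟨(gp g h).smul_mem a h1, ?_⟩
    rw [mul_smul_comm, smul_mul_assoc, ← smul_sub, h2, smul_neg]

theorem mem_J1 {g : Submodule k (End k H)} {h e f X : End k H} :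
    X ∈ J1 g h e f ↔ X ∈ gm g h ∧ tau e f * X - X * tau e f = X := Iff.rfl

theorem mem_J1' {g : Submodule k (End k H)} {h e f X : End k H} :
    X ∈ J1' g h e f ↔ X ∈ gp g h ∧ tau e f * X - X * tau e f = -X := Iff.rfl

/-- The ideal generated by the elements of degree `-1` and `1` with respect to `h`. -/
def KK (g : Submodule k (End k H)) (h : End k H) : Submodule k (End k H) :=
  gm g h ⊔ gp g h ⊔ Submodule.span k {Z | ∃ x ∈ gm g h, ∃ y ∈ gp g h, Z = x * y - y * x}

/-- A Jordan pair of endomorphisms. -/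
structure JPair (J J' : Submodule k (End k H)) : Prop where
  tri : ∀ x ∈ J, ∀ y ∈ J', x * y * x ∈ J
  tri' : ∀ x ∈ J, ∀ y ∈ J', y * x * y ∈ J'
  nd : ∀ x ∈ J, (∀ y ∈ J', LinearMap.trace k H (x * y) = 0) → x = 0
  nd' : ∀ y ∈ J', (∀ x ∈ J, LinearMap.trace k H (x * y) = 0) → y = 0

/-- The context of the main part of the proof: a simple subspace `W` with its symplectic form, an
idempotent `h` of multiplier `1` and a primitive idempotent pair `(e, f)` of odd rank on `W`. -/
structure Big (g : Submodule k (End k H)) (c : End k H → k) (W : Submodule k H)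
    (β : H →ₗ[k] H →ₗ[k] k) (h e f : End k H) : Prop where
  hg : IsGaloisAlg g c
  hW : IsSimpleSub g W
  hs : IsSympl g c W β
  hh : IsHodgeElt g c h
  pr : Prim g h e f
  odd : Odd (finrank k (W.map e))

/-- The conclusion of the main part: `g` contains all the elements of the symplectic Lie algebra of `W` of
rank at most two, acting by zero on the simple subspaces which are not isomorphic to `W`. -/
def Full (g : Submodule k (End k H)) (W : Submodule k H) (β : H →ₗ[k] H →ₗ[k] k) : Prop :=
  ∀ a ∈ W, ∀ b ∈ W, ∃ X ∈ g, (∀ u ∈ W, X u = β u a • b + β u b • a) ∧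
    ∀ U, IsSimpleSub g U → ¬ Iso g W U → ∀ u ∈ U, X u = 0

end Pool.Agent.Lib.MP_021685_agO
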