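import Mathlib

/-!
# Odd toric rank: the definitions used in the statement
-/

set_option autoImplicit false

namespace Pool.Agent.Lib.MP_021685_agO

open Module

variable {k H : Type*} [Field k] [AddCommGroup H] [Module k H]

/-- The subspace `U` of `H` is stable under the endomorphisms in `g`. -/
def IsStable (g : Submodule k (End k H)) (U : Submodule k H) : Prop :=
  ∀ X ∈ g, ∀ u ∈ U, X u ∈ U

/-- The subspace `W` of `H` is simple: it is non-zero, `g`-stable and has no `g`-stable subspaces other
than `0` and `W`. -/
def IsSimpleSub (g : Submodule k (End k H)) (W : Submodule k H) : Prop :=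
  W ≠ ⊥ ∧ IsStable g W ∧ ∀ U : Submodule k H, U ≤ W → IsStable g U → U = ⊥ ∨ U = W

/-- The element `h` of `g` is idempotent and its multiplier `c h` is `1`. (For the Lie algebra `g` of the
`p`-adic monodromy group of an abelian variety: the differentials of the weak Hodge cocharacters in the
sense of Pink are such elements.) -/
def IsHodgeElt (g : Submodule k (End k H)) (c : End k H → k) (h : End k H) : Prop :=
  h ∈ g ∧ h * h = h ∧ c h = 1

/-- `g` is a Lie algebra of endomorphisms of `H`, it acts semisimply on `H`, and it is spanned by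
idempotents of multiplier `1`. -/
structure IsGaloisAlg (g : Submodule k (End k H)) (c : End k H → k) : Prop where
  lie : ∀ X ∈ g, ∀ Y ∈ g, X * Y - Y * X ∈ g
  semisimple : ∀ U : Submodule k H, IsStable g U → ∃ U', IsStable g U' ∧ IsCompl U U'
  span : ∀ X ∈ g, X ∈ Submodule.span k {h | IsHodgeElt g c h}

/-- The bilinear form `β` is alternating and non-degenerate on the subspace `W`, and the elements `X` of
`g` have the multiplier `c X` for it. -/
structure IsSympl (g : Submodule k (End k H)) (c : End k H → k) (W : Submodule k H)
    (β : H →ₗ[k] H →ₗ[k] k) : Prop where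
  mult : ∀ X ∈ g, ∀ u ∈ W, ∀ v ∈ W, β (X u) v + β u (X v) = c X * β u v
  alt : ∀ u ∈ W, β u u = 0
  nondeg : ∀ u ∈ W, (∀ v ∈ W, β u v = 0) → u = 0

/-- The element `N` of `g` is homogeneous of degree `1` or `-1` with respect to some idempotent of
multiplier `1`. -/
def IsMonodromy (g : Submodule k (End k H)) (c : End k H → k) (N : End k H) : Prop :=
  N ∈ g ∧ ∃ h, IsHodgeElt g c h ∧ (h * N - N * h = N ∨ h * N - N * h = -N)

/-- The subspace `W` is simple, it has a symplectic form with multiplier `c`, and there is an element `N`
of `g`, homogeneous of degree `1` or `-1` with respect to an idempotent of multiplier `1`, whose rank on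
`W` is odd or two. -/
def OddSimple (g : Submodule k (End k H)) (c : End k H → k) (W : Submodule k H) : Prop :=
  IsSimpleSub g W ∧ (∃ β, IsSympl g c W β) ∧
    ∃ N, IsMonodromy g c N ∧ (Odd (finrank k (W.map N)) ∨ finrank k (W.map N) = 2)

/-- The endomorphism `a` of the subspace `V` commutes with the action of `g`. -/
def CommutesOn (g : Submodule k (End k H)) (V : Submodule k H) (a : End k V) : Prop :=
  ∀ X ∈ g, ∀ u v : V, (v : H) = X u → ((a v : V) : H) = X (a u)

/-- The subspace `V` is `g`-stable, it has a symplectic form `β` with multiplier `c`, and there are a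
ring `E` of endomorphisms of `V` and an element `N` of `g` such that:
* `E` is a division ring, it commutes with `g` and spans the commutant of `g` in `End V`, and it is stable
  under the adjunction of `β`;
* `N` is homogeneous of degree `1` or `-1` with respect to an idempotent of `g` of multiplier `1`;
* the image `N V` has odd dimension `r` and has a basis `b` such that the elements of `E` map each
  `b i` to a linear combination of the `b j` with rational coefficients. -/
def OddDiv [CharZero k] (g : Submodule k (End k H)) (c : End k H → k) (V : Submodule k H) : Prop :=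
  IsStable g V ∧ ∃ (β : H →ₗ[k] H →ₗ[k] k) (N : End k H) (E : Subring (End k V)) (r : ℕ)
    (b : Fin r → V),
    IsSympl g c V β ∧ IsMonodromy g c N ∧
    (∀ a ∈ E, a ≠ 0 → ∃ a' ∈ E, a * a' = 1) ∧
    (∀ a ∈ E, CommutesOn g V a) ∧
    (∀ φ : End k V, CommutesOn g V φ → φ ∈ Submodule.span k (E : Set (End k V))) ∧
    (∀ a ∈ E, ∃ a' ∈ E, ∀ u v : V, β (a u) v = β u (a' v)) ∧
    Odd r ∧ LinearIndependent k b ∧
    (∀ v : V, v ∈ Submodule.span k (Set.range b) ↔ ∃ u ∈ V, N u = v) ∧
    ∀ a ∈ E, ∀ i, ∃ q : Fin r → ℚ, a (b i) = ∑ j, (q j : k) • b j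

/-- The multilinear form `T` with `s` arguments on `H` is a Tate form: every element `X` of `g` acts on
it (as a derivation) as the multiplication by `s c(X) / 2`. -/
def IsTateForm (g : Submodule k (End k H)) (c : End k H → k) (s : ℕ)
    (T : MultilinearMap k (fun _ : Fin s => H) k) : Prop :=
  ∀ X ∈ g, ∀ v : Fin s → H,
    ∑ j, T (Function.update v j (X (v j))) = (s : k) / 2 * c X * T v

/-- The multilinear form `T` with `s` arguments on `H` is a linear combination of products
`β₁ ⋯ β_m Δ`, where the `β_r` are Tate forms with two arguments and `Δ` is a Tate form with `d`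
arguments which is zero as soon as one of its arguments is in `H₁`; the arguments are distributed by a
bijection `p`. -/
def IsGenOver (g : Submodule k (End k H)) (c : End k H → k) (H₁ : Submodule k H) (s : ℕ)
    (T : MultilinearMap k (fun _ : Fin s => H) k) : Prop :=
  T ∈ Submodule.span k {T' | ∃ (m d : ℕ) (p : (Fin m × Fin 2) ⊕ Fin d ≃ Fin s)
    (β : Fin m → MultilinearMap k (fun _ : Fin 2 => H) k)
    (Δ : MultilinearMap k (fun _ : Fin d => H) k),
    (∀ r, IsTateForm g c 2 (β r)) ∧ IsTateForm g c d Δ ∧
    (∀ v : Fin d → H, (∃ t, v t ∈ H₁) → Δ v = 0) ∧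
    ∀ v : Fin s → H, T' v = (∏ r, β r (fun ε => v (p (Sum.inl (r, ε))))) *
      Δ (fun t => v (p (Sum.inr t)))}

end Pool.Agent.Lib.MP_021685_agO
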