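import Pool.Agent.Lib.MP_021685_agO.Defs

/-!
# Hodge elements in odd relative position: the definitions used in the statement
-/

set_option autoImplicit false

namespace Pool.Agent.Lib.MP_021685_agO

open Module

variable {k H : Type*} [Field k] [AddCommGroup H] [Module k H]

/-- The endomorphisms `h` and `h'` are conjugate under the group generated by the elements
`t e + (1 - e)`, where `t` is a non-zero element of `k` and `e` is an idempotent of multiplier `1` in `g`.
(These elements generate the group of the `k`-points of the connected algebraic group with the Lie algebra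
`g`, as `g` is spanned by the elements `e`.) -/
def ConjIn (g : Submodule k (End k H)) (c : End k H → k) (h h' : End k H) : Prop :=
  ∃ u ∈ Subgroup.closure {u : (End k H)ˣ | ∃ (e : End k H) (t : k), IsHodgeElt g c e ∧ t ≠ 0 ∧
    (u : End k H) = t • e + (1 - e)}, (u : End k H) * h = h' * u

/-- `N = (1 - h') h` for two conjugate idempotents `h`, `h'` of multiplier `1` in `g`. (The rank of `N` on a
`g`-stable subspace `V` is the codimension of `h V ∩ h' V` in `h V`.) -/
def IsRelPos (g : Submodule k (End k H)) (c : End k H → k) (N : End k H) : Prop :=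
  ∃ h h', IsHodgeElt g c h ∧ IsHodgeElt g c h' ∧ ConjIn g c h h' ∧ N = (1 - h') * h

/-- The subspace `W` is simple, it has a symplectic form with multiplier `c`, and for two conjugate
idempotents `h`, `h'` of multiplier `1` in `g` the rank of `N = (1 - h') h` on `W` is odd or two. -/
def OddSimple3 (g : Submodule k (End k H)) (c : End k H → k) (W : Submodule k H) : Prop :=
  IsSimpleSub g W ∧ (∃ β, IsSympl g c W β) ∧
    ∃ N, IsRelPos g c N ∧ (Odd (finrank k (W.map N)) ∨ finrank k (W.map N) = 2)

/-- The subspace `V` is `g`-stable, it has a symplectic form `β` with multiplier `c`, and there are a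
ring `E` of endomorphisms of `V` and `N = (1 - h') h` for two conjugate idempotents `h`, `h'` of
multiplier `1` in `g` such that:
* `E` is a division ring, it commutes with `g` and spans the commutant of `g` in `End V`, and it is stable
  under the adjunction of `β`;
* the image `N V` has odd dimension `r` and has a basis `b` such that the elements of `E` map each
  `b i` to a linear combination of the `b j` with rational coefficients. -/
def OddDiv3 [CharZero k] (g : Submodule k (End k H)) (c : End k H → k) (V : Submodule k H) : Prop :=
  IsStable g V ∧ ∃ (β : H →ₗ[k] H →ₗ[k] k) (N : End k H) (E : Subring (End k V)) (r : ℕ)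
    (b : Fin r → V),
    IsSympl g c V β ∧ IsRelPos g c N ∧
    (∀ a ∈ E, a ≠ 0 → ∃ a' ∈ E, a * a' = 1) ∧
    (∀ a ∈ E, CommutesOn g V a) ∧
    (∀ φ : End k V, CommutesOn g V φ → φ ∈ Submodule.span k (E : Set (End k V))) ∧
    (∀ a ∈ E, ∃ a' ∈ E, ∀ u v : V, β (a u) v = β u (a' v)) ∧
    Odd r ∧ LinearIndependent k b ∧
    (∀ v : V, v ∈ Submodule.span k (Set.range b) ↔ ∃ u ∈ V, N u = v) ∧
    ∀ a ∈ E, ∀ i, ∃ q : Fin r → ℚ, a (b i) = ∑ j, (q j : k) • b j

end Pool.Agent.Lib.MP_021685_agO
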