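import Pool.Agent.Lib.MP_021685_agO.Ctx

/-!
# Block A: the multiplier, the components for an idempotent and for a pair
-/

set_option autoImplicit false

namespace Pool.Agent.Lib.MP_021685_agO

open Module

variable {k H : Type*} [Field k] [CharZero k] [AddCommGroup H] [Module k H]
  {g : Submodule k (End k H)} {c : End k H → k} {W : Submodule k H} {β : H →ₗ[k] H →ₗ[k] k}

/-- PROOF. `W ≠ ⊥`: take `u ≠ 0` in `W`; if `β u v = 0` for all `v ∈ W` then `u = 0` by `nondeg`. -/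
theorem IsSympl.exists_ne (hs : IsSympl g c W β) (hW : W ≠ ⊥) :
    ∃ u ∈ W, ∃ v ∈ W, β u v ≠ 0 := by
  obtain ⟨u, hu, hu0⟩ := Submodule.exists_mem_ne_zero_of_ne_bot hW
  by_contra hcon
  refine hu0 (hs.nondeg u hu fun v hv => ?_)
  by_contra hne
  exact hcon ⟨u, hu, v, hv, hne⟩

/-- PROOF. Polarise `alt` on `W` (`β (u + v) (u + v) = 0`). -/
theorem IsSympl.neg (hs : IsSympl g c W β) {u v : H} (hu : u ∈ W) (hv : v ∈ W) :
    β u v = - β v u := by
  have h1 := hs.alt (u + v) (W.add_mem hu hv)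
  have h2 := hs.alt u hu
  have h3 := hs.alt v hv
  simp only [map_add, LinearMap.add_apply, h2, h3] at h1
  linear_combination h1

/-- PROOF. Compare `mult` for `X + Y`, `X`, `Y` on `u, v` with `β u v ≠ 0` (`exists_ne`). -/
theorem IsSympl.c_add (hs : IsSympl g c W β) (hW : W ≠ ⊥) {X Y : End k H} (hX : X ∈ g)
    (hY : Y ∈ g) : c (X + Y) = c X + c Y := by
  obtain ⟨u, hu, v, hv, hne⟩ := hs.exists_ne hW
  have h1 := hs.mult (X + Y) (g.add_mem hX hY) u hu v hv
  have h2 := hs.mult X hX u hu v hv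
  have h3 := hs.mult Y hY u hu v hv
  rw [LinearMap.add_apply, LinearMap.add_apply, map_add, LinearMap.add_apply, map_add] at h1
  refine mul_right_cancel₀ hne ?_
  linear_combination (-1 : k) * h1 + h2 + h3

/-- PROOF. As `c_add`. -/
theorem IsSympl.c_smul (hs : IsSympl g c W β) (hW : W ≠ ⊥) (a : k) {X : End k H} (hX : X ∈ g) :
    c (a • X) = a * c X := by
  obtain ⟨u, hu, v, hv, hne⟩ := hs.exists_ne hW
  have h1 := hs.mult (a • X) (g.smul_mem a hX) u hu v hv
  have h2 := hs.mult X hX u hu v hv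
  rw [LinearMap.smul_apply, LinearMap.smul_apply, map_smul, LinearMap.smul_apply, map_smul,
    smul_eq_mul, smul_eq_mul] at h1
  refine mul_right_cancel₀ hne ?_
  linear_combination (-1 : k) * h1 + a * h2

/-- PROOF. From `c_add` and `c_smul` (with `a = -1`). -/
theorem IsSympl.c_sub (hs : IsSympl g c W β) (hW : W ≠ ⊥) {X Y : End k H} (hX : X ∈ g)
    (hY : Y ∈ g) : c (X - Y) = c X - c Y := by
  have h1 := hs.c_add hW hX (g.smul_mem (-1 : k) hY)
  have h2 := hs.c_smul hW (-1 : k) hY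
  have h3 : X - Y = X + (-1 : k) • Y := by rw [neg_one_smul, sub_eq_add_neg]
  rw [h3, h1, h2]
  ring

/-- PROOF. For `u, v ∈ W`: `β ([X,Y]u) v + β u ([X,Y] v)
= β (XYu) v - β (YXu) v + β u (XYv) - β u (YXv)`, and (`W` is stable, `mult`)
`β (XYu) v = c X β (Yu) v - β (Yu) (Xv)`, `β u (XYv) = c X β u (Yv) - β (Xu) (Yv)`, the same with `X`
and `Y` exchanged; the sum is `c X (β (Yu) v + β u (Yv)) - c Y (β (Xu) v + β u (Xv)) = 0`. Take `u, v` with
`β u v ≠ 0`. -/
theorem IsSympl.c_bracket (hs : IsSympl g c W β) (hW : W ≠ ⊥) (hst : IsStable g W)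
    {X Y : End k H} (hX : X ∈ g) (hY : Y ∈ g) (hb : X * Y - Y * X ∈ g) :
    c (X * Y - Y * X) = 0 := by
  obtain ⟨u, hu, v, hv, hne⟩ := hs.exists_ne hW
  have hXu := hst X hX u hu
  have hXv := hst X hX v hv
  have hYu := hst Y hY u hu
  have hYv := hst Y hY v hv
  have m0 := hs.mult _ hb u hu v hv
  have m1 := hs.mult X hX (Y u) hYu v hv
  have m2 := hs.mult X hX u hu (Y v) hYv
  have m3 := hs.mult Y hY (X u) hXu v hv
  have m4 := hs.mult Y hY u hu (X v) hXv
  have m5 := hs.mult X hX u hu v hv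
  have m6 := hs.mult Y hY u hu v hv
  have e1 : (X * Y - Y * X) u = X (Y u) - Y (X u) := rfl
  have e2 : (X * Y - Y * X) v = X (Y v) - Y (X v) := rfl
  rw [e1, e2, map_sub, LinearMap.sub_apply, map_sub] at m0
  refine mul_right_cancel₀ hne ?_
  linear_combination (-1 : k) * m0 + m1 + m2 - m3 - m4 + c X * m6 - c Y * m5

/-- PROOF. `x = -(h x - x h)` for `x ∈ gm g h`; use `c_bracket` and `c_smul`. -/
theorem IsSympl.c_gm (hs : IsSympl g c W β) (hW : W ≠ ⊥) (hst : IsStable g W)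
    {h x : End k H} (hh : h ∈ g) (hx : x ∈ gm g h) : c x = 0 := by
  obtain ⟨hxg, hxh, hhx⟩ := hx
  have h1 : h * x - x * h = (-1 : k) • x := by
    rw [hxh, hhx, zero_sub, neg_one_smul]
  have h2 : c (h * x - x * h) = 0 :=
    hs.c_bracket hW hst hh hxg (by rw [h1]; exact g.smul_mem _ hxg)
  rw [h1, hs.c_smul hW _ hxg] at h2
  linear_combination (-1 : k) * h2

/-- PROOF. `y = h y - y h` for `y ∈ gp g h`. -/
theorem IsSympl.c_gp (hs : IsSympl g c W β) (hW : W ≠ ⊥) (hst : IsStable g W)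
    {h y : End k H} (hh : h ∈ g) (hy : y ∈ gp g h) : c y = 0 := by
  obtain ⟨hyg, hhy, hyh⟩ := hy
  have h1 : h * y - y * h = y := by
    rw [hyh, hhy, sub_zero]
  have h2 : c (h * y - y * h) = 0 :=
    hs.c_bracket hW hst hh hyg (by rw [h1]; exact hyg)
  rw [h1] at h2
  exact h2

/-- The components for an idempotent `h`.
PROOF. `a = h X - X h = h X (1 - h) - (1 - h) X h` and `b = h a - a h = h X (1 - h) + (1 - h) X h` are in `g`;
`h X (1 - h) = (b + a) / 2`, `(1 - h) X h = (b - a) / 2`, and `X` is the sum of the three components.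
(`h (1 - h) = 0`; `noncomm_ring` after substituting `h * h = h`, or expand with `mul_sub`, `sub_mul`.) -/
theorem hcomp (hlie : ∀ X ∈ g, ∀ Y ∈ g, X * Y - Y * X ∈ g) {h : End k H} (hh : h ∈ g)
    (h2 : h * h = h) {X : End k H} (hX : X ∈ g) :
    h * X * (1 - h) ∈ gp g h ∧ (1 - h) * X * h ∈ gm g h ∧
      h * X * h + (1 - h) * X * (1 - h) ∈ g := by
  have h2' : ∀ x : End k H, h * (h * x) = h * x := fun x => by rw [← mul_assoc, h2]
  have ha := hlie h hh X hX
  have hb := hlie h hh _ ha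
  have two : (2 : k) ≠ 0 := two_ne_zero
  have k1 : h * X * (1 - h) = (2 : k)⁻¹ • ((h * (h * X - X * h) - (h * X - X * h) * h) +
      (h * X - X * h)) := by
    rw [eq_inv_smul_iff₀ two, two_smul]
    simp only [mul_sub, sub_mul, mul_one, one_mul, mul_assoc, h2, h2']
    abel
  have k2 : (1 - h) * X * h = (2 : k)⁻¹ • ((h * (h * X - X * h) - (h * X - X * h) * h) -
      (h * X - X * h)) := by
    rw [eq_inv_smul_iff₀ two, two_smul]
    simp only [mul_sub, sub_mul, mul_one, one_mul, mul_assoc, h2, h2']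
    abel
  have g1 : h * X * (1 - h) ∈ g := by
    rw [k1]
    exact g.smul_mem _ (g.add_mem hb ha)
  have g2 : (1 - h) * X * h ∈ g := by
    rw [k2]
    exact g.smul_mem _ (g.sub_mem hb ha)
  refine ⟨⟨g1, ?_, ?_⟩, ⟨g2, ?_, ?_⟩, ?_⟩
  · simp only [mul_sub, sub_mul, mul_one, one_mul, mul_assoc, h2, h2']
  · simp only [mul_sub, sub_mul, mul_one, one_mul, mul_assoc, h2, h2', sub_self]
  · simp only [mul_sub, sub_mul, mul_one, one_mul, mul_assoc, h2, h2']
  · simp only [mul_sub, sub_mul, mul_one, one_mul, mul_assoc, h2, h2', sub_self]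
  · have k3 : h * X * h + (1 - h) * X * (1 - h) = X - h * X * (1 - h) - (1 - h) * X * h := by
      simp only [mul_sub, sub_mul, mul_one, one_mul, mul_assoc, h2, h2']
      abel
    rw [k3]
    exact g.sub_mem (g.sub_mem hX g1) g2

/-- A subspace which is stable under `A` contains the components of its elements in the eigenspaces of `A`
(here the eigenvalues are `-2, -1, 0, 1, 2`).
PROOF. Let `v = ∑ x i ∈ S`. Then `A^n v = ∑ ((i : k) - 2)^n • x i ∈ S` for `n = 0, …, 4`, and each `x i` is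
a linear combination of these five vectors (Lagrange polynomials): e.g.
`24 • x 4 = A⁴v + 2 A³v - A²v - 2 A v`, `24 • x 0 = A⁴v - 2 A³v - A²v + 2 A v`,
`6 • x 3 = -A⁴v - A³v + 4 A²v + 4 A v`, `6 • x 1 = -A⁴v + A³v + 4 A²v - 4 A v`,
`4 • x 2 = A⁴v - 5 A²v + 4 v`. -/
theorem comp_mem {V : Type*} [AddCommGroup V] [Module k V] (A : V →ₗ[k] V) (S : Submodule k V)
    (hS : ∀ v ∈ S, A v ∈ S) (x : Fin 5 → V)
    (hx : ∀ i : Fin 5, A (x i) = (((i : ℕ) : k) - 2) • x i) (hsum : ∑ i, x i ∈ S) :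
    ∀ i, x i ∈ S := by
  have x0 : A (x 0) = (-2 : k) • x 0 := by
    rw [hx 0]
    congr 1
    norm_num
  have x1 : A (x 1) = (-1 : k) • x 1 := by
    rw [hx 1]
    congr 1
    norm_num
  have x2 : A (x 2) = (0 : k) • x 2 := by
    rw [hx 2]
    congr 1
    norm_num
  have x3 : A (x 3) = (1 : k) • x 3 := by
    rw [hx 3]
    congr 1
    norm_num
  have x4 : A (x 4) = (2 : k) • x 4 := by
    rw [hx 4]
    congr 1
    norm_num
  rw [Fin.sum_univ_five] at hsum
  have hA : ∀ a b c d e : k, A (a • x 0 + b • x 1 + c • x 2 + d • x 3 + e • x 4) =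
      (-2 * a) • x 0 + (-b) • x 1 + (0 : k) • x 2 + d • x 3 + (2 * e) • x 4 := by
    intro a b c d e
    rw [map_add, map_add, map_add, map_add, map_smul, map_smul, map_smul, map_smul, map_smul, x0, x1,
      x2, x3, x4]
    module
  have v0 : (1 : k) • x 0 + (1 : k) • x 1 + (1 : k) • x 2 + (1 : k) • x 3 + (1 : k) • x 4 ∈ S := by
    rw [one_smul, one_smul, one_smul, one_smul, one_smul]
    exact hsum
  have v1 := hS _ v0
  rw [hA] at v1
  have v2 := hS _ v1
  rw [hA] at v2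
  have v3 := hS _ v2
  rw [hA] at v3
  have v4 := hS _ v3
  rw [hA] at v4
  have key : ∀ (n : k) (y : V), n ≠ 0 → n • y ∈ S → y ∈ S := by
    intro n y hn hy
    have h1 := S.smul_mem n⁻¹ hy
    rwa [inv_smul_smul₀ hn] at h1
  have fin : ∀ (n : k) (y z : V), n ≠ 0 → z ∈ S → n • y = z → y ∈ S := by
    intro n y z hn hz h
    exact key n y hn (h ▸ hz)
  intro i
  fin_cases i
  · exact fin 24 _ _ (by norm_num) (S.add_mem (S.sub_mem (S.sub_mem v4 (S.smul_mem (2 : k) v3)) v2)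
      (S.smul_mem (2 : k) v1)) (by simp only [Fin.zero_eta]; module)
  · exact fin 6 _ _ (by norm_num) (S.sub_mem (S.add_mem (S.sub_mem v3 v4) (S.smul_mem (4 : k) v2))
      (S.smul_mem (4 : k) v1)) (by simp only [Fin.mk_one]; module)
  · exact fin 4 _ _ (by norm_num) (S.add_mem (S.sub_mem v4 (S.smul_mem (5 : k) v2))
      (S.smul_mem (4 : k) v0)) (by simp only [Fin.reduceFinMk]; module)
  · exact fin 6 _ _ (by norm_num) (S.add_mem (S.add_mem (S.sub_mem (S.neg_mem v4) v3)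
      (S.smul_mem (4 : k) v2)) (S.smul_mem (4 : k) v1)) (by simp only [Fin.reduceFinMk]; module)
  · exact fin 24 _ _ (by norm_num) (S.sub_mem (S.sub_mem (S.add_mem v4 (S.smul_mem (2 : k) v3)) v2)
      (S.smul_mem (2 : k) v1)) (by simp only [Fin.reduceFinMk]; module)

/-- Two products of idempotent pairs. PROOF. Immediate from `mem_gm`, `mem_gp`:
`e * e = (e * h) * e = e * (h * e) = 0`, `f * f = f * (h * f) = (f * h) * f = 0`. -/
theorem Pair.ee {h e f : End k H} (hp : Pair g h e f) : e * e = 0 ∧ f * f = 0 := by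
  obtain ⟨⟨_, h1, h2⟩, ⟨_, h3, h4⟩, _, _⟩ := hp
  constructor
  · calc e * e = e * h * e := by rw [h1]
      _ = e * (h * e) := mul_assoc _ _ _
      _ = 0 := by rw [h2, mul_zero]
  · calc f * f = f * (h * f) := by rw [h3]
      _ = f * h * f := (mul_assoc _ _ _).symm
      _ = 0 := by rw [h4, zero_mul]

/-- The relations of a pair, in the form used by the simplifier. -/
private theorem Pair.rels {h e f : End k H} (hp : Pair g h e f) :
    (e * e = 0 ∧ f * f = 0 ∧ e * (f * e) = e ∧ f * (e * f) = f) ∧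
    (∀ x, e * (e * x) = 0) ∧ (∀ x, f * (f * x) = 0) ∧ (∀ x, e * (f * (e * x)) = e * x) ∧
    (∀ x, f * (e * (f * x)) = f * x) ∧
    (e * h = e ∧ h * e = 0 ∧ h * f = f ∧ f * h = 0) ∧ (∀ x, e * (h * x) = e * x) ∧
    (∀ x, h * (e * x) = 0) ∧ (∀ x, h * (f * x) = f * x) ∧ (∀ x, f * (h * x) = 0) := by
  obtain ⟨ee, ff⟩ := hp.ee
  have efe := hp.efe
  have fef := hp.fef
  obtain ⟨⟨_, h1, h2⟩, ⟨_, h3, h4⟩, _, _⟩ := hp
  refine ⟨⟨ee, ff, by rw [← mul_assoc, efe], by rw [← mul_assoc, fef]⟩, ?_, ?_, ?_, ?_,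
    ⟨h1, h2, h3, h4⟩, ?_, ?_, ?_, ?_⟩
  · intro x
    rw [← mul_assoc, ee, zero_mul]
  · intro x
    rw [← mul_assoc, ff, zero_mul]
  · intro x
    rw [← mul_assoc, ← mul_assoc, efe]
  · intro x
    rw [← mul_assoc, ← mul_assoc, fef]
  · intro x
    rw [← mul_assoc, h1]
  · intro x
    rw [← mul_assoc, h2, zero_mul]
  · intro x
    rw [← mul_assoc, h3]
  · intro x
    rw [← mul_assoc, h4, zero_mul]

/-- The idempotents `E = e f`, `F = f e`, `R` and `tau`: multiplication table.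
PROOF. Direct from `efe`, `fef`, `ee`. -/
theorem Pair.table {h e f : End k H} (hp : Pair g h e f) :
    e * f * (e * f) = e * f ∧ f * e * (f * e) = f * e ∧ e * f * (f * e) = 0 ∧
    f * e * (e * f) = 0 ∧ rr e f * rr e f = rr e f ∧ e * f * rr e f = 0 ∧ rr e f * (e * f) = 0 ∧
    f * e * rr e f = 0 ∧ rr e f * (f * e) = 0 ∧ tau e f * (e * f) = e * f ∧
    e * f * tau e f = e * f ∧ tau e f * (f * e) = -(f * e) ∧ f * e * tau e f = -(f * e) ∧
    tau e f * rr e f = 0 ∧ rr e f * tau e f = 0 := by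
  obtain ⟨⟨ee, ff, efe, fef⟩, ee1, ff1, efe1, fef1, ⟨eh, he, hf, fh⟩, eh1, he1, hf1, fh1⟩ := hp.rels
  refine ⟨?_, ?_, ?_, ?_, ?_, ?_, ?_, ?_, ?_, ?_, ?_, ?_, ?_, ?_, ?_⟩ <;>
    simp only [rr, tau, mul_sub, sub_mul, mul_add, add_mul, mul_one, one_mul, mul_zero, zero_mul, mul_assoc, ee, ff, efe, fef, ee1, ff1, efe1, fef1] <;> abel

/-- The products with `e` and `f`. PROOF. Direct from `efe`, `fef`, `ee`. -/
theorem Pair.tableE {h e f : End k H} (hp : Pair g h e f) :
    e * (f * e) = e ∧ e * f * e = e ∧ e * (e * f) = 0 ∧ f * e * e = 0 ∧ f * (e * f) = f ∧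
    f * e * f = f ∧ f * (f * e) = 0 ∧ e * f * f = 0 ∧ rr e f * e = 0 ∧ e * rr e f = 0 ∧
    rr e f * f = 0 ∧ f * rr e f = 0 ∧ tau e f * e = e ∧ e * tau e f = -e ∧ tau e f * f = -f ∧
    f * tau e f = f := by
  obtain ⟨⟨ee, ff, efe, fef⟩, ee1, ff1, efe1, fef1, ⟨eh, he, hf, fh⟩, eh1, he1, hf1, fh1⟩ := hp.rels
  refine ⟨?_, ?_, ?_, ?_, ?_, ?_, ?_, ?_, ?_, ?_, ?_, ?_, ?_, ?_, ?_, ?_⟩ <;>
    simp only [rr, tau, mul_sub, sub_mul, mul_add, add_mul, mul_one, one_mul, mul_zero, zero_mul, mul_assoc, ee, ff, efe, fef, ee1, ff1, efe1, fef1] <;> abel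

/-- The products with `h`. PROOF. `h * (e * f) = (h * e) * f = 0`, `(e * f) * h = e * (f * h) = 0`,
`h * (f * e) = (h * f) * e = f * e`, `(f * e) * h = f * (e * h) = f * e`. -/
theorem Pair.tableH {h e f : End k H} (hp : Pair g h e f) :
    h * (e * f) = 0 ∧ e * f * h = 0 ∧ h * (f * e) = f * e ∧ f * e * h = f * e ∧
    h * rr e f = rr e f * h ∧ h * tau e f = tau e f * h := by
  obtain ⟨⟨ee, ff, efe, fef⟩, ee1, ff1, efe1, fef1, ⟨eh, he, hf, fh⟩, eh1, he1, hf1, fh1⟩ := hp.rels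
  refine ⟨?_, ?_, ?_, ?_, ?_, ?_⟩ <;>
    simp only [rr, tau, mul_sub, sub_mul, mul_add, add_mul, mul_one, one_mul, mul_zero, zero_mul, mul_assoc, ee, ff, efe, fef, ee1, ff1, efe1, fef1, eh, he, hf, fh, eh1, he1, hf1, fh1] <;> abel

/-- `X` is the sum of its five components. PROOF. `1 = e f + f e + rr e f`, expand. -/
theorem sum_comp (e f X : End k H) : d2 e f X + d1 e f X + c0 e f X + c1 e f X + c2 e f X = X := by
  simp only [d2, d1, c0, c1, c2, rr, mul_sub, sub_mul, mul_one, one_mul, mul_assoc]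
  abel

/-- The components are eigenvectors of `ad tau`. PROOF. `Pair.table`. -/
theorem Pair.ad_comp {h e f : End k H} (hp : Pair g h e f) (X : End k H) :
    tau e f * d2 e f X - d2 e f X * tau e f = (-2 : k) • d2 e f X ∧
    tau e f * d1 e f X - d1 e f X * tau e f = -d1 e f X ∧
    tau e f * c0 e f X - c0 e f X * tau e f = 0 ∧
    tau e f * c1 e f X - c1 e f X * tau e f = c1 e f X ∧
    tau e f * c2 e f X - c2 e f X * tau e f = (2 : k) • c2 e f X := by
  obtain ⟨⟨ee, ff, efe, fef⟩, ee1, ff1, efe1, fef1, ⟨eh, he, hf, fh⟩, eh1, he1, hf1, fh1⟩ := hp.rels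
  refine ⟨?_, ?_, ?_, ?_, ?_⟩ <;>
    simp only [neg_smul, two_smul, d2, d1, c0, c1, c2, rr, tau, mul_sub, sub_mul, mul_add, add_mul, mul_one, one_mul, mul_zero, zero_mul, mul_assoc, ee, ff, efe, fef, ee1, ff1, efe1, fef1] <;> abel

theorem Pair.tau_mem (hlie : ∀ X ∈ g, ∀ Y ∈ g, X * Y - Y * X ∈ g) {h e f : End k H}
    (hp : Pair g h e f) : tau e f ∈ g := by
  exact hlie e hp.he.1 f hp.hf.1

/-- The components of an element of a subspace `S` which is stable under `ad tau` are in `S`.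
PROOF. `comp_mem` for `A = LinearMap.mulLeft k (tau e f) - LinearMap.mulRight k (tau e f)` and
`x = ![d2, d1, c0, c1, c2]`, with `ad_comp` and `sum_comp`. -/
theorem Pair.comp_mem {h e f : End k H} (hp : Pair g h e f) {S : Submodule k (End k H)}
    (hS : ∀ X ∈ S, tau e f * X - X * tau e f ∈ S) {X : End k H} (hX : X ∈ S) :
    d2 e f X ∈ S ∧ d1 e f X ∈ S ∧ c0 e f X ∈ S ∧ c1 e f X ∈ S ∧ c2 e f X ∈ S := by
  have had := hp.ad_comp X
  obtain ⟨a2, a1, a0, b1, b2⟩ := had
  have h1 := Pool.Agent.Lib.MP_021685_agO.comp_mem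
    (LinearMap.mulLeft k (tau e f) - LinearMap.mulRight k (tau e f)) S
    (fun v hv => hS v hv) ![d2 e f X, d1 e f X, c0 e f X, c1 e f X, c2 e f X] (by
      intro i
      fin_cases i
      · refine Eq.trans a2 ?_
        refine congrArg (fun t : k => t • d2 e f X) ?_
        norm_num
      · refine Eq.trans a1 (Eq.trans (neg_one_smul k (d1 e f X)).symm ?_)
        refine congrArg (fun t : k => t • d1 e f X) ?_
        norm_num
      · refine Eq.trans a0 (Eq.trans (zero_smul k (c0 e f X)).symm ?_)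
        refine congrArg (fun t : k => t • c0 e f X) ?_
        norm_num
      · refine Eq.trans b1 (Eq.trans (one_smul k (c1 e f X)).symm ?_)
        refine congrArg (fun t : k => t • c1 e f X) ?_
        norm_num
      · refine Eq.trans b2 ?_
        refine congrArg (fun t : k => t • c2 e f X) ?_
        norm_num) (by
      rw [Fin.sum_univ_five]
      exact (sum_comp e f X).symm ▸ hX)
  exact ⟨h1 0, h1 1, h1 2, h1 3, h1 4⟩

/-- `gm g h` and `gp g h` are stable under `ad tau` (so `Pair.comp_mem` applies to them).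
PROOF. `tau` commutes with `h` (`tableH`). -/
theorem Pair.ad_gm (hlie : ∀ X ∈ g, ∀ Y ∈ g, X * Y - Y * X ∈ g) {h e f : End k H}
    (hp : Pair g h e f) :
    (∀ X ∈ gm g h, tau e f * X - X * tau e f ∈ gm g h) ∧
    (∀ X ∈ gp g h, tau e f * X - X * tau e f ∈ gp g h) := by
  obtain ⟨_, _, _, _, _, ht⟩ := hp.tableH
  have htg := hp.tau_mem hlie
  refine ⟨?_, ?_⟩
  · rintro X ⟨h1, h2, h3⟩
    refine ⟨hlie _ htg _ h1, ?_, ?_⟩
    · rw [sub_mul, mul_assoc, h2, mul_assoc, ← ht, ← mul_assoc, h2]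
    · rw [mul_sub, ← mul_assoc, ht, mul_assoc, h3, mul_zero, ← mul_assoc, h3, zero_mul, sub_zero]
  · rintro X ⟨h1, h2, h3⟩
    refine ⟨hlie _ htg _ h1, ?_, ?_⟩
    · rw [mul_sub, ← mul_assoc, ht, mul_assoc, h2, ← mul_assoc, h2]
    · rw [sub_mul, mul_assoc, h3, mul_zero, mul_assoc, ← ht, ← mul_assoc, h3, zero_mul, sub_zero]

/-- The components of degree `1` and `-1` give elements of `J1` and `J1'`. PROOF. `ad_gm`, `comp_mem`,
`ad_comp`. -/
theorem Pair.c1_mem_J1 (hlie : ∀ X ∈ g, ∀ Y ∈ g, X * Y - Y * X ∈ g) {h e f : End k H}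
    (hp : Pair g h e f) {X : End k H} (hX : X ∈ gm g h) : c1 e f X ∈ J1 g h e f := by
  have h1 := (hp.comp_mem (hp.ad_gm hlie).1 hX).2.2.2.1
  have h2 := (hp.ad_comp X).2.2.2.1
  exact ⟨h1, h2⟩

theorem Pair.d1_mem_J1' (hlie : ∀ X ∈ g, ∀ Y ∈ g, X * Y - Y * X ∈ g) {h e f : End k H}
    (hp : Pair g h e f) {X : End k H} (hX : X ∈ gp g h) : d1 e f X ∈ J1' g h e f := by
  have h1 := (hp.comp_mem (hp.ad_gm hlie).2 hX).2.1
  have h2 := (hp.ad_comp X).2.1
  exact ⟨h1, h2⟩

/-- The components of `[tau, X]`. -/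
private theorem Pair.comp_ad {h e f : End k H} (hp : Pair g h e f) (X : End k H) :
    d2 e f (tau e f * X - X * tau e f) = (-2 : k) • d2 e f X ∧
    d1 e f (tau e f * X - X * tau e f) = -d1 e f X ∧
    c0 e f (tau e f * X - X * tau e f) = 0 ∧
    c1 e f (tau e f * X - X * tau e f) = c1 e f X ∧
    c2 e f (tau e f * X - X * tau e f) = (2 : k) • c2 e f X := by
  obtain ⟨⟨ee, ff, efe, fef⟩, ee1, ff1, efe1, fef1, ⟨eh, he, hf, fh⟩, eh1, he1, hf1, fh1⟩ := hp.rels
  refine ⟨?_, ?_, ?_, ?_, ?_⟩ <;>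
    simp only [neg_smul, two_smul, d2, d1, c0, c1, c2, rr, tau, mul_sub, sub_mul, mul_add, add_mul, mul_one, one_mul, mul_zero, zero_mul, mul_assoc, ee, ff, efe, fef, ee1, ff1, efe1, fef1] <;> abel

/-- If `X` commutes with `tau` then it commutes with `e f`, `f e` and `rr e f`, and `X = c0 X`.
PROOF. `tau² = e f + f e` and `tau = e f - f e` (`Pair.table`), so `e f = (tau² + tau)/2`. -/
theorem Pair.comm_of_comm {h e f : End k H} (hp : Pair g h e f) {X : End k H}
    (hX : X * tau e f = tau e f * X) :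
    X * (e * f) = e * f * X ∧ X * (f * e) = f * e * X ∧ X * rr e f = rr e f * X := by
  obtain ⟨⟨ee, ff, efe, fef⟩, ee1, ff1, efe1, fef1, ⟨eh, he, hf, fh⟩, eh1, he1, hf1, fh1⟩ := hp.rels
  have hc : Commute X (tau e f) := hX
  have two : (2 : k) ≠ 0 := two_ne_zero
  have h1 : e * f = (2 : k)⁻¹ • (tau e f * tau e f + tau e f) := by
    rw [eq_inv_smul_iff₀ two, two_smul]
    simp only [tau, mul_sub, sub_mul, mul_add, add_mul, mul_one, one_mul, mul_zero, zero_mul, mul_assoc, ee, ff, efe, fef, ee1, ff1, efe1, fef1]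
    abel
  have hef : Commute X (e * f) := by
    rw [h1]
    exact ((hc.mul_right hc).add_right hc).smul_right _
  have h2 : f * e = e * f - tau e f := by
    rw [tau]
    abel
  have hfe : Commute X (f * e) := by
    rw [h2]
    exact hef.sub_right hc
  exact ⟨hef, hfe, ((Commute.one_right X).sub_right hef).sub_right hfe⟩

/-- An element with `[tau, X] = X` is equal to its component of degree `1`: more precisely
`X = e f X rr + rr X f e`; and an element with `[tau, X] = -X` is `rr X e f + f e X rr`.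
PROOF. `X = sum_comp`, apply `ad tau` and compare: from `sum_comp` and `ad_comp`,
`X = [tau, X] = -2 d2 - d1 + c1 + 2 c2`; multiply by the idempotents on both sides. (For instance
`e f X e f = e f [tau,X] e f = e f X e f - e f X e f = 0` etc.) -/
theorem Pair.eq_c1 {h e f : End k H} (hp : Pair g h e f) {X : End k H}
    (hX : tau e f * X - X * tau e f = X) : c1 e f X = X := by
  obtain ⟨a2, a1, a0, _, b2⟩ := hp.comp_ad X
  rw [hX] at a2 a1 a0 b2
  have z2 : d2 e f X = 0 := by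
    have h3 : (3 : k) • d2 e f X = 0 := by
      have h4 : (3 : k) • d2 e f X = d2 e f X - (-2 : k) • d2 e f X := by module
      rw [h4, ← a2, sub_self]
    exact (smul_eq_zero.1 h3).resolve_left (by norm_num)
  have z1 : d1 e f X = 0 := by
    have h3 : (2 : k) • d1 e f X = 0 := by
      have h4 : (2 : k) • d1 e f X = d1 e f X - (-d1 e f X) := by module
      rw [h4, ← a1, sub_self]
    exact (smul_eq_zero.1 h3).resolve_left (by norm_num)
  have y2 : c2 e f X = 0 := by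
    have h4 : c2 e f X = (2 : k) • c2 e f X - c2 e f X := by module
    rw [h4, ← b2, sub_self]
  have h5 := sum_comp e f X
  rw [z2, z1, a0, y2] at h5
  rw [zero_add, zero_add, zero_add, add_zero] at h5
  exact h5

theorem Pair.eq_d1 {h e f : End k H} (hp : Pair g h e f) {X : End k H}
    (hX : tau e f * X - X * tau e f = -X) : d1 e f X = X := by
  obtain ⟨a2, _, a0, b1, b2⟩ := hp.comp_ad X
  rw [hX] at a2 a0 b1 b2
  have n2 : d2 e f (-X) = -d2 e f X := by simp only [d2, mul_neg, neg_mul]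
  have n0 : c0 e f (-X) = -c0 e f X := by
    simp only [c0, mul_neg, neg_mul]
    abel
  have m1 : c1 e f (-X) = -c1 e f X := by
    simp only [c1, mul_neg, neg_mul]
    abel
  have m2 : c2 e f (-X) = -c2 e f X := by simp only [c2, mul_neg, neg_mul]
  rw [n2] at a2
  rw [n0] at a0
  rw [m1] at b1
  rw [m2] at b2
  have z2 : d2 e f X = 0 := by
    have h4 : d2 e f X = -d2 e f X - (-2 : k) • d2 e f X := by module
    rw [h4, ← a2, sub_self]
  have y1 : c1 e f X = 0 := by
    have h3 : (2 : k) • c1 e f X = 0 := by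
      have h4 : (2 : k) • c1 e f X = c1 e f X - (-c1 e f X) := by module
      rw [h4, b1, sub_self]
    exact (smul_eq_zero.1 h3).resolve_left (by norm_num)
  have y2 : c2 e f X = 0 := by
    have h3 : (3 : k) • c2 e f X = 0 := by
      have h4 : (3 : k) • c2 e f X = (2 : k) • c2 e f X - (-c2 e f X) := by module
      rw [h4, b2, sub_self]
    exact (smul_eq_zero.1 h3).resolve_left (by norm_num)
  have h5 := sum_comp e f X
  rw [z2, neg_eq_zero.1 a0, y1, y2] at h5
  rw [zero_add, add_zero, add_zero, add_zero] at h5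
  exact h5

end Pool.Agent.Lib.MP_021685_agO
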