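import Pool.Agent.Lib.MP_021685_agO.OA

/-!
# Block B: the trace form of `g`, first part
-/

set_option autoImplicit false

namespace Pool.Agent.Lib.MP_021685_agO

open Module

variable {k H : Type*} [Field k] [CharZero k] [AddCommGroup H] [Module k H] [FiniteDimensional k H]
  {g : Submodule k (End k H)} {c : End k H → k}

section Lie

attribute [local instance 100] LieRing.ofAssociativeRing

/-- The Lie subalgebra of `End k H` with a given carrier. -/
private def lsub (R : Submodule k (End k H)) (hR : ∀ X ∈ R, ∀ Y ∈ R, X * Y - Y * X ∈ R) :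
    LieSubalgebra k (End k H) :=
  { R with lie_mem' := fun {X Y} hX hY => hR X hX Y hY }

/-- A stable subspace as a Lie submodule. -/
private def lmod (R : Submodule k (End k H)) (hR : ∀ X ∈ R, ∀ Y ∈ R, X * Y - Y * X ∈ R)
    (U : Submodule k H) (hU : ∀ X ∈ R, ∀ u ∈ U, X u ∈ U) : LieSubmodule k (lsub R hR) H :=
  { U with lie_mem := fun {X u} hu => hU X.1 X.2 u hu }

omit [CharZero k] in
/-- Engel: a Lie algebra of nilpotent endomorphisms has a common null vector. -/
private theorem engel (R : Submodule k (End k H)) (hR : ∀ X ∈ R, ∀ Y ∈ R, X * Y - Y * X ∈ R)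
    (hnil : ∀ Y ∈ R, IsNilpotent Y) (U : Submodule k H) (hU : ∀ X ∈ R, ∀ u ∈ U, X u ∈ U)
    (hne : U ≠ ⊥) : ∃ u ∈ U, u ≠ 0 ∧ ∀ Y ∈ R, Y u = 0 := by
  let L := lsub R hR
  let M := lmod R hR U hU
  have hcoe : ∀ (x : L) (n : ℕ) (u : M),
      ((((LieModule.toEnd k L M x) ^ n) u : M) : H) = ((x : End k H) ^ n) (u : H) := by
    intro x n
    induction n with
    | zero => intro u; rfl
    | succ n ih =>
      intro u
      rw [pow_succ, pow_succ, Module.End.mul_apply, Module.End.mul_apply, ih]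
      rfl
  have hN : LieModule.IsNilpotent L M := by
    rw [LieModule.isNilpotent_iff_forall' (R := k)]
    intro x
    obtain ⟨n, hn⟩ := hnil x.1 x.2
    refine ⟨n, ?_⟩
    ext u
    rw [hcoe x n u, hn]
    rfl
  have hnt : Nontrivial M := by
    obtain ⟨u, hu, hu0⟩ := Submodule.exists_mem_ne_zero_of_ne_bot hne
    exact ⟨⟨⟨u, hu⟩, 0, fun h => hu0 (congrArg Subtype.val h)⟩⟩
  have hnt2 : Nontrivial (LieModule.maxTrivSubmodule k L M) :=
    LieModule.nontrivial_max_triv_of_isNilpotent k L M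
  obtain ⟨u, hu⟩ := exists_ne (0 : LieModule.maxTrivSubmodule k L M)
  have hu1 : ∀ x : L, ⁅x, (u : M)⁆ = 0 := (LieModule.mem_maxTrivSubmodule k L M _).mp u.2
  refine ⟨((u : M) : H), (u : M).2, fun h => hu (Subtype.ext (Subtype.ext h)), fun Y hY => ?_⟩
  have h1 := congrArg (fun v : M => (v : H)) (hu1 ⟨Y, hY⟩)
  exact h1

/-- Cartan's criterion in terms of endomorphisms. -/
private theorem cartan_aux {I : Submodule k (End k H)} (hlie : ∀ X ∈ I, ∀ Y ∈ I, X * Y - Y * X ∈ I)
    (htr : ∀ X ∈ I, ∀ Y ∈ I, LinearMap.trace k H (X * Y) = 0) {Z : End k H}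
    (hZ : Z ∈ Submodule.span k {Z | ∃ X ∈ I, ∃ Y ∈ I, Z = X * Y - Y * X}) : IsNilpotent Z := by
  let L := lsub I hlie
  have htf : LieModule.traceForm k L H = 0 := by
    ext x y
    rw [LieModule.traceForm_apply_apply]
    exact htr x.1 x.2 y.1 y.2
  have hN := (LieModule.isNilpotent_iff_forall' (R := k)).mp
    (LieModule.isNilpotent_derivedSeries_of_traceForm_eq_zero htf)
  have hmem : ∃ hZ : Z ∈ I, (⟨Z, hZ⟩ : L) ∈ LieAlgebra.derivedSeries k L 1 := by
    refine Submodule.span_induction ?_ ?_ ?_ ?_ hZ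
    · rintro _ ⟨X, hX, Y, hY, rfl⟩
      refine ⟨hlie X hX Y hY, ?_⟩
      have h1 : (⟨X * Y - Y * X, hlie X hX Y hY⟩ : L) = ⁅(⟨X, hX⟩ : L), (⟨Y, hY⟩ : L)⁆ := rfl
      rw [h1, LieAlgebra.derivedSeries_def, LieAlgebra.derivedSeriesOfIdeal_succ,
        LieAlgebra.derivedSeriesOfIdeal_zero]
      exact LieSubmodule.lie_mem_lie (LieSubmodule.mem_top _) (LieSubmodule.mem_top _)
    · exact ⟨I.zero_mem, (LieAlgebra.derivedSeries k L 1).zero_mem⟩
    · rintro X Y _ _ ⟨hX, hX'⟩ ⟨hY, hY'⟩
      exact ⟨I.add_mem hX hY, (LieAlgebra.derivedSeries k L 1).add_mem hX' hY'⟩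
    · rintro a X _ ⟨hX, hX'⟩
      exact ⟨I.smul_mem a hX, (LieAlgebra.derivedSeries k L 1).smul_mem a hX'⟩
  obtain ⟨hZI, hZ'⟩ := hmem
  exact hN ⟨_, hZ'⟩

end Lie

/-- An ideal of `g` consisting of nilpotent endomorphisms is zero.
PROOF. `R` is closed under brackets (`hid`, `R ≤ g`), so it is (the carrier of) a Lie subalgebra `L` of
`End k H` consisting of nilpotent endomorphisms. Let `U = {u | ∀ Y ∈ R, Y u = 0}` (`⨅ Y : R, ker Y`). It is
`g`-stable: for `X ∈ g`, `Y ∈ R`, `u ∈ U`: `Y (X u) = X (Y u) - (X Y - Y X) u = 0`. Let `U'` be a `g`-stable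
complement (`hg.semisimple`). If `U' ≠ ⊥`: `L` acts on `U'` (as `R ≤ g`) by nilpotent endomorphisms, so
by Engel's theorem there is `u ≠ 0` in `U'` with `Y u = 0` for all `Y ∈ R`
(Mathlib: `LieModule.isNilpotent_iff_forall'`, then `LieModule.nontrivial_max_triv_of_isNilpotent` for the
Lie algebra `L` and the module `U'`; or take a non-zero element of the last non-zero term of the lower
central series of the `L`-module `U'`), so `u ∈ U ⊓ U' = ⊥`, a contradiction. Hence `U' = ⊥`, `U = ⊤`, and
every `Y ∈ R` is zero. (Alternatively prove Engel's statement directly by induction on the dimension.) -/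
theorem nil_zero (hg : IsGaloisAlg g c) {R : Submodule k (End k H)} (hR : R ≤ g)
    (hid : ∀ X ∈ g, ∀ Y ∈ R, X * Y - Y * X ∈ R) (hnil : ∀ Y ∈ R, IsNilpotent Y) : R = ⊥ := by
  let U : Submodule k H :=
    { carrier := {u | ∀ Y ∈ R, Y u = 0}
      add_mem' := fun {a b} ha hb Y hY => by rw [map_add, ha Y hY, hb Y hY, add_zero]
      zero_mem' := fun Y _ => map_zero Y
      smul_mem' := fun t a ha Y hY => by rw [map_smul, ha Y hY, smul_zero] }
  have hUst : IsStable g U := fun X hX u hu Y hY => by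
    have h1 := hu (X * Y - Y * X) (hid X hX Y hY)
    rw [LinearMap.sub_apply, Module.End.mul_apply, Module.End.mul_apply, hu Y hY, map_zero, zero_sub,
      neg_eq_zero] at h1
    exact h1
  obtain ⟨U', hU', hc⟩ := hg.semisimple U hUst
  have hbot : U' = ⊥ := by
    by_contra hne
    obtain ⟨u, hu, hu0, hu1⟩ := engel R (fun X hX Y hY => hid X (hR hX) Y hY) hnil U'
      (fun X hX u hu => hU' X (hR hX) u hu) hne
    have h2 : u ∈ U ⊓ U' := ⟨hu1, hu⟩
    rw [hc.inf_eq_bot, Submodule.mem_bot] at h2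
    exact hu0 h2
  have htop : U = ⊤ := by
    have h1 := hc.sup_eq_top
    rwa [hbot, sup_bot_eq] at h1
  rw [eq_bot_iff]
  intro Y hY
  rw [Submodule.mem_bot]
  ext u
  have hu : u ∈ U := by rw [htop]; trivial
  exact hu Y hY

/-- An endomorphism all of whose powers have trace zero is nilpotent.
PROOF. Over the algebraic closure (or with the characteristic polynomial and Newton's identities,
or: the Fitting decomposition). One elementary proof: suppose `B` is not nilpotent. Let `m` be the minimal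
polynomial of `B`, `m = X ^ a * m₁` with `m₁(0) ≠ 0`; `m₁` is not a unit. There are `u, v` with
`u * X ^ (a+1) + v * m₁ = 1` (coprime). The endomorphism `p = aeval B (u * X ^ (a+1))` is idempotent and non-zero
(if it was zero, `m ∣ u X ^ (a+1)`, so `m₁ ∣ u X ^ (a+1)` and `m₁ ∣ 1`), and it is a linear combination of the
`B ^ n`, `n ≥ 1`, so `trace p = 0`; but the trace of an idempotent is its rank (`LinearMap.IsIdempotentElem...
trace`: search `trace` and `IsProj`, `LinearMap.IsProj.trace`), non-zero in characteristic zero. -/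
theorem nilpotent_of_trace {B : End k H} (h : ∀ n : ℕ, 1 ≤ n → LinearMap.trace k H (B ^ n) = 0) :
    IsNilpotent B := by
  by_contra hnil
  have hint : IsIntegral k B := Algebra.IsIntegral.isIntegral B
  have hm0 : minpoly k B ≠ 0 := minpoly.ne_zero hint
  obtain ⟨m₁, hm, hnd⟩ := Polynomial.exists_eq_pow_rootMultiplicity_mul_and_not_dvd (minpoly k B) hm0 0
  rw [Polynomial.C_0, sub_zero] at hm hnd
  set a := Polynomial.rootMultiplicity 0 (minpoly k B) with ha
  have hcop : IsCoprime (Polynomial.X ^ (a + 1) : Polynomial k) m₁ :=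
    IsCoprime.pow_left ((Polynomial.irreducible_X.coprime_iff_not_dvd).mpr hnd)
  obtain ⟨u, v, huv⟩ := hcop
  set p : End k H := Polynomial.aeval B (u * Polynomial.X ^ (a + 1)) with hp
  have hq : Polynomial.aeval B (v * m₁) = 1 - p := by
    have h1 := congrArg (Polynomial.aeval B) huv
    rw [map_add, map_one, ← hp] at h1
    rw [← h1, add_sub_cancel_left]
  have hpq : p * (1 - p) = 0 := by
    rw [← hq, hp, ← map_mul]
    have e1 : u * Polynomial.X ^ (a + 1) * (v * m₁) = (u * v * Polynomial.X) * minpoly k B := by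
      rw [hm]
      ring
    rw [e1, map_mul, minpoly.aeval, mul_zero]
  have hidem : IsIdempotentElem p := by
    rw [mul_sub, mul_one, sub_eq_zero] at hpq
    exact hpq.symm
  have hpne : p ≠ 0 := by
    intro h0
    apply hnil
    refine ⟨a, ?_⟩
    have h1 : Polynomial.aeval B (v * m₁) = 1 := by rw [hq, h0, sub_zero]
    have h2 : B ^ a = Polynomial.aeval B (Polynomial.X ^ a * (v * m₁)) := by
      rw [map_mul, h1, mul_one, map_pow, Polynomial.aeval_X]
    have e2 : Polynomial.X ^ a * (v * m₁) = v * minpoly k B := by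
      rw [hm]
      ring
    rw [h2, e2, map_mul, minpoly.aeval, mul_zero]
  have htr : ∀ q : Polynomial k, LinearMap.trace k H (Polynomial.aeval B (q * Polynomial.X)) = 0 := by
    intro q
    induction q using Polynomial.induction_on' with
    | add q r hq hr => rw [add_mul, map_add, map_add, hq, hr, add_zero]
    | monomial n t =>
      have e1 : Polynomial.aeval B (Polynomial.monomial n t * Polynomial.X) = t • B ^ (n + 1) := by
        rw [Polynomial.monomial_mul_X, Polynomial.aeval_monomial, ← Algebra.smul_def]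
      rw [e1, map_smul, h (n + 1) (Nat.le_add_left 1 n), smul_zero]
  have htp : LinearMap.trace k H p = 0 := by
    have e1 : u * Polynomial.X ^ (a + 1) = (u * Polynomial.X ^ a) * Polynomial.X := by ring
    rw [hp, e1]
    exact htr _
  have hproj := LinearMap.IsIdempotentElem.isProj_range p hidem
  rw [hproj.trace, Nat.cast_eq_zero, Submodule.finrank_eq_zero, LinearMap.range_eq_bot] at htp
  exact hpne htp

/-- Jacobson's lemma. PROOF. `B = Z A - A Z` commutes with `Z`. For `n ≥ 1`,
`B ^ n = B ^ (n-1) (Z A - A Z) = Z (B ^ (n-1) A) - (B ^ (n-1) A) Z`, so `trace (B ^ n) = 0`; use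
`nilpotent_of_trace`. -/
theorem jacobson {Z A : End k H} (hc : Z * (Z * A - A * Z) = (Z * A - A * Z) * Z) :
    IsNilpotent (Z * A - A * Z) := by
  refine nilpotent_of_trace fun n hn => ?_
  obtain ⟨m, rfl⟩ : ∃ m, n = m + 1 := ⟨n - 1, by omega⟩
  have hcm : Commute Z ((Z * A - A * Z) ^ m) := Commute.pow_right hc m
  have e1 : (Z * A - A * Z) ^ (m + 1) =
      Z * ((Z * A - A * Z) ^ m * A) - ((Z * A - A * Z) ^ m * A) * Z := by
    rw [pow_succ, mul_sub, ← mul_assoc Z, hcm.eq, mul_assoc, mul_assoc]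
  rw [e1, map_sub, LinearMap.trace_mul_comm, sub_self]

/-- Cartan's criterion. PROOF. Mathlib: `LieModule.isNilpotent_derivedSeries_of_traceForm_eq_zero`
(file `Mathlib/Algebra/Lie/CartanCriterion.lean`) for the Lie subalgebra `L` of `End k H` with carrier
`I` and the module `H` (`traceForm k L H = 0` is `htr`): `H` is a nilpotent module over `derivedSeries k L 1`, so
(`LieModule.isNilpotent_iff_forall'`) the elements of `derivedSeries k L 1 = ⁅L, L⁆`, which contains all
`X * Y - Y * X` and is a subspace, act nilpotently. -/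
theorem cartan {I : Submodule k (End k H)} (hlie : ∀ X ∈ I, ∀ Y ∈ I, X * Y - Y * X ∈ I)
    (htr : ∀ X ∈ I, ∀ Y ∈ I, LinearMap.trace k H (X * Y) = 0) {Z : End k H}
    (hZ : Z ∈ Submodule.span k {Z | ∃ X ∈ I, ∃ Y ∈ I, Z = X * Y - Y * X}) : IsNilpotent Z :=
  cartan_aux hlie htr hZ

end Pool.Agent.Lib.MP_021685_agO
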