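import Pool.Agent.Lib.MP_021685_agO.OC

/-!
# Block D: Jordan pairs of endomorphisms: splitting
-/

set_option autoImplicit false

namespace Pool.Agent.Lib.MP_021685_agO

open Module

variable {k H : Type*} [Field k] [CharZero k] [IsAlgClosed k] [AddCommGroup H] [Module k H]
  [FiniteDimensional k H] {J J' : Submodule k (End k H)}

/-- Fitting idempotent. PROOF. Let `m` be the minimal polynomial of `B` (`minpoly k B ≠ 0`), `m = X ^ a * m₁` with
`m₁.eval 0 ≠ 0` (`Polynomial.exists_eq_pow_rootMultiplicity_mul_and_not_dvd` at `0`). `X ^ (a+1)` and `m₁` are coprime: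
`u X ^ (a+1) + v m₁ = 1`. Put `q = u * X ^ (a + 1)`, `q.coeff 0 = 0`. `q (1 - q) = u X^(a+1) v m₁` is divisible by `m`, so
`aeval B q` is idempotent. If `aeval B q = 0` then `m ∣ q`, so `m₁ ∣ q` and `m₁ ∣ 1`, `m₁` is a unit and `B ^ a = 0`, contrary
to `hn`. -/
theorem fitting {B : End k H} (hn : ¬ IsNilpotent B) :
    ∃ q : Polynomial k, q.coeff 0 = 0 ∧ Polynomial.aeval B q * Polynomial.aeval B q =
      Polynomial.aeval B q ∧ Polynomial.aeval B q ≠ 0 := by
  have hB : IsIntegral k B := Algebra.IsIntegral.isIntegral B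
  obtain ⟨m₁, hm, hnd⟩ := Polynomial.exists_eq_pow_rootMultiplicity_mul_and_not_dvd (minpoly k B)
    (minpoly.ne_zero hB) 0
  rw [Polynomial.C_0, sub_zero] at hm hnd
  set n := (minpoly k B).rootMultiplicity 0 with hndef
  have hm0 : Polynomial.aeval B (minpoly k B) = 0 := minpoly.aeval k B
  have hco : IsCoprime (Polynomial.X ^ (n + 1) : Polynomial k) m₁ :=
    IsCoprime.pow_left ((Polynomial.irreducible_X.coprime_iff_not_dvd).2 hnd)
  obtain ⟨u, v, huv⟩ := hco
  have hv : v * m₁ = 1 - u * Polynomial.X ^ (n + 1) := by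
    rw [← huv]
    ring
  have hvm : Polynomial.X ^ n * (v * m₁) = v * minpoly k B := by
    rw [hm]
    ring
  refine ⟨u * Polynomial.X ^ (n + 1), ?_, ?_, ?_⟩
  · rw [pow_succ, ← mul_assoc]
    exact Polynomial.coeff_mul_X_zero _
  · have h1 : u * Polynomial.X ^ (n + 1) * (u * Polynomial.X ^ (n + 1)) =
        u * Polynomial.X ^ (n + 1) - u * Polynomial.X * (v * minpoly k B) := by
      rw [← hvm, hv]
      ring
    have h2 : Polynomial.aeval B (u * Polynomial.X * (v * minpoly k B)) = 0 := by
      rw [map_mul, map_mul (Polynomial.aeval B) v, hm0, mul_zero, mul_zero]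
    rw [← map_mul, h1, map_sub, h2, sub_zero]
  · intro h0
    apply hn
    refine ⟨n, ?_⟩
    have h2 : (Polynomial.X ^ n : Polynomial k) =
        Polynomial.X ^ n * (u * Polynomial.X ^ (n + 1)) + v * minpoly k B := by
      rw [← hvm, hv]
      ring
    have h3 : B ^ n = Polynomial.aeval B (Polynomial.X ^ n : Polynomial k) := by
      rw [map_pow, Polynomial.aeval_X]
    rw [h3, h2, map_add, map_mul, h0, map_mul, hm0, mul_zero, mul_zero, add_zero]

private theorem eval_mul_mem {J₀ : Submodule k (End k H)} {B x : End k H}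
    (h : ∀ n : ℕ, B ^ n * x ∈ J₀) (q : Polynomial k) : Polynomial.aeval B q * x ∈ J₀ := by
  rw [Polynomial.aeval_eq_sum_range, Finset.sum_mul]
  refine J₀.sum_mem fun i _ => ?_
  rw [smul_mul_assoc]
  exact J₀.smul_mem _ (h i)

private theorem rank_idem {P : Submodule k H} {Q : End k H} (hQ : Q * Q = Q)
    (hP : ∀ u ∈ P, Q u ∈ P) :
    finrank k P = finrank k (P.map Q) + finrank k (P.map (1 - Q)) := by
  have hQQ : ∀ v, Q (Q v) = Q v := fun v => LinearMap.congr_fun hQ v
  have h1 : P.map Q ⊔ P.map (1 - Q) = P := by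
    apply le_antisymm
    · refine sup_le ?_ ?_
      · rintro _ ⟨u, hu, rfl⟩
        exact hP u hu
      · rintro _ ⟨u, hu, rfl⟩
        exact P.sub_mem hu (hP u hu)
    · intro u hu
      have h2 : u = Q u + (1 - Q) u := by
        simp
      rw [h2]
      exact Submodule.add_mem_sup ⟨u, hu, rfl⟩ ⟨u, hu, rfl⟩
  have h2 : P.map Q ⊓ P.map (1 - Q) = ⊥ := by
    rw [eq_bot_iff]
    rintro v ⟨⟨a, _, ha⟩, ⟨b, _, hb⟩⟩
    have h3 : Q v = v := by
      rw [← ha]
      exact hQQ a
    have h4 : Q v = 0 := by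
      rw [← hb, LinearMap.sub_apply, map_sub, hQQ]
      simp
    rw [Submodule.mem_bot, ← h3, h4]
  have h5 := Submodule.finrank_sup_add_finrank_inf_eq (P.map Q) (P.map (1 - Q))
  rw [h1, h2, finrank_bot, add_zero] at h5
  exact h5

/-- Case 1 of the splitting. Here `E = x y` is idempotent with image `Im x`, `z = x w x ∈ J` and `B = z y = x w x y`,
so `B E = B = E B` and `B x = z`.
PROOF. `B ^ (n + 1) * x = B ^ n * z = (z y) ^ n z ∈ J` (`JPair.pow`), so `p(B) x ∈ J` for every polynomial `p`
(`Polynomial.induction_on'` or the sum formula of `aeval`). Take `q` from `fitting`; `x₁ = q(B) x`, `x₂ = x - x₁ ∈ J`.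
Write `Q = aeval B q`; as `q.coeff 0 = 0`, `Q = B * _ = _ * B`, so `E Q = Q = Q E`.
`x₁ ≠ 0`: `x₁ y = Q x y = Q E = Q ≠ 0`. `x₂ ≠ 0`: by `hni` there is `v = x v' ≠ 0` with `B v = 0`, so `Q v = 0`, and
`x₂ v' = v - Q v = v ≠ 0`. Ranks on a stable `W`: `Q` maps `W` to `W` (it is a polynomial in `B = x w x y`), `P = W.map x` is
stable under `Q` (`Q (x u) = x (y Q x u)` since `Q = E Q = x y Q`), and `W.map x₁ = P.map Q`, `W.map x₂ = P.map (1 - Q)`
(restricted to `P`), with `Q` idempotent: `P` is the direct sum. (`finrank (range p) + finrank (ker p) = finrank P` for the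
restriction `p` of `Q` to `P`, and `range (1 - p) = ker p`.) -/
theorem JPair.split_aux (hJ : JPair J J') {x y w : End k H} (hx : x ∈ J) (hy : y ∈ J')
    (hw : w ∈ J') (h1 : x * y * x = x) (h2 : y * x * y = y)
    (hn : ¬ IsNilpotent (x * w * x * y)) (hni : ∃ v, x v ≠ 0 ∧ (x * w * x * y) (x v) = 0) :
    ∃ x₁ ∈ J, ∃ x₂ ∈ J, x₁ ≠ 0 ∧ x₂ ≠ 0 ∧ x = x₁ + x₂ ∧
      ∀ W : Submodule k H, (∀ X ∈ J, ∀ u ∈ W, X u ∈ W) → (∀ Y ∈ J', ∀ u ∈ W, Y u ∈ W) →
        finrank k (W.map x) = finrank k (W.map x₁) + finrank k (W.map x₂) := by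
  have hz : x * w * x ∈ J := hJ.tri x hx w hw
  have hBx : x * w * x * y * x = x * w * x := by
    rw [mul_assoc, mul_assoc, ← mul_assoc x y x, h1]
  have hEB : x * y * (x * w * x * y) = x * w * x * y := by
    have h3 : x * y * (x * w * x * y) = x * y * x * w * x * y := by
      simp only [mul_assoc]
    rw [h3, h1]
  have hBE : x * w * x * y * (x * y) = x * w * x * y := by
    rw [← mul_assoc, hBx]
  set B := x * w * x * y with hB
  have hpow : ∀ n : ℕ, B ^ n * x ∈ J := by
    intro n
    rcases n with _ | n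
    · rw [pow_zero, one_mul]
      exact hx
    · rw [pow_succ, mul_assoc, hBx]
      exact (hJ.pow n hz hy).1
  obtain ⟨q, hq0, hqq, hqne⟩ := fitting hn
  have hqX : q = Polynomial.divX q * Polynomial.X := by
    have h3 := Polynomial.divX_mul_X_add q
    rw [hq0, Polynomial.C_0, add_zero] at h3
    exact h3.symm
  set Q := Polynomial.aeval B q with hQ
  have hQr : Q = Polynomial.aeval B (Polynomial.divX q) * B := by
    rw [hQ]
    conv_lhs => rw [hqX]
    rw [map_mul, Polynomial.aeval_X]
  have hQl : Q = B * Polynomial.aeval B (Polynomial.divX q) := by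
    rw [hQ]
    conv_lhs => rw [hqX]
    rw [mul_comm, map_mul, Polynomial.aeval_X]
  have hEQ : x * y * Q = Q := by
    rw [hQl, ← mul_assoc, hEB]
  have hQE : Q * (x * y) = Q := by
    rw [hQr, mul_assoc, hBE]
  have hx1 : Q * x ∈ J := eval_mul_mem hpow q
  refine ⟨Q * x, hx1, x - Q * x, J.sub_mem hx hx1, ?_, ?_, ?_, ?_⟩
  · intro h0
    apply hqne
    rw [← hQE, ← mul_assoc, h0, zero_mul]
  · intro h0
    obtain ⟨v, hv0, hv⟩ := hni
    have h3 : Q (x v) = 0 := by
      rw [hQr, Module.End.mul_apply, hv, map_zero]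
    have h4 := LinearMap.congr_fun h0 v
    rw [LinearMap.sub_apply, Module.End.mul_apply, h3, sub_zero, LinearMap.zero_apply] at h4
    exact hv0 h4
  · rw [add_sub_cancel]
  · intro W hWJ hWJ'
    have hP : ∀ u ∈ W.map x, Q u ∈ W.map x := by
      rintro _ ⟨u, hu, rfl⟩
      have h3 : Q (x u) = x (y ((Q * x) u)) := by
        conv_lhs => rw [← hEQ]
        rfl
      rw [h3]
      exact ⟨_, hWJ' y hy _ (hWJ _ hx1 _ hu), rfl⟩
    have h4 := rank_idem hqq hP
    have h5 : (W.map x).map Q = W.map (Q * x) := by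
      rw [← Submodule.map_comp]
      rfl
    have h6 : (W.map x).map (1 - Q) = W.map (x - Q * x) := by
      have h7 : x - Q * x = (1 - Q) * x := by
        rw [sub_mul, one_mul]
      rw [h7, ← Submodule.map_comp]
      rfl
    rw [h5, h6] at h4
    exact h4

/-- Case 2 of the splitting.
PROOF. Let `E = x y` (idempotent, `E x = x`), `r = finrank (range x) = trace E` (the image of `E` is the image of `x`;
`r ≠ 0`), and for `w ∈ J'` let `B w = x w x y = E (x w) E`. Linear in `w`, `B y = E`.
(1) `r * trace (B w * B w) = trace (B w) ^ 2` for all `w ∈ J'`: `B w` maps `range x ≠ ⊥` to itself, let `s` be an eigenvalue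
of the restriction (`k` algebraically closed, `Module.End.exists_eigenvalue`), with an eigenvector `x v ≠ 0`. Put
`w' = w - s y ∈ J'`: `B w' (x v) = B w (x v) - s E (x v) = 0`, so `B w'` is nilpotent by `hn`. `B w = B w' + s E`, and
`trace (B w') = 0`, `trace (B w' * B w') = 0` (nilpotent), `trace (B w' E) = trace (B w') = 0` (`B w' E = B w'`):
`trace (B w) = s r`, `trace (B w * B w) = s² r`.
(2) Polarise (apply (1) to `w + w'`): `r * trace (B w * B w') = trace (B w) * trace (B w')`.
(3) Let `w ∈ J'`, `s = trace (B w) / r`. For `w' ∈ J'`: `trace (B w * B w') = trace (x w x y x w' x y) = trace (x w x w' x y)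
= trace (x y x w x w') = trace (x w x w')` and `trace (B w') = trace (x w' x y) = trace (x y x w') = trace (x w')`. So
`trace ((x w x - s x) w') = 0` for all `w' ∈ J'`, and `x w x = s x` by `nd`. -/
theorem JPair.prim_aux (hJ : JPair J J') {x y : End k H} (hx : x ∈ J) (hx0 : x ≠ 0) (hy : y ∈ J')
    (h1 : x * y * x = x) (h2 : y * x * y = y)
    (hn : ∀ w ∈ J', (∃ v, x v ≠ 0 ∧ (x * w * x * y) (x v) = 0) → IsNilpotent (x * w * x * y)) :
    ∀ w ∈ J', ∃ s : k, x * w * x = s • x := by
  have hEE : x * y * (x * y) = x * y := by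
    rw [← mul_assoc, h1]
  have hEx : ∀ u, (x * y) (x u) = x u := fun u => LinearMap.congr_fun h1 u
  have hr : LinearMap.trace k H (x * y) ≠ 0 := by
    have h3 : LinearMap.IsProj (LinearMap.range (x * y)) (x * y) :=
      ⟨fun u => ⟨u, rfl⟩, by
        rintro _ ⟨u, rfl⟩
        exact LinearMap.congr_fun hEE u⟩
    rw [h3.trace, Nat.cast_ne_zero]
    intro h4
    have h5 : LinearMap.range (x * y) = ⊥ := Submodule.finrank_eq_zero.1 h4
    rw [LinearMap.range_eq_bot] at h5
    apply hx0
    rw [← h1, h5, zero_mul]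
  set r := LinearMap.trace k H (x * y) with hrdef
  have hBE : ∀ w : End k H, x * w * x * y * (x * y) = x * w * x * y := by
    intro w
    have h3 : x * w * x * y * (x * y) = x * w * (x * y * x) * y := by
      simp only [mul_assoc]
    rw [h3, h1]
  have hEB : ∀ w : End k H, x * y * (x * w * x * y) = x * w * x * y := by
    intro w
    have h3 : x * y * (x * w * x * y) = x * y * x * w * x * y := by
      simp only [mul_assoc]
    rw [h3, h1]
  -- step (1)
  have key : ∀ w ∈ J', r * LinearMap.trace k H (x * w * x * y * (x * w * x * y)) =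
      LinearMap.trace k H (x * w * x * y) ^ 2 := by
    intro w hw
    have hmaps : ∀ v ∈ LinearMap.range x, (x * w * x * y) v ∈ LinearMap.range x := by
      intro v _
      exact ⟨(w * x * y) v, by
        rw [← Module.End.mul_apply]
        simp only [mul_assoc]⟩
    have : Nontrivial (LinearMap.range x) := by
      rw [Submodule.nontrivial_iff_ne_bot]
      intro h4
      rw [LinearMap.range_eq_bot] at h4
      exact hx0 h4
    obtain ⟨s, hs⟩ := Module.End.exists_eigenvalue ((x * w * x * y).restrict hmaps)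
    obtain ⟨v, hv⟩ := hs.exists_hasEigenvector
    obtain ⟨⟨_, u, rfl⟩, hv1, hv2⟩ : ∃ v : LinearMap.range x, v ≠ 0 ∧
        (x * w * x * y).restrict hmaps v = s • v := ⟨v, hv.2, hv.apply_eq_smul⟩
    have hxu : x u ≠ 0 := by
      intro h4
      apply hv1
      ext
      exact h4
    have hBu : (x * w * x * y) (x u) = s • x u := congrArg Subtype.val hv2
    have hw' : w - s • y ∈ J' := J'.sub_mem hw (J'.smul_mem _ hy)
    have hB' : x * (w - s • y) * x * y = x * w * x * y - s • (x * y) := by
      rw [mul_sub, sub_mul, sub_mul, mul_smul_comm, smul_mul_assoc, smul_mul_assoc, h1]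
    have hnil := hn _ hw' ⟨u, hxu, by
      rw [hB', LinearMap.sub_apply, LinearMap.smul_apply, hBu, hEx, sub_self]⟩
    have hB'E := hBE (w - s • y)
    have hEB' := hEB (w - s • y)
    set N := x * (w - s • y) * x * y with hN
    have hBN : x * w * x * y = N + s • (x * y) := by
      rw [hB', sub_add_cancel]
    have t1 : LinearMap.trace k H N = 0 :=
      (LinearMap.isNilpotent_trace_of_isNilpotent hnil).eq_zero
    have t2 : LinearMap.trace k H (N * N) = 0 :=
      (LinearMap.isNilpotent_trace_of_isNilpotent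
        ((Commute.refl N).isNilpotent_mul_right hnil)).eq_zero
    have t3 : LinearMap.trace k H (x * w * x * y) = s * r := by
      rw [hBN, map_add, map_smul, t1, zero_add, smul_eq_mul]
    have t4 : x * w * x * y * (x * w * x * y) = N * N + (2 * s) • N + (s * s) • (x * y) := by
      rw [hBN, add_mul, mul_add, mul_add, mul_smul_comm, hB'E, smul_mul_assoc, hEB',
        smul_mul_smul_comm, hEE, two_mul, add_smul]
      abel
    rw [t3, t4, map_add, map_add, map_smul, map_smul, t2, t1, smul_eq_mul, smul_eq_mul]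
    ring
  -- step (2)
  have key2 : ∀ w ∈ J', ∀ w' ∈ J', r * LinearMap.trace k H (x * w * x * y * (x * w' * x * y)) =
      LinearMap.trace k H (x * w * x * y) * LinearMap.trace k H (x * w' * x * y) := by
    intro w hw w' hw'
    have e1 := key w hw
    have e2 := key w' hw'
    have e3 := key (w + w') (J'.add_mem hw hw')
    have e4 : x * (w + w') * x * y = x * w * x * y + x * w' * x * y := by
      rw [mul_add, add_mul, add_mul]
    have e5 : LinearMap.trace k H (x * w' * x * y * (x * w * x * y)) =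
        LinearMap.trace k H (x * w * x * y * (x * w' * x * y)) := LinearMap.trace_mul_comm k _ _
    rw [e4, add_mul, mul_add, mul_add, map_add, map_add, map_add, map_add, e5] at e3
    have e6 : 2 * (r * LinearMap.trace k H (x * w * x * y * (x * w' * x * y))) =
        2 * (LinearMap.trace k H (x * w * x * y) * LinearMap.trace k H (x * w' * x * y)) := by
      linear_combination e3 - e1 - e2
    exact mul_left_cancel₀ two_ne_zero e6
  -- step (3)
  intro w hw
  refine ⟨LinearMap.trace k H (x * w * x * y) / r, ?_⟩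
  rw [← sub_eq_zero]
  refine hJ.nd _ (J.sub_mem (hJ.tri x hx w hw) (J.smul_mem _ hx)) fun w' hw' => ?_
  have e1 : LinearMap.trace k H (x * w * x * y * (x * w' * x * y)) =
      LinearMap.trace k H (x * w * x * w') := by
    have e2 : x * w * x * y * (x * w' * x * y) = x * w * (x * y * x) * w' * (x * y) := by
      simp only [mul_assoc]
    rw [e2, h1, LinearMap.trace_mul_comm]
    have e3 : x * y * (x * w * x * w') = x * y * x * w * x * w' := by
      simp only [mul_assoc]
    rw [e3, h1]
  have e4 : LinearMap.trace k H (x * w' * x * y) = LinearMap.trace k H (x * w') := by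
    have e2 : x * w' * x * y = x * w' * (x * y) := by
      simp only [mul_assoc]
    rw [e2, LinearMap.trace_mul_comm]
    have e3 : x * y * (x * w') = x * y * x * w' := by
      simp only [mul_assoc]
    rw [e3, h1]
  have e5 := key2 w hw w' hw'
  rw [e1, e4] at e5
  rw [sub_mul, smul_mul_assoc, map_sub, map_smul, smul_eq_mul, sub_eq_zero]
  field_simp
  linear_combination e5

/-- An element of `J` is primitive or it splits.
PROOF. Take a partner `y` (`JPair.partner`), and use `split_aux` or `prim_aux`. -/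
theorem JPair.split (hJ : JPair J J') {x : End k H} (hx : x ∈ J) (hx0 : x ≠ 0) :
    (∀ w ∈ J', ∃ s : k, x * w * x = s • x) ∨
    ∃ x₁ ∈ J, ∃ x₂ ∈ J, x₁ ≠ 0 ∧ x₂ ≠ 0 ∧ x = x₁ + x₂ ∧
      ∀ W : Submodule k H, (∀ X ∈ J, ∀ u ∈ W, X u ∈ W) → (∀ Y ∈ J', ∀ u ∈ W, Y u ∈ W) →
        finrank k (W.map x) = finrank k (W.map x₁) + finrank k (W.map x₂) := by
  obtain ⟨y, hy, h1, h2⟩ := hJ.partner hx
  by_cases h : ∃ w ∈ J', (∃ v, x v ≠ 0 ∧ (x * w * x * y) (x v) = 0) ∧
      ¬ IsNilpotent (x * w * x * y)
  · obtain ⟨w, hw, hni, hn⟩ := h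
    exact Or.inr (hJ.split_aux hx hy hw h1 h2 hn hni)
  · left
    refine hJ.prim_aux hx hx0 hy h1 h2 fun w hw hv => ?_
    by_contra hn
    exact h ⟨w, hw, hv, hn⟩

end Pool.Agent.Lib.MP_021685_agO
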