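import Pool.Agent.Lib.MP_021685_agO.OB2
import Pool.Agent.Lib.MP_021685_agO.OD

/-!
# Block E: a primitive idempotent pair
-/

set_option autoImplicit false

namespace Pool.Agent.Lib.MP_021685_agO

open Module

variable {k H : Type*} [Field k] [CharZero k] [IsAlgClosed k] [AddCommGroup H] [Module k H]
  [FiniteDimensional k H] {g : Submodule k (End k H)} {c : End k H → k} {W : Submodule k H}

/-- Among the elements of `gm g h` whose rank on `W` is odd or two choose one, `e`, of smallest total rank
`finrank k (range e)`; it is primitive.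
PROOF. `J = gm g h`, `J' = gp g h` is a Jordan pair (`jpair_gm`). Let `e ∈ J` with `OddOrTwo (finrank k (W.map e))`
and `finrank k (LinearMap.range e)` minimal (`Nat.find` or strong induction on the total rank, starting with `x`).
`e ≠ 0` (the rank of `0` is `0`, not odd nor two). If `e` was not primitive, by `JPair.split` `e = x₁ + x₂`; `W` is stable
under `J ≤ g` and `J' ≤ g`, and so is `⊤`; so `finrank (W.map e) = finrank (W.map x₁) + finrank (W.map x₂)`, and (for `⊤`,
`Submodule.map_top`) the total ranks of `x₁`, `x₂`, which are positive, add up to that of `e`. One of the two ranks on `W` is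
odd or two: contradiction with minimality. Let `f` be a partner of `e` (`JPair.partner`). -/
theorem exists_prim_gm (hg : IsGaloisAlg g c) (hst : IsStable g W) {h x : End k H}
    (hh : IsHodgeElt g c h) (hx : x ∈ gm g h) (ho : OddOrTwo (finrank k (W.map x))) :
    ∃ e f, Prim g h e f ∧ OddOrTwo (finrank k (W.map e)) := by
  have hJ := jpair_gm hg hh
  have hWm : ∀ X ∈ gm g h, ∀ u ∈ W, X u ∈ W := fun X hX u hu => hst X hX.1 u hu
  have hWp : ∀ X ∈ gp g h, ∀ u ∈ W, X u ∈ W := fun X hX u hu => hst X hX.1 u hu
  induction hn : finrank k (LinearMap.range x) using Nat.strong_induction_on generalizing x with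
  | _ n ih =>
  have hx0 : x ≠ 0 := by
    rintro rfl
    have h0 : W.map (0 : End k H) = ⊥ := Submodule.map_zero W
    rw [h0, finrank_bot] at ho
    rcases ho with h1 | h1
    · exact absurd h1 (by decide)
    · exact absurd h1 (by norm_num)
  rcases hJ.split hx hx0 with h1 | ⟨x₁, hx₁, x₂, hx₂, h10, h20, hsum, hrk⟩
  · obtain ⟨f, hf, hefe, hfef⟩ := hJ.partner hx
    exact ⟨x, f, { he := hx, hf := hf, efe := hefe, fef := hfef, prim := h1 }, ho⟩
  · have hW' := hrk W hWm hWp
    have hT := hrk ⊤ (fun _ _ _ _ => Submodule.mem_top) (fun _ _ _ _ => Submodule.mem_top)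
    rw [Submodule.map_top, Submodule.map_top, Submodule.map_top] at hT
    have pos : ∀ z : End k H, z ≠ 0 → 0 < finrank k (LinearMap.range z) := by
      intro z hz
      rw [Module.finrank_pos_iff, Submodule.nontrivial_iff_ne_bot]
      intro h0
      exact hz (LinearMap.range_eq_bot.1 h0)
    have p1 := pos x₁ h10
    have p2 := pos x₂ h20
    have hor : OddOrTwo (finrank k (W.map x₁)) ∨ OddOrTwo (finrank k (W.map x₂)) := by
      rw [hW'] at ho
      unfold OddOrTwo at *
      rcases ho with h1 | h1
      · rw [Nat.odd_iff] at h1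
        rw [Nat.odd_iff, Nat.odd_iff]
        omega
      · rw [Nat.odd_iff, Nat.odd_iff]
        omega
    rcases hor with h1 | h1
    · exact ih _ (by omega) hx₁ h1 rfl
    · exact ih _ (by omega) hx₂ h1 rfl

/-- PROOF. `h N - N h = -N` means: `h N h = h N + ..`: multiply by `h` on the left: `h N - h N h = - h N`, and on the right:
`h N h - N h = - N h`, so `h N h = 0`, `h N = 0` (characteristic zero) and `N h = N`: `N ∈ gm g h`. In the same way
`h N - N h = N` gives `N ∈ gp g h`; then take a partner `x ∈ gm g h` of `N` (`JPair.partner'`), of the same rank on `W`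
(`rank_partner`). Apply `exists_prim_gm`. -/
theorem exists_prim (hg : IsGaloisAlg g c) (hst : IsStable g W) {N : End k H}
    (hN : IsMonodromy g c N) (ho : OddOrTwo (finrank k (W.map N))) :
    ∃ h e f, IsHodgeElt g c h ∧ Prim g h e f ∧ OddOrTwo (finrank k (W.map e)) := by
  obtain ⟨hNg, h, hh, hd⟩ := hN
  have h2 : h * h = h := hh.2.1
  have two : (2 : k) ≠ 0 := two_ne_zero
  have hJ := jpair_gm hg hh
  rcases hd with hd | hd
  · -- `N` has degree `1`
    have e1 : h * N * h = 0 := by
      have h3 := congrArg (fun Z => Z * h) hd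
      simp only [sub_mul, mul_assoc] at h3
      rw [h2] at h3
      have h4 : h * (N * h) = (2 : k) • (N * h) := by
        rw [two_smul, ← sub_eq_iff_eq_add, h3]
      have h5 := congrArg (fun Z => h * Z) h4
      simp only [mul_smul_comm, ← mul_assoc] at h5
      rw [h2] at h5
      rw [two_smul] at h5
      exact left_eq_add.1 h5
    have e2 : N * h = 0 := by
      have h3 := congrArg (fun Z => Z * h) hd
      simp only [sub_mul] at h3
      rw [e1, zero_sub, mul_assoc, h2] at h3
      have h4 : (2 : k) • (N * h) = 0 := by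
        rw [two_smul]
        nth_rewrite 1 [← h3]
        exact neg_add_cancel _
      exact (smul_eq_zero.1 h4).resolve_left two
    have e3 : h * N = N := by rw [e2, sub_zero] at hd; exact hd
    have hNp : N ∈ gp g h := ⟨hNg, e3, e2⟩
    obtain ⟨x, hx, h3, h4⟩ := hJ.partner' hNp
    have hrk : finrank k (W.map x) = finrank k (W.map N) :=
      rank_partner h3 h4 (fun u hu => hst x hx.1 u hu) (fun u hu => hst N hNg u hu)
    rw [← hrk] at ho
    obtain ⟨e, f, h5, h6⟩ := exists_prim_gm hg hst hh hx ho
    exact ⟨h, e, f, hh, h5, h6⟩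
  · -- `N` has degree `-1`
    have e1 : h * N * h = 0 := by
      have h3 := congrArg (fun Z => h * Z) hd
      simp only [mul_sub, ← mul_assoc, mul_neg] at h3
      rw [h2] at h3
      have h4 : h * N * h = (2 : k) • (h * N) := by
        rw [two_smul]
        calc h * N * h = h * N - (h * N - h * N * h) := by abel
          _ = h * N + h * N := by rw [h3, sub_neg_eq_add]
      have h5 := congrArg (fun Z => Z * h) h4
      simp only [smul_mul_assoc] at h5
      rw [mul_assoc, h2] at h5
      rw [two_smul] at h5
      exact left_eq_add.1 h5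
    have e2 : h * N = 0 := by
      have h3 := congrArg (fun Z => h * Z) hd
      simp only [mul_sub, ← mul_assoc, mul_neg] at h3
      rw [h2, e1, sub_zero] at h3
      have h4 : (2 : k) • (h * N) = 0 := by
        rw [two_smul]
        nth_rewrite 1 [h3]
        exact neg_add_cancel _
      exact (smul_eq_zero.1 h4).resolve_left two
    have e3 : N * h = N := by
      rw [e2, zero_sub, neg_inj] at hd
      exact hd
    have hNm : N ∈ gm g h := ⟨hNg, e3, e2⟩
    obtain ⟨e, f, h5, h6⟩ := exists_prim_gm hg hst hh hNm ho
    exact ⟨h, e, f, hh, h5, h6⟩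

end Pool.Agent.Lib.MP_021685_agO
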