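import Pool.Agent.Lib.MP_021685_agO.OB2

/-!
# Block F: first properties of a primitive pair
-/

set_option autoImplicit false

namespace Pool.Agent.Lib.MP_021685_agO

open Module

variable {k H : Type*} [Field k] [CharZero k] [AddCommGroup H] [Module k H] [FiniteDimensional k H]
  {g : Submodule k (End k H)} {c : End k H → k}

private theorem ad_mem (hg : IsGaloisAlg g c) {h e f : End k H} (hp : Prim g h e f) :
    ∀ X ∈ g, tau e f * X - X * tau e f ∈ g := fun X hX =>
  hg.lie _ (hp.toPair.tau_mem hg.lie) X hX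

private theorem tr_zero {T Z B : End k H} {j : k} (hZ : T * Z - Z * T = -Z)
    (hB : T * B - B * T = j • B) (hj : j ≠ 1) : LinearMap.trace k H (Z * B) = 0 := by
  have h1 : j * LinearMap.trace k H (Z * B) = LinearMap.trace k H (Z * B) := by
    calc j * LinearMap.trace k H (Z * B) = LinearMap.trace k H (Z * (T * B - B * T)) := by
          rw [hB, mul_smul_comm, map_smul, smul_eq_mul]
      _ = LinearMap.trace k H (Z * T * B) - LinearMap.trace k H (Z * B * T) := by
          rw [mul_sub, map_sub, mul_assoc, mul_assoc]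
      _ = LinearMap.trace k H (Z * T * B) - LinearMap.trace k H (T * Z * B) := by
          rw [LinearMap.trace_mul_comm k (Z * B) T, mul_assoc T Z B]
      _ = LinearMap.trace k H (-((T * Z - Z * T) * B)) := by
          rw [← map_sub]
          congr 1
          noncomm_ring
      _ = LinearMap.trace k H (Z * B) := by rw [hZ, neg_mul, neg_neg]
  have h2 : (j - 1) * LinearMap.trace k H (Z * B) = 0 := by
    rw [sub_mul, h1, one_mul, sub_self]
  exact (mul_eq_zero.1 h2).resolve_left (sub_ne_zero.2 hj)

/-- PROOF. `f y f ∈ gp g h` for `y ∈ gm g h` (`jpair_gm`, `tri'`), so `e (f y f) e = s e`, and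
`f y f = f e f y f e f = f (e (f y f) e) f = s f e f = s f`. -/
theorem Prim.prim' (hg : IsGaloisAlg g c) {h e f : End k H} (hh : IsHodgeElt g c h)
    (hp : Prim g h e f) {y : End k H} (hy : y ∈ gm g h) : ∃ s : k, f * y * f = s • f := by
  have hj := jpair_gm hg hh
  obtain ⟨s, hs⟩ := hp.prim _ (hj.tri' y hy f hp.hf)
  refine ⟨s, ?_⟩
  have h1 : f * y * f = f * (e * (f * y * f) * e) * f := by
    calc f * y * f = (f * e * f) * y * (f * e * f) := by rw [hp.fef]
      _ = f * (e * (f * y * f) * e) * f := by noncomm_ring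
  rw [h1, hs, mul_smul_comm, smul_mul_assoc, hp.fef]

/-- The component of degree `2` of an element of `g` is a multiple of `e`.
PROOF. `y = c2 e f X = e f X f e ∈ g` (`Pair.comp_mem` for `S = g`) and `y h = y`, `h y = 0` (`tableH`), so `y ∈ gm g h`, and
`f y f = s f` by `prim'`; `y = e f y f e = e (f y f) e = s e f e = s e`. -/
theorem Prim.g2 (hg : IsGaloisAlg g c) {h e f : End k H} (hh : IsHodgeElt g c h)
    (hp : Prim g h e f) {X : End k H} (hX : X ∈ g) : ∃ s : k, c2 e f X = s • e := by
  have hc := (hp.toPair.comp_mem (ad_mem hg hp) hX).2.2.2.2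
  obtain ⟨t1, t2, t3, t4, t5, t6⟩ := hp.toPair.tableH
  have hm : c2 e f X ∈ gm g h := by
    refine mem_gm.2 ⟨hc, ?_, ?_⟩
    · unfold c2
      rw [mul_assoc (e * f * X), t4]
    · unfold c2
      rw [← mul_assoc h (e * f * X) (f * e), ← mul_assoc h (e * f) X, t1, zero_mul, zero_mul]
  obtain ⟨s, hs⟩ := hp.prim' hg hh hm
  refine ⟨s, ?_⟩
  obtain ⟨a1, a2, a3⟩ := hp.toPair.table
  have h1 : c2 e f X = e * (f * c2 e f X * f) * e := by
    calc c2 e f X = (e * f * (e * f)) * X * (f * e * (f * e)) := by rw [a1, a2]; rfl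
      _ = e * (f * (e * f * X * (f * e)) * f) * e := by noncomm_ring
      _ = _ := rfl
  rw [h1, hs, mul_smul_comm, smul_mul_assoc, hp.efe]

/-- PROOF. `y = d2 e f X = f e X e f ∈ gp g h`, `e y e = s e` by primitivity, `y = f e y e f = f (e y e) f = s f`. -/
theorem Prim.g2' (hg : IsGaloisAlg g c) {h e f : End k H} (hh : IsHodgeElt g c h)
    (hp : Prim g h e f) {X : End k H} (hX : X ∈ g) : ∃ s : k, d2 e f X = s • f := by
  have hc := (hp.toPair.comp_mem (ad_mem hg hp) hX).1
  obtain ⟨t1, t2, t3, t4, t5, t6⟩ := hp.toPair.tableH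
  have hm : d2 e f X ∈ gp g h := by
    refine mem_gp.2 ⟨hc, ?_, ?_⟩
    · unfold d2
      rw [← mul_assoc h (f * e * X) (e * f), ← mul_assoc h (f * e) X, t3]
    · unfold d2
      rw [mul_assoc (f * e * X), t2, mul_zero]
  obtain ⟨s, hs⟩ := hp.prim _ hm
  refine ⟨s, ?_⟩
  obtain ⟨a1, a2, a3⟩ := hp.toPair.table
  have h1 : d2 e f X = f * (e * d2 e f X * e) * f := by
    calc d2 e f X = (f * e * (f * e)) * X * (e * f * (e * f)) := by rw [a1, a2]; rfl
      _ = f * (e * (f * e * X * (e * f)) * e) * f := by noncomm_ring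
      _ = _ := rfl
  rw [h1, hs, mul_smul_comm, smul_mul_assoc, hp.fef]

/-- Elements commuting with `tau` act on the line `k e` and on the line `k f` by opposite scalars.
PROOF. `Z = X e - e X ∈ g`. `X` commutes with `e f`, `f e` (`Pair.comm_of_comm`), so `Z = e f Z f e = c2 e f Z`
(`e = e f e f e`..., `Pair.tableE`) `= s e` by `g2`; in the same way `X f - f X = s' f`. From
`0 = X tau - tau X = (X e - e X) f + e (X f - f X) - (X f - f X) e - f (X e - e X) = (s + s') (e f - f e)` and
`tau e f ≠ 0` (if `e = 0` both statements are trivial with `s = 0`... if `e ≠ 0` then `tau * e = e ≠ 0`) `s' = - s`.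
(If `e = 0` then `f = f e f = 0` and `s = 0` works.) -/
theorem Prim.brk (hg : IsGaloisAlg g c) {h e f : End k H} (hh : IsHodgeElt g c h)
    (hp : Prim g h e f) {X : End k H} (hX : X ∈ g) (hc : X * tau e f = tau e f * X) :
    ∃ s : k, X * e - e * X = s • e ∧ X * f - f * X = (-s) • f := by
  obtain ⟨b1, b2, b3⟩ := hp.toPair.comm_of_comm hc
  have heg : e ∈ g := (mem_gm.1 hp.he).1
  have hfg : f ∈ g := (mem_gp.1 hp.hf).1
  have hefe := hp.efe
  have hfef := hp.fef
  obtain ⟨s, hs⟩ := hp.g2 hg hh (hg.lie X hX e heg)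
  obtain ⟨s', hs'⟩ := hp.g2' hg hh (hg.lie X hX f hfg)
  have h1 : c2 e f (X * e - e * X) = X * e - e * X := by
    have p1 : e * f * (X * e) * (f * e) = X * e := by
      calc e * f * (X * e) * (f * e) = (e * f * X) * (e * f * e) := by noncomm_ring
        _ = X * (e * f * e) := by rw [← b1, hefe]; rw [mul_assoc, hefe]
        _ = X * e := by rw [hefe]
    have p2 : e * f * (e * X) * (f * e) = e * X := by
      calc e * f * (e * X) * (f * e) = (e * f * e) * (X * (f * e)) := by noncomm_ring
        _ = e * (f * e * X) := by rw [hefe, b2]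
        _ = (e * f * e) * X := by noncomm_ring
        _ = e * X := by rw [hefe]
    unfold c2
    rw [mul_sub, sub_mul, p1, p2]
  have h2 : d2 e f (X * f - f * X) = X * f - f * X := by
    have p1 : f * e * (X * f) * (e * f) = X * f := by
      calc f * e * (X * f) * (e * f) = (f * e * X) * (f * e * f) := by noncomm_ring
        _ = X * (f * e * f) := by rw [← b2, hfef]; rw [mul_assoc, hfef]
        _ = X * f := by rw [hfef]
    have p2 : f * e * (f * X) * (e * f) = f * X := by
      calc f * e * (f * X) * (e * f) = (f * e * f) * (X * (e * f)) := by noncomm_ring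
        _ = f * (e * f * X) := by rw [hfef, b1]
        _ = (f * e * f) * X := by noncomm_ring
        _ = f * X := by rw [hfef]
    unfold d2
    rw [mul_sub, sub_mul, p1, p2]
  rw [h1] at hs
  rw [h2] at hs'
  by_cases he0 : e = 0
  · have hf0 : f = 0 := by rw [← hfef, he0, mul_zero, zero_mul]
    exact ⟨0, by rw [he0]; simp, by rw [hf0]; simp⟩
  · have h3 : (s + s') • tau e f = 0 := by
      have h4 : X * tau e f - tau e f * X =
          (X * e - e * X) * f + e * (X * f - f * X) - (X * f - f * X) * e -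
            f * (X * e - e * X) := by
        unfold tau
        noncomm_ring
      rw [hc, sub_self, hs, hs', smul_mul_assoc, mul_smul_comm, smul_mul_assoc,
        mul_smul_comm] at h4
      rw [h4]
      unfold tau
      rw [smul_sub, add_smul, add_smul]
      abel
    have h5 : tau e f ≠ 0 := by
      intro h6
      obtain ⟨-, -, -, -, -, -, -, -, -, -, -, -, t, -⟩ := hp.toPair.tableE
      rw [h6, zero_mul] at t
      exact he0 t.symm
    have h6 : s + s' = 0 := (smul_eq_zero.1 h3).resolve_right h5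
    refine ⟨s, hs, ?_⟩
    rw [hs', ← eq_neg_of_add_eq_zero_right h6]

/-- The bracket of two elements of degree `1` is a multiple of `e`.
PROOF. `Z = X Y - Y X ∈ g` and `[tau, Z] = 2 Z`; `Z = c2 e f Z`: from `sum_comp`, `ad_comp`, `2 Z = [tau, Z]` (multiply by
the idempotents, or note that `X = c1 e f X`, `Y = c1 e f Y` (`Pair.eq_c1`), so `X * Y = e f X rr Y f e`). Use `g2`. -/
theorem Prim.brk1 (hg : IsGaloisAlg g c) {h e f : End k H} (hh : IsHodgeElt g c h)
    (hp : Prim g h e f) {X Y : End k H} (hX : X ∈ g) (hY : Y ∈ g)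
    (hX1 : tau e f * X - X * tau e f = X) (hY1 : tau e f * Y - Y * tau e f = Y) :
    ∃ s : k, X * Y - Y * X = s • e := by
  obtain ⟨s, hs⟩ := hp.g2 hg hh (hg.lie X hX Y hY)
  refine ⟨s, ?_⟩
  rw [← hs]
  have key : ∀ A B : End k H, c1 e f A = A → c1 e f B = B → e * f * (A * B) * (f * e) = A * B := by
    intro A B hA hB
    obtain ⟨a1, a2, a3, a4, a5, a6, a7, a8, a9, -⟩ := hp.toPair.table
    have h1 : A * B = e * f * A * (rr e f * rr e f) * B * (f * e) := by
      calc A * B = c1 e f A * c1 e f B := by rw [hA, hB]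
        _ = e * f * A * (rr e f * (e * f)) * B * rr e f +
            e * f * A * (rr e f * rr e f) * B * (f * e) +
            rr e f * A * (f * e * (e * f)) * B * rr e f +
            rr e f * A * (f * e * rr e f) * B * (f * e) := by
          unfold c1
          noncomm_ring
        _ = _ := by
          rw [a4, a7, a8]
          simp only [mul_zero, zero_mul, zero_add, add_zero]
    have h2 : e * f * (A * B) * (f * e) =
        (e * f * (e * f)) * A * (rr e f * rr e f) * B * (f * e * (f * e)) := by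
      rw [h1]
      noncomm_ring
    rw [h2, a1, a2, ← h1]
  have hX2 := hp.toPair.eq_c1 hX1
  have hY2 := hp.toPair.eq_c1 hY1
  unfold c2
  rw [mul_sub, sub_mul, key X Y hX2 hY2, key Y X hY2 hX2]

/-- The pairing `g^(1) × g^(1) → k e` is non-degenerate.
PROOF. Suppose `X Y - Y X = 0` for all `Y ∈ g` of degree `1`. Put `Z = X f - f X ∈ g`, of degree `-1`... and let us show
`trace (Y Z) = 0` for all `Y ∈ g` of degree `1`: `trace (Y (X f - f X)) = trace ((Y X - X Y) f) = 0`. By the analogue of
`nd_deg1` for degree `-1` (for `A ∈ g`, `trace (A Z) = trace (c1 e f A * Z) = 0`, so `Z` commutes with `g` by `radical`, and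
`Z = -[tau, Z] = 0`), `Z = 0`: `X f = f X`. As `X = e f X rr + rr X f e` (`eq_c1`):
`X f = rr X f` (`= rr X (f e) f`) and `f X = f X rr`; so `rr X f = f X rr`; multiply on the left by `rr`: `rr X f = 0`, and
`f X rr = 0`, so `rr X f e = 0` and `e f X rr = 0`, `X = 0`. -/
theorem Prim.nd11 (hg : IsGaloisAlg g c) {h e f : End k H} (hh : IsHodgeElt g c h)
    (hp : Prim g h e f) {X : End k H} (hX : X ∈ g) (hX1 : tau e f * X - X * tau e f = X)
    (h0 : ∀ Y ∈ g, tau e f * Y - Y * tau e f = Y → X * Y - Y * X = 0) : X = 0 := by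
  have heg : e ∈ g := (mem_gm.1 hp.he).1
  have hfg : f ∈ g := (mem_gp.1 hp.hf).1
  have htau : tau e f ∈ g := hp.toPair.tau_mem hg.lie
  obtain ⟨u1, u2, u3, u4, u5, u6, u7, u8, u9, u10, u11, u12, u13, u14, u15, u16⟩ :=
    hp.toPair.tableE
  set Z := X * f - f * X with hZ
  have hZg : Z ∈ g := hg.lie X hX f hfg
  have hZ1 : tau e f * Z - Z * tau e f = -Z := by
    have h1 : tau e f * Z - Z * tau e f =
        (tau e f * X - X * tau e f) * f + X * (tau e f * f - f * tau e f) -
          (tau e f * f - f * tau e f) * X - f * (tau e f * X - X * tau e f) := by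
      rw [hZ]
      noncomm_ring
    rw [h1, hX1, u15, u16, hZ]
    noncomm_ring
  have hZ0 : ∀ Y ∈ g, tau e f * Y - Y * tau e f = Y → LinearMap.trace k H (Z * Y) = 0 := by
    intro Y hY hY1
    have h1 : LinearMap.trace k H (Z * Y) = LinearMap.trace k H ((Y * X - X * Y) * f) := by
      have h2 : LinearMap.trace k H (Y * (f * X)) = LinearMap.trace k H (X * Y * f) := by
        rw [← mul_assoc, LinearMap.trace_mul_comm, ← mul_assoc]
      rw [LinearMap.trace_mul_comm, hZ, mul_sub, sub_mul, map_sub, map_sub, h2, mul_assoc Y X f]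
    have h2 : Y * X - X * Y = 0 := by
      rw [← neg_sub, h0 Y hY hY1, neg_zero]
    rw [h1, h2, zero_mul, map_zero]
  have hZz : Z = 0 := by
    have h1 : ∀ A ∈ g, LinearMap.trace k H (Z * A) = 0 := by
      intro A hA
      obtain ⟨m1, m2, m3, m4, m5⟩ := hp.toPair.comp_mem (ad_mem hg hp) hA
      obtain ⟨n1, n2, n3, n4, n5⟩ := hp.toPair.ad_comp A
      rw [← sum_comp e f A, mul_add, mul_add, mul_add, mul_add, map_add, map_add, map_add, map_add,
        tr_zero (j := -2) hZ1 n1 (by norm_num),
        tr_zero (j := -1) hZ1 (by rw [n2, neg_one_smul]) (by norm_num),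
        tr_zero (j := 0) hZ1 (by rw [n3, zero_smul]) (by norm_num),
        tr_zero (j := 2) hZ1 n5 (by norm_num), hZ0 _ m4 n4]
      simp
    have h2 := radical hg hZg h1 _ htau
    rw [h2, sub_self] at hZ1
    rw [← neg_eq_zero, ← hZ1]
  have hXf : X * f = f * X := sub_eq_zero.1 hZz
  have hXc := hp.toPair.eq_c1 hX1
  obtain ⟨a1, a2, a3, a4, a5, a6, a7, a8, a9, -⟩ := hp.toPair.table
  have h1 : X * f = rr e f * X * f := by
    calc X * f = c1 e f X * f := by rw [hXc]
      _ = e * f * X * (rr e f * f) + rr e f * X * (f * e * f) := by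
        unfold c1
        noncomm_ring
      _ = _ := by rw [u11, u6, mul_zero, zero_add]
  have h2 : f * X = f * X * rr e f := by
    calc f * X = f * c1 e f X := by rw [hXc]
      _ = (f * (e * f)) * X * rr e f + (f * rr e f) * X * (f * e) := by
        unfold c1
        noncomm_ring
      _ = _ := by rw [u5, u12, zero_mul, zero_mul, add_zero]
  have h3 : rr e f * X * f = 0 := by
    calc rr e f * X * f = rr e f * rr e f * X * f := by rw [a5]
      _ = rr e f * (rr e f * X * f) := by noncomm_ring
      _ = rr e f * (f * X) := by rw [← h1, hXf]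
      _ = (rr e f * f) * X := by rw [mul_assoc]
      _ = 0 := by rw [u11, zero_mul]
  have h4 : f * X * rr e f = 0 := by
    rw [← h2, ← hXf, h1, h3]
  calc X = c1 e f X := hXc.symm
    _ = e * (f * X * rr e f) + (rr e f * X * f) * e := by
      unfold c1
      noncomm_ring
    _ = 0 := by rw [h3, h4, mul_zero, zero_mul, add_zero]

end Pool.Agent.Lib.MP_021685_agO
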