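import Pool.Agent.Lib.MP_021685_agO.OA

/-!
# Block G: generation from the image of `e`
-/

set_option autoImplicit false

namespace Pool.Agent.Lib.MP_021685_agO

open Module

variable {k H : Type*} [Field k] [CharZero k] [AddCommGroup H] [Module k H]
  {g : Submodule k (End k H)} {c : End k H → k}

/-- The elements of `g` of degree `j` with respect to `T`. -/
private def OG_gd (g : Submodule k (End k H)) (T : End k H) (j : k) : Submodule k (End k H) where
  carrier := {X | X ∈ g ∧ T * X - X * T = j • X}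
  add_mem' := by
    rintro X Y ⟨h1, h2⟩ ⟨h3, h4⟩
    refine ⟨g.add_mem h1 h3, ?_⟩
    rw [mul_add, add_mul, add_sub_add_comm, h2, h4, smul_add]
  zero_mem' := ⟨g.zero_mem, by rw [mul_zero, zero_mul, sub_zero, smul_zero]⟩
  smul_mem' := by
    rintro a X ⟨h1, h2⟩
    refine ⟨g.smul_mem a h1, ?_⟩
    rw [mul_smul_comm, smul_mul_assoc, ← smul_sub, h2, smul_comm]

/-- The eigenspace of `T` with the eigenvalue `i`. -/
private def OG_ev (T : End k H) (i : k) : Submodule k H where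
  carrier := {v | T v = i • v}
  add_mem' := by
    intro v w hv hw
    have hv' : T v = i • v := hv
    have hw' : T w = i • w := hw
    change T (v + w) = i • (v + w)
    rw [map_add, hv', hw', smul_add]
  zero_mem' := by
    change T 0 = i • (0 : H)
    rw [map_zero, smul_zero]
  smul_mem' := by
    intro a v hv
    have hv' : T v = i • v := hv
    change T (a • v) = i • (a • v)
    rw [map_smul, hv', smul_comm]

/-- The span of the vectors `X u`, `X ∈ G`, `u ∈ Q`. -/
private def OG_act (G : Submodule k (End k H)) (Q : Submodule k H) : Submodule k H :=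
  Submodule.span k {v | ∃ X ∈ G, ∃ u ∈ Q, X u = v}

omit [CharZero k] in
private theorem OG_act_mem {G : Submodule k (End k H)} {Q : Submodule k H} {X : End k H} {u : H}
    (hX : X ∈ G) (hu : u ∈ Q) : X u ∈ OG_act G Q :=
  Submodule.subset_span ⟨X, hX, u, hu, rfl⟩

omit [CharZero k] in
private theorem OG_act_le {G : Submodule k (End k H)} {Q R : Submodule k H}
    (h : ∀ X ∈ G, ∀ u ∈ Q, X u ∈ R) : OG_act G Q ≤ R := by
  refine Submodule.span_le.2 ?_
  rintro v ⟨X, hX, u, hu, rfl⟩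
  exact h X hX u hu

omit [CharZero k] in
/-- A linear map sends the span of the vectors `Y u` into `R` if it sends these vectors into `R`. -/
private theorem OG_act_map {G : Submodule k (End k H)} {Q R : Submodule k H} (X : End k H)
    (h : ∀ Y ∈ G, ∀ u ∈ Q, X (Y u) ∈ R) : ∀ v ∈ OG_act G Q, X v ∈ R := by
  have h1 : OG_act G Q ≤ R.comap X := OG_act_le h
  exact fun v hv => h1 hv

omit [CharZero k] in
private theorem OG_bracket (hlie : ∀ X ∈ g, ∀ Y ∈ g, X * Y - Y * X ∈ g) {T : End k H} {i j : k}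
    {X Y : End k H} (hX : X ∈ OG_gd g T i) (hY : Y ∈ OG_gd g T j) :
    X * Y - Y * X ∈ OG_gd g T (i + j) := by
  obtain ⟨h1, h2⟩ := hX
  obtain ⟨h3, h4⟩ := hY
  refine ⟨hlie X h1 Y h3, ?_⟩
  have h5 : T * (X * Y - Y * X) - (X * Y - Y * X) * T =
      (T * X - X * T) * Y + X * (T * Y - Y * T) - ((T * Y - Y * T) * X + Y * (T * X - X * T)) := by
    noncomm_ring
  rw [h5, h2, h4, smul_mul_assoc, mul_smul_comm, smul_mul_assoc, mul_smul_comm, add_smul, smul_sub,
    smul_sub]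
  abel

omit [CharZero k] in
private theorem OG_ev_map {T : End k H} {i j : k} {X : End k H} (hX : X ∈ OG_gd g T j) {v : H}
    (hv : v ∈ OG_ev T i) : X v ∈ OG_ev T (i + j) := by
  obtain ⟨_, h2⟩ := hX
  have hv' : T v = i • v := hv
  change T (X v) = (i + j) • X v
  have h3 : T (X v) - X (T v) = j • X v := by
    have := congrArg (fun Z : End k H => Z v) h2
    exact this
  rw [hv', map_smul] at h3
  rw [add_smul, ← h3]
  abel

omit [CharZero k] in
private theorem OG_comm (X Y : End k H) (u : H) : X (Y u) = Y (X u) + (X * Y - Y * X) u := by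
  change X (Y u) = Y (X u) + (X (Y u) - Y (X u))
  abel


/-- Let `P` be a subspace of the image of `e` which is stable under the elements of `g` commuting with
`tau`. There is a `g`-stable subspace `Γ` containing `P`, contained in every `g`-stable subspace containing `P`,
such that `e f` maps `Γ` into `P`.
PROOF. For `u ∈ range e`: `(e f) u = u`, `tau u = u` (`tableE`). Write `g^(j) = {X ∈ g | tau X - X tau = j X}`;
`X ∈ g^(j)` maps the `i`-eigenspace of `tau` into the `(i+j)`-eigenspace, and `tau = e f - f e` has only the eigenvalues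
`1, 0, -1` (`tau³ = tau`): the `i`-eigenspace is zero for `|i| ≥ 2`. Put
`A₁ = span {X u | X ∈ g^(-1), u ∈ P}`, `A₂ = span {X u | X ∈ g^(-2), u ∈ P} ⊔ span {X Y u | X, Y ∈ g^(-1), u ∈ P}`, `Γ = P ⊔ A₁ ⊔ A₂`;
`tau = 0` on `A₁`, `tau = -1` on `A₂`. Every `X ∈ g` is the sum of its components `X_j ∈ g^(j)` (`Pair.comp_mem` for `S = g`,
`sum_comp`, `ad_comp`), so it is enough to treat `X ∈ g^(j)`. Brackets: `[g^(i), g^(j)] ⊆ g^(i+j)`.
`j = 0`: `P → P` by hypothesis; `X Y u = Y (X u) + [X,Y] u`; so `A₁ → A₁`, `A₂ → A₂`.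
`j = -1`: `P → A₁ → A₂ → 0`.  `j = -2`: `P → A₂`, `A₁ → 0`, `A₂ → 0` (eigenvalues `-2`, `-3`).
`j = 1`: `P → 0` (eigenvalue 2); `X Y u = Y (X u) + [X,Y] u = [X,Y] u ∈ P` for `Y ∈ g^(-1)`; for `Y ∈ g^(-2)`:
`X Y u = [X,Y] u ∈ A₁`; for `Y, Y' ∈ g^(-1)`: `X Y Y' u = [X,Y] (Y' u) + Y (X Y' u)`, the first is in `A₁` (case `j = 0`), the second in
`Y P ⊆ A₁`.
`j = 2`: `P → 0`, `A₁ → 0` (eigenvalue 3, 2); `Y ∈ g^(-2)`: `X Y u = [X,Y] u ∈ P`; `X Y Y' u = [X,Y] Y' u + Y (X (Y' u))`, `[X,Y] ∈ g^(1)`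
maps `A₁` to `P`, and `X (Y' u) = 0`.
`e f` is the projection to the `1`-eigenspace: `e f = (tau² + tau)/2`, so it is the identity on `P` and zero on `A₁`, `A₂`.
Minimality is clear. -/
theorem exists_gen (hlie : ∀ X ∈ g, ∀ Y ∈ g, X * Y - Y * X ∈ g) {h e f : End k H}
    (hp : Pair g h e f) {P : Submodule k H} (hP : P ≤ LinearMap.range e)
    (hst : ∀ X ∈ g, X * tau e f = tau e f * X → ∀ u ∈ P, X u ∈ P) :
    ∃ Γ : Submodule k H, IsStable g Γ ∧ P ≤ Γ ∧ (∀ u ∈ Γ, (e * f) u ∈ P) ∧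
      ∀ U : Submodule k H, IsStable g U → P ≤ U → Γ ≤ U := by
  obtain ⟨t1, t2, t3, t4, t5, t6, t7, t8, t9, t10, t11, t12, t13, t14, t15⟩ := hp.table
  obtain ⟨r1, r2, r3, r4, r5, r6, r7, r8, r9, r10, r11, r12, r13, r14, r15, r16⟩ := hp.tableE
  have hTT : tau e f * tau e f = e * f + f * e := by
    have h1 : tau e f * tau e f = tau e f * (e * f) - tau e f * (f * e) := by
      rw [← mul_sub]
      rfl
    rw [h1, t10, t12, sub_neg_eq_add]
  have hT3 : tau e f * (tau e f * tau e f) = tau e f := by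
    rw [hTT, mul_add, t10, t12, ← sub_eq_add_neg]
    rfl
  have h2ef : tau e f * tau e f + tau e f = (2 : k) • (e * f) := by
    rw [hTT, two_smul]
    change e * f + f * e + (e * f - f * e) = e * f + e * f
    abel
  generalize hT : tau e f = T at *
  -- the eigenspaces with other eigenvalues are zero
  have hzero : ∀ i : k, i * i * i - i ≠ 0 → ∀ v ∈ OG_ev T i, v = 0 := by
    intro i hi v hv
    have hv' : T v = i • v := hv
    have h1 : T (T (T v)) = T v := by
      have := congrArg (fun Z : End k H => Z v) hT3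
      exact this
    rw [hv', map_smul, hv', map_smul, map_smul, hv', smul_smul, smul_smul] at h1
    have h3 : (i * i * i - i) • v = 0 := by
      rw [sub_smul, h1, sub_self]
    exact (smul_eq_zero.1 h3).resolve_left hi
  have hev : ∀ i : k, ∀ v ∈ OG_ev T i, (2 : k) • (e * f) v = (i * i + i) • v := by
    intro i v hv
    have hv' : T v = i • v := hv
    have h1 : T (T v) + T v = (2 : k) • (e * f) v := by
      have := congrArg (fun Z : End k H => Z v) h2ef
      exact this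
    rw [hv', map_smul, hv', smul_smul, ← add_smul] at h1
    exact h1.symm
  -- the five components
  have hadT : ∀ X ∈ g, T * X - X * T ∈ g := by
    intro X hX
    have h1 : T ∈ g := by
      rw [← hT]
      exact hp.tau_mem hlie
    exact hlie T h1 X hX
  have hcomp : ∀ R : Submodule k H, ∀ u : H,
      (∀ j : k, (j = -2 ∨ j = -1 ∨ j = 0 ∨ j = 1 ∨ j = 2) → ∀ X ∈ OG_gd g T j, X u ∈ R) →
      ∀ X ∈ g, X u ∈ R := by
    intro R u hR X hX
    obtain ⟨m1, m2, m3, m4, m5⟩ := hp.comp_mem (S := g) (by rw [hT]; exact hadT) hX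
    obtain ⟨a1, a2, a3, a4, a5⟩ := hp.ad_comp X
    rw [hT] at a1 a2 a3 a4 a5
    have b1 := hR (-2) (by simp) (d2 e f X) ⟨m1, a1⟩
    have b2 := hR (-1) (by simp) (d1 e f X) ⟨m2, by rw [a2, neg_one_smul]⟩
    have b3 := hR 0 (by simp) (c0 e f X) ⟨m3, by rw [a3, zero_smul]⟩
    have b4 := hR 1 (by simp) (c1 e f X) ⟨m4, by rw [a4, one_smul]⟩
    have b5 := hR 2 (by simp) (c2 e f X) ⟨m5, a5⟩
    have h1 : X u = (d2 e f X) u + (d1 e f X) u + (c0 e f X) u + (c1 e f X) u + (c2 e f X) u := by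
      have h2 := congrArg (fun Z : End k H => Z u) (sum_comp e f X)
      exact h2.symm
    rw [h1]
    exact R.add_mem (R.add_mem (R.add_mem (R.add_mem b1 b2) b3) b4) b5
  -- the subspaces
  set A1 : Submodule k H := OG_act (OG_gd g T (-1)) P with hA1
  set A2 : Submodule k H := OG_act (OG_gd g T (-2)) P ⊔ OG_act (OG_gd g T (-1)) A1 with hA2
  have hPev : P ≤ OG_ev T 1 := by
    intro u hu
    obtain ⟨x, rfl⟩ := hP hu
    change T (e x) = (1 : k) • e x
    rw [one_smul]
    have := congrArg (fun Z : End k H => Z x) r13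
    exact this
  have hA1ev : A1 ≤ OG_ev T 0 := by
    refine OG_act_le fun X hX u hu => ?_
    have h1 := OG_ev_map hX (hPev hu)
    rwa [add_neg_cancel] at h1
  have hA2ev : A2 ≤ OG_ev T (-1) := by
    refine sup_le (OG_act_le fun X hX u hu => ?_) (OG_act_le fun X hX u hu => ?_)
    · have h1 := OG_ev_map hX (hPev hu)
      have h2 : (1 : k) + -2 = -1 := by norm_num
      rwa [h2] at h1
    · have h1 := OG_ev_map hX (hA1ev hu)
      rwa [zero_add] at h1
  -- degree 0
  have z0P : ∀ X ∈ OG_gd g T 0, ∀ u ∈ P, X u ∈ P := by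
    intro X hX u hu
    obtain ⟨h1, h2⟩ := hX
    rw [zero_smul, sub_eq_zero] at h2
    exact hst X h1 h2.symm u hu
  have z0act : ∀ (j : k) (Q : Submodule k H), (∀ X ∈ OG_gd g T 0, ∀ u ∈ Q, X u ∈ Q) →
      ∀ X ∈ OG_gd g T 0, ∀ u ∈ OG_act (OG_gd g T j) Q, X u ∈ OG_act (OG_gd g T j) Q := by
    intro j Q hQ X hX
    refine OG_act_map X fun Y hY u hu => ?_
    rw [OG_comm X Y u]
    refine Submodule.add_mem _ (OG_act_mem hY (hQ X hX u hu)) (OG_act_mem ?_ hu)
    have h1 := OG_bracket hlie hX hY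
    rwa [zero_add] at h1
  have z0A1 : ∀ X ∈ OG_gd g T 0, ∀ u ∈ A1, X u ∈ A1 := z0act (-1) P z0P
  have z0A2 : ∀ X ∈ OG_gd g T 0, ∀ u ∈ A2, X u ∈ A2 := by
    intro X hX u hu
    obtain ⟨a, ha, b, hb, rfl⟩ := Submodule.mem_sup.1 hu
    rw [map_add]
    exact Submodule.add_mem_sup (z0act (-2) P z0P X hX a ha) (z0act (-1) A1 z0A1 X hX b hb)
  -- degree 1
  have p1P : ∀ X ∈ OG_gd g T 1, ∀ u ∈ P, X u = 0 := by
    intro X hX u hu
    refine hzero (1 + 1) ?_ _ (OG_ev_map hX (hPev hu))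
    norm_num
  have p1A1 : ∀ X ∈ OG_gd g T 1, ∀ u ∈ A1, X u ∈ P := by
    intro X hX
    refine OG_act_map X fun Y hY u hu => ?_
    rw [OG_comm X Y u, p1P X hX u hu, map_zero, zero_add]
    have h1 := OG_bracket hlie hX hY
    rw [add_neg_cancel] at h1
    exact z0P _ h1 u hu
  have p1A2 : ∀ X ∈ OG_gd g T 1, ∀ u ∈ A2, X u ∈ A1 := by
    intro X hX u hu
    obtain ⟨a, ha, b, hb, rfl⟩ := Submodule.mem_sup.1 hu
    rw [map_add]
    refine A1.add_mem ?_ ?_
    · refine OG_act_map X (fun Y hY u hu => ?_) a ha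
      rw [OG_comm X Y u, p1P X hX u hu, map_zero, zero_add]
      have h1 := OG_bracket hlie hX hY
      have h2 : (1 : k) + -2 = -1 := by norm_num
      rw [h2] at h1
      exact OG_act_mem h1 hu
    · refine OG_act_map X (fun Y hY u hu => ?_) b hb
      rw [OG_comm X Y u]
      have h1 := OG_bracket hlie hX hY
      rw [add_neg_cancel] at h1
      exact A1.add_mem (OG_act_mem hY (p1A1 X hX u hu)) (z0A1 _ h1 u hu)
  -- degree 2
  have p2P : ∀ X ∈ OG_gd g T 2, ∀ u ∈ P, X u = 0 := by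
    intro X hX u hu
    refine hzero (1 + 2) ?_ _ (OG_ev_map hX (hPev hu))
    norm_num
  have p2A1 : ∀ X ∈ OG_gd g T 2, ∀ u ∈ A1, X u = 0 := by
    intro X hX u hu
    refine hzero (0 + 2) ?_ _ (OG_ev_map hX (hA1ev hu))
    norm_num
  have p2A2 : ∀ X ∈ OG_gd g T 2, ∀ u ∈ A2, X u ∈ P := by
    intro X hX u hu
    obtain ⟨a, ha, b, hb, rfl⟩ := Submodule.mem_sup.1 hu
    rw [map_add]
    refine P.add_mem ?_ ?_
    · refine OG_act_map X (fun Y hY u hu => ?_) a ha
      rw [OG_comm X Y u, p2P X hX u hu, map_zero, zero_add]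
      have h1 := OG_bracket hlie hX hY
      rw [add_neg_cancel] at h1
      exact z0P _ h1 u hu
    · refine OG_act_map X (fun Y hY u hu => ?_) b hb
      rw [OG_comm X Y u, p2A1 X hX u hu, map_zero, zero_add]
      have h1 := OG_bracket hlie hX hY
      have h2 : (2 : k) + -1 = 1 := by norm_num
      rw [h2] at h1
      exact p1A1 _ h1 u hu
  -- degree -1
  have m1A2 : ∀ X ∈ OG_gd g T (-1), ∀ u ∈ A2, X u = 0 := by
    intro X hX u hu
    refine hzero (-1 + -1) ?_ _ (OG_ev_map hX (hA2ev hu))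
    norm_num
  -- degree -2
  have m2A1 : ∀ X ∈ OG_gd g T (-2), ∀ u ∈ A1, X u = 0 := by
    intro X hX u hu
    refine hzero (0 + -2) ?_ _ (OG_ev_map hX (hA1ev hu))
    norm_num
  have m2A2 : ∀ X ∈ OG_gd g T (-2), ∀ u ∈ A2, X u = 0 := by
    intro X hX u hu
    refine hzero (-1 + -2) ?_ _ (OG_ev_map hX (hA2ev hu))
    norm_num
  have lP : P ≤ P ⊔ A1 ⊔ A2 := le_sup_left.trans le_sup_left
  have lA1 : A1 ≤ P ⊔ A1 ⊔ A2 := le_sup_right.trans le_sup_left
  have lA2 : A2 ≤ P ⊔ A1 ⊔ A2 := le_sup_right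
  have lB1 : OG_act (OG_gd g T (-2)) P ≤ A2 := le_sup_left
  have lB2 : OG_act (OG_gd g T (-1)) A1 ≤ A2 := le_sup_right
  refine ⟨P ⊔ A1 ⊔ A2, ?_, lP, ?_, ?_⟩
  · intro X hX u hu
    obtain ⟨w, hw, a2, ha2, rfl⟩ := Submodule.mem_sup.1 hu
    obtain ⟨p, hp', a1, ha1, rfl⟩ := Submodule.mem_sup.1 hw
    rw [map_add, map_add]
    refine Submodule.add_mem _ (Submodule.add_mem _ ?_ ?_) ?_
    · refine hcomp _ p ?_ X hX
      rintro j (rfl | rfl | rfl | rfl | rfl) Y hY
      · exact lA2 (lB1 (OG_act_mem hY hp'))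
      · exact lA1 (OG_act_mem hY hp')
      · exact lP (z0P Y hY p hp')
      · rw [p1P Y hY p hp']
        exact Submodule.zero_mem _
      · rw [p2P Y hY p hp']
        exact Submodule.zero_mem _
    · refine hcomp _ a1 ?_ X hX
      rintro j (rfl | rfl | rfl | rfl | rfl) Y hY
      · rw [m2A1 Y hY a1 ha1]
        exact Submodule.zero_mem _
      · exact lA2 (lB2 (OG_act_mem hY ha1))
      · exact lA1 (z0A1 Y hY a1 ha1)
      · exact lP (p1A1 Y hY a1 ha1)
      · rw [p2A1 Y hY a1 ha1]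
        exact Submodule.zero_mem _
    · refine hcomp _ a2 ?_ X hX
      rintro j (rfl | rfl | rfl | rfl | rfl) Y hY
      · rw [m2A2 Y hY a2 ha2]
        exact Submodule.zero_mem _
      · rw [m1A2 Y hY a2 ha2]
        exact Submodule.zero_mem _
      · exact lA2 (z0A2 Y hY a2 ha2)
      · exact lA1 (p1A2 Y hY a2 ha2)
      · exact lP (p2A2 Y hY a2 ha2)
  · intro u hu
    obtain ⟨w, hw, a2, ha2, rfl⟩ := Submodule.mem_sup.1 hu
    obtain ⟨p, hp', a1, ha1, rfl⟩ := Submodule.mem_sup.1 hw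
    have e1 : (e * f) p = p := by
      have h1 := hev 1 p (hPev hp')
      have h2 : (1 : k) * 1 + 1 = 2 := by norm_num
      rw [h2] at h1
      exact smul_right_injective H (two_ne_zero : (2 : k) ≠ 0) h1
    have e2 : (e * f) a1 = 0 := by
      have h1 := hev 0 a1 (hA1ev ha1)
      rw [mul_zero, add_zero, zero_smul] at h1
      exact (smul_eq_zero.1 h1).resolve_left two_ne_zero
    have e3 : (e * f) a2 = 0 := by
      have h1 := hev (-1) a2 (hA2ev ha2)
      have h2 : (-1 : k) * -1 + -1 = 0 := by norm_num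
      rw [h2, zero_smul] at h1
      exact (smul_eq_zero.1 h1).resolve_left two_ne_zero
    rw [map_add, map_add, e1, e2, e3, add_zero, add_zero]
    exact hp'
  · intro U hU hPU
    have h1 : A1 ≤ U := OG_act_le fun X hX u hu => hU X hX.1 u (hPU hu)
    refine sup_le (sup_le hPU h1) (sup_le ?_ ?_)
    · exact OG_act_le fun X hX u hu => hU X hX.1 u (hPU hu)
    · exact OG_act_le fun X hX u hu => hU X hX.1 u (h1 hu)

/-- For a simple `W`, the space `W.map e` is simple for the elements of `g` commuting with `tau`.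
PROOF. Let `P ≤ W.map e` be stable, `P ≠ ⊥`. Take `Γ` from `exists_gen`; `Γ ≤ W` and `Γ ≠ ⊥`, so `Γ = W`; for `w ∈ W`:
`e w = (e f) (e w) ∈ P`. -/
theorem simple_P (hlie : ∀ X ∈ g, ∀ Y ∈ g, X * Y - Y * X ∈ g) {h e f : End k H}
    (hp : Pair g h e f) {W : Submodule k H} (hW : IsSimpleSub g W) {P : Submodule k H}
    (hP : P ≤ W.map e) (hst : ∀ X ∈ g, X * tau e f = tau e f * X → ∀ u ∈ P, X u ∈ P) :
    P = ⊥ ∨ P = W.map e := by
  rcases eq_or_ne P ⊥ with h0 | h0
  · exact Or.inl h0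
  right
  obtain ⟨hW0, hWs, hWsim⟩ := hW
  have hPe : P ≤ LinearMap.range e := by
    intro u hu
    obtain ⟨w, _, rfl⟩ := hP hu
    exact ⟨w, rfl⟩
  obtain ⟨Γ, hΓs, hPΓ, hΓP, hmin⟩ := exists_gen hlie hp hPe hst
  have heg : e ∈ g := (mem_gm.1 hp.he).1
  have hPW : P ≤ W := by
    intro u hu
    obtain ⟨w, hw, rfl⟩ := hP hu
    exact hWs e heg w hw
  have hΓW : Γ ≤ W := hmin W hWs hPW
  have hΓ : Γ = W := by
    refine (hWsim Γ hΓW hΓs).resolve_left fun h1 => h0 ?_
    rw [eq_bot_iff]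
    rw [h1] at hPΓ
    exact hPΓ
  refine le_antisymm hP ?_
  rintro _ ⟨w, hw, rfl⟩
  have h1 : e w ∈ Γ := by
    rw [hΓ]
    exact hWs e heg w hw
  have h2 := hΓP _ h1
  have h3 : (e * f) (e w) = e w := by
    have := congrArg (fun Z : End k H => Z w) hp.efe
    exact this
  rw [h3] at h2
  exact h2

end Pool.Agent.Lib.MP_021685_agO
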