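import Pool.Agent.Lib.MP_021685_agO.OF
import Pool.Agent.Lib.MP_021685_agO.OG

/-!
# Block H: the symmetric form on the image of `e`, parity
-/

set_option autoImplicit false

namespace Pool.Agent.Lib.MP_021685_agO

open Module

variable {k H : Type*} [Field k] [CharZero k] [AddCommGroup H] [Module k H] [FiniteDimensional k H]
  {g : Submodule k (End k H)} {c : End k H → k} {W : Submodule k H} {β : H →ₗ[k] H →ₗ[k] k}

/-- Parity. PROOF. `b (T u) (T v) = 0`: apply `hadj` to `T u, T v`: `b (T u) (T v) + b (T u) (T v) = b (T u) (T v)` (`T² = T`).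
`b u v = 0` for `u, v ∈ ker T`: `hadj`. So `range T` and `ker T` are isotropic; the map `range T → Dual (ker T)`,
`u ↦ b u ·` is injective (if `b (T u) v = 0` for all `v ∈ ker T` then, with `b (T u) (T v) = 0`, `b (T u) · = 0`), in the same
way `ker T → Dual (range T)` (use `hnd` and the isotropy of `ker T`, and `hsymm`), so `finrank (range T) = finrank (ker T)`, and
the sum is `finrank P`. -/
theorem parity {P : Type*} [AddCommGroup P] [Module k P] [FiniteDimensional k P]
    (b : P → P → k) (hadd : ∀ u u' v, b (u + u') v = b u v + b u' v)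
    (hsmul : ∀ (s : k) u v, b (s • u) v = s * b u v) (hsymm : ∀ u v, b u v = b v u)
    (hnd : ∀ u, (∀ v, b u v = 0) → u = 0) (T : P →ₗ[k] P) (hT : ∀ u, T (T u) = T u)
    (hadj : ∀ u v, b (T u) v + b u (T v) = b u v) : Even (finrank k P) := by
  have haddr : ∀ u v v', b u (v + v') = b u v + b u v' := fun u v v' => by
    rw [hsymm u (v + v'), hadd, hsymm v u, hsymm v' u]
  have hsmulr : ∀ (s : k) u v, b u (s • v) = s * b u v := fun s u v => by
    rw [hsymm u (s • v), hsmul, hsymm v u]
  have hz1 : ∀ v, b 0 v = 0 := fun v => by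
    have h := hsmul 0 0 v
    rwa [zero_smul, zero_mul] at h
  have hz2 : ∀ u, b u 0 = 0 := fun u => by rw [hsymm]; exact hz1 u
  have h0R : ∀ u v, b (T u) (T v) = 0 := by
    intro u v
    have h := hadj (T u) (T v)
    rw [hT, hT] at h
    linear_combination h
  have h0K : ∀ u v, T u = 0 → T v = 0 → b u v = 0 := by
    intro u v hu hv
    have h := hadj u v
    rw [hu, hv, hz1, hz2, add_zero] at h
    exact h.symm
  have hdec : ∀ v, ∃ r, T r = 0 ∧ v = T v + r := fun v =>
    ⟨v - T v, by rw [map_sub, hT, sub_self], by abel⟩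
  let BL : P →ₗ[k] P →ₗ[k] k := LinearMap.mk₂ k b hadd
    (fun s u v => by rw [hsmul, smul_eq_mul]) haddr (fun s u v => by rw [hsmulr, smul_eq_mul])
  have hBL : ∀ u v, BL u v = b u v := fun u v => rfl
  have h1 : finrank k (LinearMap.range T) ≤ finrank k (LinearMap.ker T) := by
    let φ : LinearMap.range T →ₗ[k] Module.Dual k (LinearMap.ker T) :=
      BL.domRestrict₁₂ (LinearMap.range T) (LinearMap.ker T)
    have hφ : ∀ (u : LinearMap.range T) (v : LinearMap.ker T), φ u v = b u v := fun u v => rfl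
    have hinj : Function.Injective φ := by
      rw [← LinearMap.ker_eq_bot, LinearMap.ker_eq_bot']
      intro u hu
      obtain ⟨w, hw⟩ := u.2
      apply Subtype.ext
      apply hnd
      intro v
      obtain ⟨r, hr, hv⟩ := hdec v
      rw [hv, haddr, ← hw, h0R, zero_add, hw]
      have h2 := hφ u ⟨r, hr⟩
      rw [hu] at h2
      exact h2.symm
    have h3 := LinearMap.finrank_le_finrank_of_injective hinj
    rwa [Subspace.dual_finrank_eq] at h3
  have h2 : finrank k (LinearMap.ker T) ≤ finrank k (LinearMap.range T) := by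
    let φ : LinearMap.ker T →ₗ[k] Module.Dual k (LinearMap.range T) :=
      BL.domRestrict₁₂ (LinearMap.ker T) (LinearMap.range T)
    have hφ : ∀ (u : LinearMap.ker T) (v : LinearMap.range T), φ u v = b u v := fun u v => rfl
    have hinj : Function.Injective φ := by
      rw [← LinearMap.ker_eq_bot, LinearMap.ker_eq_bot']
      intro u hu
      have hu0 : T u = 0 := u.2
      apply Subtype.ext
      apply hnd
      intro v
      obtain ⟨r, hr, hv⟩ := hdec v
      rw [hv, haddr, h0K u r hu0 hr, add_zero]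
      have h2 := hφ u ⟨T v, LinearMap.mem_range_self T v⟩
      rw [hu] at h2
      exact h2.symm
    have h3 := LinearMap.finrank_le_finrank_of_injective hinj
    rwa [Subspace.dual_finrank_eq] at h3
  have h3 := LinearMap.finrank_range_add_finrank_ker T
  exact ⟨finrank k (LinearMap.range T), by omega⟩

/-- The form `b u v = β u (f v)` on `W.map e`.
PROOF. `f v ∈ W`; `c f = 0` (`IsSympl.c_gp`), so `β (f u) v + β u (f v) = 0` and `β u (f v) = - β (f u) v = β v (f u)`
(`IsSympl.neg`). -/
theorem form_symm (hW : IsSimpleSub g W) (hs : IsSympl g c W β) {h e f : End k H} (hh : h ∈ g)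
    (hp : Pair g h e f) {u v : H} (hu : u ∈ W.map e) (hv : v ∈ W.map e) :
    β u (f v) = β v (f u) := by
  have hst := hW.2.1
  have huW : u ∈ W := by
    obtain ⟨w, hw, rfl⟩ := Submodule.mem_map.mp hu
    exact hst e hp.he.1 w hw
  have hvW : v ∈ W := by
    obtain ⟨w, hw, rfl⟩ := Submodule.mem_map.mp hv
    exact hst e hp.he.1 w hw
  have hcf := hs.c_gp hW.1 hst hh hp.hf
  have h1 := hs.mult f hp.hf.1 u huW v hvW
  rw [hcf, zero_mul] at h1
  have h2 := hs.neg (hst f hp.hf.1 u huW) hvW
  rw [h2] at h1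
  linear_combination h1

/-- PROOF. Let `u ∈ W.map e`, `β u (f v) = 0` for all `v ∈ W.map e`. `u = e (f u)`. For `v' ∈ W`: `c e = 0`, so
`β u v' = β (e (f u)) v' = - β (f u) (e v') = β u (f (e v'))` (`c f = 0`) `= 0` as `e v' ∈ W.map e`. So `u = 0`. -/
theorem form_nondeg (hW : IsSimpleSub g W) (hs : IsSympl g c W β) {h e f : End k H} (hh : h ∈ g)
    (hp : Pair g h e f) {u : H} (hu : u ∈ W.map e) (h0 : ∀ v ∈ W.map e, β u (f v) = 0) : u = 0 := by
  have hst := hW.2.1
  have hcf := hs.c_gp hW.1 hst hh hp.hf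
  have hce := hs.c_gm hW.1 hst hh hp.he
  have hef : e (f u) = u := by
    obtain ⟨w, hw, rfl⟩ := Submodule.mem_map.mp hu
    exact LinearMap.congr_fun hp.efe w
  have huW : u ∈ W := by
    obtain ⟨w, hw, rfl⟩ := Submodule.mem_map.mp hu
    exact hst e hp.he.1 w hw
  have hfu : f u ∈ W := hst f hp.hf.1 u huW
  apply hs.nondeg u huW
  intro v hv
  have hev : e v ∈ W := hst e hp.he.1 v hv
  have h1 := hs.mult e hp.he.1 (f u) hfu v hv
  rw [hce, zero_mul, hef] at h1
  have h2 := hs.mult f hp.hf.1 u huW (e v) hev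
  rw [hcf, zero_mul] at h2
  have h3 := h0 (e v) (Submodule.mem_map_of_mem hv)
  linear_combination h1 - h2 + h3

/-- PROOF. `f X = X f + s f` on `v`, and `mult` for `X` on `u`, `f v`. -/
theorem form_adj (hW : IsSimpleSub g W) (hs : IsSympl g c W β) {h e f : End k H}
    (hp : Pair g h e f) {X : End k H} (hX : X ∈ g) {s : k} (hf : X * f - f * X = (-s) • f)
    {u v : H} (hu : u ∈ W.map e) (hv : v ∈ W.map e) :
    β (X u) (f v) + β u (f (X v)) = (c X + s) * β u (f v) := by
  have hst := hW.2.1
  have huW : u ∈ W := by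
    obtain ⟨w, hw, rfl⟩ := Submodule.mem_map.mp hu
    exact hst e hp.he.1 w hw
  have hvW : v ∈ W := by
    obtain ⟨w, hw, rfl⟩ := Submodule.mem_map.mp hv
    exact hst e hp.he.1 w hw
  have hfX : f (X v) = X (f v) + s • f v := by
    have h := LinearMap.congr_fun hf v
    have h' : X (f v) - f (X v) = (-s) • f v := h
    rw [neg_smul] at h'
    have h2 : f (X v) = X (f v) - (X (f v) - f (X v)) := by abel
    rw [h2, h', sub_neg_eq_add]
  have h1 := hs.mult X hX u huW (f v) (hst f hp.hf.1 v hvW)
  rw [hfX, map_add, map_smul, smul_eq_mul]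
  linear_combination h1

end Pool.Agent.Lib.MP_021685_agO
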