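import Pool.Agent.Lib.MP_021685_agO.OH

/-!
# Block H: the rank two case is impossible; idempotents commuting with `tau` are scalar
-/

set_option autoImplicit false

namespace Pool.Agent.Lib.MP_021685_agO

open Module

variable {k H : Type*} [Field k] [CharZero k] [AddCommGroup H] [Module k H] [FiniteDimensional k H]
  {g : Submodule k (End k H)} {c : End k H → k} {W : Submodule k H} {β : H →ₗ[k] H →ₗ[k] k}

/-- In a plane, two independent vectors generate. -/
private theorem OH2_plane {P : Submodule k H} (hP : finrank k P = 2) {x y : H} (hx : x ∈ P) (hy : y ∈ P)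
    (hli : LinearIndependent k ![x, y]) {w : H} (hw : w ∈ P) : ∃ a d : k, w = a • x + d • y := by
  have h1 : Submodule.span k (Set.range ![x, y]) = P := by
    refine Submodule.eq_of_le_of_finrank_eq ?_ ?_
    · rw [Submodule.span_le]
      rintro _ ⟨i, rfl⟩
      fin_cases i
      · exact hx
      · exact hy
    · rw [finrank_span_eq_card hli, Fintype.card_fin, hP]
  rw [← h1, Matrix.range_cons, Matrix.range_cons, Matrix.range_empty, Set.union_empty,
    Set.singleton_union, Submodule.mem_span_pair] at hw
  obtain ⟨a, d, h2⟩ := hw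
  exact ⟨a, d, h2.symm⟩

/-- The rank two case is impossible.
PROOF. Suppose `finrank (W.map e) = 2`. For `X ∈ g` commuting with `tau` let `s_X` be as in `Prim.brk`; `X` maps `W.map e` to itself
(`X e w = e X w + s e w`), and `S_X = X - (c X + s_X)/2` is skew for the form `b` (`form_adj`). The skew endomorphisms of a
2-dimensional space with a non-degenerate symmetric form commute with each other: for a basis `u₁, u₂` of `W.map e`,
`b (S u_i) u_j` is a skew matrix, i.e. determined by `b (S u₁) u₂`; so two skew endomorphisms are proportional. So all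
these `X` commute on `W.map e`; over the algebraically closed field they have a common eigenvector: (if all `X` act as scalars
on `W.map e` every line is stable; otherwise take one `X₀` which is not scalar, an eigenline `L` of it (`Module.End.exists_eigenvalue`);
the eigenspace is a line and is stable under the commuting `X`). The line `L` is stable: contradiction with `simple_P`
(`L ≠ ⊥`, `L ≠ W.map e` by dimension). -/
theorem not_two [IsAlgClosed k] (hg : IsGaloisAlg g c) (hW : IsSimpleSub g W)
    (hs : IsSympl g c W β) {h e f : End k H} (hh : IsHodgeElt g c h) (hp : Prim g h e f) :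
    finrank k (W.map e) ≠ 2 := by
  intro hP
  have hpp : Pair g h e f := hp.toPair
  have hst : IsStable g W := hW.2.1
  have hsub : ∀ u ∈ W.map e, u ∈ W := by
    rintro _ ⟨w, hw, rfl⟩
    exact hst e hpp.he.1 w hw
  -- an isotropic vector
  obtain ⟨u, hu, hu0, hiso⟩ : ∃ u ∈ W.map e, u ≠ 0 ∧ β u (f u) = 0 := by
    have hne : W.map e ≠ ⊥ := by
      intro h0
      rw [h0, finrank_bot] at hP
      omega
    obtain ⟨u, hu, hu0⟩ := Submodule.exists_mem_ne_zero_of_ne_bot hne
    by_cases huu : β u (f u) = 0
    · exact ⟨u, hu, hu0, huu⟩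
    obtain ⟨v, hv, hvu⟩ : ∃ v ∈ W.map e, v ∉ Submodule.span k {u} := by
      by_contra hcon
      push Not at hcon
      have h1 : W.map e ≤ Submodule.span k {u} := hcon
      have h2 := Submodule.finrank_mono h1
      rw [hP, finrank_span_singleton hu0] at h2
      omega
    obtain ⟨t, ht⟩ := IsAlgClosed.exists_root
      (Polynomial.C (β u (f u)) * Polynomial.X ^ 2 + Polynomial.C (2 * β u (f v)) * Polynomial.X +
        Polynomial.C (β v (f v))) (by
      rw [Polynomial.degree_quadratic huu]
      decide)
    rw [Polynomial.IsRoot.def, Polynomial.eval_add, Polynomial.eval_add, Polynomial.eval_mul,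
      Polynomial.eval_mul, Polynomial.eval_C, Polynomial.eval_C, Polynomial.eval_C,
      Polynomial.eval_pow, Polynomial.eval_X] at ht
    refine ⟨v + t • u, add_mem hv (Submodule.smul_mem _ _ hu), ?_, ?_⟩
    · intro h0
      apply hvu
      rw [Submodule.mem_span_singleton]
      refine ⟨-t, ?_⟩
      rw [neg_smul]
      exact (eq_neg_of_add_eq_zero_left h0).symm
    · have h3 : β v (f u) = β u (f v) := form_symm hW hs hh.1 hpp hv hu
      rw [map_add f, map_smul f, map_add β, map_smul β, LinearMap.add_apply, LinearMap.smul_apply,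
        map_add, map_add, map_smul, map_smul, h3, smul_eq_mul, smul_eq_mul, smul_eq_mul]
      linear_combination ht
  obtain ⟨v, hv, huv⟩ : ∃ v ∈ W.map e, β u (f v) ≠ 0 := by
    by_contra hcon
    push Not at hcon
    exact hu0 (form_nondeg hW hs hh.1 hpp hu hcon)
  have hli : LinearIndependent k ![u, v] := by
    rw [LinearIndependent.pair_iff]
    intro a d h0
    have h1 : β u (f (a • u + d • v)) = 0 := by rw [h0, map_zero, map_zero]
    rw [map_add, map_smul, map_smul, map_add, map_smul, map_smul, hiso, smul_zero, zero_add,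
      smul_eq_mul] at h1
    have h2 : d = 0 := (mul_eq_zero.1 h1).resolve_right huv
    rw [h2, zero_smul, add_zero] at h0
    exact ⟨(smul_eq_zero.1 h0).resolve_right hu0, h2⟩
  -- the line is stable
  have hline : ∀ X ∈ g, X * tau e f = tau e f * X → X u ∈ Submodule.span k {u} := by
    intro X hX hc
    obtain ⟨s, h1, h2⟩ := hp.brk hg hh hX hc
    have hXu : X u ∈ W.map e := by
      obtain ⟨w, hw, rfl⟩ := hu
      refine ⟨X w + s • w, add_mem (hst X hX w hw) (Submodule.smul_mem _ _ hw), ?_⟩
      have h3 := LinearMap.congr_fun h1 w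
      rw [LinearMap.sub_apply, LinearMap.smul_apply, sub_eq_iff_eq_add'] at h3
      rw [map_add, map_smul]
      exact h3.symm
    have h4 := form_adj hW hs hpp hX h2 hu hu
    have h5 : β u (f (X u)) = β (X u) (f u) := form_symm hW hs hh.1 hpp hu hXu
    have h6 : β u (f (X u)) = 0 := by
      rw [← h5, hiso, mul_zero] at h4
      have h7 : (2 : k) * β u (f (X u)) = 0 := by linear_combination h4
      exact (mul_eq_zero.1 h7).resolve_left two_ne_zero
    obtain ⟨a, d, h8⟩ := OH2_plane hP hu hv hli hXu
    rw [h8, map_add, map_smul, map_smul, map_add, map_smul, map_smul, hiso, smul_zero, zero_add,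
      smul_eq_mul] at h6
    have h9 : d = 0 := (mul_eq_zero.1 h6).resolve_right huv
    rw [h8, h9, zero_smul, add_zero]
    exact Submodule.smul_mem _ _ (Submodule.mem_span_singleton_self u)
  have h10 := simple_P hg.lie hpp hW (P := Submodule.span k {u})
    ((Submodule.span_singleton_le_iff_mem u _).2 hu) (by
      intro X hX hc w hw
      obtain ⟨a, rfl⟩ := Submodule.mem_span_singleton.1 hw
      rw [map_smul]
      exact Submodule.smul_mem _ _ (hline X hX hc))
  rcases h10 with h10 | h10
  · exact hu0 ((Submodule.span_singleton_eq_bot).1 h10)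
  · rw [← h10, finrank_span_singleton hu0] at hP
    omega

/-- The idempotents of multiplier `1` which commute with `tau` are scalar on the image of `e`.
PROOF. `h' e - e h' = s e` (`Prim.brk`, `s` as there). Multiply by `h'` on both sides: `h' e h' - h' e h' = s h' e h'`, so `s = 0` or
`h' e h' = 0`. If `h' e h' = 0`: multiply by `h'` on the left: `h' e = s h' e`, on the right: `- e h' = s e h'`. If `h' e ≠ 0` then `s = 1`, so
`e h' = 0` (characteristic zero) and `h' e = e`. If `h' e = 0` then `- e h' = s e`, so `s² e = e`..: `e h' = - s e`, and `e h' h' = e h'` gives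
`s² e = - s e`; `e ≠ 0` (its rank on `W` is odd), so `s = 0` or `s = -1`; `s = -1`: `e h' = e`, done; `s = 0`: the next case.
If `s = 0`: `T = h'` restricted to `P = W.map e` (`h'` commutes with `e`) is idempotent, and by `form_adj`
`b (T u) v + b u (T v) = (c h' + 0) b u v = b u v`; `parity` (with `form_symm`, `form_nondeg`) says that `finrank P` is even,
contradiction. -/
theorem Big.hodge_scalar {h e f : End k H} (hB : Big g c W β h e f) {h' : End k H}
    (hh' : IsHodgeElt g c h') (hc : h' * tau e f = tau e f * h') :
    (h' * e = 0 ∧ e * h' = e) ∨ (h' * e = e ∧ e * h' = 0) := by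
  have hpp : Pair g h e f := hB.pr.toPair
  have hst : IsStable g W := hB.hW.2.1
  obtain ⟨s, h1, h2⟩ := hB.pr.brk hB.hg hB.hh hh'.1 hc
  have hii : h' * h' = h' := hh'.2.1
  have he0 : e ≠ 0 := by
    intro h0
    have h3 := hB.odd
    rw [h0, Submodule.map_zero, finrank_bot] at h3
    exact absurd h3 (by decide)
  have hsub : ∀ u ∈ W.map e, u ∈ W := by
    rintro _ ⟨w, hw, rfl⟩
    exact hst e hpp.he.1 w hw
  -- the case of the multiplier zero is impossible
  have hs0 : s ≠ 0 := by
    intro hs0
    rw [hs0, zero_smul, sub_eq_zero] at h1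
    have hmap : ∀ u ∈ W.map e, h' u ∈ W.map e := by
      rintro _ ⟨w, hw, rfl⟩
      exact ⟨h' w, hst h' hh'.1 w hw, (LinearMap.congr_fun h1 w).symm⟩
    have h3 := parity (P := W.map e) (fun u v => β (u : H) (f (v : H)))
      (fun u u' v => by
        change β ((u : H) + (u' : H)) _ = _
        rw [map_add, LinearMap.add_apply])
      (fun a u v => by
        change β (a • (u : H)) _ = _
        rw [map_smul, LinearMap.smul_apply, smul_eq_mul])
      (fun u v => form_symm hB.hW hB.hs hB.hh.1 hpp u.2 v.2)
      (fun u h0 => Subtype.ext (form_nondeg hB.hW hB.hs hB.hh.1 hpp u.2 fun v hv => h0 ⟨v, hv⟩))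
      (h'.restrict hmap)
      (fun u => by
        apply Subtype.ext
        change h' (h' (u : H)) = h' (u : H)
        exact LinearMap.congr_fun hii _)
      (fun u v => by
        have h4 := form_adj hB.hW hB.hs hpp hh'.1 h2 u.2 v.2
        rw [hh'.2.2, hs0, add_zero, one_mul] at h4
        exact h4)
    exact (Nat.not_even_iff_odd.2 hB.odd) h3
  have h5 : h' * e * h' = 0 := by
    have h6 : h' * (h' * e - e * h') * h' = h' * (s • e) * h' := by rw [h1]
    have h7 : h' * (h' * e - e * h') * h' = 0 := by
      have : h' * (h' * e - e * h') * h' = (h' * h') * e * h' - h' * e * (h' * h') := by noncomm_ring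
      rw [this, hii, sub_self]
    rw [h7, mul_smul_comm, smul_mul_assoc] at h6
    exact (smul_eq_zero.1 h6.symm).resolve_left hs0
  have h8 : h' * e = s • (h' * e) := by
    have h9 : h' * (h' * e - e * h') = h' * (s • e) := by rw [h1]
    rw [mul_sub, ← mul_assoc, ← mul_assoc, hii, h5, sub_zero, mul_smul_comm] at h9
    exact h9
  have h10 : -(e * h') = s • (e * h') := by
    have h9 : (h' * e - e * h') * h' = (s • e) * h' := by rw [h1]
    rw [sub_mul, mul_assoc e, hii, h5, zero_sub, smul_mul_assoc] at h9
    exact h9
  by_cases h11 : h' * e = 0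
  · left
    rw [h11, zero_sub] at h1
    have h12 : e * h' = (-s) • e := by rw [neg_smul, ← h1, neg_neg]
    have h13 : (s + 1) • (s • e) = 0 := by
      rw [h12, smul_smul, ← neg_smul, neg_neg] at h10
      rw [add_smul, one_smul, smul_smul]
      have h14 : (s * s) • e = - (s • e) := by
        have : (s * -s) • e = - ((s * s) • e) := by rw [mul_neg, neg_smul]
        rw [this] at h10
        rw [h10, neg_neg]
      rw [h14, neg_add_cancel]
    rw [smul_smul] at h13
    have h15 : (s + 1) * s = 0 := (smul_eq_zero.1 h13).resolve_right he0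
    have h16 : s = -1 := eq_neg_of_add_eq_zero_left ((mul_eq_zero.1 h15).resolve_right hs0)
    refine ⟨h11, ?_⟩
    rw [h12, h16, neg_neg, one_smul]
  · right
    have h12 : (s - 1) • (h' * e) = 0 := by rw [sub_smul, one_smul, ← h8, sub_self]
    have h13 : s = 1 := sub_eq_zero.1 ((smul_eq_zero.1 h12).resolve_right h11)
    rw [h13, one_smul] at h1 h10
    have h14 : e * h' = 0 := by
      have h15 : (2 : k) • (e * h') = 0 := by
        rw [two_smul]
        nth_rewrite 1 [← h10]
        rw [neg_add_cancel]
      exact (smul_eq_zero.1 h15).resolve_left two_ne_zero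
    rw [h14, sub_zero] at h1
    exact ⟨h1, h14⟩

end Pool.Agent.Lib.MP_021685_agO
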