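import Pool.Agent.Lib.MP_021685_agO.OD
import Pool.Agent.Lib.MP_021685_agO.OH2

/-!
# Block I: products of elements of `J1` and `J1'` are scalar on the image of `e`
-/

set_option autoImplicit false

namespace Pool.Agent.Lib.MP_021685_agO

open Module

variable {k H : Type*} [Field k] [CharZero k] [AddCommGroup H] [Module k H] [FiniteDimensional k H]
  {g : Submodule k (End k H)} {c : End k H → k} {W : Submodule k H} {β : H →ₗ[k] H →ₗ[k] k}

/-- PROOF. The rank of `e` on `W` is odd. -/
theorem Big.e_ne {h e f : End k H} (hB : Big g c W β h e f) : e ≠ 0 := by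
  intro h0
  have h1 := hB.odd
  rw [h0, Submodule.map_zero, finrank_bot] at h1
  exact absurd h1 (by decide)

/-- Let `x ∈ J1`, `y ∈ J1'` be partners. PROOF. `h'' = h + (x y - y x) ∈ g`. With `A = x y`, `B = y x`:
`A² = A`, `B² = B`, `h A = 0 = A h` (`h x = 0`, `y h = 0`), `h B = B = B h` (`h y = y`, `x h = x`), `A B = x y y x = 0`
(`y y = y h y = 0`), `B A = 0`. So `h'' = (h - B) + A` is idempotent. `c h'' = c h + 0 = 1` (`c_add`, `c_bracket`). It commutes
with `tau` (`h` does by `tableH`, and `tau x - x tau = x`, `tau y - y tau = -y`). By `Big.hodge_scalar`, `h'' e = 0` or `h'' e = e`;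
and `h'' e = h e + x y e - y x e = x y e` because `h e = 0` and `x e = x h e = 0`. -/
theorem Big.xy_cases {h e f : End k H} (hB : Big g c W β h e f) {x y : End k H}
    (hx : x ∈ J1 g h e f) (hy : y ∈ J1' g h e f) (h1 : x * y * x = x) (h2 : y * x * y = y) :
    x * y * e = 0 ∨ x * y * e = e := by
  have hg := hB.hg
  have hxg : x ∈ g := hx.1.1
  have hyg : y ∈ g := hy.1.1
  have xh : x * h = x := hx.1.2.1
  have hx0 : h * x = 0 := hx.1.2.2
  have hy1 : h * y = y := hy.1.2.1
  have yh : y * h = 0 := hy.1.2.2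
  have xx : x * x = 0 := by
    calc x * x = x * h * x := by rw [xh]
      _ = x * (h * x) := mul_assoc _ _ _
      _ = 0 := by rw [hx0, mul_zero]
  have yy : y * y = 0 := by
    calc y * y = y * (h * y) := by rw [hy1]
      _ = y * h * y := (mul_assoc _ _ _).symm
      _ = 0 := by rw [yh, zero_mul]
  have hbr : x * y - y * x ∈ g := hg.lie x hxg y hyg
  have hc : c (h + (x * y - y * x)) = 1 := by
    rw [hB.hs.c_add hB.hW.1 hB.hh.1 hbr, hB.hs.c_bracket hB.hW.1 hB.hW.2.1 hxg hyg hbr, hB.hh.2.2,
      add_zero]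
  have hidem : (h + (x * y - y * x)) * (h + (x * y - y * x)) = h + (x * y - y * x) := by
    have e1 : (h + (x * y - y * x)) * (h + (x * y - y * x)) =
        h * h + (h * x) * y - (h * y) * x + x * (y * h) - y * (x * h) + (x * y * x) * y -
          x * (y * y) * x - y * (x * x) * y + (y * x * y) * x := by
      noncomm_ring
    rw [e1, hB.hh.2.1, hx0, hy1, yh, xh, h1, h2, xx, yy]
    noncomm_ring
  have hcomm : (h + (x * y - y * x)) * tau e f = tau e f * (h + (x * y - y * x)) := by
    have t1 : h * tau e f = tau e f * h := hB.pr.toPair.tableH.2.2.2.2.2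
    have t2 : tau e f * x = x * tau e f + x := by
      have := hx.2
      rw [sub_eq_iff_eq_add] at this
      rw [this, add_comm]
    have t3 : tau e f * y = y * tau e f - y := by
      have := hy.2
      rw [sub_eq_iff_eq_add] at this
      rw [this]
      abel
    have e2 : tau e f * (x * y - y * x) = (x * y - y * x) * tau e f := by
      have e3 : tau e f * (x * y - y * x) = (tau e f * x) * y - (tau e f * y) * x := by
        noncomm_ring
      rw [e3, t2, t3]
      have e4 : (x * tau e f + x) * y - (y * tau e f - y) * x =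
          x * (tau e f * y) + x * y - (y * (tau e f * x) - y * x) := by
        noncomm_ring
      rw [e4, t2, t3]
      noncomm_ring
    rw [add_mul, mul_add, t1, e2]
  have hH : IsHodgeElt g c (h + (x * y - y * x)) := ⟨g.add_mem hB.hh.1 hbr, hidem, hc⟩
  have he0 : h * e = 0 := hB.pr.he.2.2
  have hxe : x * e = 0 := by
    calc x * e = x * h * e := by rw [xh]
      _ = x * (h * e) := mul_assoc _ _ _
      _ = 0 := by rw [he0, mul_zero]
  have hval : (h + (x * y - y * x)) * e = x * y * e := by
    have e5 : (h + (x * y - y * x)) * e = h * e + x * y * e - y * (x * e) := by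
      noncomm_ring
    rw [e5, he0, hxe, mul_zero, zero_add, sub_zero]
  rcases hB.hodge_scalar hH hcomm with h3 | h3
  · left
    rw [← hval]
    exact h3.1
  · right
    rw [← hval]
    exact h3.1

/-- Let `x ∈ J1`, `y ∈ J1'` be partners and `w₁ ∈ J1'` with `x w₁ x = 0`. PROOF.
`y' = y - (w₁ x y + y x w₁) + w₁ x w₁ ∈ J1'` (`jpair_J1`, `JPair.tri'_add`, `tri'`), and `y' = (1 - w₁ x) y (1 - x w₁)` because
`x y x = x`. `x y' x = (x - x w₁ x) y (x - x w₁ x) = x y x = x`; `y' x y' = (1 - w₁ x) y (x - x w₁ x) (1 - w₁ x) y (1 - x w₁)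
= (1 - w₁ x) y x (1 - w₁ x) y (1 - x w₁) = (1 - w₁ x) y (x - x w₁ x) y (1 - x w₁) = (1 - w₁ x) y x y (1 - x w₁) = y'`. So `x, y'` are
partners. `x y' = (x - x w₁ x) y (1 - x w₁) = x y - x y x w₁ = x y - x w₁`. By `xy_cases` for `y` and `y'`:
`x w₁ e = x y e - x y' e ∈ {0, e, -e}`, i.e. `x w₁ e = s e`; `0 = x w₁ x w₁ e = s² e`, so `s = 0` (`e ≠ 0`). -/
theorem Big.xw_zero [IsAlgClosed k] {h e f : End k H} (hB : Big g c W β h e f) {x y w : End k H}
    (hx : x ∈ J1 g h e f) (hy : y ∈ J1' g h e f) (h1 : x * y * x = x) (h2 : y * x * y = y)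
    (hw : w ∈ J1' g h e f) (h0 : x * w * x = 0) : x * w * e = 0 := by
  have hJ := jpair_J1 hB.hg hB.hh hB.pr.toPair
  have hy' : y - (y * x * w + w * x * y) + w * x * w ∈ J1' g h e f :=
    (J1' g h e f).add_mem ((J1' g h e f).sub_mem hy (hJ.tri'_add hx hy hw)) (hJ.tri' x hx w hw)
  have e1 : y - (y * x * w + w * x * y) + w * x * w = (1 - w * x) * y * (1 - x * w) := by
    have e2 : (1 - w * x) * y * (1 - x * w) =
        y - (y * x * w + w * x * y) + w * (x * y * x) * w := by
      noncomm_ring
    rw [e2, h1]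
  rw [e1] at hy'
  have k1 : x * ((1 - w * x) * y * (1 - x * w)) = x * y - x * w := by
    have e2 : x * ((1 - w * x) * y * (1 - x * w)) =
        x * y - (x * w * x) * y - (x * y * x) * w + (x * w * x) * y * x * w := by
      noncomm_ring
    rw [e2, h0, h1]
    noncomm_ring
  have k2 : x * ((1 - w * x) * y * (1 - x * w)) * x = x := by
    rw [k1]
    have e2 : (x * y - x * w) * x = x * y * x - x * w * x := by
      noncomm_ring
    rw [e2, h0, h1, sub_zero]
  have k3 : (1 - w * x) * y * (1 - x * w) * x * ((1 - w * x) * y * (1 - x * w)) =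
      (1 - w * x) * y * (1 - x * w) := by
    have e2 : (1 - w * x) * y * (1 - x * w) * x * ((1 - w * x) * y * (1 - x * w)) =
        (1 - w * x) * (y * ((x - x * w * x) - (x - x * w * x) * w * x) * y) * (1 - x * w) := by
      noncomm_ring
    rw [e2, h0, sub_zero]
    have e3 : y * (x - x * w * x) * y = y * x * y := by
      rw [h0, sub_zero]
    rw [e3, h2]
  have c1 := hB.xy_cases hx hy h1 h2
  have c2 := hB.xy_cases hx hy' k2 k3
  have k4 : x * w * e = x * y * e - x * ((1 - w * x) * y * (1 - x * w)) * e := by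
    rw [k1]
    noncomm_ring
  have k5 : x * w * (x * w * e) = 0 := by
    have e2 : x * w * (x * w * e) = (x * w * x) * w * e := by
      noncomm_ring
    rw [e2, h0, zero_mul, zero_mul]
  have hne := hB.e_ne
  rcases c1 with c1 | c1 <;> rcases c2 with c2 | c2
  · rw [k4, c1, c2, sub_zero]
  · exfalso
    have k6 : x * w * e = -e := by rw [k4, c1, c2, zero_sub]
    rw [k6, mul_neg, k6, neg_neg] at k5
    exact hne k5
  · exfalso
    have k6 : x * w * e = e := by rw [k4, c1, c2, sub_zero]
    rw [k6, k6] at k5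
    exact hne k5
  · rw [k4, c1, c2, sub_self]

/-- PROOF. Let `y` be a partner of `x` (`JPair.partner` for `jpair_J1`) and
`w₁ = w x y + y x w - 2 y (x w x) y ∈ J1'` (`tri'_add`; `y (x w x) y ∈ J1'` by `tri`, `tri'`). `x w₁ x = x w x + x w x - 2 x w x = 0`, so
`x w₁ e = 0` (`xw_zero`), and `x w₁ = x w x y + x w - 2 x w x y = x w - x w x y` (`x y x w = x w`, `x y x w x y = x w x y`). So
`x w e = x w x y e`. If `x w x = s x` then `x w e = s (x y e) ∈ {0, s e}` by `xy_cases`. -/
theorem Big.xw_prim [IsAlgClosed k] {h e f : End k H} (hB : Big g c W β h e f) {x w : End k H}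
    (hx : x ∈ J1 g h e f) (hw : w ∈ J1' g h e f) {s : k} (h0 : x * w * x = s • x) :
    ∃ t : k, x * w * e = t • e := by
  have hJ := jpair_J1 hB.hg hB.hh hB.pr.toPair
  obtain ⟨y, hy, h1, h2⟩ := hJ.partner hx
  have hz : x * w * x ∈ J1 g h e f := hJ.tri x hx w hw
  have hu : y * (x * w * x) * y ∈ J1' g h e f := hJ.tri' _ hz y hy
  have hw1 : y * x * w + w * x * y - (2 : k) • (y * (x * w * x) * y) ∈ J1' g h e f :=
    (J1' g h e f).sub_mem (hJ.tri'_add hx hy hw) ((J1' g h e f).smul_mem _ hu)
  have e0 : (2 : k) • (y * (x * w * x) * y) = y * (x * w * x) * y + y * (x * w * x) * y :=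
    two_smul k _
  rw [e0] at hw1
  have k0 : x * (y * x * w + w * x * y - (y * (x * w * x) * y + y * (x * w * x) * y)) =
      x * w - x * w * x * y := by
    have e2 : x * (y * x * w + w * x * y - (y * (x * w * x) * y + y * (x * w * x) * y)) =
        (x * y * x) * w + x * w * x * y - ((x * y * x) * w * x * y + (x * y * x) * w * x * y) := by
      noncomm_ring
    rw [e2, h1]
    noncomm_ring
  have k1 : x * (y * x * w + w * x * y - (y * (x * w * x) * y + y * (x * w * x) * y)) * x = 0 := by
    rw [k0]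
    have e2 : (x * w - x * w * x * y) * x = x * w * x - x * w * (x * y * x) := by
      noncomm_ring
    rw [e2, h1, sub_self]
  have k2 := hB.xw_zero hx hy h1 h2 hw1 k1
  rw [k0, sub_mul, sub_eq_zero] at k2
  rw [h0, smul_mul_assoc, smul_mul_assoc] at k2
  rcases hB.xy_cases hx hy h1 h2 with h3 | h3
  · refine ⟨0, ?_⟩
    rw [k2, h3, smul_zero, zero_smul]
  · exact ⟨s, by rw [k2, h3]⟩

/-- PROOF. Strong induction on `finrank k (LinearMap.range x)`. `x = 0` is trivial. If `x w x ∈ k x` for all `w ∈ J1'`: `xw_prim`.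
Otherwise (`JPair.split` for `jpair_J1`) `x = x₁ + x₂` with `x₁, x₂ ∈ J1` non-zero and (`W = ⊤`, `Submodule.map_top`) of smaller rank;
add the scalars. -/
theorem Big.mul_scalar [IsAlgClosed k] {h e f : End k H} (hB : Big g c W β h e f)
    {x y : End k H} (hx : x ∈ J1 g h e f) (hy : y ∈ J1' g h e f) :
    ∃ t : k, x * y * e = t • e := by
  have hJ := jpair_J1 hB.hg hB.hh hB.pr.toPair
  have key : ∀ n : ℕ, ∀ x ∈ J1 g h e f, finrank k (LinearMap.range x) ≤ n →
      ∃ t : k, x * y * e = t • e := by
    intro n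
    induction n using Nat.strong_induction_on with
    | _ n ih =>
      intro x hx hn
      by_cases hx0 : x = 0
      · refine ⟨0, ?_⟩
        rw [hx0, zero_mul, zero_mul, zero_smul]
      rcases hJ.split hx hx0 with h1 | ⟨x1, hx1, x2, hx2, h1, h2, h3, h4⟩
      · obtain ⟨s, hs⟩ := h1 y hy
        exact hB.xw_prim hx hy hs
      · have h5 := h4 ⊤ (fun _ _ _ _ => Submodule.mem_top) (fun _ _ _ _ => Submodule.mem_top)
        rw [Submodule.map_top, Submodule.map_top, Submodule.map_top] at h5
        have pos : ∀ z : End k H, z ≠ 0 → 0 < finrank k (LinearMap.range z) := by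
          intro z hz
          rw [Nat.pos_iff_ne_zero]
          intro h6
          exact hz (LinearMap.range_eq_bot.1 (Submodule.finrank_eq_zero.1 h6))
        have p1 := pos x1 h1
        have p2 := pos x2 h2
        obtain ⟨t1, ht1⟩ := ih (finrank k (LinearMap.range x1)) (by omega) x1 hx1 le_rfl
        obtain ⟨t2, ht2⟩ := ih (finrank k (LinearMap.range x2)) (by omega) x2 hx2 le_rfl
        refine ⟨t1 + t2, ?_⟩
        rw [h3, add_mul, add_mul, ht1, ht2, add_smul]
  exact key _ x hx le_rfl

end Pool.Agent.Lib.MP_021685_agO
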