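import Pool.Agent.Lib.MP_021685_agO.OJ

/-!
# Block K: `g` is the sum of `K` and its centraliser
-/

set_option autoImplicit false

namespace Pool.Agent.Lib.MP_021685_agO

open Module

variable {k H : Type*} [Field k] [CharZero k] [AddCommGroup H] [Module k H] [FiniteDimensional k H]
  {g : Submodule k (End k H)} {c : End k H → k}

omit [CharZero k] [FiniteDimensional k H] in
private theorem ok_comm_trace (A X Y : End k H) :
    LinearMap.trace k H ((A * X - X * A) * Y) = LinearMap.trace k H (X * (Y * A - A * Y)) := by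
  have h1 : LinearMap.trace k H (A * X * Y) = LinearMap.trace k H (X * Y * A) := by
    rw [mul_assoc A X Y, LinearMap.trace_mul_comm]
  rw [sub_mul, mul_sub, map_sub, map_sub, ← mul_assoc X Y A, ← mul_assoc X A Y, h1]

private def okI (g : Submodule k (End k H)) (h : End k H) : Submodule k (End k H) where
  carrier := {X | X ∈ KK g h ∧ ∀ Y ∈ KK g h, LinearMap.trace k H (X * Y) = 0}
  add_mem' := by
    rintro X Y ⟨h1, h2⟩ ⟨h3, h4⟩
    refine ⟨(KK g h).add_mem h1 h3, fun Z hZ => ?_⟩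
    rw [add_mul, map_add, h2 Z hZ, h4 Z hZ, add_zero]
  zero_mem' := ⟨(KK g h).zero_mem, fun Z _ => by rw [zero_mul, map_zero]⟩
  smul_mem' := by
    rintro a X ⟨h1, h2⟩
    refine ⟨(KK g h).smul_mem a h1, fun Z hZ => ?_⟩
    rw [smul_mul_assoc, map_smul, h2 Z hZ, smul_zero]

private theorem okI_comm (hg : IsGaloisAlg g c) {h : End k H} (hh : IsHodgeElt g c h)
    {X : End k H} (hX : X ∈ KK g h) (h0 : ∀ Y ∈ KK g h, LinearMap.trace k H (X * Y) = 0) :
    ∀ A ∈ g, X * A = A * X := by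
  have hid : ∀ A ∈ g, ∀ Y ∈ okI g h, A * Y - Y * A ∈ okI g h := by
    rintro A hA Y ⟨hY, hY0⟩
    refine ⟨KK_ideal hg.lie hh.1 hh.2.1 hA hY, fun Z hZ => ?_⟩
    rw [ok_comm_trace]
    apply hY0
    have h1 := (KK g h).neg_mem (KK_ideal hg.lie hh.1 hh.2.1 hA hZ)
    rwa [neg_sub] at h1
  have hle : okI g h ≤ g := fun Y hY => KK_le hg.lie h hY.1
  have htr : ∀ Y ∈ okI g h, ∀ Z ∈ okI g h, LinearMap.trace k H (Y * Z) = 0 :=
    fun Y hY Z hZ => hY.2 Z hZ.1
  exact ideal_central hg hle hid htr X ⟨hX, h0⟩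

/-- The trace form is non-degenerate on `K`.
PROOF. `I = {X ∈ K | ∀ Y ∈ K, trace (X Y) = 0}` is an ideal of `g` (`KK_ideal`, `trace ((A X - X A) Y) = trace (X (Y A - A Y))`), contained in
`g`; by `ideal_central` it commutes with `g`. Let `X ∈ I`. `X` commutes with `h`. Write `X = x + y + ∑ [x_i, y_i]` with `x, x_i ∈ gm`,
`y, y_i ∈ gp` (`X ∈ K`); the part in the span, `Z`, commutes with `h`; `0 = h X - X h = -x + y` (`h x = 0`, `x h = x`, `h y = y`, `y h = 0`),
multiply by `h` on the left: `y = 0`, so `x = 0`: `X = Z ∈ span {x y - y x}`. For `n ≥ 1`: `trace (X ^ n) = trace (X ^ (n-1) Z)`, and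
`trace (X ^ (n-1) (x y - y x)) = trace ((X ^ (n-1) x - x X ^ (n-1)) y) = 0` as `X` commutes with `x ∈ g`
(`Submodule.span_induction` in `Z`, for fixed `X`). So `X` is nilpotent (`nilpotent_of_trace`). The line `k X` is an ideal of `g` (it commutes
with `g`) of nilpotent elements: `X = 0` by `nil_zero`. -/
theorem KK_nd (hg : IsGaloisAlg g c) {h : End k H} (hh : IsHodgeElt g c h) {X : End k H}
    (hX : X ∈ KK g h) (h0 : ∀ Y ∈ KK g h, LinearMap.trace k H (X * Y) = 0) : X = 0 := by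
  have hc := okI_comm hg hh hX h0
  have hXh : X * h = h * X := hc h hh.1
  have hX' := hX
  obtain ⟨w, hw, Z, hZ, hwZ⟩ := Submodule.mem_sup.1 hX'
  obtain ⟨x, hx, y, hy, hxy⟩ := Submodule.mem_sup.1 hw
  have hZh : Z * h = h * Z := by
    refine Submodule.span_induction ?_ ?_ ?_ ?_ hZ
    · rintro _ ⟨x, ⟨hx1, hx2, hx3⟩, y, ⟨hy1, hy2, hy3⟩, rfl⟩
      rw [sub_mul, mul_sub, mul_assoc x y h, hy3, mul_zero, mul_assoc y x h, hx2,
        ← mul_assoc h x y, hx3, zero_mul, ← mul_assoc h y x, hy2]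
    · rw [zero_mul, mul_zero]
    · intro a b _ _ ha hb
      rw [add_mul, mul_add, ha, hb]
    · intro r a _ ha
      rw [smul_mul_assoc, mul_smul_comm, ha]
  have hxy' : x = y := by
    have h1 : X * h = x + Z * h := by
      rw [← hwZ, ← hxy, add_mul, add_mul, hx.2.1, hy.2.2, add_zero]
    have h2 : h * X = y + h * Z := by
      rw [← hwZ, ← hxy, mul_add, mul_add, hx.2.2, hy.2.1, zero_add]
    rw [h1, h2, hZh] at hXh
    exact add_right_cancel hXh
  have hy0 : y = 0 := by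
    have h1 := hy.2.1
    rw [← hxy', hx.2.2] at h1
    rw [← hxy', ← h1]
  have hx0 : x = 0 := hxy'.trans hy0
  have hXZ : X = Z := by
    rw [← hwZ, ← hxy, hx0, hy0, add_zero, zero_add]
  have hXs : X ∈ Submodule.span k {Z | ∃ x ∈ gm g h, ∃ y ∈ gp g h, Z = x * y - y * x} := by
    rw [hXZ]
    exact hZ
  have htr : ∀ n : ℕ, 1 ≤ n → LinearMap.trace k H (X ^ n) = 0 := by
    intro n hn
    obtain ⟨m, rfl⟩ : ∃ m, n = m + 1 := ⟨n - 1, by omega⟩
    rw [pow_succ]
    refine Submodule.span_induction (p := fun W _ => LinearMap.trace k H (X ^ m * W) = 0)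
      ?_ ?_ ?_ ?_ hXs
    · rintro _ ⟨a, ha, b, hb, rfl⟩
      have hcom : Commute X a := hc a ha.1
      have hcp : X ^ m * a = a * X ^ m := (hcom.pow_left m).eq
      rw [mul_sub, map_sub, ← mul_assoc (X ^ m) a b, hcp, ← mul_assoc (X ^ m) b a,
        LinearMap.trace_mul_comm k (X ^ m * b) a, ← mul_assoc a (X ^ m) b, sub_self]
    · rw [mul_zero, map_zero]
    · intro a b _ _ ha hb
      rw [mul_add, map_add, ha, hb, add_zero]
    · intro r a _ ha
      rw [mul_smul_comm, map_smul, ha, smul_zero]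
  have hnil : IsNilpotent X := nilpotent_of_trace htr
  have hR : Submodule.span k {X} = ⊥ := by
    refine nil_zero hg ?_ ?_ ?_
    · rw [Submodule.span_singleton_le_iff_mem]
      exact KK_le hg.lie h hX
    · intro A hA Y hY
      obtain ⟨r, rfl⟩ := Submodule.mem_span_singleton.1 hY
      rw [mul_smul_comm, smul_mul_assoc, hc A hA, sub_self]
      exact Submodule.zero_mem _
    · intro Y hY
      obtain ⟨r, rfl⟩ := Submodule.mem_span_singleton.1 hY
      exact hnil.smul r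
  exact Submodule.span_singleton_eq_bot.1 hR

/-- PROOF. The linear map `K → Dual K`, `a ↦ trace (a ·)` is injective (`KK_nd`), so bijective; let `a ∈ K` with
`trace (a Y) = trace (X Y)` for all `Y ∈ K`, `b = X - a ∈ g` (`KK_le`). For `Y ∈ K`: `Z = b Y - Y b ∈ K` (`KK_ideal`) and for `Y' ∈ K`
`trace (Z Y') = trace (b (Y Y' - Y' Y)) = 0` (`Y Y' - Y' Y ∈ K`), so `Z = 0` by `KK_nd`. -/
theorem decomp (hg : IsGaloisAlg g c) {h : End k H} (hh : IsHodgeElt g c h) {X : End k H}
    (hX : X ∈ g) : ∃ a ∈ KK g h, ∃ b ∈ g, X = a + b ∧ ∀ Y ∈ KK g h, b * Y = Y * b := by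
  let T : End k H →ₗ[k] (KK g h →ₗ[k] k) :=
    ((LinearMap.mul k (End k H)).compr₂ (LinearMap.trace k H)).compl₂ (KK g h).subtype
  have hT : ∀ (A : End k H) (Y : KK g h), T A Y = LinearMap.trace k H (A * (Y : End k H)) :=
    fun A Y => rfl
  let f : KK g h →ₗ[k] (KK g h →ₗ[k] k) := T.comp (KK g h).subtype
  have hf : Function.Injective f := by
    rw [← LinearMap.ker_eq_bot, LinearMap.ker_eq_bot']
    intro a ha
    apply Subtype.ext
    refine KK_nd hg hh a.2 (fun Y hY => ?_)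
    have h1 := congrArg (fun F : KK g h →ₗ[k] k => F ⟨Y, hY⟩) ha
    exact h1
  have hdim : finrank k (KK g h) = finrank k (KK g h →ₗ[k] k) :=
    (Subspace.dual_finrank_eq (K := k) (V := KK g h)).symm
  have hs : Function.Surjective f :=
    (LinearMap.injective_iff_surjective_of_finrank_eq_finrank hdim).1 hf
  obtain ⟨a, ha⟩ := hs (T X)
  have htr : ∀ Y ∈ KK g h, LinearMap.trace k H ((X - (a : End k H)) * Y) = 0 := by
    intro Y hY
    have h1 := congrArg (fun F : KK g h →ₗ[k] k => F ⟨Y, hY⟩) ha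
    have h2 : LinearMap.trace k H ((a : End k H) * Y) = LinearMap.trace k H (X * Y) := h1
    rw [sub_mul, map_sub, h2, sub_self]
  have hag : (a : End k H) ∈ g := KK_le hg.lie h a.2
  have hbg : X - (a : End k H) ∈ g := g.sub_mem hX hag
  refine ⟨a, a.2, X - (a : End k H), hbg, by rw [add_sub_cancel], fun Y hY => ?_⟩
  have hZ : Y * (X - (a : End k H)) - (X - (a : End k H)) * Y ∈ KK g h := by
    have h1 := (KK g h).neg_mem (KK_ideal hg.lie hh.1 hh.2.1 hbg hY)
    rwa [neg_sub] at h1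
  have h2 : Y * (X - (a : End k H)) - (X - (a : End k H)) * Y = 0 := by
    refine KK_nd hg hh hZ (fun Y' hY' => ?_)
    rw [ok_comm_trace]
    exact htr _ (KK_ideal hg.lie hh.1 hh.2.1 (KK_le hg.lie h hY') hY)
  exact (sub_eq_zero.1 h2).symm

end Pool.Agent.Lib.MP_021685_agO
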