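import Pool.Agent.Lib.MP_021685_agO.OK

/-!
# Block L: the idempotents of multiplier `1` are scalar on the image of `e`, first part
-/

set_option autoImplicit false

namespace Pool.Agent.Lib.MP_021685_agO

open Module

variable {k H : Type*} [Field k] [CharZero k] [AddCommGroup H] [Module k H] [FiniteDimensional k H]
  {g : Submodule k (End k H)} {c : End k H → k} {W : Submodule k H} {β : H →ₗ[k] H →ₗ[k] k}

/-- PROOF. With `b = n X - X n`: `n b - b n = n n X - 2 n X n + X n n = -2 n X n`. -/
theorem nXn_mem {S : Submodule k (End k H)} {n X : End k H} (hn2 : n * n = 0)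
    (hS : ∀ Y ∈ S, n * Y - Y * n ∈ S) (hX : X ∈ S) : n * X * n ∈ S := by
  have h1 := hS _ (hS X hX)
  have h2 : n * (n * X - X * n) - (n * X - X * n) * n = (-2 : k) • (n * X * n) := by
    have e1 : n * (n * X - X * n) - (n * X - X * n) * n
        = n * n * X - (n * X * n + n * X * n) + X * (n * n) := by noncomm_ring
    rw [e1, hn2, zero_mul, mul_zero, zero_sub, add_zero, ← two_smul k (n * X * n), neg_smul]
  rw [h2] at h1
  have h3 : n * X * n = (-2 : k)⁻¹ • ((-2 : k) • (n * X * n)) := by
    rw [smul_smul, inv_mul_cancel₀ (by norm_num : (-2 : k) ≠ 0), one_smul]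
  rw [h3]
  exact S.smul_mem _ h1

/-- Conjugation by `1 + n`. PROOF. `h'' = (1 + n) h' (1 - n)` and `(1 - n) (1 + n) = 1`, so `h''` is idempotent. It is in `g` by `nXn_mem`
(`S = g`). `c h'' = c h' + c [n, h'] + c ([n, [n, h']]) / 2 = 1` (`c_add`, `c_smul`, `c_bracket`, with `n h' n = -[n,[n,h']]/2`). -/
theorem conj_hodge (hg : IsGaloisAlg g c) (hW : IsSimpleSub g W) (hs : IsSympl g c W β)
    {h' n : End k H} (hh' : IsHodgeElt g c h') (hn : n ∈ g) (hn2 : n * n = 0) :
    IsHodgeElt g c (h' + (n * h' - h' * n) - n * h' * n) := by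
  obtain ⟨hm, hi, hc⟩ := hh'
  have hW0 : W ≠ ⊥ := hW.1
  have hst : IsStable g W := hW.2.1
  have hb : n * h' - h' * n ∈ g := hg.lie n hn h' hm
  have hbb : n * (n * h' - h' * n) - (n * h' - h' * n) * n ∈ g := hg.lie n hn _ hb
  have hnn : n * h' * n ∈ g := nXn_mem hn2 (fun Y hY => hg.lie n hn Y hY) hm
  have hnn2 : n * h' * n = (-2 : k)⁻¹ • (n * (n * h' - h' * n) - (n * h' - h' * n) * n) := by
    have e1 : n * (n * h' - h' * n) - (n * h' - h' * n) * n
        = n * n * h' - (n * h' * n + n * h' * n) + h' * (n * n) := by noncomm_ring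
    rw [e1, hn2, zero_mul, mul_zero, zero_sub, add_zero, ← two_smul k (n * h' * n), ← neg_smul,
      smul_smul, inv_mul_cancel₀ (by norm_num : (-2 : k) ≠ 0), one_smul]
  refine ⟨g.sub_mem (g.add_mem hm hb) hnn, ?_, ?_⟩
  · have e2 : h' + (n * h' - h' * n) - n * h' * n = (1 + n) * h' * (1 - n) := by noncomm_ring
    have e3 : (1 - n) * (1 + n) = (1 : End k H) := by
      have : (1 - n) * (1 + n) = 1 - n * n := by noncomm_ring
      rw [this, hn2, sub_zero]
    rw [e2]
    calc (1 + n) * h' * (1 - n) * ((1 + n) * h' * (1 - n))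
        = (1 + n) * h' * ((1 - n) * (1 + n)) * h' * (1 - n) := by simp only [mul_assoc]
      _ = (1 + n) * (h' * h') * (1 - n) := by rw [e3, mul_one]; simp only [mul_assoc]
      _ = (1 + n) * h' * (1 - n) := by rw [hi]
  · rw [hs.c_sub hW0 (g.add_mem hm hb) hnn, hs.c_add hW0 hm hb, hc,
      hs.c_bracket hW0 hst hn hm hb, hnn2, hs.c_smul hW0 _ hbb,
      hs.c_bracket hW0 hst hn hb hbb, mul_zero, add_zero, sub_zero]

/-- The quadratic equation. PROOF. `b` commutes with `e`, `f ∈ K`. `e f (a + b)² e = e f (a + b) e`. Left side: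
`e f a a e + e f a b e + e f b a e + e f b b e = e f a a e + 2 s b e + b b e` (`e f a b e = e f a e b = s e b`; `e f b a e = b e f a e = s b e`;
`e f b b e = b b e f e = b b e`). Right side: `s e + b e`. `e f a a e` is a multiple of `e`:
`e f a (e f + f e + rr) a e`: `e f a e f a e = s e f a e = s² e`. `(e f a f e) (f e a e f) e = (u e) (v f) e = u v e` (`Prim.g2`, `Prim.g2'` for
`a ∈ K ≤ g`). `e f a rr a e = e f (a₁ a₋₁) e` with `a₁ = c1 e f a`, `a₋₁ = d1 e f a` (in `g` by `Pair.comp_mem`, in `K`: `K` is stable under `ad tau` by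
`KK_ideal`, use `Pair.comp_mem` for `S = KK g h`): `a₁ a₋₁ = (e f a rr + rr a f e)(rr a e f + f e a rr)`, so `e f a₁ a₋₁ e = e f a rr a e`; and
`e f a₋₁ = 0`, so this is `e f (a₁ a₋₁ - a₋₁ a₁) e` with `a₁ a₋₁ - a₋₁ a₁ ∈ K` (`KK_ideal`): a multiple of `e` by `Big.comp_K`. -/
theorem Big.quad [IsAlgClosed k] {h e f : End k H} (hB : Big g c W β h e f) {a b : End k H}
    (ha : a ∈ KK g h) (hb : ∀ Y ∈ KK g h, b * Y = Y * b) (hid : (a + b) * (a + b) = a + b) {s : k}
    (hs : e * f * a * e = s • e) : ∃ t : k, b * b * e = (1 - 2 * s) • (b * e) + t • e := by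
  have hg := hB.hg
  have hh := hB.hh
  have hp : Pair g h e f := hB.pr.toPair
  have hag : a ∈ g := KK_le hg.lie h ha
  have hbe : b * e = e * b := hb e (gm_le_KK h hp.he)
  have hbf : b * f = f * b := hb f (gp_le_KK h hp.hf)
  have efe := hp.efe
  have tbl := hp.table
  obtain ⟨tEE, tFF, tEF, tFE, tRR, tER, tRE, tFR, tRF, -, -, -, -, -, -⟩ := tbl
  obtain ⟨-, -, -, -, -, -, -, -, tRe, teR, tRf, tfR, -, -, -, -⟩ := hp.tableE
  obtain ⟨u, hu⟩ := hB.pr.g2 hg hh hag
  obtain ⟨v, hv⟩ := hB.pr.g2' hg hh hag
  -- the components of `a`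
  have htau : tau e f ∈ g := hp.tau_mem hg.lie
  have hcm := hp.comp_mem (S := KK g h) (fun X hX => KK_ideal hg.lie hh.1 hh.2.1 htau hX) ha
  have h1K : c1 e f a ∈ KK g h := hcm.2.2.2.1
  have hd1K : d1 e f a ∈ KK g h := hcm.2.1
  have hbrK : c1 e f a * d1 e f a - d1 e f a * c1 e f a ∈ KK g h :=
    KK_ideal hg.lie hh.1 hh.2.1 (KK_le hg.lie h h1K) hd1K
  obtain ⟨r, hr⟩ := hB.comp_K hbrK
  -- third term
  have third : e * f * a * rr e f * a * e = r • e := by
    rw [← hr]
    have x1 : e * f * d1 e f a = 0 := by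
      unfold d1
      calc e * f * (rr e f * a * (e * f) + f * e * a * rr e f)
          = (e * f * rr e f) * a * (e * f) + (e * f * (f * e)) * a * rr e f := by
            simp only [mul_add, mul_assoc]
        _ = 0 := by rw [tER, tEF]; simp only [zero_mul, add_zero]
    have x2 : e * f * c1 e f a = e * f * a * rr e f := by
      unfold c1
      calc e * f * (e * f * a * rr e f + rr e f * a * (f * e))
          = (e * f * (e * f)) * a * rr e f + (e * f * rr e f) * a * (f * e) := by
            simp only [mul_add, mul_assoc]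
        _ = e * f * a * rr e f := by rw [tER, tEE]; simp only [zero_mul, add_zero]
    have x3 : rr e f * d1 e f a * e = rr e f * a * e := by
      unfold d1
      calc rr e f * (rr e f * a * (e * f) + f * e * a * rr e f) * e
          = (rr e f * rr e f) * a * (e * f * e) + (rr e f * (f * e)) * a * rr e f * e := by
            simp only [mul_add, add_mul, mul_assoc]
        _ = rr e f * a * e := by rw [tRR, tRF, efe]; simp only [zero_mul, add_zero]
    calc e * f * a * rr e f * a * e = e * f * a * (rr e f * a * e) := by simp only [mul_assoc]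
      _ = e * f * a * (rr e f * d1 e f a * e) := by rw [x3]
      _ = (e * f * a * rr e f) * d1 e f a * e := by simp only [mul_assoc]
      _ = (e * f * c1 e f a) * d1 e f a * e := by rw [x2]
      _ = (e * f * c1 e f a) * d1 e f a * e - (e * f * d1 e f a) * c1 e f a * e := by
          rw [x1, zero_mul, zero_mul, sub_zero]
      _ = e * f * (c1 e f a * d1 e f a - d1 e f a * c1 e f a) * e := by
          simp only [mul_sub, sub_mul, mul_assoc]
  -- second term
  have eae : e * a * e = v • e := by
    calc e * a * e = (e * f * e) * a * (e * f * e) := by rw [efe]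
      _ = e * (f * e * a * (e * f)) * e := by simp only [mul_assoc]
      _ = e * (d2 e f a) * e := rfl
      _ = e * (v • f) * e := by rw [hv]
      _ = v • (e * f * e) := by rw [mul_smul_comm, smul_mul_assoc]
      _ = v • e := by rw [efe]
  have second : e * f * a * (f * e) * a * e = (u * v) • e := by
    calc e * f * a * (f * e) * a * e = (c2 e f a) * a * e := rfl
      _ = (u • e) * a * e := by rw [hu]
      _ = u • (e * a * e) := by rw [smul_mul_assoc, smul_mul_assoc]
      _ = (u * v) • e := by rw [eae, smul_smul]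
  have first : e * f * a * (e * f) * a * e = (s * s) • e := by
    calc e * f * a * (e * f) * a * e = (e * f * a * e) * f * a * e := by simp only [mul_assoc]
      _ = (s • e) * f * a * e := by rw [hs]
      _ = s • (e * f * a * e) := by simp only [smul_mul_assoc]
      _ = (s * s) • e := by rw [hs, smul_smul]
  have faa : e * f * a * a * e = (s * s + u * v + r) • e := by
    have hone : (1 : End k H) = e * f + f * e + rr e f := by
      unfold rr; noncomm_ring
    calc e * f * a * a * e = e * f * a * 1 * a * e := by rw [mul_one]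
      _ = e * f * a * (e * f + f * e + rr e f) * a * e := by rw [← hone]
      _ = e * f * a * (e * f) * a * e + e * f * a * (f * e) * a * e + e * f * a * rr e f * a * e := by
          simp only [mul_add, add_mul]
      _ = (s * s + u * v + r) • e := by rw [first, second, third, add_smul, add_smul]
  -- the other terms
  have t1 : e * f * a * b * e = s • (b * e) := by
    calc e * f * a * b * e = e * f * a * (b * e) := by simp only [mul_assoc]
      _ = e * f * a * (e * b) := by rw [hbe]
      _ = (e * f * a * e) * b := by simp only [mul_assoc]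
      _ = s • (e * b) := by rw [hs, smul_mul_assoc]
      _ = s • (b * e) := by rw [hbe]
  have hefb : e * f * b = b * (e * f) := by
    calc e * f * b = e * (f * b) := by rw [mul_assoc]
      _ = e * (b * f) := by rw [hbf]
      _ = (e * b) * f := by rw [mul_assoc]
      _ = (b * e) * f := by rw [hbe]
      _ = b * (e * f) := by rw [mul_assoc]
  have t2 : e * f * b * a * e = s • (b * e) := by
    calc e * f * b * a * e = b * (e * f * a * e) := by rw [hefb]; simp only [mul_assoc]
      _ = s • (b * e) := by rw [hs, mul_smul_comm]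
  have t3 : e * f * b * b * e = b * b * e := by
    calc e * f * b * b * e = (e * f * b) * (b * e) := by simp only [mul_assoc]
      _ = (b * (e * f)) * (b * e) := by rw [hefb]
      _ = b * (e * f * b) * e := by simp only [mul_assoc]
      _ = b * (b * (e * f)) * e := by rw [hefb]
      _ = b * b * (e * f * e) := by simp only [mul_assoc]
      _ = b * b * e := by rw [efe]
  have t4 : e * f * b * e = b * e := by
    calc e * f * b * e = b * (e * f * e) := by rw [hefb]; simp only [mul_assoc]
      _ = b * e := by rw [efe]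
  have key : e * f * ((a + b) * (a + b)) * e = e * f * (a + b) * e := by rw [hid]
  have keyL : e * f * ((a + b) * (a + b)) * e
      = e * f * a * a * e + e * f * a * b * e + (e * f * b * a * e + e * f * b * b * e) := by
    simp only [mul_add, add_mul, mul_assoc]
    abel
  have keyR : e * f * (a + b) * e = e * f * a * e + e * f * b * e := by
    simp only [mul_add, add_mul]
  rw [keyL, keyR, faa, t1, t2, t3, t4, hs] at key
  refine ⟨s - (s * s + u * v + r), ?_⟩
  have : b * b * e = (s • e + b * e) - (s * s + u * v + r) • e - s • (b * e) - s • (b * e) := by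
    rw [← key]; abel
  rw [this]
  module

/-- PROOF. Subtract the two equations `Big.quad` for `a` and `a'`: `2 (s' - s) b e = (t' - t) e`. -/
theorem Big.compare [IsAlgClosed k] {h e f : End k H} (hB : Big g c W β h e f) {a a' b : End k H}
    (ha : a ∈ KK g h) (ha' : a' ∈ KK g h) (hb : ∀ Y ∈ KK g h, b * Y = Y * b)
    (hid : (a + b) * (a + b) = a + b) (hid' : (a' + b) * (a' + b) = a' + b) {s s' : k}
    (hs : e * f * a * e = s • e) (hs' : e * f * a' * e = s' • e) (hne : s ≠ s') :
    ∃ r : k, b * e = r • e := by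
  obtain ⟨t, ht⟩ := hB.quad ha hb hid hs
  obtain ⟨t', ht'⟩ := hB.quad ha' hb hid' hs'
  refine ⟨(2 * (s' - s))⁻¹ * (t' - t), ?_⟩
  have hne' : (2 : k) * (s' - s) ≠ 0 :=
    mul_ne_zero two_ne_zero (sub_ne_zero.mpr (Ne.symm hne))
  have h1 : (2 * (s' - s)) • (b * e) = (t' - t) • e := by
    have h2 : (1 - 2 * s) • (b * e) + t • e = (1 - 2 * s') • (b * e) + t' • e := by
      rw [← ht, ← ht']
    have h3 : (2 * (s' - s)) • (b * e) - (t' - t) • e
        = ((1 - 2 * s) • (b * e) + t • e) - ((1 - 2 * s') • (b * e) + t' • e) := by module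
    rw [h2, sub_self] at h3
    exact sub_eq_zero.mp h3
  rw [mul_smul, ← h1, smul_smul, inv_mul_cancel₀ hne', one_smul]

/-- Conjugation by `1 + n` with `n ∈ K`, `n² = 0` keeps `b`. PROOF. `n h' - h' n = n a - a n` and `n h' n = n a n + b n n = n a n`; `a' = a + (n a - a n) - n a n ∈ K`
by `KK_ideal` and `nXn_mem`. -/
theorem conj_decomp (hg : IsGaloisAlg g c) {h : End k H} (hh : IsHodgeElt g c h)
    {a b n : End k H} (ha : a ∈ KK g h) (hb : ∀ Y ∈ KK g h, b * Y = Y * b) (hn : n ∈ KK g h)
    (hn2 : n * n = 0) :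
    a + (n * a - a * n) - n * a * n ∈ KK g h ∧
      (a + b) + (n * (a + b) - (a + b) * n) - n * (a + b) * n =
        (a + (n * a - a * n) - n * a * n) + b := by
  have hng : n ∈ g := KK_le hg.lie h hn
  have hst : ∀ Y ∈ KK g h, n * Y - Y * n ∈ KK g h := fun Y hY => KK_ideal hg.lie hh.1 hh.2.1 hng hY
  refine ⟨(KK g h).sub_mem ((KK g h).add_mem ha (hst a ha)) (nXn_mem hn2 hst ha), ?_⟩
  have hbn : b * n = n * b := hb n hn
  have e1 : n * b * n = 0 := by rw [mul_assoc, hbn, ← mul_assoc, hn2, zero_mul]
  have e2 : (a + b) + (n * (a + b) - (a + b) * n) - n * (a + b) * n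
      = (a + (n * a - a * n) - n * a * n) + b + (n * b - b * n) - n * b * n := by noncomm_ring
  rw [e2, e1, hbn, sub_self, add_zero, sub_zero]

/-- Case A'. PROOF. `e f a f e = c2 e f (a + b) = u e` (`e f b f e = b e f f e = 0`; `Prim.g2`), `u ≠ 0`. Take `n = f ∈ K`, `f f = 0`, `a' = a + (f a - a f) - f a f`
(`conj_decomp`); `a' + b` is idempotent (`conj_hodge`). `e f a' e = e f a e - e f a f e = s e - u e` (`e f f = 0`). So `s' = s - u ≠ s`: `Big.compare`. -/
theorem Big.caseA' [IsAlgClosed k] {h e f : End k H} (hB : Big g c W β h e f) {a b : End k H}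
    (ha : a ∈ KK g h) (hb : ∀ Y ∈ KK g h, b * Y = Y * b) (hh' : IsHodgeElt g c (a + b))
    (hne : c2 e f (a + b) ≠ 0) : ∃ r : k, b * e = r • e := by
  have hg := hB.hg
  have hh := hB.hh
  have hp : Pair g h e f := hB.pr.toPair
  have hff : f * f = 0 := hp.ee.2
  have hfK : f ∈ KK g h := gp_le_KK h hp.hf
  have hbf : b * f = f * b := hb f hfK
  obtain ⟨s, hs⟩ := hB.comp_K ha
  obtain ⟨u, hu⟩ := hB.pr.g2 hg hh hh'.1
  have hu0 : u ≠ 0 := by
    rintro rfl
    exact hne (by rw [hu, zero_smul])
  have h1 : e * f * a * f * e = u • e := by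
    rw [← hu]
    unfold c2
    have h2 : f * b * f = 0 := by rw [← hbf, mul_assoc, hff, mul_zero]
    calc e * f * a * f * e = e * f * a * (f * e) + e * (f * b * f) * e := by
          rw [h2, mul_zero, zero_mul, add_zero]; simp only [mul_assoc]
      _ = e * f * (a + b) * (f * e) := by simp only [mul_add, add_mul, mul_assoc]
  obtain ⟨hK, hdec⟩ := conj_decomp hg hh ha hb hfK hff
  have hconj := conj_hodge hg hB.hW hB.hs hh' hp.hf.1 hff
  rw [hdec] at hconj
  refine hB.compare ha hK hb hh'.2.1 hconj.2.1 hs (s' := s - u) ?_ ?_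
  · calc e * f * (a + (f * a - a * f) - f * a * f) * e
        = e * f * a * e + e * (f * f) * a * e - e * f * a * f * e - e * (f * f) * a * f * e := by
          noncomm_ring
      _ = (s - u) • e := by
          rw [hff, hs, h1, sub_smul]
          simp only [mul_zero, zero_mul, add_zero, sub_zero]
  · intro h3
    exact hu0 (by linear_combination h3)

/-- Case A. PROOF. As case A', with `n = e`: `f e a e f = d2 e f (a + b) = u f`, `u ≠ 0` (`Prim.g2'`);
`e f a' e = e f a e + e f e a e - e f a e e - e f e a e e = s e + e a e`, and `e a e = e (f e a e f) e = u e f e = u e`. -/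
theorem Big.caseA [IsAlgClosed k] {h e f : End k H} (hB : Big g c W β h e f) {a b : End k H}
    (ha : a ∈ KK g h) (hb : ∀ Y ∈ KK g h, b * Y = Y * b) (hh' : IsHodgeElt g c (a + b))
    (hne : d2 e f (a + b) ≠ 0) : ∃ r : k, b * e = r • e := by
  have hg := hB.hg
  have hh := hB.hh
  have hp : Pair g h e f := hB.pr.toPair
  have hee : e * e = 0 := hp.ee.1
  have efe := hp.efe
  have heK : e ∈ KK g h := gm_le_KK h hp.he
  have hbe : b * e = e * b := hb e heK
  obtain ⟨s, hs⟩ := hB.comp_K ha
  obtain ⟨u, hu⟩ := hB.pr.g2' hg hh hh'.1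
  have hu0 : u ≠ 0 := by
    rintro rfl
    exact hne (by rw [hu, zero_smul])
  have h1 : f * (e * a * e) * f = u • f := by
    rw [← hu]
    unfold d2
    have h2 : e * b * e = 0 := by rw [← hbe, mul_assoc, hee, mul_zero]
    calc f * (e * a * e) * f = f * (e * a * e) * f + f * (e * b * e) * f := by
          rw [h2, mul_zero, zero_mul, add_zero]
      _ = f * e * (a + b) * (e * f) := by simp only [mul_add, add_mul, mul_assoc]
  have eae : e * a * e = u • e := by
    calc e * a * e = (e * f * e) * a * (e * f * e) := by rw [efe]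
      _ = e * (f * (e * a * e) * f) * e := by simp only [mul_assoc]
      _ = e * (u • f) * e := by rw [h1]
      _ = u • (e * f * e) := by rw [mul_smul_comm, smul_mul_assoc]
      _ = u • e := by rw [efe]
  obtain ⟨hK, hdec⟩ := conj_decomp hg hh ha hb heK hee
  have hconj := conj_hodge hg hB.hW hB.hs hh' hp.he.1 hee
  rw [hdec] at hconj
  refine hB.compare ha hK hb hh'.2.1 hconj.2.1 hs (s' := s + u) ?_ ?_
  · calc e * f * (a + (e * a - a * e) - e * a * e) * e
        = e * f * a * e + (e * f * e) * a * e - e * f * a * (e * e) - e * f * e * a * (e * e) := by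
          noncomm_ring
      _ = (s + u) • e := by
          rw [hee, efe, hs, eae, add_smul]
          simp only [mul_zero, sub_zero]
  · intro h3
    exact hu0 (by linear_combination -h3)

end Pool.Agent.Lib.MP_021685_agO
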