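import Pool.Agent.Lib.MP_021685_agO.OL

/-!
# Block L: the idempotents of multiplier `1` are scalar on the image of `e`, second part
-/

set_option autoImplicit false
set_option linter.unusedSimpArgs false
set_option linter.unusedSectionVars false

namespace Pool.Agent.Lib.MP_021685_agO

open Module

variable {k H : Type*} [Field k] [CharZero k] [AddCommGroup H] [Module k H] [FiniteDimensional k H]
  {g : Submodule k (End k H)} {c : End k H → k} {W : Submodule k H} {β : H →ₗ[k] H →ₗ[k] k}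

/-- Rewriting rules for a pair of idempotents, in right associated form. -/
private theorem OL2_rules {e f : End k H} (hee : e * e = 0) (hff : f * f = 0) (h1 : e * f * e = e)
    (h2 : f * e * f = f) :
    (∀ X : End k H, e * (e * X) = 0) ∧ (∀ X : End k H, f * (f * X) = 0) ∧
    (∀ X : End k H, e * (f * (e * X)) = e * X) ∧ (∀ X : End k H, f * (e * (f * X)) = f * X) ∧
    e * (f * e) = e ∧ f * (e * f) = f := by
  refine ⟨fun X => ?_, fun X => ?_, fun X => ?_, fun X => ?_, ?_, ?_⟩
  · rw [← mul_assoc, hee, zero_mul]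
  · rw [← mul_assoc, hff, zero_mul]
  · rw [← mul_assoc, ← mul_assoc, h1]
  · rw [← mul_assoc, ← mul_assoc, h2]
  · rw [← mul_assoc, h1]
  · rw [← mul_assoc, h2]

/-- Conjugation by `1 + n` with `n ∈ K`, `n² = 0`: it is enough that the component of degree two becomes
non-zero. -/
private theorem OL2_step [IsAlgClosed k] {h e f : End k H} (hB : Big g c W β h e f) {a b n : End k H}
    (ha : a ∈ KK g h) (hb : ∀ Y ∈ KK g h, b * Y = Y * b) (hh' : IsHodgeElt g c (a + b))
    (hn : n ∈ KK g h) (hn2 : n * n = 0)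
    (hne : c2 e f ((a + b) + (n * (a + b) - (a + b) * n) - n * (a + b) * n) ≠ 0) :
    ∃ r : k, b * e = r • e := by
  obtain ⟨h1, h2⟩ := conj_decomp hB.hg hB.hh ha hb hn hn2
  have h3 := conj_hodge hB.hg hB.hW hB.hs hh' (KK_le hB.hg.lie h hn) hn2
  rw [h2] at h3 hne
  exact hB.caseA' h1 hb h3 hne

private theorem OL2_c0e {e f : End k H} (hee : e * e = 0) (hff : f * f = 0) (h1 : e * f * e = e)
    (h2 : f * e * f = f) (X : End k H) :
    c0 e f X * e = e * f * X * e ∧ e * c0 e f X = e * X * (f * e) := by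
  obtain ⟨r1, r2, r3, r4, r5, r6⟩ := OL2_rules hee hff h1 h2
  constructor
  · simp only [c0, rr, mul_add, add_mul, mul_sub, sub_mul, mul_assoc, mul_one, one_mul, r1, r2, r3, r4,
      r5, r6, hee, hff, mul_zero, zero_mul]
    abel
  · simp only [c0, rr, mul_add, add_mul, mul_sub, sub_mul, mul_assoc, mul_one, one_mul, r1, r2, r3, r4,
      r5, r6, hee, hff, mul_zero, zero_mul]
    abel

/-- Case B. -/
theorem Big.caseB [IsAlgClosed k] {h e f : End k H} (hB : Big g c W β h e f) {a b : End k H}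
    (ha : a ∈ KK g h) (hb : ∀ Y ∈ KK g h, b * Y = Y * b) (hh' : IsHodgeElt g c (a + b)) {s : k}
    (hs : c0 e f (a + b) * e - e * c0 e f (a + b) = s • e) (hne : s ≠ 0) :
    ∃ r : k, b * e = r • e := by
  by_cases h2 : c2 e f (a + b) = 0
  swap
  · exact hB.caseA' ha hb hh' h2
  by_cases hd2 : d2 e f (a + b) = 0
  swap
  · exact hB.caseA ha hb hh' hd2
  obtain ⟨hee, hff⟩ := hB.pr.toPair.ee
  have efe := hB.pr.efe
  have fef := hB.pr.fef
  refine OL2_step hB ha hb hh' (gm_le_KK h hB.pr.he) hee ?_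
  set X := a + b with hX
  obtain ⟨r1, r2, r3, r4, r5, r6⟩ := OL2_rules hee hff efe fef
  have h3 : e * X * e = 0 := by
    have h4 : e * d2 e f X * e = e * X * e := by
      simp only [d2, mul_assoc, r1, r2, r3, r4, r5, r6]
    rw [← h4, hd2, mul_zero, zero_mul]
  obtain ⟨h5, h6⟩ := OL2_c0e hee hff efe fef X
  rw [h5, h6] at hs
  have h7 : c2 e f (X + (e * X - X * e) - e * X * e) = -(s • e) := by
    rw [h3, sub_zero]
    have h8 : c2 e f (X + (e * X - X * e)) =
        c2 e f X + (e * X * (f * e) - e * f * X * e) := by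
      simp only [c2, mul_add, add_mul, mul_sub, sub_mul, mul_assoc, r1, r2, r3, r4, r5, r6]
    rw [h8, h2, zero_add, ← hs]
    abel
  rw [h7]
  intro h9
  rw [neg_eq_zero, smul_eq_zero] at h9
  rcases h9 with h9 | h9
  · exact hne h9
  · exact hB.e_ne h9

/-- The component of degree zero of an element of `g`: it is in `g`, and commutes with `tau`. -/
private theorem OL2_c0 {h e f : End k H} (hB : Big g c W β h e f) {X : End k H} (hX : X ∈ g) :
    c0 e f X ∈ g ∧ c0 e f X * tau e f = tau e f * c0 e f X := by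
  have htau := hB.pr.toPair.tau_mem hB.hg.lie
  refine ⟨(hB.pr.toPair.comp_mem (S := g) (fun Y hY => hB.hg.lie _ htau _ hY) hX).2.2.1, ?_⟩
  have h1 := (hB.pr.toPair.ad_comp X).2.2.1
  exact (sub_eq_zero.1 h1).symm

private theorem OL2_c_zero {h e f : End k H} (hB : Big g c W β h e f) {Y : End k H} (hY : Y ∈ g)
    {j : k} (hj : j ≠ 0) (h1 : tau e f * Y - Y * tau e f = j • Y) : c Y = 0 := by
  have htau := hB.pr.toPair.tau_mem hB.hg.lie
  have h2 := hB.hs.c_bracket hB.hW.1 hB.hW.2.1 htau hY (hB.hg.lie _ htau _ hY)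
  rw [h1, hB.hs.c_smul hB.hW.1 j hY] at h2
  exact (mul_eq_zero.1 h2).resolve_left hj

private theorem OL2_c_c0 {h e f : End k H} (hB : Big g c W β h e f) {X : End k H} (hX : X ∈ g) :
    c (c0 e f X) = c X := by
  have htau := hB.pr.toPair.tau_mem hB.hg.lie
  obtain ⟨m1, m2, m3, m4, m5⟩ :=
    hB.pr.toPair.comp_mem (S := g) (fun Y hY => hB.hg.lie _ htau _ hY) hX
  obtain ⟨a1, a2, -, a4, a5⟩ := hB.pr.toPair.ad_comp X
  have e1 : c (d2 e f X) = 0 := OL2_c_zero hB m1 (j := -2) (by norm_num) a1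
  have e2 : c (d1 e f X) = 0 := OL2_c_zero hB m2 (j := -1) (by norm_num) (by rw [a2, neg_one_smul])
  have e4 : c (c1 e f X) = 0 := OL2_c_zero hB m4 (j := 1) (by norm_num) (by rw [a4, one_smul])
  have e5 : c (c2 e f X) = 0 := OL2_c_zero hB m5 (j := 2) (by norm_num) a5
  have hadd := fun (A B : End k H) (hA : A ∈ g) (hBB : B ∈ g) => hB.hs.c_add hB.hW.1 hA hBB
  have h1 := sum_comp e f X
  have h2 : c (d2 e f X + d1 e f X + c0 e f X + c1 e f X + c2 e f X) = c (c0 e f X) := by
    rw [hadd _ _ (g.add_mem (g.add_mem (g.add_mem m1 m2) m3) m4) m5,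
      hadd _ _ (g.add_mem (g.add_mem m1 m2) m3) m4, hadd _ _ (g.add_mem m1 m2) m3, hadd _ _ m1 m2,
      e1, e2, e4, e5]
    ring
  rw [← h2, h1]

/-- Parity in case C. -/
theorem Big.c1_ne {h e f : End k H} (hB : Big g c W β h e f) {h' : End k H}
    (hh' : IsHodgeElt g c h') (h2 : c2 e f h' = 0)
    (hs : c0 e f h' * e - e * c0 e f h' = 0) : c1 e f h' ≠ 0 := by
  intro h1
  obtain ⟨hee, hff⟩ := hB.pr.toPair.ee
  have efe := hB.pr.efe
  have fef := hB.pr.fef
  obtain ⟨r1, r2, r3, r4, r5, r6⟩ := OL2_rules hee hff efe fef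
  obtain ⟨hX, hcomm⟩ := OL2_c0 hB hh'.1
  have hc : c (c0 e f h') = 1 := (OL2_c_c0 hB hh'.1).trans hh'.2.2
  obtain ⟨s, hs1, hs2⟩ := hB.pr.brk hB.hg hB.hh hX hcomm
  have hs0 : s = 0 := by
    rw [hs] at hs1
    exact (smul_eq_zero.1 hs1.symm).resolve_right hB.e_ne
  obtain ⟨h5, h6⟩ := OL2_c0e hee hff efe fef h'
  -- `X X e = X e`
  have hrr : e * f * h' * rr e f = 0 := by
    have h3 : e * f * c1 e f h' = e * f * h' * rr e f := by
      simp only [c1, rr, mul_add, add_mul, mul_sub, sub_mul, mul_assoc, mul_one, one_mul, r1, r2, r3,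
        r4, r5, r6, hee, hff, mul_zero, zero_mul]
      abel
    rw [← h3, h1, mul_zero]
  have hXXe : c0 e f h' * (c0 e f h' * e) = c0 e f h' * e := by
    rw [h5]
    have h7 : c0 e f h' * (e * f * h' * e) = e * f * h' * (e * f) * (h' * e) := by
      simp only [c0, rr, mul_add, add_mul, mul_sub, sub_mul, mul_assoc, mul_one, one_mul, r1, r2, r3,
        r4, r5, r6, hee, hff, mul_zero, zero_mul]
      abel
    have h8 : e * f * h' * (e * f) * (h' * e) = e * f * (h' * h') * e -
        e * f * h' * (f * e) * (h' * e) - e * f * h' * rr e f * (h' * e) := by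
      simp only [rr, mul_sub, sub_mul, mul_assoc, mul_one, one_mul]
      abel
    have h9 : e * f * h' * (f * e) = 0 := h2
    rw [h7, h8, h9, hrr, hh'.2.1, zero_mul, sub_zero, sub_zero]
  have hXe : c0 e f h' * e = e * c0 e f h' := sub_eq_zero.1 hs
  have hst : ∀ u ∈ W.map e, c0 e f h' u ∈ W.map e := by
    rintro _ ⟨w, hw, rfl⟩
    refine ⟨c0 e f h' w, hB.hW.2.1 _ hX _ hw, ?_⟩
    have := congrArg (fun Z : End k H => Z w) hXe
    exact this.symm
  have hev := parity (k := k) (P := W.map e) (fun u v => β u (f v))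
    (fun u u' v => by rw [Submodule.coe_add, map_add, LinearMap.add_apply])
    (fun s u v => by rw [Submodule.coe_smul, map_smul, LinearMap.smul_apply, smul_eq_mul])
    (fun u v => form_symm hB.hW hB.hs hB.hh.1 hB.pr.toPair u.2 v.2)
    (fun u hu => Subtype.ext (form_nondeg hB.hW hB.hs hB.hh.1 hB.pr.toPair u.2
      fun v hv => hu ⟨v, hv⟩))
    ((c0 e f h').restrict hst)
    (by
      rintro ⟨_, w, hw, rfl⟩
      apply Subtype.ext
      exact congrArg (fun Z : End k H => Z w) hXXe)
    (by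
      intro u v
      have h3 := form_adj hB.hW hB.hs hB.pr.toPair hX hs2 u.2 v.2
      rw [hc, hs0, add_zero, one_mul] at h3
      exact h3)
  exact (Nat.not_even_iff_odd.2 hB.odd) hev

/-- An element of `g` of degree one with square zero which does not commute with the component of degree
one. -/
theorem Big.exists_n {h e f : End k H} (hB : Big g c W β h e f) {h' : End k H}
    (hh' : IsHodgeElt g c h') (h2 : c2 e f h' = 0)
    (hs : c0 e f h' * e - e * c0 e f h' = 0) :
    ∃ n ∈ g, tau e f * n - n * tau e f = n ∧ n * n = 0 ∧ n * c1 e f h' - c1 e f h' * n ≠ 0 := by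
  have htau := hB.pr.toPair.tau_mem hB.hg.lie
  have hXg := (hB.pr.toPair.comp_mem (S := g) (fun Y hY => hB.hg.lie _ htau _ hY) hh'.1).2.2.2.1
  have hXd := (hB.pr.toPair.ad_comp h').2.2.2.1
  have hXne := hB.c1_ne hh' h2 hs
  obtain ⟨Y, hYg, hYd, hYne⟩ : ∃ Y ∈ g, tau e f * Y - Y * tau e f = Y ∧
      c1 e f h' * Y - Y * c1 e f h' ≠ 0 := by
    by_contra hcon
    push Not at hcon
    exact hXne (hB.pr.nd11 hB.hg hB.hh hXg hXd hcon)
  have hhh : h * h = h := hB.hh.2.1
  have hth : h * tau e f = tau e f * h := hB.pr.toPair.tableH.2.2.2.2.2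
  obtain ⟨g1, g2, g3⟩ := hcomp hB.hg.lie hB.hh.1 hhh hYg
  -- degree one of the components
  have hdeg : ∀ p q : End k H, p * tau e f = tau e f * p → q * tau e f = tau e f * q →
      tau e f * (p * Y * q) - p * Y * q * tau e f = p * Y * q := by
    intro p q hp hq
    have h3 : tau e f * (p * Y * q) - p * Y * q * tau e f =
        p * (tau e f * Y - Y * tau e f) * q := by
      have h4 : tau e f * (p * Y * q) = p * (tau e f * Y) * q := by
        rw [← mul_assoc, ← mul_assoc, ← hp, mul_assoc p]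
      have h5 : p * Y * q * tau e f = p * (Y * tau e f) * q := by
        rw [mul_assoc (p * Y), hq, ← mul_assoc, mul_assoc p]
      rw [h4, h5, mul_sub, sub_mul]
    rw [h3, hYd]
  have hth' : (1 - h) * tau e f = tau e f * (1 - h) := by
    rw [sub_mul, mul_sub, one_mul, mul_one, hth]
  have k1 : h * (1 - h) = 0 := by rw [mul_sub, mul_one, hhh, sub_self]
  have k2 : (1 - h) * h = 0 := by rw [sub_mul, one_mul, hhh, sub_self]
  have k3 : (1 - h) * (1 - h) = 1 - h := by rw [mul_sub, mul_one, k2, sub_zero]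
  have hsum : Y = h * Y * (1 - h) + (1 - h) * Y * h + (h * Y * h + (1 - h) * Y * (1 - h)) := by
    simp only [mul_sub, sub_mul, mul_one, one_mul]
    abel
  by_cases c1' : c1 e f h' * (h * Y * (1 - h)) - (h * Y * (1 - h)) * c1 e f h' = 0
  swap
  · refine ⟨h * Y * (1 - h), g1.1, hdeg _ _ hth hth', ?_, ?_⟩
    · calc h * Y * (1 - h) * (h * Y * (1 - h)) = h * Y * ((1 - h) * h) * (Y * (1 - h)) := by
            simp only [mul_assoc]
        _ = 0 := by rw [k2, mul_zero, zero_mul]
    · intro h3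
      apply c1'
      rw [← neg_sub, h3, neg_zero]
  by_cases c2' : c1 e f h' * ((1 - h) * Y * h) - ((1 - h) * Y * h) * c1 e f h' = 0
  swap
  · refine ⟨(1 - h) * Y * h, g2.1, hdeg _ _ hth' hth, ?_, ?_⟩
    · calc (1 - h) * Y * h * ((1 - h) * Y * h) = (1 - h) * Y * (h * (1 - h)) * (Y * h) := by
            simp only [mul_assoc]
        _ = 0 := by rw [k1, mul_zero, zero_mul]
    · intro h3
      apply c2'
      rw [← neg_sub, h3, neg_zero]
  set n := h * Y * h + (1 - h) * Y * (1 - h) with hn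
  have hnd : tau e f * n - n * tau e f = n := by
    have h3 := hdeg _ _ hth hth
    have h4 := hdeg _ _ hth' hth'
    rw [hn, mul_add, add_mul, add_sub_add_comm, h3, h4]
  refine ⟨n, g3, hnd, ?_, ?_⟩
  · obtain ⟨hee, hff⟩ := hB.pr.toPair.ee
    have efe := hB.pr.efe
    have fef := hB.pr.fef
    obtain ⟨r1, r2, r3, r4, r5, r6⟩ := OL2_rules hee hff efe fef
    have hnh : h * n = n * h := by
      have e1 : h * n = h * Y * h := by
        rw [hn, mul_add, ← mul_assoc, ← mul_assoc, hhh, ← mul_assoc, ← mul_assoc, k1, zero_mul,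
          zero_mul, add_zero]
      have e2 : n * h = h * Y * h := by
        rw [hn, add_mul, mul_assoc (h * Y), hhh, mul_assoc ((1 - h) * Y), k2, mul_zero, add_zero]
      rw [e1, e2]
    have hn1 : c1 e f n = n := hB.pr.toPair.eq_c1 hnd
    have hnn : n * n = e * (f * n * rr e f * n * f) * e := by
      have e1 : c1 e f n * c1 e f n = e * (f * n * rr e f * n * f) * e := by
        simp only [c1, rr, mul_add, add_mul, mul_sub, sub_mul, mul_assoc, mul_one, one_mul, r1, r2, r3,
          r4, r5, r6, hee, hff, mul_zero, zero_mul]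
        abel
      rw [hn1] at e1
      exact e1
    have he : h * e = 0 := hB.pr.he.2.2
    have he' : e * h = e := hB.pr.he.2.1
    have e3 : h * (n * n) = 0 := by
      rw [hnn, ← mul_assoc, ← mul_assoc, he, zero_mul, zero_mul]
    have e4 : n * n * h = n * n := by
      rw [hnn, mul_assoc _ e h, he']
    have e5 : h * (n * n) = n * n * h := by
      rw [← mul_assoc, hnh, mul_assoc, hnh, mul_assoc]
    rw [← e4, ← e5, e3]
  · intro h3
    apply hYne
    have h4 : c1 e f h' * n - n * c1 e f h' = 0 := by rw [← neg_sub, h3, neg_zero]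
    have h5 : c1 e f h' * Y - Y * c1 e f h' =
        (c1 e f h' * (h * Y * (1 - h)) - (h * Y * (1 - h)) * c1 e f h') +
        (c1 e f h' * ((1 - h) * Y * h) - ((1 - h) * Y * h) * c1 e f h') +
        (c1 e f h' * n - n * c1 e f h') := by
      conv_lhs => rw [hsum]
      simp only [mul_add, add_mul]
      abel
    rw [h5, c1', c2', h4, add_zero, add_zero]

/-- Case C. -/
theorem Big.caseC [IsAlgClosed k] {h e f : End k H} (hB : Big g c W β h e f) {a b : End k H}
    (ha : a ∈ KK g h) (hb : ∀ Y ∈ KK g h, b * Y = Y * b) (hh' : IsHodgeElt g c (a + b))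
    (hs : c0 e f (a + b) * e - e * c0 e f (a + b) = 0) : ∃ r : k, b * e = r • e := by
  by_cases h2 : c2 e f (a + b) = 0
  swap
  · exact hB.caseA' ha hb hh' h2
  obtain ⟨n, hn, hnd, hn2, hne⟩ := hB.exists_n hh' h2 hs
  have hnK : n ∈ KK g h := mem_KK_of_deg1 hB.hg.lie hB.hh.1 hB.hh.2.1 hB.pr.toPair hn hnd
  obtain ⟨hee, hff⟩ := hB.pr.toPair.ee
  have efe := hB.pr.efe
  have fef := hB.pr.fef
  obtain ⟨r1, r2, r3, r4, r5, r6⟩ := OL2_rules hee hff efe fef
  set X := a + b with hX
  have hn1 : c1 e f n = n := hB.pr.toPair.eq_c1 hnd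
  have hA : c2 e f (n * X - X * n) = n * c1 e f X - c1 e f X * n := by
    have e1 : c2 e f (c1 e f n * X - X * c1 e f n) =
        c1 e f n * c1 e f X - c1 e f X * c1 e f n := by
      simp only [c2, c1, rr, mul_add, add_mul, mul_sub, sub_mul, mul_assoc, mul_one, one_mul, r1, r2,
        r3, r4, r5, r6, hee, hff, mul_zero, zero_mul]
      abel
    rw [hn1] at e1
    exact e1
  have hcomp2 : ∀ t : k, c2 e f (X + ((t • n) * X - X * (t • n)) - (t • n) * X * (t • n)) =
      t • c2 e f (n * X - X * n) - (t * t) • c2 e f (n * X * n) := by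
    intro t
    have e1 : c2 e f (X + ((t • n) * X - X * (t • n)) - (t • n) * X * (t • n)) =
        c2 e f X + t • c2 e f (n * X - X * n) - (t * t) • c2 e f (n * X * n) := by
      simp only [c2, mul_add, add_mul, mul_sub, sub_mul, smul_mul_assoc, mul_smul_comm, smul_sub,
        smul_smul]
    rw [e1, h2, zero_add]
  have htn : ∀ t : k, (t • n) * (t • n) = 0 := fun t => by
    rw [smul_mul_assoc, mul_smul_comm, hn2, smul_zero, smul_zero]
  by_cases hAB : c2 e f (n * X - X * n) = c2 e f (n * X * n)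
  · refine OL2_step hB ha hb hh' (Submodule.smul_mem _ (2 : k) hnK) (htn 2) ?_
    rw [← hX, hcomp2, ← hAB, ← sub_smul, hA]
    intro h3
    rcases smul_eq_zero.1 h3 with h4 | h4
    · norm_num at h4
    · exact hne h4
  · refine OL2_step hB ha hb hh' (Submodule.smul_mem _ (1 : k) hnK) (htn 1) ?_
    rw [← hX, hcomp2, one_smul, mul_one, one_smul]
    exact sub_ne_zero.2 hAB

/-- The part of an idempotent of multiplier `1` which commutes with `K` is scalar on the image of `e`. -/
theorem Big.b_scalar [IsAlgClosed k] {h e f : End k H} (hB : Big g c W β h e f) {a b : End k H}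
    (ha : a ∈ KK g h) (hb : ∀ Y ∈ KK g h, b * Y = Y * b) (hh' : IsHodgeElt g c (a + b)) :
    ∃ r : k, b * e = r • e := by
  obtain ⟨hX, hcomm⟩ := OL2_c0 hB hh'.1
  obtain ⟨s, hs1, -⟩ := hB.pr.brk hB.hg hB.hh hX hcomm
  by_cases hs0 : s = 0
  · rw [hs0, zero_smul] at hs1
    exact hB.caseC ha hb hh' hs1
  · exact hB.caseB ha hb hh' hs1 hs0

/-- Every element of `g` is scalar on the image of `e`, in degree zero. -/
theorem Big.comp_scalar [IsAlgClosed k] {h e f : End k H} (hB : Big g c W β h e f) {X : End k H}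
    (hX : X ∈ g) : ∃ s : k, e * f * X * e = s • e := by
  have h1 := hB.hg.span X hX
  clear hX
  induction h1 using Submodule.span_induction with
  | mem Y hY =>
    obtain ⟨a, ha, b, -, hab, hb⟩ := decomp hB.hg hB.hh hY.1
    obtain ⟨s, hs⟩ := hB.comp_K ha
    rw [hab] at hY
    obtain ⟨r, hr⟩ := hB.b_scalar ha hb hY
    refine ⟨s + r, ?_⟩
    have e1 : b * e = e * b := hb e (gm_le_KK h hB.pr.he)
    have e2 : b * f = f * b := hb f (gp_le_KK h hB.pr.hf)
    have e3 : e * f * b * e = b * e := by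
      rw [mul_assoc e f b, ← e2, ← mul_assoc, ← e1, mul_assoc b e f, mul_assoc b, hB.pr.efe]
    rw [hab, mul_add, add_mul, hs, e3, hr, add_smul]
  | zero => exact ⟨0, by rw [mul_zero, zero_mul, zero_smul]⟩
  | add Y Z _ _ hY hZ =>
    obtain ⟨s, hs⟩ := hY
    obtain ⟨t, ht⟩ := hZ
    exact ⟨s + t, by rw [mul_add, add_mul, hs, ht, add_smul]⟩
  | smul r Y _ hY =>
    obtain ⟨s, hs⟩ := hY
    exact ⟨r * s, by rw [mul_smul_comm, smul_mul_assoc, hs, smul_smul]⟩

end Pool.Agent.Lib.MP_021685_agO
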