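import Pool.Agent.Lib.MP_021685_agO.OL2

/-!
# Block M: the rank is one; the simple subspaces on which `e` is not zero
-/

set_option autoImplicit false

namespace Pool.Agent.Lib.MP_021685_agO

open Module

variable {k H : Type*} [Field k] [CharZero k] [AddCommGroup H] [Module k H] [FiniteDimensional k H]
  {g : Submodule k (End k H)} {c : End k H → k} {W : Submodule k H} {β : H →ₗ[k] H →ₗ[k] k}

/-- Equivariant projections. PROOF. The projection `p` onto `U` along `U'` (`Submodule.linearProjOfIsCompl`, or `IsCompl.projection`); it commutes with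
`X ∈ g` because `X` preserves `U` and `U'` (check on `U` and on `U'`). -/
theorem exists_proj {U U' : Submodule k H} (hU : IsStable g U) (hU' : IsStable g U')
    (hc : IsCompl U U') :
    ∃ p : End k H, (∀ X ∈ g, p * X = X * p) ∧ (∀ u ∈ U, p u = u) ∧ (∀ u ∈ U', p u = 0) ∧
      ∀ u, p u ∈ U := by
  refine ⟨U.subtype ∘ₗ Submodule.projectionOnto U U' hc, ?_, ?_, ?_, ?_⟩
  · intro X hX
    ext v
    have hv : v ∈ U ⊔ U' := by rw [hc.sup_eq_top]; trivial
    obtain ⟨u, hu, u', hu', rfl⟩ := Submodule.mem_sup.1 hv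
    have h1 : ∀ w ∈ U, (U.subtype ∘ₗ Submodule.projectionOnto U U' hc) w = w := by
      intro w hw
      rw [LinearMap.comp_apply, Submodule.projectionOnto_apply_left hc ⟨w, hw⟩]
      rfl
    have h2 : ∀ w ∈ U', (U.subtype ∘ₗ Submodule.projectionOnto U U' hc) w = 0 := by
      intro w hw
      rw [LinearMap.comp_apply, Submodule.projectionOnto_apply_of_mem_right hc hw, map_zero]
    rw [Module.End.mul_apply, Module.End.mul_apply, map_add X, map_add, map_add,
      h1 _ (hU X hX u hu), h2 _ (hU' X hX u' hu'), h1 u hu, h2 u' hu', add_zero, add_zero]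
  · intro w hw
    rw [LinearMap.comp_apply, Submodule.projectionOnto_apply_left hc ⟨w, hw⟩]
    rfl
  · intro w hw
    rw [LinearMap.comp_apply, Submodule.projectionOnto_apply_of_mem_right hc hw, map_zero]
  · intro u
    exact (Submodule.projectionOnto U U' hc u).2

/-- Sums and intersections of stable subspaces are stable. -/
theorem IsStable.sup {U U' : Submodule k H} (hU : IsStable g U) (hU' : IsStable g U') :
    IsStable g (U ⊔ U') := by
  intro X hX v hv
  obtain ⟨u, hu, u', hu', rfl⟩ := Submodule.mem_sup.1 hv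
  rw [map_add]
  exact Submodule.add_mem_sup (hU X hX u hu) (hU' X hX u' hu')

theorem IsStable.inf {U U' : Submodule k H} (hU : IsStable g U) (hU' : IsStable g U') :
    IsStable g (U ⊓ U') := by
  intro X hX v hv
  exact ⟨hU X hX v hv.1, hU' X hX v hv.2⟩

/-- PROOF. For `v ∈ range e`: `v = e (f v)` and `X v = X (e f) v = (e f) X v = (e f X e) (f v) = s e (f v) = s v` (`Pair.comm_of_comm`, `Big.comp_scalar`). -/
theorem Big.scalar_range [IsAlgClosed k] {h e f : End k H} (hB : Big g c W β h e f)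
    {X : End k H} (hX : X ∈ g) (hc : X * tau e f = tau e f * X) :
    ∃ s : k, ∀ v ∈ LinearMap.range e, X v = s • v := by
  obtain ⟨s, hs⟩ := hB.comp_scalar hX
  refine ⟨s, ?_⟩
  rintro _ ⟨w, rfl⟩
  have h1 : X * (e * f) = e * f * X := (hB.pr.toPair.comm_of_comm hc).1
  have h2 : X * e = s • e := by
    calc X * e = X * (e * f) * e := by rw [mul_assoc X, hB.pr.efe]
      _ = e * f * X * e := by rw [h1]
      _ = s • e := hs
  have h3 := congrArg (fun Z : End k H => Z w) h2
  exact h3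

/-- PROOF. The rank is odd, so there is `u ≠ 0` in `W.map e`. By `scalar_range` the line `k u` is stable under the elements of `g` commuting with `tau`, so
`span {u} = W.map e` by `simple_P`. -/
theorem Big.rank_one [IsAlgClosed k] {h e f : End k H} (hB : Big g c W β h e f) :
    finrank k (W.map e) = 1 := by
  have hne : W.map e ≠ ⊥ := by
    intro h0
    have h1 := hB.odd
    rw [h0, finrank_bot] at h1
    exact (by decide : ¬ Odd 0) h1
  obtain ⟨u, hu, hu0⟩ := Submodule.exists_mem_ne_zero_of_ne_bot hne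
  have hP : Submodule.span k {u} ≤ W.map e := by
    rw [Submodule.span_singleton_le_iff_mem]
    exact hu
  have hr : ∀ v ∈ W.map e, v ∈ LinearMap.range e := by
    rintro _ ⟨w, -, rfl⟩
    exact ⟨w, rfl⟩
  rcases simple_P hB.hg.lie hB.pr.toPair hB.hW hP (fun X hX hc v hv => by
    obtain ⟨s, hs⟩ := hB.scalar_range hX hc
    rw [hs v (hr v (hP hv))]
    exact Submodule.smul_mem _ _ hv) with h | h
  · exact absurd (Submodule.span_singleton_eq_bot.1 h) hu0
  · rw [← h]
    exact finrank_span_singleton hu0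

/-- PROOF. If `U = W` take `φ = 1`. Let `U ≠ W`, so `W ⊓ U = ⊥` (both simple). Take `0 ≠ a ∈ W.map e`, `0 ≠ p ∈ U.map e` and `P = span {a + p} ≤ range e`, stable under the
elements of `g` commuting with `tau` (`scalar_range`: the scalar is the same on `a` and `p`). Let `Γ` be as in `exists_gen`; `Γ ≤ W ⊔ U`. `Γ ⊓ U` is stable and `≤ U`; if it was
`U` then `p = (e f) p ∈ P`, `p = t (a + p)`, `t a = (1 - t) p ∈ W ⊓ U = ⊥`, `t = 0`, `p = 0`, a contradiction; so `Γ ⊓ U = ⊥`, and in the same way `Γ ⊓ W = ⊥`.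
`Γ ⊔ U = W ⊔ U`: `(Γ ⊔ U) ⊓ W` is stable and contains `a = (a + p) - p ≠ 0` (`a + p ∈ Γ`), so it is `W`. Let `C` be a stable complement of `W ⊔ U` (`hg.semisimple`); then
`U` and `Γ ⊔ C` are complementary (`Γ ⊓ U = ⊥`, `Γ ⊔ U ⊔ C = ⊤`, and an element `γ + x` of `U`, `x ∈ C`, has `x ∈ (W ⊔ U) ⊓ C = ⊥`). Let `φ` be the equivariant projection onto `U` along
`Γ ⊔ C` (`exists_proj`). `W.map φ` is stable and contained in `U`. If it was `⊥` then `W ≤ Γ ⊔ C` (kernel), and with `W ≤ W ⊔ U`: `w = γ + x` has `x = w - γ ∈ (W ⊔ U) ⊓ C = ⊥`, so `W ≤ Γ`,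
`W = Γ ⊓ W = ⊥`, a contradiction. So `W.map φ = U`. (The kernel of `φ` is `Γ ⊔ C`: if `φ w = 0`, write `w = u + y`, `u ∈ U`, `y ∈ Γ ⊔ C`, then `0 = φ w = u`.) -/
theorem Big.iso_of_ne [IsAlgClosed k] {h e f : End k H} (hB : Big g c W β h e f)
    {U : Submodule k H} (hU : IsSimpleSub g U) (hne : U.map e ≠ ⊥) : Iso g W U := by
  by_cases hUW : U = W
  · subst hUW
    exact ⟨1, fun X _ => by rw [one_mul, mul_one], Submodule.map_id U⟩
  have hWs := hB.hW.2.1
  have hUs := hU.2.1
  have heg : e ∈ g := hB.pr.he.1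
  have hWU : W ⊓ U = ⊥ := by
    rcases hB.hW.2.2 (W ⊓ U) inf_le_left (hWs.inf hUs) with h | h
    · exact h
    · exfalso
      rcases hU.2.2 W (inf_eq_left.1 h) hWs with h1 | h1
      · exact hB.hW.1 h1
      · exact hUW h1.symm
  have hWne : W.map e ≠ ⊥ := by
    intro h0
    have h1 := hB.odd
    rw [h0, finrank_bot] at h1
    exact (by decide : ¬ Odd 0) h1
  obtain ⟨a, ha, ha0⟩ := Submodule.exists_mem_ne_zero_of_ne_bot hWne
  obtain ⟨p, hp, hp0⟩ := Submodule.exists_mem_ne_zero_of_ne_bot hne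
  have haW : a ∈ W := by
    obtain ⟨w, hw, rfl⟩ := ha
    exact hWs e heg w hw
  have hpU : p ∈ U := by
    obtain ⟨w, hw, rfl⟩ := hp
    exact hUs e heg w hw
  have hra : a ∈ LinearMap.range e := by
    obtain ⟨w, -, rfl⟩ := ha
    exact ⟨w, rfl⟩
  have hrp : p ∈ LinearMap.range e := by
    obtain ⟨w, -, rfl⟩ := hp
    exact ⟨w, rfl⟩
  have hef : ∀ v ∈ LinearMap.range e, (e * f) v = v := by
    rintro _ ⟨w, rfl⟩
    exact congrArg (fun Z : End k H => Z w) hB.pr.efe
  have hP : Submodule.span k {a + p} ≤ LinearMap.range e := by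
    rw [Submodule.span_singleton_le_iff_mem]
    exact add_mem hra hrp
  obtain ⟨Γ, hΓs, hPΓ, hΓP, hΓmin⟩ := exists_gen hB.hg.lie hB.pr.toPair hP
    (fun X hX hc v hv => by
      obtain ⟨s, hs⟩ := hB.scalar_range hX hc
      rw [hs v (hP hv)]
      exact Submodule.smul_mem _ _ hv)
  have hapΓ : a + p ∈ Γ := hPΓ (Submodule.mem_span_singleton_self _)
  have hΓle : Γ ≤ W ⊔ U := hΓmin _ (hWs.sup hUs) (by
    rw [Submodule.span_singleton_le_iff_mem]
    exact Submodule.add_mem_sup haW hpU)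
  have hΓU : Γ ⊓ U = ⊥ := by
    rcases hU.2.2 (Γ ⊓ U) inf_le_right (hΓs.inf hUs) with h | h
    · exact h
    · exfalso
      have h1 : p ∈ Γ := (inf_eq_right.1 h) hpU
      have h2 := hΓP p h1
      rw [hef p hrp, Submodule.mem_span_singleton] at h2
      obtain ⟨t, ht⟩ := h2
      have h3 : t • a = (1 - t) • p := by
        rw [sub_smul, one_smul, eq_sub_iff_add_eq, ← smul_add, ht]
      have h4 : t • a ∈ W ⊓ U := ⟨W.smul_mem t haW, by rw [h3]; exact U.smul_mem _ hpU⟩
      rw [hWU, Submodule.mem_bot, smul_eq_zero] at h4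
      rcases h4 with h4 | h4
      · rw [h4, zero_smul] at ht
        exact hp0 ht.symm
      · exact ha0 h4
  have hΓW : Γ ⊓ W = ⊥ := by
    rcases hB.hW.2.2 (Γ ⊓ W) inf_le_right (hΓs.inf hWs) with h | h
    · exact h
    · exfalso
      have h1 : a ∈ Γ := (inf_eq_right.1 h) haW
      have h2 := hΓP a h1
      rw [hef a hra, Submodule.mem_span_singleton] at h2
      obtain ⟨t, ht⟩ := h2
      have h3 : t • p = (1 - t) • a := by
        rw [sub_smul, one_smul, eq_sub_iff_add_eq, add_comm, ← smul_add, ht]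
      have h4 : t • p ∈ W ⊓ U := ⟨by rw [h3]; exact W.smul_mem _ haW, U.smul_mem t hpU⟩
      rw [hWU, Submodule.mem_bot, smul_eq_zero] at h4
      rcases h4 with h4 | h4
      · rw [h4, zero_smul] at ht
        exact ha0 ht.symm
      · exact hp0 h4
  have hWle : W ≤ Γ ⊔ U := by
    rcases hB.hW.2.2 ((Γ ⊔ U) ⊓ W) inf_le_right ((hΓs.sup hUs).inf hWs) with h | h
    · exfalso
      have h1 : a ∈ (Γ ⊔ U) ⊓ W := by
        refine ⟨?_, haW⟩
        have h2 : a = (a + p) + (-p) := by rw [add_neg_cancel_right]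
        rw [h2]
        exact Submodule.add_mem_sup hapΓ (U.neg_mem hpU)
      rw [h, Submodule.mem_bot] at h1
      exact ha0 h1
    · exact inf_eq_right.1 h
  obtain ⟨C, hCs, hC⟩ := hB.hg.semisimple (W ⊔ U) (hWs.sup hUs)
  have hsplit : ∀ v ∈ W ⊔ U, ∀ γ ∈ Γ, ∀ x ∈ C, v = γ + x → v = γ := by
    intro v hv γ hγ x hx hvx
    have h1 : x ∈ (W ⊔ U) ⊓ C := by
      refine ⟨?_, hx⟩
      have h2 : x = v - γ := by rw [hvx, add_sub_cancel_left]
      rw [h2]
      exact sub_mem hv (hΓle hγ)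
    rw [hC.inf_eq_bot, Submodule.mem_bot] at h1
    rw [hvx, h1, add_zero]
  have hcompl : IsCompl U (Γ ⊔ C) := by
    refine ⟨?_, ?_⟩
    · rw [Submodule.disjoint_def]
      intro v hv hv2
      obtain ⟨γ, hγ, x, hx, hvx⟩ := Submodule.mem_sup.1 hv2
      have h1 := hsplit v (Submodule.mem_sup_right hv) γ hγ x hx hvx.symm
      have h2 : v ∈ Γ ⊓ U := ⟨by rw [h1]; exact hγ, hv⟩
      rwa [hΓU, Submodule.mem_bot] at h2
    · rw [codisjoint_iff, eq_top_iff, ← hC.sup_eq_top]
      refine sup_le (sup_le ?_ le_sup_left) ?_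
      · refine hWle.trans (sup_le ?_ le_sup_left)
        exact le_sup_left.trans le_sup_right
      · exact le_sup_right.trans le_sup_right
  obtain ⟨φ, hφc, hφU, hφ0, hφm⟩ := exists_proj hUs (hΓs.sup hCs) hcompl
  refine ⟨φ, fun X hX => hφc X hX, ?_⟩
  have hle : W.map φ ≤ U := by
    rintro _ ⟨w, -, rfl⟩
    exact hφm w
  have hst : IsStable g (W.map φ) := by
    rintro X hX _ ⟨w, hw, rfl⟩
    refine ⟨X w, hWs X hX w hw, ?_⟩
    exact congrArg (fun Z : End k H => Z w) (hφc X hX)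
  rcases hU.2.2 _ hle hst with h | h
  · exfalso
    apply hB.hW.1
    rw [eq_bot_iff, ← hΓW]
    intro w hw
    have h1 : φ w = 0 := by
      have h2 : φ w ∈ W.map φ := ⟨w, hw, rfl⟩
      rwa [h, Submodule.mem_bot] at h2
    have h3 : w ∈ U ⊔ (Γ ⊔ C) := by rw [hcompl.sup_eq_top]; trivial
    obtain ⟨u, hu, y, hy, huy⟩ := Submodule.mem_sup.1 h3
    have h4 : u = 0 := by
      rw [← huy, map_add, hφU u hu, hφ0 y hy, add_zero] at h1
      exact h1
    rw [h4, zero_add] at huy
    rw [huy] at hy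
    obtain ⟨γ, hγ, x, hx, hvx⟩ := Submodule.mem_sup.1 hy
    have h5 := hsplit w (Submodule.mem_sup_left hw) γ hγ x hx hvx.symm
    exact ⟨by rw [h5]; exact hγ, hw⟩
  · exact h

end Pool.Agent.Lib.MP_021685_agO
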