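import Pool.Agent.Lib.MP_021685_agO.OR0
import Pool.Agent.Lib.MP_021685_agO.OM

/-!
# Block R: existence of the decomposition of `H`
-/

set_option autoImplicit false
set_option linter.unusedSectionVars false

namespace Pool.Agent.Lib.MP_021685_agO

open Module

variable {k H : Type*} [Field k] [CharZero k] [AddCommGroup H] [Module k H]
  [FiniteDimensional k H]
  {g : Submodule k (End k H)} {c : End k H → k}

/-- The kernel of an equivariant endomorphism is stable. -/
theorem stable_ker {φ : End k H} (hφ : ∀ X ∈ g, φ * X = X * φ) :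
    IsStable g (LinearMap.ker φ) := by
  intro X hX u hu
  rw [LinearMap.mem_ker] at hu ⊢
  have h1 := LinearMap.congr_fun (hφ X hX) u
  rw [Module.End.mul_apply, Module.End.mul_apply, hu, map_zero] at h1
  exact h1

/-- An equivariant endomorphism which is not zero on the simple subspace is injective there. -/
theorem simple_inj {W : Submodule k H} (hW : IsSimpleSub g W) {φ : End k H}
    (hφ : ∀ X ∈ g, φ * X = X * φ) (hne : W.map φ ≠ ⊥) {w : H} (hw : w ∈ W) (h0 : φ w = 0) :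
    w = 0 := by
  rcases hW.2.2 (W ⊓ LinearMap.ker φ) inf_le_left (hW.2.1.inf (stable_ker hφ)) with h1 | h1
  · have h2 : w ∈ W ⊓ LinearMap.ker φ := ⟨hw, h0⟩
    rw [h1] at h2
    exact (Submodule.mem_bot k).1 h2
  · exfalso
    apply hne
    rw [eq_bot_iff]
    rintro _ ⟨u, hu, rfl⟩
    exact (Submodule.mem_bot k).2 (inf_eq_left.1 h1 hu)

/-- The inverse of an isomorphism between simple subspaces. -/
theorem exists_inv (hg : IsGaloisAlg g c) {W U : Submodule k H} (hW : IsSimpleSub g W)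
    (hU : IsSimpleSub g U) {φ : End k H} (hφ : ∀ X ∈ g, φ * X = X * φ) (hφU : W.map φ = U) :
    ∃ ψ : End k H, (∀ X ∈ g, ψ * X = X * ψ) ∧ (∀ v, ψ v ∈ W) ∧ (∀ w ∈ W, ψ (φ w) = w) ∧
      ∀ u ∈ U, φ (ψ u) = u := by
  obtain ⟨U', hU', hcU⟩ := hg.semisimple U hU.2.1
  obtain ⟨p, hp, hpU, -, hpm⟩ := exists_proj hU.2.1 hU' hcU
  have hinj : ∀ w ∈ W, φ w = 0 → w = 0 := fun w hw h0 =>
    simple_inj hW hφ (by rw [hφU]; exact hU.1) hw h0
  have hmap : ∀ w ∈ W, φ w ∈ U := fun w hw => by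
    rw [← hφU]
    exact Submodule.mem_map_of_mem hw
  let φ' : W →ₗ[k] U := φ.restrict hmap
  have hbij : Function.Bijective φ' := by
    constructor
    · rw [← LinearMap.ker_eq_bot, LinearMap.ker_eq_bot']
      rintro ⟨w, hw⟩ h1
      exact Subtype.ext (hinj w hw (congrArg Subtype.val h1))
    · rintro ⟨u, hu⟩
      rw [← hφU] at hu
      obtain ⟨w, hw, h1⟩ := Submodule.mem_map.1 hu
      exact ⟨⟨w, hw⟩, Subtype.ext h1⟩
  let e : W ≃ₗ[k] U := LinearEquiv.ofBijective φ' hbij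
  have he : ∀ w : W, ((e w : U) : H) = φ w := fun w => rfl
  let ψ : End k H := W.subtype ∘ₗ e.symm.toLinearMap ∘ₗ (p.codRestrict U hpm)
  have hψ : ∀ v, ψ v ∈ W := fun v => (e.symm (p.codRestrict U hpm v)).2
  have hφψ : ∀ v, φ (ψ v) = p v := by
    intro v
    show φ ((e.symm (p.codRestrict U hpm v) : W) : H) = p v
    rw [← he, LinearEquiv.apply_symm_apply]
    rfl
  have hψU : ∀ u ∈ U, φ (ψ u) = u := fun u hu => by rw [hφψ, hpU u hu]
  have hWinj : ∀ w ∈ W, ∀ w' ∈ W, φ w = φ w' → w = w' := by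
    intro w hw w' hw' h1
    exact sub_eq_zero.1 (hinj _ (W.sub_mem hw hw') (by rw [map_sub, h1, sub_self]))
  refine ⟨ψ, fun X hX => ?_, hψ, fun w hw => ?_, hψU⟩
  · ext v
    rw [Module.End.mul_apply, Module.End.mul_apply]
    refine hWinj _ (hψ _) _ (hW.2.1 X hX _ (hψ v)) ?_
    have h1 := LinearMap.congr_fun (hφ X hX) (ψ v)
    have h2 := LinearMap.congr_fun (hp X hX) v
    rw [Module.End.mul_apply, Module.End.mul_apply] at h1 h2
    rw [hφψ, h1, hφψ, h2]
  · exact hWinj _ (hψ _) _ hw (hψU _ (hmap w hw))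

/-- A stable subspace which is not zero contains a simple one. -/
theorem exists_simple_le {V : Submodule k H} (hV : IsStable g V) (hne : V ≠ ⊥) :
    ∃ U ≤ V, IsSimpleSub g U := by
  classical
  have hex : ∃ n : ℕ, ∃ U ≤ V, U ≠ ⊥ ∧ IsStable g U ∧ finrank k U = n := ⟨_, V, le_rfl, hne, hV, rfl⟩
  obtain ⟨U, hUV, hU0, hUs, hUn⟩ := Nat.find_spec hex
  refine ⟨U, hUV, hU0, hUs, fun U' hU' hU's => ?_⟩
  by_cases h1 : U' = ⊥
  · exact Or.inl h1
  · refine Or.inr (Submodule.eq_of_le_of_finrank_le hU' ?_)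
    rw [hUn]
    exact Nat.find_min' hex ⟨U', hU'.trans hUV, h1, hU's, rfl⟩

/-- The equivariant endomorphisms with values in a simple subspace of `V`. -/
def SS (g : Submodule k (End k H)) (V : Submodule k H) : Set (End k H) :=
  {φ | (∀ X ∈ g, φ * X = X * φ) ∧ ∃ U ≤ V, IsSimpleSub g U ∧ ∀ v, φ v ∈ U}

/-- The projection to a stable subspace is a sum of equivariant endomorphisms with values in simple
subspaces. -/
theorem proj_mem (hg : IsGaloisAlg g c) {V₀ : Submodule k H} :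
    ∀ (n : ℕ) {V V' : Submodule k H} {p : End k H}, finrank k V ≤ n → V ≤ V₀ → IsStable g V →
      IsStable g V' → IsCompl V V' → (∀ X ∈ g, p * X = X * p) → (∀ u ∈ V, p u = u) →
      (∀ u ∈ V', p u = 0) → p ∈ AddSubmonoid.closure (SS g V₀) := by
  intro n
  induction n with
  | zero =>
    intro V V' p hn _ _ _ hc _ _ hp'
    have h1 : V = ⊥ := by
      rw [← Submodule.finrank_eq_zero (R := k)]
      omega
    have h2 : p = 0 := by
      ext v
      refine hp' v ?_
      have h3 : V' = ⊤ := by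
        have h4 := hc.sup_eq_top
        rwa [h1, bot_sup_eq] at h4
      rw [h3]
      trivial
    rw [h2]
    exact zero_mem _
  | succ n ih =>
    intro V V' p hn hle hV hV' hc hpX hp hp'
    by_cases hV0 : V = ⊥
    · exact ih (by rw [hV0, finrank_bot]; omega) hle hV hV' hc hpX hp hp'
    obtain ⟨U, hUV, hU⟩ := exists_simple_le hV hV0
    obtain ⟨U', hU', hcU⟩ := hg.semisimple U hU.2.1
    obtain ⟨q, hq, hqU, hqU', hqm⟩ := exists_proj hU.2.1 hU' hcU
    have hpm : ∀ v, p v ∈ V := by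
      intro v
      have hv : v ∈ V ⊔ V' := by rw [hc.sup_eq_top]; trivial
      obtain ⟨a, ha, b, hb, rfl⟩ := Submodule.mem_sup.1 hv
      rw [map_add, hp a ha, hp' b hb, add_zero]
      exact ha
    have hqe : ∀ v, v - q v ∈ U' := by
      intro v
      have hv : v ∈ U ⊔ U' := by rw [hcU.sup_eq_top]; trivial
      obtain ⟨a, ha, b, hb, rfl⟩ := Submodule.mem_sup.1 hv
      rw [map_add, hqU a ha, hqU' b hb, add_zero, add_sub_cancel_left]
      exact hb
    have hsplit : p = q * p + (1 - q) * p := by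
      rw [sub_mul, one_mul]
      abel
    rw [hsplit]
    refine add_mem (AddSubmonoid.subset_closure ⟨fun X hX => ?_, U, hUV.trans hle, hU,
      fun v => hqm _⟩) (ih (V := V ⊓ U') (V' := U ⊔ V') ?_ (inf_le_left.trans hle)
      (hV.inf hU') (hU.2.1.sup hV') ?_ ?_ ?_ ?_)
    · rw [mul_assoc, hpX X hX, ← mul_assoc, hq X hX, mul_assoc]
    · have h1 : V ⊓ U' < V := by
        refine lt_of_le_of_ne inf_le_left fun h2 => hU.1 ?_
        have h3 : U ≤ U' := hUV.trans (inf_eq_left.1 h2)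
        exact le_bot_iff.1 (hcU.disjoint.le_bot.trans' (le_inf le_rfl h3))
      have h2 := Submodule.finrank_lt_finrank_of_lt h1
      omega
    · refine IsCompl.of_eq ?_ ?_
      · rw [eq_bot_iff]
        rintro x ⟨⟨hx1, hx2⟩, hx3⟩
        obtain ⟨a, ha, b, hb, rfl⟩ := Submodule.mem_sup.1 hx3
        have hb1 : b ∈ V := by
          have h1 := V.sub_mem hx1 (hUV ha)
          rwa [add_sub_cancel_left] at h1
        have hb0 : b = 0 := (Submodule.mem_bot k).1 (hc.disjoint.le_bot ⟨hb1, hb⟩)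
        rw [hb0, add_zero] at hx2 ⊢
        exact hcU.disjoint.le_bot ⟨ha, hx2⟩
      · rw [eq_top_iff]
        intro x _
        have hx : x = (p x - q (p x)) + (q (p x) + (x - p x)) := by abel
        rw [hx]
        refine Submodule.add_mem_sup ⟨V.sub_mem (hpm x) (hUV (hqm _)), hqe _⟩
          (Submodule.add_mem_sup (hqm _) ?_)
        have hv : x ∈ V ⊔ V' := by rw [hc.sup_eq_top]; trivial
        obtain ⟨a, ha, b, hb, rfl⟩ := Submodule.mem_sup.1 hv
        rw [map_add, hp a ha, hp' b hb, add_zero, add_sub_cancel_left]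
        exact hb
    · intro X hX
      have h1 : (1 - q) * X = X * (1 - q) := by rw [sub_mul, mul_sub, one_mul, mul_one, hq X hX]
      rw [mul_assoc, hpX X hX, ← mul_assoc, h1, mul_assoc]
    · rintro u ⟨hu1, hu2⟩
      rw [Module.End.mul_apply, hp u hu1, LinearMap.sub_apply, Module.End.one_apply, hqU' u hu2,
        sub_zero]
    · intro u hu
      obtain ⟨a, ha, b, hb, rfl⟩ := Submodule.mem_sup.1 hu
      rw [Module.End.mul_apply, map_add, hp a (hUV ha), hp' b hb, add_zero, LinearMap.sub_apply,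
        Module.End.one_apply, hqU a ha, sub_self]

/-- The same, as a finite sum. -/
theorem exists_sum (hg : IsGaloisAlg g c) {V V' : Submodule k H} (hV : IsStable g V)
    (hV' : IsStable g V') (hc : IsCompl V V') : ∃ (n : ℕ) (φ : Fin n → End k H),
      (∀ i, φ i ∈ SS g V) ∧ (∀ u ∈ V, (∑ i, φ i) u = u) ∧ ∀ u ∈ V', (∑ i, φ i) u = 0 := by
  obtain ⟨p, hp, hpV, hpV', -⟩ := exists_proj hV hV' hc
  obtain ⟨l, hl, hs⟩ := AddSubmonoid.exists_list_of_mem_closure
    (proj_mem hg (finrank k V) le_rfl le_rfl hV hV' hc hp hpV hpV')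
  have hsum : ∑ i : Fin l.length, l[i] = p := by
    rw [← hs]
    exact Fin.sum_univ_getElem l
  refine ⟨l.length, fun i => l[i], fun i => hl _ (List.getElem_mem i.2), ?_, ?_⟩
  · show ∀ u ∈ V, (∑ i : Fin l.length, l[i]) u = u
    rw [hsum]
    exact hpV
  · show ∀ u ∈ V', (∑ i : Fin l.length, l[i]) u = 0
    rw [hsum]
    exact hpV'

theorem iso_refl (W : Submodule k H) : Iso g W W :=
  ⟨1, fun X _ => by rw [one_mul, mul_one], Submodule.map_id W⟩

theorem iso_trans {W U V : Submodule k H} (h : Iso g W U) (h' : Iso g U V) : Iso g W V := by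
  obtain ⟨φ, hφ, rfl⟩ := h
  obtain ⟨φ', hφ', rfl⟩ := h'
  refine ⟨φ' * φ, fun X hX => ?_, Submodule.map_comp _ _ _⟩
  rw [mul_assoc, hφ X hX, ← mul_assoc, hφ' X hX, mul_assoc]

theorem iso_symm (hg : IsGaloisAlg g c) {W U : Submodule k H} (hW : IsSimpleSub g W)
    (hU : IsSimpleSub g U) (h : Iso g W U) : Iso g U W := by
  obtain ⟨φ, hφ, hφU⟩ := h
  obtain ⟨ψ, hψ, hψm, hψφ, -⟩ := exists_inv hg hW hU hφ hφU
  refine ⟨ψ, hψ, le_antisymm ?_ fun w hw => ?_⟩
  · rintro _ ⟨u, -, rfl⟩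
    exact hψm u
  · refine ⟨φ w, ?_, hψφ w hw⟩
    rw [← hφU]
    exact Submodule.mem_map_of_mem hw

/-- The multiplier of the elements of the symplectic Lie algebra is zero. -/
theorem c_eq_zero {W : Submodule k H} {β : H →ₗ[k] H →ₗ[k] k} (hs : IsSympl g c W β)
    (hW : W ≠ ⊥) {X : End k H} (hX : X ∈ g) {x y : H} (hx : x ∈ W) (hy : y ∈ W)
    (h : ∀ u ∈ W, X u = β u x • y + β u y • x) : c X = 0 := by
  obtain ⟨u, hu, v, hv, hne⟩ := hs.exists_ne hW
  have h1 := hs.mult X hX u hu v hv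
  rw [h u hu, h v hv] at h1
  simp only [map_add, map_smul, LinearMap.add_apply, LinearMap.smul_apply, smul_eq_mul] at h1
  rw [hs.neg hy hv, hs.neg hx hv] at h1
  refine (mul_eq_zero.1 (?_ : c X * β u v = 0)).resolve_right hne
  rw [← h1]
  ring

/-- The decomposition of `H`. -/
theorem exists_dec (hg : IsGaloisAlg g c) {H₀ H₁ : Submodule k H} (hc : IsCompl H₀ H₁)
    (h₀ : IsStable g H₀) (h₁ : IsStable g H₁)
    (hHom : ∀ φ : End k H, (∀ X ∈ g, φ * X = X * φ) → ∀ u ∈ H₁, φ u ∈ H₁)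
    (hfull : ∀ U ≤ H₁, IsSimpleSub g U → ∃ W β, IsSimpleSub g W ∧ IsSympl g c W β ∧
      Full g W β ∧ Iso g W U) : Nonempty (Dec g c H₀ H₁) := by
  classical
  obtain ⟨P₀, hP₀, hP₀H₀, hP₀H₁, hP₀m⟩ := exists_proj h₀ h₁ hc
  obtain ⟨m, χ, hχ, hχ₀, -⟩ := exists_sum hg h₀ h₁ hc
  obtain ⟨n, φ, hφ, hφ₁, hφ₀⟩ := exists_sum hg h₁ h₀ hc.symm
  choose hφX U hUle hU hφU using hφ
  choose W' β' hW' hs' hF' hI' using fun i => hfull (U i) (hUle i) (hU i)
  let st : Setoid (Fin n) :=
    { r := fun i j => Iso g (W' i) (W' j)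
      iseqv := ⟨fun i => iso_refl _, fun {i j} h => iso_symm hg (hW' i) (hW' j) h,
        fun h h' => iso_trans h h'⟩ }
  have hI : ∀ i, Iso g (W' (Quotient.mk st i).out) (U i) := fun i =>
    iso_trans (Quotient.mk_out (s := st) i) (hI' i)
  choose θ hθX hθU using hI
  choose κ hκX hκm hκθ hθκ using fun i =>
    exists_inv hg (hW' (Quotient.mk st i).out) (hU i) (hθX i) (hθU i)
  -- the simple subspaces of `H₀` are not isomorphic to the `W' i`
  have hno : ∀ i, ∀ V ≤ H₀, IsSimpleSub g V → ¬ Iso g (W' i) V := by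
    rintro i V hV hVs ⟨ρ, hρ, hρV⟩
    obtain ⟨σ, hσ, hσU⟩ := hI' i
    obtain ⟨τ, hτ, -, hτσ, -⟩ := exists_inv hg (hW' i) (hU i) hσ hσU
    refine hVs.1 (le_bot_iff.1 ?_)
    rw [← hρV]
    rintro _ ⟨w, hw, rfl⟩
    refine hc.disjoint.le_bot ⟨hV ?_, ?_⟩
    · rw [← hρV]
      exact Submodule.mem_map_of_mem hw
    · have h1 : σ w ∈ H₁ := by
        refine hUle i ?_
        rw [← hσU]
        exact Submodule.mem_map_of_mem hw
      have h2 := hHom (ρ * τ) (fun X hX => by
        rw [mul_assoc, hτ X hX, ← mul_assoc, hρ X hX, mul_assoc]) _ h1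
      rw [Module.End.mul_apply, hτσ w hw] at h2
      exact h2
  refine ⟨{
    n := n
    Φ := Quotient st
    W := fun q => W' q.out
    β := fun q => β' q.out
    f := fun i => Quotient.mk st i
    P₀ := P₀
    ψ := fun i => κ i * φ i
    θ := θ
    P₀_comm := hP₀
    P₀_mem := hP₀m
    P₀_zero := hP₀H₁
    sum_eq := ?_
    ψ_comm := ?_
    θ_comm := hθX
    ψ_mem := fun i v => hκm i _
    simple := fun q => hW' _
    sympl := fun q => hs' _
    full := ?_ }⟩
  · have h1 : ∀ i, θ i * (κ i * φ i) = φ i := by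
      intro i
      ext v
      exact hθκ i _ (hφU i v)
    simp only [h1]
    ext v
    have hv : v ∈ H₀ ⊔ H₁ := by rw [hc.sup_eq_top]; trivial
    obtain ⟨a, ha, b, hb, rfl⟩ := Submodule.mem_sup.1 hv
    rw [LinearMap.add_apply, map_add, map_add, hP₀H₀ a ha, hP₀H₁ b hb, hφ₀ a ha, hφ₁ b hb,
      add_zero, zero_add]
    rfl
  · intro i X hX
    rw [mul_assoc, hφX i X hX, ← mul_assoc, hκX i X hX, mul_assoc]
  · intro q x hx y hy
    obtain ⟨X, hX, hXW, hX0⟩ := hF' q.out x hx y hy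
    refine ⟨X, hX, c_eq_zero (hs' q.out) (hW' q.out).1 hX hx hy hXW, hXW, ?_, ?_⟩
    · intro q' hq' u hu
      refine hX0 _ (hW' _) (fun h => hq' ?_) u hu
      exact (Quotient.out_equiv_out.1 h).symm
    · intro u hu
      have h1 : u = ∑ i, χ i u := by
        have h2 := hχ₀ u hu
        rw [LinearMap.sum_apply] at h2
        exact h2.symm
      rw [h1, map_sum]
      refine Finset.sum_eq_zero fun i _ => ?_
      obtain ⟨-, V, hV, hVs, hm⟩ := hχ i
      exact hX0 V hVs (hno _ V hV hVs) _ (hm u)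

end Pool.Agent.Lib.MP_021685_agO
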