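import Pool.Agent.Lib.MP_021685_agO.OP

/-!
# Symplectic bases and multilinear forms on products of symplectic spaces
-/

set_option autoImplicit false
set_option linter.unusedSectionVars false

namespace Pool.Agent.Lib.MP_021685_agO

open Finset Function

universe u v

private theorem sb_aux {k : Type u} [Field k] [CharZero k] (n : ℕ) : ∀ (V : Type v)
    [AddCommGroup V] [Module k V] [FiniteDimensional k V]
    (B : V →ₗ[k] V →ₗ[k] k), Module.finrank k V = n → (∀ v, B v v = 0) →
    (∀ v, (∀ w, B v w = 0) → v = 0) →
    ∃ (r : ℕ) (b : Module.Basis (Fin r ⊕ Fin r) k V),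
      (∀ i j, B (b (Sum.inl i)) (b (Sum.inr j)) = if i = j then 1 else 0) ∧
      (∀ i j, B (b (Sum.inl i)) (b (Sum.inl j)) = 0) ∧
      ∀ i j, B (b (Sum.inr i)) (b (Sum.inr j)) = 0 := by
  induction n using Nat.strong_induction_on with
  | _ n ih =>
  intro V _ _ _ B hn halt hnd
  have hskew : ∀ u v, B u v = -B v u := by
    intro u v
    have h := halt (u + v)
    simp only [map_add, LinearMap.add_apply, halt, zero_add, add_zero] at h
    linear_combination h
  by_cases hsub : Subsingleton V
  · have := hsub
    have : IsEmpty (Fin 0 ⊕ Fin 0) := inferInstance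
    refine ⟨0, Module.Basis.empty V, fun i => i.elim0, fun i => i.elim0, fun i => i.elim0⟩
  · rw [not_subsingleton_iff_nontrivial] at hsub
    obtain ⟨e, he⟩ := exists_ne (0 : V)
    obtain ⟨w, hw⟩ : ∃ w, B e w ≠ 0 := by
      by_contra hcon
      push Not at hcon
      exact he (hnd e hcon)
    set f : V := (B e w)⁻¹ • w with hf
    have hef : B e f = 1 := by
      rw [hf, map_smul, smul_eq_mul, inv_mul_cancel₀ hw]
    have hfe : B f e = -1 := by rw [hskew, hef]
    set W : Submodule k V := LinearMap.ker (B e) ⊓ LinearMap.ker (B f) with hW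
    have hWm : ∀ v, v ∈ W ↔ B e v = 0 ∧ B f v = 0 := by
      intro v
      rw [hW, Submodule.mem_inf, LinearMap.mem_ker, LinearMap.mem_ker]
    have hlt : Module.finrank k W < n := by
      rw [← hn]
      refine Submodule.finrank_lt fun htop => ?_
      have : e ∈ W := by rw [htop]; exact Submodule.mem_top
      rw [hWm, hfe] at this
      exact absurd this.2 (neg_ne_zero.2 one_ne_zero)
    -- decomposition
    have hdec : ∀ u : V, ∃ w ∈ W, u = (-(B f u)) • e + (B e u) • f + w := by
      intro u
      refine ⟨u - ((-(B f u)) • e + (B e u) • f), ?_, by abel⟩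
      rw [hWm]
      constructor
      · simp only [map_sub, map_add, map_smul, halt, hef, smul_eq_mul]
        ring
      · simp only [map_sub, map_add, map_smul, halt, hfe, smul_eq_mul]
        ring
    -- the restricted form
    obtain ⟨r, b, h1, h2, h3⟩ := ih _ hlt W ((B.compl₁₂ W.subtype W.subtype)) rfl
      (fun v => halt v.1) (fun v hv => by
        apply Subtype.ext
        refine hnd v.1 fun u => ?_
        obtain ⟨w, hw, hu⟩ := hdec u
        have hvW := (hWm v.1).1 v.2
        have h4 : B v.1 w = 0 := hv ⟨w, hw⟩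
        rw [hu]
        simp only [map_add, map_smul, smul_eq_mul, h4]
        rw [hskew v.1 e, hskew v.1 f, hvW.1, hvW.2]
        ring)
    have h1' : ∀ i j, B (b (Sum.inl i)).1 (b (Sum.inr j)).1 = if i = j then 1 else 0 := h1
    have h2' : ∀ i j, B (b (Sum.inl i)).1 (b (Sum.inl j)).1 = 0 := h2
    have h3' : ∀ i j, B (b (Sum.inr i)).1 (b (Sum.inr j)).1 = 0 := h3
    have hbW : ∀ a, B e (b a).1 = 0 ∧ B f (b a).1 = 0 := fun a => (hWm _).1 (b a).2
    set v : Fin (r + 1) ⊕ Fin (r + 1) → V :=
      Sum.elim (Fin.cons e fun i => (b (Sum.inl i)).1) (Fin.cons f fun i => (b (Sum.inr i)).1) with hv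
    have vl0 : v (Sum.inl 0) = e := rfl
    have vr0 : v (Sum.inr 0) = f := rfl
    have vls : ∀ i : Fin r, v (Sum.inl i.succ) = (b (Sum.inl i)).1 := fun i => rfl
    have vrs : ∀ i : Fin r, v (Sum.inr i.succ) = (b (Sum.inr i)).1 := fun i => rfl
    have g1 : ∀ i j, B (v (Sum.inl i)) (v (Sum.inr j)) = if i = j then 1 else 0 := by
      intro i j
      refine Fin.cases ?_ (fun i => ?_) i <;> refine Fin.cases ?_ (fun j => ?_) j
      · rw [vl0, vr0, hef, if_pos rfl]
      · rw [vl0, vrs, (hbW _).1, if_neg (Fin.succ_ne_zero j).symm]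
      · rw [vls, vr0, hskew, (hbW _).2, neg_zero, if_neg (Fin.succ_ne_zero i)]
      · rw [vls, vrs, h1']
        simp only [Fin.succ_inj]
    have g2 : ∀ i j, B (v (Sum.inl i)) (v (Sum.inl j)) = 0 := by
      intro i j
      refine Fin.cases ?_ (fun i => ?_) i <;> refine Fin.cases ?_ (fun j => ?_) j
      · rw [vl0, halt]
      · rw [vl0, vls, (hbW _).1]
      · rw [vls, vl0, hskew, (hbW _).1, neg_zero]
      · rw [vls, vls, h2']
    have g3 : ∀ i j, B (v (Sum.inr i)) (v (Sum.inr j)) = 0 := by
      intro i j
      refine Fin.cases ?_ (fun i => ?_) i <;> refine Fin.cases ?_ (fun j => ?_) j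
      · rw [vr0, halt]
      · rw [vr0, vrs, (hbW _).2]
      · rw [vrs, vr0, hskew, (hbW _).2, neg_zero]
      · rw [vrs, vrs, h3']
    have hli : LinearIndependent k v := by
      rw [Fintype.linearIndependent_iff]
      intro g hg a
      rcases a with j | j
      · have h5 := congrArg (fun z => B z (v (Sum.inr j))) hg
        simp only [map_add, LinearMap.add_apply, map_sum, map_smul, LinearMap.sum_apply, LinearMap.smul_apply,
          smul_eq_mul, map_zero, LinearMap.zero_apply, Fintype.sum_sum_type, g1, g3, mul_ite, mul_one, mul_zero,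
          Finset.sum_const_zero, add_zero, Finset.sum_ite_eq', Finset.mem_univ, if_true] at h5
        exact h5
      · have h5 := congrArg (fun z => B (v (Sum.inl j)) z) hg
        simp only [map_add, map_sum, map_smul, smul_eq_mul, map_zero, Fintype.sum_sum_type, g1, g2, mul_ite,
          mul_one, mul_zero, Finset.sum_const_zero, zero_add, Finset.sum_ite_eq, Finset.mem_univ,
          if_true] at h5
        exact h5
    have hspan : ⊤ ≤ Submodule.span k (Set.range v) := by
      intro u _
      obtain ⟨w, hw, hu⟩ := hdec u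
      have hws : w ∈ Submodule.span k (Set.range v) := by
        have h6 : (⟨w, hw⟩ : W) = ∑ a, b.repr ⟨w, hw⟩ a • b a := (b.sum_repr _).symm
        have h7 : w = ∑ a, b.repr ⟨w, hw⟩ a • (b a).1 := by
          have h8 := congrArg W.subtype h6
          rw [map_sum] at h8
          exact h8
        rw [h7]
        refine Submodule.sum_mem _ fun a _ => Submodule.smul_mem _ _ (Submodule.subset_span ?_)
        rcases a with i | i
        · exact ⟨Sum.inl i.succ, vls i⟩
        · exact ⟨Sum.inr i.succ, vrs i⟩
      rw [hu]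
      refine Submodule.add_mem _ (Submodule.add_mem _ (Submodule.smul_mem _ _ ?_) (Submodule.smul_mem _ _ ?_)) hws
      · exact Submodule.subset_span ⟨Sum.inl 0, vl0⟩
      · exact Submodule.subset_span ⟨Sum.inr 0, vr0⟩
    refine ⟨r + 1, Module.Basis.mk hli hspan, ?_, ?_, ?_⟩
    · intro i j
      rw [Module.Basis.mk_apply, Module.Basis.mk_apply]
      exact g1 i j
    · intro i j
      rw [Module.Basis.mk_apply, Module.Basis.mk_apply]
      exact g2 i j
    · intro i j
      rw [Module.Basis.mk_apply, Module.Basis.mk_apply]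
      exact g3 i j

/-- A nondegenerate alternating form on a finite dimensional space has a symplectic basis. -/
theorem exists_symp {k : Type u} {V : Type v} [Field k] [CharZero k] [AddCommGroup V] [Module k V]
    [FiniteDimensional k V] (B : V →ₗ[k] V →ₗ[k] k) (halt : ∀ v, B v v = 0)
    (hnd : ∀ v, (∀ w, B v w = 0) → v = 0) :
    ∃ (r : ℕ) (b : Module.Basis (Fin r ⊕ Fin r) k V),
      (∀ i j, B (b (Sum.inl i)) (b (Sum.inr j)) = if i = j then 1 else 0) ∧
      (∀ i j, B (b (Sum.inl i)) (b (Sum.inl j)) = 0) ∧
      ∀ i j, B (b (Sum.inr i)) (b (Sum.inr j)) = 0 :=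
  sb_aux _ V B rfl halt hnd

/-- The symplectic basis in terms of the swap of the two halves and of the signs. -/
theorem exists_symp' {k : Type u} {V : Type v} [Field k] [CharZero k] [AddCommGroup V] [Module k V]
    [FiniteDimensional k V] (B : V →ₗ[k] V →ₗ[k] k) (halt : ∀ v, B v v = 0)
    (hnd : ∀ v, (∀ w, B v w = 0) → v = 0) :
    ∃ (r : ℕ) (b : Module.Basis (Fin r ⊕ Fin r) k V), ∀ x y : Fin r ⊕ Fin r,
      B (b x) (b y) = if y = x.swap then (((Sum.elim (fun _ => 1) (fun _ => -1) x : ℚ)) : k) else 0 := by
  obtain ⟨r, b, h1, h2, h3⟩ := exists_symp B halt hnd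
  have hskew : ∀ u v, B u v = -B v u := by
    intro u v
    have h := halt (u + v)
    simp only [map_add, LinearMap.add_apply, halt, zero_add, add_zero] at h
    linear_combination h
  refine ⟨r, b, ?_⟩
  rintro (i | i) (j | j)
  · rw [h2, if_neg (by simp)]
  · rw [h1]
    by_cases h : i = j
    · subst h
      rw [if_pos rfl, if_pos (show Sum.inr i = (Sum.inl i).swap from rfl)]
      simp
    · rw [if_neg h, if_neg]
      intro h'
      simp only [Sum.swap_inl, Sum.inr.injEq] at h'
      exact h h'.symm
  · rw [hskew, h1]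
    by_cases h : j = i
    · subst h
      rw [if_pos rfl, if_pos (show Sum.inl j = (Sum.inr j).swap from rfl)]
      simp
    · rw [if_neg h, if_neg, neg_zero]
      intro h'
      simp only [Sum.swap_inr, Sum.inl.injEq] at h'
      exact h h'
  · rw [h3, if_neg (by simp)]

section

variable {k H Φ : Type*} [Field k] [CharZero k] [AddCommGroup H] [Module k H]
  [FiniteDimensional k H]

/-- A product of bilinear forms, as a multilinear form. -/
def prodForm {n m : ℕ} (β : Fin m → H →ₗ[k] H →ₗ[k] k) (q : Fin m × Fin 2 ≃ Fin n) :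
    MultilinearMap k (fun _ : Fin n => H) k where
  toFun w := ∏ r, β r (w (q (r, 0))) (w (q (r, 1)))
  map_update_add' := by
    intro _ w s x y
    obtain ⟨⟨r, e⟩, rfl⟩ := q.surjective s
    have key : ∀ z : H, ∏ r', β r' (update w (q (r, e)) z (q (r', 0)))
        (update w (q (r, e)) z (q (r', 1))) =
        β r (update w (q (r, e)) z (q (r, 0))) (update w (q (r, e)) z (q (r, 1))) *
          ∏ r' ∈ Finset.univ.erase r, β r' (w (q (r', 0))) (w (q (r', 1))) := by
      intro z
      rw [← Finset.mul_prod_erase _ _ (Finset.mem_univ r)]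
      congr 1
      refine Finset.prod_congr rfl fun r' hr' => ?_
      have hne : r' ≠ r := Finset.ne_of_mem_erase hr'
      have h1 : ∀ e' : Fin 2, q (r', e') ≠ q (r, e) := fun e' h =>
        hne (congrArg Prod.fst (q.injective h))
      rw [update_of_ne (h1 0), update_of_ne (h1 1)]
    have hdec : ‹DecidableEq (Fin n)› = instDecidableEqFin n := Subsingleton.elim _ _
    subst hdec
    rw [key, key, key, ← add_mul]
    congr 1
    fin_cases e
    · have h1 : q (r, 1) ≠ q (r, 0) := fun h => by
        have := congrArg Prod.snd (q.injective h)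
        exact one_ne_zero this
      simp only [Fin.zero_eta, Fin.isValue, update_self, update_of_ne h1, map_add,
        LinearMap.add_apply]
    · have h1 : q (r, 0) ≠ q (r, 1) := fun h => by
        have := congrArg Prod.snd (q.injective h)
        exact zero_ne_one this
      simp only [Fin.mk_one, Fin.isValue, update_self, update_of_ne h1, map_add]
  map_update_smul' := by
    intro _ w s c x
    obtain ⟨⟨r, e⟩, rfl⟩ := q.surjective s
    have key : ∀ z : H, ∏ r', β r' (update w (q (r, e)) z (q (r', 0)))
        (update w (q (r, e)) z (q (r', 1))) =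
        β r (update w (q (r, e)) z (q (r, 0))) (update w (q (r, e)) z (q (r, 1))) *
          ∏ r' ∈ Finset.univ.erase r, β r' (w (q (r', 0))) (w (q (r', 1))) := by
      intro z
      rw [← Finset.mul_prod_erase _ _ (Finset.mem_univ r)]
      congr 1
      refine Finset.prod_congr rfl fun r' hr' => ?_
      have hne : r' ≠ r := Finset.ne_of_mem_erase hr'
      have h1 : ∀ e' : Fin 2, q (r', e') ≠ q (r, e) := fun e' h =>
        hne (congrArg Prod.fst (q.injective h))
      rw [update_of_ne (h1 0), update_of_ne (h1 1)]
    have hdec : ‹DecidableEq (Fin n)› = instDecidableEqFin n := Subsingleton.elim _ _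
    subst hdec
    rw [key, key, smul_eq_mul, ← mul_assoc]
    congr 1
    fin_cases e
    · have h1 : q (r, 1) ≠ q (r, 0) := fun h => by
        have := congrArg Prod.snd (q.injective h)
        exact one_ne_zero this
      simp only [Fin.zero_eta, Fin.isValue, update_self, update_of_ne h1, map_smul,
        LinearMap.smul_apply, smul_eq_mul]
    · have h1 : q (r, 0) ≠ q (r, 1) := fun h => by
        have := congrArg Prod.snd (q.injective h)
        exact zero_ne_one this
      simp only [Fin.mk_one, Fin.isValue, update_self, update_of_ne h1, map_smul, smul_eq_mul]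

theorem prodForm_apply {n m : ℕ} (β : Fin m → H →ₗ[k] H →ₗ[k] k) (q : Fin m × Fin 2 ≃ Fin n)
    (w : Fin n → H) : prodForm β q w = ∏ r, β r (w (q (r, 0))) (w (q (r, 1))) := rfl

/-- A multilinear form on a product of symplectic spaces which is killed by the symplectic Lie
algebras of all the places is a combination of complete pairings. -/
theorem F1 [DecidableEq Φ] (W : Φ → Submodule k H) (β : Φ → H →ₗ[k] H →ₗ[k] k)
    (halt : ∀ φ, ∀ u ∈ W φ, β φ u u = 0)
    (hnd : ∀ φ, ∀ u ∈ W φ, (∀ v ∈ W φ, β φ u v = 0) → u = 0)
    {n : ℕ} (f : Fin n → Φ) (F : MultilinearMap k (fun _ : Fin n => H) k)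
    (hF : ∀ φ, ∀ a ∈ W φ, ∀ b ∈ W φ, ∀ w : Fin n → H, (∀ j, w j ∈ W (f j)) →
      ∑ j ∈ Finset.univ.filter (fun j => f j = φ),
        F (update w j (β φ (w j) a • b + β φ (w j) b • a)) = 0) :
    ∃ F' ∈ Submodule.span k {G : MultilinearMap k (fun _ : Fin n => H) k |
      ∃ (m : ℕ) (q : Fin m × Fin 2 ≃ Fin n) (φ : Fin m → Φ),
        (∀ r e, f (q (r, e)) = φ r) ∧
        ∀ w, G w = ∏ r, β (φ r) (w (q (r, 0))) (w (q (r, 1)))},
      ∀ w : Fin n → H, (∀ j, w j ∈ W (f j)) → F w = F' w := by
  classical
  have hb := fun φ : Φ => exists_symp' (k := k) (V := W φ)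
    ((β φ).compl₁₂ (W φ).subtype (W φ).subtype) (fun v => halt φ v.1 v.2)
    (fun v hv => Subtype.ext (hnd φ v.1 v.2 fun w hw => hv ⟨w, hw⟩))
  choose r b hb using hb
  have hb' : ∀ φ x y, β φ (b φ x).1 (b φ y).1 = if y = x.swap then
      (((Sum.elim (fun _ => 1) (fun _ => -1) x : ℚ)) : k) else 0 := hb
  have : Fintype (Set.range f) := Fintype.ofFinite _
  let I : Type _ := Σ p : Set.range f, (Fin (r p.1) ⊕ Fin (r p.1))
  let e : I → H := fun i => (b i.1.1 i.2).1
  let Y : Sy I Φ :=
    { bar := fun i => ⟨i.1, i.2.swap⟩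
      ε := fun i => Sum.elim (fun _ => 1) (fun _ => -1) i.2
      φ := fun i => i.1.1
      bar_bar := by
        rintro ⟨p, x⟩
        simp only [Sum.swap_swap]
      ε_bar := by
        rintro ⟨p, (x | x)⟩
        · simp
        · simp
      ε_sq := by
        rintro ⟨p, (x | x)⟩
        · simp
        · simp
      φ_bar := fun i => rfl }
  have he : ∀ i : I, e i ∈ W (Y.φ i) := fun i => (b i.1.1 i.2).2
  have hpair : ∀ i l : I, Y.φ i = Y.φ l → β (Y.φ i) (e i) (e l) =
      if l = Y.bar i then (Y.ε i : k) else 0 := by
    rintro ⟨⟨p, hp⟩, x⟩ ⟨⟨p', hp'⟩, y⟩ h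
    have h' : p = p' := h
    subst h'
    show β p (b p x).1 (b p y).1 = _
    rw [hb']
    by_cases hyx : y = x.swap
    · subst hyx
      rw [if_pos rfl, if_pos rfl]
    · rw [if_neg hyx, if_neg]
      intro h1
      apply hyx
      have h2 : (⟨⟨p, hp⟩, y⟩ : I) = ⟨⟨p, hp⟩, x.swap⟩ := h1
      exact eq_of_heq (Sigma.mk.inj h2).2
  set T : (Fin n → I) → k := fun j => if ∀ s, Y.φ (j s) = f s then F (fun s => e (j s)) else 0
    with hT
  have hinv : Invk Y T := by
    intro i l hil j
    unfold opk
    rw [Finset.mul_sum, Finset.mul_sum, ← sub_eq_zero, ← Finset.sum_sub_distrib]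
    by_cases hj : ∀ s, Y.φ (j s) = f s
    · have h0 := hF (Y.φ i) (e (Y.bar l)) (by
        have h1 := he (Y.bar l)
        rwa [Y.φ_bar, ← hil] at h1) (e i) (he i) (fun s => e (j s)) (fun s => by
          rw [← hj s]; exact he _)
      rw [Finset.sum_filter] at h0
      refine Eq.trans (Finset.sum_congr rfl fun s _ => ?_) h0
      by_cases hs : f s = Y.φ i
      · rw [if_pos hs, F.map_update_add, F.map_update_smul, F.map_update_smul]
        have hTi : ∀ i' : I, Y.φ i' = Y.φ i → T (update j s i') =
            F (update (fun s => e (j s)) s (e i')) := by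
          intro i' hi'
          have h1 : ∀ t, Y.φ (update j s i' t) = f t := by
            intro t
            by_cases ht : t = s
            · subst ht
              rw [update_self, hi', hs]
            · rw [update_of_ne ht]
              exact hj t
          rw [hT]
          simp only
          rw [if_pos h1]
          congr 1
          funext t
          by_cases ht : t = s
          · subst ht
            rw [update_self, update_self]
          · rw [update_of_ne ht, update_of_ne ht]
        have hjs : Y.φ (j s) = Y.φ i := (hj s).trans hs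
        rw [hTi i rfl, hTi (Y.bar l) (by rw [Y.φ_bar, hil])]
        have p1 := hpair (j s) (Y.bar l) (by rw [Y.φ_bar, ← hil, hjs])
        have p2 := hpair (j s) i hjs
        rw [hjs] at p1 p2
        rw [p1, p2]
        have q1 : (Y.bar l = Y.bar (j s)) ↔ j s = l := by
          constructor
          · intro h
            rw [← Y.bar_bar (j s), ← h, Y.bar_bar]
          · intro h
            rw [h]
        have q2 : (i = Y.bar (j s)) ↔ j s = Y.bar i := by
          constructor
          · intro h
            rw [h, Y.bar_bar]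
          · intro h
            rw [h, Y.bar_bar]
        simp only [q1, q2]
        by_cases c1 : j s = l
        · by_cases c2 : j s = Y.bar i
          · rw [if_pos c1, if_pos c2, if_pos c1, if_pos c2]
            have e1 : Y.ε (j s) = Y.ε l := by rw [c1]
            have e2 : Y.ε (j s) = - Y.ε i := by rw [c2, Y.ε_bar]
            rw [smul_eq_mul, smul_eq_mul]
            conv_rhs => rw [e1]
            have e3 : ((Y.ε l : ℚ) : k) = -((Y.ε i : ℚ) : k) := by
              rw [← e1, e2, Rat.cast_neg]
            rw [e3]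
            ring
          · rw [if_pos c1, if_neg c2, if_pos c1, if_neg c2]
            have e1 : Y.ε (j s) = Y.ε l := by rw [c1]
            rw [e1, smul_eq_mul, zero_smul, mul_zero, sub_zero, add_zero]
        · by_cases c2 : j s = Y.bar i
          · rw [if_neg c1, if_pos c2, if_neg c1, if_pos c2]
            have e2 : Y.ε (j s) = - Y.ε i := by rw [c2, Y.ε_bar]
            rw [e2, zero_smul, smul_eq_mul, mul_zero, zero_sub, zero_add, Rat.cast_neg, neg_mul]
          · rw [if_neg c1, if_neg c2, if_neg c1, if_neg c2, zero_smul, zero_smul, mul_zero,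
              mul_zero, sub_zero, add_zero]
      · rw [if_neg hs]
        have c1 : ¬ j s = l := by
          intro h
          exact hs (by rw [← hj s, h, hil])
        have c2 : ¬ j s = Y.bar i := by
          intro h
          exact hs (by rw [← hj s, h, Y.φ_bar])
        rw [if_neg c1, if_neg c2, mul_zero, mul_zero, sub_zero]
    · push Not at hj
      obtain ⟨s₀, hs₀⟩ := hj
      have hTz : ∀ (s : Fin n) (i' : I), (s = s₀ → Y.φ i' = Y.φ (j s)) →
          T (update j s i') = 0 := by
        intro s i' h
        rw [hT]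
        simp only
        rw [if_neg]
        intro h1
        have h2 := h1 s₀
        by_cases hss : s = s₀
        · subst hss
          rw [update_self, h rfl] at h2
          exact hs₀ h2
        · rw [update_of_ne (Ne.symm hss)] at h2
          exact hs₀ h2
      refine Finset.sum_eq_zero fun s _ => ?_
      have z1 : (if j s = l then T (update j s i) else 0) = 0 := by
        split_ifs with h
        · exact hTz s i fun _ => by rw [h, hil]
        · rfl
      have z2 : (if j s = Y.bar i then T (update j s (Y.bar l)) else 0) = 0 := by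
        split_ifs with h
        · exact hTz s _ fun _ => by rw [h, Y.φ_bar, Y.φ_bar, hil]
        · rfl
      rw [z1, z2, mul_zero, mul_zero, sub_zero]
  have hspan := fft_k Y T hinv
  have key : ∀ T' ∈ Submodule.span k {G : (Fin n → I) → k |
      ∃ (m : ℕ) (q : Fin m × Fin 2 ≃ Fin n) (f : Fin m → Φ),
        G = fun j => ((genQ Y f q j : ℚ) : k)},
      ∃ F' ∈ Submodule.span k {G : MultilinearMap k (fun _ : Fin n => H) k |
      ∃ (m : ℕ) (q : Fin m × Fin 2 ≃ Fin n) (φ : Fin m → Φ),
        (∀ r e, f (q (r, e)) = φ r) ∧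
        ∀ w, G w = ∏ r, β (φ r) (w (q (r, 0))) (w (q (r, 1)))},
      ∀ j : Fin n → I, (∀ s, Y.φ (j s) = f s) → T' j = F' (fun s => e (j s)) := by
    intro T' hT'
    induction hT' using Submodule.span_induction with
    | mem T' hT' =>
      obtain ⟨m, q, f', rfl⟩ := hT'
      by_cases hq : ∀ r e, f (q (r, e)) = f' r
      · refine ⟨prodForm (fun r => β (f' r)) q, Submodule.subset_span
          ⟨m, q, f', hq, fun w => rfl⟩, fun j hj => ?_⟩
        rw [prodForm_apply]
        show ((genQ Y f' q j : ℚ) : k) = _
        unfold genQ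
        rw [Rat.cast_prod]
        refine Finset.prod_congr rfl fun r _ => ?_
        have h0 : Y.φ (j (q (r, 0))) = f' r := (hj _).trans (hq r 0)
        have h1 : Y.φ (j (q (r, 1))) = f' r := (hj _).trans (hq r 1)
        have h2 := hpair (j (q (r, 0))) (j (q (r, 1))) (h0.trans h1.symm)
        rw [h0] at h2
        rw [h2]
        by_cases h3 : j (q (r, 1)) = Y.bar (j (q (r, 0)))
        · rw [if_pos ⟨h0, h3⟩, if_pos h3]
        · rw [if_neg (fun h => h3 h.2), if_neg h3, Rat.cast_zero]
      · push Not at hq
        obtain ⟨r, e', hre⟩ := hq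
        refine ⟨0, Submodule.zero_mem _, fun j hj => ?_⟩
        rw [zero_apply]
        have hz : genQ Y f' q j = 0 := by
          unfold genQ
          refine Finset.prod_eq_zero (Finset.mem_univ r) ?_
          rw [if_neg]
          rintro ⟨h1, h2⟩
          apply hre
          fin_cases e'
          · exact (hj _).symm.trans h1
          · have h3 := (hj (q (r, 1))).symm
            rw [h2, Y.φ_bar, h1] at h3
            exact h3
        simp only [hz, Rat.cast_zero]
    | zero => exact ⟨0, Submodule.zero_mem _, fun j _ => rfl⟩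
    | add x y _ _ hx hy =>
      obtain ⟨F₁, h1, g1⟩ := hx
      obtain ⟨F₂, h2, g2⟩ := hy
      exact ⟨F₁ + F₂, Submodule.add_mem _ h1 h2, fun j hj => by
        rw [Pi.add_apply, g1 j hj, g2 j hj, add_apply]⟩
    | smul c x _ hx =>
      obtain ⟨F₁, h1, g1⟩ := hx
      exact ⟨c • F₁, Submodule.smul_mem _ _ h1, fun j hj => by
        rw [Pi.smul_apply, g1 j hj, smul_apply]⟩
  obtain ⟨F', hF', h1⟩ := key T hspan
  refine ⟨F', hF', fun w hw => ?_⟩
  have h2 : F.compLinearMap (fun s => (W (f s)).subtype) =
      F'.compLinearMap (fun s => (W (f s)).subtype) := by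
    refine Module.Basis.ext_multilinear (fun s => b (f s)) fun v => ?_
    have h3 := h1 (fun s => (⟨⟨f s, ⟨s, rfl⟩⟩, v s⟩ : I)) (fun s => rfl)
    rw [hT] at h3
    simp only at h3
    rw [if_pos (fun s => rfl)] at h3
    rw [MultilinearMap.compLinearMap_apply, MultilinearMap.compLinearMap_apply]
    exact h3
  have h3 := congrArg (fun G => G (fun s => (⟨w s, hw s⟩ : W (f s)))) h2
  simp only [MultilinearMap.compLinearMap_apply, Submodule.subtype_apply] at h3
  exact h3

end

end Pool.Agent.Lib.MP_021685_agO
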