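import Pool.Agent.Lib.MP_021685_agO.OR0
import Pool.Agent.Lib.MP_021685_agO.OM
import Pool.Agent.Lib.MP_021685_agO.OQ

/-!
# Block R: Tate forms from the decomposition of `H`
-/

set_option autoImplicit false
set_option linter.unusedSectionVars false

namespace Pool.Agent.Lib.MP_021685_agO

open Module Function

/-- The action of `X` on a multilinear map, as a derivation. -/
def der {k H N ι : Type*} [Field k] [AddCommGroup H] [Module k H] [AddCommMonoid N] [Module k N]
    [Fintype ι] [DecidableEq ι] (X : End k H) (T : MultilinearMap k (fun _ : ι => H) N)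
    (v : ι → H) : N :=
  ∑ j, T (update v j (X (v j)))

section

variable {k H N ι ι' : Type*} [Field k] [AddCommGroup H] [Module k H] [AddCommMonoid N] [Module k N]
  [Fintype ι] [DecidableEq ι] [Fintype ι'] [DecidableEq ι'] {X : End k H}

theorem der_domDomCongr (σ : ι ≃ ι') (T : MultilinearMap k (fun _ : ι => H) N) (v : ι' → H) :
    der X (T.domDomCongr σ) v = der X T (fun i => v (σ i)) := by
  unfold der
  rw [← Equiv.sum_comp σ]
  refine Finset.sum_congr rfl fun j _ => ?_
  rw [MultilinearMap.domDomCongr_apply]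
  congr 1
  funext i
  by_cases h : i = j
  · subst h
    rw [update_self, update_self]
  · rw [update_of_ne h, update_of_ne (fun h' => h (σ.injective h'))]

theorem der_comp (T : MultilinearMap k (fun _ : ι => H) N) (L : ι → End k H)
    (hL : ∀ j, L j * X = X * L j) (v : ι → H) :
    der X (T.compLinearMap L) v = der X T (fun j => L j (v j)) := by
  unfold der
  refine Finset.sum_congr rfl fun j _ => ?_
  rw [MultilinearMap.compLinearMap_apply]
  congr 1
  funext i
  by_cases h : i = j
  · subst h
    rw [update_self, update_self]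
    exact congrArg (fun φ : End k H => φ (v i)) (hL i)
  · rw [update_of_ne h, update_of_ne h]

theorem der_currySum (T : MultilinearMap k (fun _ : ι ⊕ ι' => H) N) (z : ι → H) (w : ι' → H) :
    der X T (Sum.elim z w) = der X T.currySum z w + der X (T.currySum z) w := by
  unfold der
  rw [Fintype.sum_sum_type, sum_apply]
  congr 1
  · refine Finset.sum_congr rfl fun j _ => ?_
    rw [MultilinearMap.currySum_apply', Sum.elim_inl, Sum.elim_update_left]
  · refine Finset.sum_congr rfl fun j _ => ?_
    rw [MultilinearMap.currySum_apply', Sum.elim_inr, Sum.elim_update_right]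

theorem der_linear {N' : Type*} [AddCommMonoid N'] [Module k N'] (l : N →ₗ[k] N')
    (T : MultilinearMap k (fun _ : ι => H) N) (v : ι → H) :
    der X (l.compMultilinearMap T) v = l (der X T v) := by
  unfold der
  rw [map_sum]
  rfl

end

variable {k H : Type*} [Field k] [CharZero k] [AddCommGroup H] [Module k H] [FiniteDimensional k H]
  {g : Submodule k (End k H)} {c : End k H → k} {H₀ H₁ : Submodule k H}

/-- A bilinear form as a multilinear form. -/
def bil2 (B : H →ₗ[k] H →ₗ[k] k) : MultilinearMap k (fun _ : Fin 2 => H) k :=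
  prodForm (fun _ : Fin 1 => B) (Equiv.uniqueProd (Fin 2) (Fin 1))

theorem bil2_apply (B : H →ₗ[k] H →ₗ[k] k) (w : Fin 2 → H) : bil2 B w = B (w 0) (w 1) := by
  unfold bil2
  rw [prodForm_apply, Fin.prod_univ_one]
  rfl

theorem bil2_tate {B : H →ₗ[k] H →ₗ[k] k} (hB : ∀ X ∈ g, ∀ u v, B (X u) v + B u (X v) = c X * B u v) :
    IsTateForm g c 2 (bil2 B) := by
  intro X hX v
  rw [Fin.sum_univ_two, bil2_apply, bil2_apply, bil2_apply]
  have h1 : (update v 0 (X (v 0))) 1 = v 1 := update_of_ne (by decide) _ _
  have h2 : (update v 1 (X (v 1))) 0 = v 0 := update_of_ne (by decide) _ _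
  rw [update_self, update_self, h1, h2, hB X hX]
  have h3 : ((2 : ℕ) : k) / 2 = 1 := by
    rw [Nat.cast_ofNat, div_self two_ne_zero]
  rw [h3, one_mul]

/-- The derivation of a product of bilinear forms. -/
theorem der_prodForm {n m : ℕ} {B : Fin m → H →ₗ[k] H →ₗ[k] k} {X : End k H} {x : k}
    (hB : ∀ r u v, B r (X u) v + B r u (X v) = x * B r u v) (q : Fin m × Fin 2 ≃ Fin n)
    (w : Fin n → H) : der X (prodForm B q) w = (n : k) / 2 * x * prodForm B q w := by
  have hn : n = m * 2 := by
    have h := Fintype.card_congr q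
    rw [Fintype.card_prod, Fintype.card_fin, Fintype.card_fin, Fintype.card_fin] at h
    exact h.symm
  unfold der
  rw [← Equiv.sum_comp q, Fintype.sum_prod_type]
  have key : ∀ r : Fin m, ∑ e : Fin 2, prodForm B q (update w (q (r, e)) (X (w (q (r, e))))) =
      x * prodForm B q w := by
    intro r
    have h0 : ∀ (e : Fin 2) (z : H), prodForm B q (update w (q (r, e)) z) =
        B r (update w (q (r, e)) z (q (r, 0))) (update w (q (r, e)) z (q (r, 1))) *
          ∏ r' ∈ Finset.univ.erase r, B r' (w (q (r', 0))) (w (q (r', 1))) := by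
      intro e z
      rw [prodForm_apply, ← Finset.mul_prod_erase _ _ (Finset.mem_univ r)]
      congr 1
      refine Finset.prod_congr rfl fun r' hr' => ?_
      have hne : r' ≠ r := Finset.ne_of_mem_erase hr'
      have h1 : ∀ e' : Fin 2, q (r', e') ≠ q (r, e) := fun e' h =>
        hne (congrArg Prod.fst (q.injective h))
      rw [update_of_ne (h1 0), update_of_ne (h1 1)]
    have h10 : q (r, 1) ≠ q (r, 0) := fun h => one_ne_zero (congrArg Prod.snd (q.injective h))
    have h01 : q (r, 0) ≠ q (r, 1) := fun h => zero_ne_one (congrArg Prod.snd (q.injective h))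
    rw [Fin.sum_univ_two, h0, h0, update_self, update_self, update_of_ne h10, update_of_ne h01,
      ← add_mul, hB, prodForm_apply, ← Finset.mul_prod_erase _ _ (Finset.mem_univ r), mul_assoc]
  have hn' : (n : k) = m * 2 := by rw [hn]; push_cast; ring
  rw [Finset.sum_congr rfl fun r _ => key r, Finset.sum_const, Finset.card_univ, Fintype.card_fin,
    nsmul_eq_mul, hn']
  ring

/-- The product of a form in the arguments `inr` and a form in the arguments `inl`. -/
noncomputable def prodML {d n s : ℕ} (p : Fin d ⊕ Fin n ≃ Fin s)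
    (G : MultilinearMap k (fun _ : Fin d => H) k) (M : MultilinearMap k (fun _ : Fin n => H) k) :
    MultilinearMap k (fun _ : Fin s => H) k :=
  ((LinearMap.mul' k k).compMultilinearMap (G.domCoprod M)).domDomCongr p

theorem prodML_apply {d n s : ℕ} (p : Fin d ⊕ Fin n ≃ Fin s)
    (G : MultilinearMap k (fun _ : Fin d => H) k) (M : MultilinearMap k (fun _ : Fin n => H) k)
    (v : Fin s → H) :
    prodML p G M v = G (fun t => v (p (Sum.inl t))) * M (fun r => v (p (Sum.inr r))) := by
  unfold prodML
  rw [MultilinearMap.domDomCongr_apply, LinearMap.compMultilinearMap_apply]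
  rfl

theorem exists_split {s : ℕ} {A : Type*} (i : Fin s → Option A) :
    ∃ (d n : ℕ) (p : Fin d ⊕ Fin n ≃ Fin s) (a : Fin n → A),
      (∀ t, i (p (Sum.inl t)) = none) ∧ ∀ r, i (p (Sum.inr r)) = some (a r) := by
  classical
  let e1 := (Fintype.equivFin {j : Fin s // i j = none}).symm
  let e2 := (Fintype.equivFin {j : Fin s // ¬ i j = none}).symm
  let p := (Equiv.sumCongr e1 e2).trans (Equiv.sumCompl (fun j => i j = none))
  have h2 : ∀ r, ∃ a, i (p (Sum.inr r)) = some a := fun r =>
    Option.ne_none_iff_exists'.1 (e2 r).2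
  choose a ha using h2
  exact ⟨_, _, p, a, fun t => (e1 t).2, ha⟩

/-- The combinations of complete pairings. -/
def pairSp {Φ : Type*} {n : ℕ} (f : Fin n → Φ) (B : Φ → H →ₗ[k] H →ₗ[k] k) :
    Submodule k (MultilinearMap k (fun _ : Fin n => H) k) :=
  Submodule.span k {G : MultilinearMap k (fun _ : Fin n => H) k |
    ∃ (m : ℕ) (q : Fin m × Fin 2 ≃ Fin n) (φ : Fin m → Φ),
      (∀ r e, f (q (r, e)) = φ r) ∧ ∀ w, G w = ∏ r, B (φ r) (w (q (r, 0))) (w (q (r, 1)))}

/-- The derivation acts on the combinations of complete pairings as a scalar. -/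
theorem der_pairSp {Φ : Type*} {n : ℕ} {f : Fin n → Φ} {B : Φ → H →ₗ[k] H →ₗ[k] k} {X : End k H}
    {x : k} (hB : ∀ φ u v, B φ (X u) v + B φ u (X v) = x * B φ u v)
    {M : MultilinearMap k (fun _ : Fin n => H) k} (hM : M ∈ pairSp f B) (w : Fin n → H) :
    der X M w = (n : k) / 2 * x * M w := by
  unfold pairSp at hM
  induction hM using Submodule.span_induction with
  | mem M hM =>
    obtain ⟨m, q, φ, -, h⟩ := hM
    have h1 : M = prodForm (fun r => B (φ r)) q := MultilinearMap.ext h
    rw [h1]
    exact der_prodForm (fun r => hB (φ r)) q w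
  | zero =>
    unfold der
    simp
  | add M M' _ _ h h' =>
    have h1 : der X (M + M') w = der X M w + der X M' w := by
      unfold der
      rw [← Finset.sum_add_distrib]
      rfl
    rw [h1, h, h', add_apply]
    ring
  | smul a M _ h =>
    have h1 : der X (a • M) w = a * der X M w := by
      unfold der
      rw [Finset.mul_sum]
      rfl
    rw [h1, h, smul_apply, smul_eq_mul]
    ring

/-- Invariance under the projections. -/
theorem pairSp_comp {Φ : Type*} {n : ℕ} {f : Fin n → Φ} {B : Φ → H →ₗ[k] H →ₗ[k] k}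
    {π : Φ → End k H} (hπ : ∀ φ u v, B φ (π φ u) (π φ v) = B φ u v)
    {M : MultilinearMap k (fun _ : Fin n => H) k} (hM : M ∈ pairSp f B) (w : Fin n → H) :
    M (fun r => π (f r) (w r)) = M w := by
  unfold pairSp at hM
  induction hM using Submodule.span_induction with
  | mem M hM =>
    obtain ⟨m, q, φ, h, h'⟩ := hM
    rw [h', h']
    refine Finset.prod_congr rfl fun r _ => ?_
    rw [h r 0, h r 1, hπ]
  | zero => rfl
  | add M M' _ _ h h' => rw [add_apply, add_apply, h, h']
  | smul a M _ h => rw [smul_apply, smul_apply, h]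

/-- The product of a combination of pairings and of a Tate form is in the span. -/
theorem prodML_mem {Φ : Type*} {d n s : ℕ} (p : Fin d ⊕ Fin n ≃ Fin s) {f : Fin n → Φ}
    {B : Φ → H →ₗ[k] H →ₗ[k] k} (hB : ∀ X ∈ g, ∀ φ u v, B φ (X u) v + B φ u (X v) = c X * B φ u v)
    {ψ : Fin n → End k H} (hψ : ∀ r, ∀ X ∈ g, ψ r * X = X * ψ r)
    {G : MultilinearMap k (fun _ : Fin d => H) k} (hG : IsTateForm g c d G)
    (hG0 : ∀ v : Fin d → H, (∃ t, v t ∈ H₁) → G v = 0)
    {M : MultilinearMap k (fun _ : Fin n => H) k} (hM : M ∈ pairSp f B) :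
    IsGenOver g c H₁ s (prodML p G (M.compLinearMap ψ)) := by
  unfold IsGenOver
  unfold pairSp at hM
  induction hM using Submodule.span_induction with
  | mem M hM =>
    obtain ⟨m, q, φ, -, h⟩ := hM
    refine Submodule.subset_span ⟨m, d,
      (Equiv.sumComm _ _).trans ((Equiv.sumCongr (Equiv.refl _) q).trans p),
      fun r => bil2 ((B (φ r)).compl₁₂ (ψ (q (r, 0))) (ψ (q (r, 1)))), G, fun r => ?_, hG, hG0,
      fun v => ?_⟩
    · refine bil2_tate fun X hX u v => ?_
      have h1 : ∀ j, ∀ u, ψ j (X u) = X (ψ j u) := fun j u =>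
        congrArg (fun ξ : End k H => ξ u) (hψ j X hX)
      rw [LinearMap.compl₁₂_apply, LinearMap.compl₁₂_apply, LinearMap.compl₁₂_apply, h1, h1, hB X hX]
    · rw [prodML_apply, MultilinearMap.compLinearMap_apply, h, mul_comm]
      congr 1
      refine Finset.prod_congr rfl fun r _ => ?_
      show _ = bil2 _ _
      rw [bil2_apply]
      rfl
  | zero =>
    have h1 : prodML p G ((0 : MultilinearMap k (fun _ : Fin n => H) k).compLinearMap ψ) = 0 := by
      ext v
      rw [prodML_apply, MultilinearMap.compLinearMap_apply, zero_apply, mul_zero]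
      rfl
    rw [h1]
    exact Submodule.zero_mem _
  | add M M' _ _ h h' =>
    have h1 : prodML p G ((M + M').compLinearMap ψ) =
        prodML p G (M.compLinearMap ψ) + prodML p G (M'.compLinearMap ψ) := by
      ext v
      rw [add_apply, prodML_apply, prodML_apply, prodML_apply,
        MultilinearMap.compLinearMap_apply, MultilinearMap.compLinearMap_apply,
        MultilinearMap.compLinearMap_apply, add_apply, mul_add]
    rw [h1]
    exact Submodule.add_mem _ h h'
  | smul a M _ h =>
    have h1 : prodML p G ((a • M).compLinearMap ψ) = a • prodML p G (M.compLinearMap ψ) := by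
      ext v
      rw [smul_apply, prodML_apply, prodML_apply, MultilinearMap.compLinearMap_apply,
        MultilinearMap.compLinearMap_apply, smul_apply, smul_eq_mul, smul_eq_mul, mul_left_comm]
    rw [h1]
    exact Submodule.smul_mem _ _ h

/-- The form attached to a pattern of indices. -/
theorem gen_core (D : Dec g c H₀ H₁) {π : D.Φ → End k H} (hπ1 : ∀ φ, ∀ X ∈ g, π φ * X = X * π φ)
    (hπ2 : ∀ φ, ∀ u ∈ D.W φ, π φ u = u) (hπ3 : ∀ φ u, π φ u ∈ D.W φ) {d n s : ℕ}
    (p : Fin d ⊕ Fin n ≃ Fin s) (a : Fin n → Fin D.n)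
    {T : MultilinearMap k (fun _ : Fin s => H) k} (hT : IsTateForm g c s T) :
    IsGenOver g c H₁ s (T.compLinearMap fun j =>
      Sum.elim (fun _ => D.P₀) (fun r => D.θ (a r) * D.ψ (a r)) (p.symm j)) := by
  classical
  have hs : (s : k) = d + n := by
    have h := Fintype.card_congr p
    rw [Fintype.card_sum, Fintype.card_fin, Fintype.card_fin, Fintype.card_fin] at h
    rw [← h, Nat.cast_add]
  have hπX : ∀ φ, ∀ X ∈ g, ∀ u, π φ (X u) = X (π φ u) := fun φ X hX u =>
    congrArg (fun ξ : End k H => ξ u) (hπ1 φ X hX)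
  set B : D.Φ → H →ₗ[k] H →ₗ[k] k := fun φ => (D.β φ).compl₁₂ (π φ) (π φ) with hBdef
  have hBa : ∀ φ u v, B φ u v = D.β φ (π φ u) (π φ v) := fun _ _ _ => rfl
  have hB : ∀ X ∈ g, ∀ φ u v, B φ (X u) v + B φ u (X v) = c X * B φ u v := by
    intro X hX φ u v
    rw [hBa, hBa, hBa, hπX φ X hX, hπX φ X hX]
    exact (D.sympl φ).mult X hX _ (hπ3 φ u) _ (hπ3 φ v)
  have hBW : ∀ φ, ∀ u ∈ D.W φ, ∀ v ∈ D.W φ, B φ u v = D.β φ u v := by
    intro φ u hu v hv
    rw [hBa, hπ2 φ u hu, hπ2 φ v hv]
  have hBπ : ∀ φ u v, B φ (π φ u) (π φ v) = B φ u v := by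
    intro φ u v
    rw [hBa, hBa, hπ2 φ _ (hπ3 φ u), hπ2 φ _ (hπ3 φ v)]
  set f : Fin n → D.Φ := fun r => D.f (a r) with hf
  -- the curried form
  set L : Fin d ⊕ Fin n → End k H := Sum.elim (fun _ => 1) (fun r => D.θ (a r)) with hL
  set T₂ : MultilinearMap k (fun _ : Fin d ⊕ Fin n => H) k :=
    (T.domDomCongr p.symm).compLinearMap L with hT₂
  set F := T₂.currySum with hF
  have hFa : ∀ z w, F z w = T (fun j => L (p.symm j) (Sum.elim z w (p.symm j))) := fun _ _ => rfl
  have hLX : ∀ X ∈ g, ∀ j, L j * X = X * L j := by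
    intro X hX j
    rcases j with j | j
    · show 1 * X = X * 1
      rw [one_mul, mul_one]
    · exact D.θ_comm (a j) X hX
  have hFT : ∀ X ∈ g, ∀ z w, der X F z w + der X (F z) w = (s : k) / 2 * c X * F z w := by
    intro X hX z w
    rw [hF, ← der_currySum, hT₂, der_comp _ _ (hLX X hX), der_domDomCongr]
    exact hT X hX _
  set Fh : MultilinearMap k (fun _ : Fin d => H) (MultilinearMap k (fun _ : Fin n => H) k) :=
    (MultilinearMap.compLinearMapₗ (M₂ := k) (fun r : Fin n => π (f r))).compMultilinearMap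
      (F.compLinearMap fun _ => D.P₀) with hFh
  have hFha : ∀ z w, Fh z w = F (fun t => D.P₀ (z t)) (fun r => π (f r) (w r)) := fun _ _ => rfl
  have hFhT : ∀ X ∈ g, ∀ z w, der X Fh z w + der X (Fh z) w = (s : k) / 2 * c X * Fh z w := by
    intro X hX z w
    have h1 : der X Fh z w = der X F (fun t => D.P₀ (z t)) (fun r => π (f r) (w r)) := by
      rw [hFh, der_linear, der_comp _ _ (fun _ => D.P₀_comm X hX)]
      rfl
    have h2 : der X (Fh z) w = der X (F (fun t => D.P₀ (z t))) (fun r => π (f r) (w r)) := by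
      have h3 : Fh z = (F (fun t => D.P₀ (z t))).compLinearMap (fun r => π (f r)) := rfl
      rw [h3, der_comp _ _ (fun r => hπ1 (f r) X hX)]
    rw [h1, h2, hFT X hX, hFha]
  -- the first fundamental theorem
  have hmem : ∀ z, Fh z ∈ pairSp f B := by
    intro z
    obtain ⟨F', hF', h1⟩ := F1 D.W B (fun φ u hu => by
        rw [hBW φ u hu u hu]
        exact (D.sympl φ).alt u hu)
      (fun φ u hu h => (D.sympl φ).nondeg u hu fun v hv => by
        rw [← hBW φ u hu v hv]
        exact h v hv) f (F (fun t => D.P₀ (z t))) (by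
        intro φ x hx y hy w hw
        obtain ⟨X, hX, hcX, hX1, hX2, hX3⟩ := D.full φ x hx y hy
        have h1 := hFT X hX (fun t => D.P₀ (z t)) w
        rw [hcX, mul_zero, zero_mul] at h1
        have h2 : der X F (fun t => D.P₀ (z t)) w = 0 := by
          unfold der
          rw [sum_apply]
          refine Finset.sum_eq_zero fun t _ => ?_
          rw [hX3 _ (D.P₀_mem (z t)), MultilinearMap.map_update_zero]
          rfl
        rw [h2, zero_add] at h1
        rw [← h1]
        unfold der
        rw [Finset.sum_filter]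
        refine Finset.sum_congr rfl fun r _ => ?_
        by_cases hr : f r = φ
        · have hwr : w r ∈ D.W φ := by
            rw [← hr]
            exact hw r
          rw [if_pos hr, hX1 _ hwr, hBW φ _ hwr x hx, hBW φ _ hwr y hy]
        · rw [if_neg hr, hX2 (f r) hr _ (hw r), MultilinearMap.map_update_zero])
    have h2 : Fh z = F' := by
      ext w
      rw [hFha, h1 _ (fun r => hπ3 (f r) (w r))]
      exact pairSp_comp hBπ hF' w
    rw [h2]
    exact hF'
  have hFhX : ∀ X ∈ g, ∀ z, der X Fh z = ((d : k) / 2 * c X) • Fh z := by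
    intro X hX z
    ext w
    have h1 := hFhT X hX z w
    rw [der_pairSp (hB X hX) (hmem z) w, hs] at h1
    rw [smul_apply, smul_eq_mul]
    linear_combination h1
  -- the coefficients
  have hfd : FiniteDimensional k (pairSp f B) := inferInstance
  set b := Module.Basis.ofVectorSpace k (pairSp f B) with hb
  have hfin : Finite (Module.Basis.ofVectorSpaceIndex k (pairSp f B)) := Module.Finite.finite_basis b
  have hft : Fintype (Module.Basis.ofVectorSpaceIndex k (pairSp f B)) := Fintype.ofFinite _
  set Fc := Fh.codRestrict (pairSp f B) hmem with hFc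
  have hFca : ∀ z, ((Fc z : pairSp f B) : MultilinearMap k (fun _ : Fin n => H) k) = Fh z :=
    fun _ => rfl
  have hcoord : ∀ l, IsTateForm g c d ((b.coord l).compMultilinearMap Fc) := by
    intro l X hX z
    have h1 := der_linear (X := X) (b.coord l) Fc z
    have h2 : der X Fc z = ((d : k) / 2 * c X) • Fc z := by
      apply Subtype.ext
      rw [Submodule.coe_smul, hFca, ← hFhX X hX]
      unfold der
      rw [AddSubmonoidClass.coe_finsetSum]
      rfl
    rw [h2, map_smul, smul_eq_mul] at h1
    exact h1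
  have hzero : ∀ l, ∀ z : Fin d → H, (∃ t, z t ∈ H₁) →
      ((b.coord l).compMultilinearMap Fc) z = 0 := by
    rintro l z ⟨t, ht⟩
    have h1 : Fc z = 0 := by
      apply Subtype.ext
      rw [hFca]
      ext w
      rw [hFha, MultilinearMap.map_coord_zero F t (D.P₀_zero _ ht)]
      rfl
    rw [LinearMap.compMultilinearMap_apply, h1, map_zero]
  -- the form
  have hform : (T.compLinearMap fun j =>
      Sum.elim (fun _ => D.P₀) (fun r => D.θ (a r) * D.ψ (a r)) (p.symm j)) =
      ∑ l, prodML p ((b.coord l).compMultilinearMap Fc)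
        ((b l : MultilinearMap k (fun _ : Fin n => H) k).compLinearMap fun r => D.ψ (a r)) := by
    ext v
    rw [MultilinearMap.compLinearMap_apply, sum_apply]
    simp only [prodML_apply]
    set z : Fin d → H := fun t => v (p (Sum.inl t)) with hz
    set w : Fin n → H := fun r => v (p (Sum.inr r)) with hw
    have h1 : Fh z = ∑ l, b.coord l (Fc z) • (b l : MultilinearMap k (fun _ : Fin n => H) k) := by
      rw [← hFca]
      conv_lhs => rw [← b.sum_repr (Fc z)]
      rw [AddSubmonoidClass.coe_finsetSum]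
      rfl
    have h2 : Fh z (fun r => D.ψ (a r) (w r)) = ∑ l, b.coord l (Fc z) *
        (b l : MultilinearMap k (fun _ : Fin n => H) k) (fun r => D.ψ (a r) (w r)) := by
      rw [h1, sum_apply]
      rfl
    have h3 : Fh z (fun r => D.ψ (a r) (w r)) = T (fun j =>
        (Sum.elim (fun _ => D.P₀) (fun r => D.θ (a r) * D.ψ (a r)) (p.symm j) : End k H) (v j)) := by
      rw [hFha, hFa]
      congr 1
      funext j
      obtain ⟨j, rfl⟩ := p.surjective j
      rw [Equiv.symm_apply_apply]
      rcases j with t | r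
      · rfl
      · show D.θ (a r) (π (f r) (D.ψ (a r) (w r))) = D.θ (a r) (D.ψ (a r) (v (p (Sum.inr r))))
        rw [hπ2 _ _ (D.ψ_mem (a r) (w r))]
    rw [← h3, h2]
    rfl
  rw [hform]
  exact Submodule.sum_mem _ fun l _ => prodML_mem p hB (fun r => D.ψ_comm (a r)) (hcoord l) (hzero l)
    (b l).2

/-- Every Tate form is generated by Tate forms with two arguments and by Tate forms on `H₀`. -/
theorem gen_of_dec (hg : IsGaloisAlg g c) (D : Dec g c H₀ H₁) {s : ℕ}
    {T : MultilinearMap k (fun _ : Fin s => H) k} (hT : IsTateForm g c s T) :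
    IsGenOver g c H₁ s T := by
  classical
  have hπ : ∀ φ, ∃ π : End k H, (∀ X ∈ g, π * X = X * π) ∧ (∀ u ∈ D.W φ, π u = u) ∧
      ∀ u, π u ∈ D.W φ := by
    intro φ
    obtain ⟨U', hU', hc⟩ := hg.semisimple _ (D.simple φ).2.1
    obtain ⟨p, h1, h2, -, h4⟩ := exists_proj (D.simple φ).2.1 hU' hc
    exact ⟨p, h1, h2, h4⟩
  choose π hπ1 hπ2 hπ3 using hπ
  let Q : Option (Fin D.n) → End k H := fun o => o.elim D.P₀ fun a => D.θ a * D.ψ a
  have hQ : ∑ o, Q o = 1 := by
    rw [Fintype.sum_option]
    exact D.sum_eq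
  have hsum : T = ∑ i : Fin s → Option (Fin D.n), T.compLinearMap (fun j => Q (i j)) := by
    ext v
    rw [sum_apply]
    simp only [MultilinearMap.compLinearMap_apply]
    rw [← MultilinearMap.map_sum T (fun j o => Q o (v j))]
    congr 1
    funext j
    rw [← LinearMap.sum_apply, hQ, Module.End.one_apply]
  rw [hsum]
  refine Submodule.sum_mem _ fun i _ => ?_
  obtain ⟨d, n, p, a, h1, h2⟩ := exists_split i
  have h3 : (fun j => Q (i j)) = fun j =>
      Sum.elim (fun _ => D.P₀) (fun r => D.θ (a r) * D.ψ (a r)) (p.symm j) := by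
    funext j
    obtain ⟨j, rfl⟩ := p.surjective j
    rw [Equiv.symm_apply_apply]
    rcases j with t | r
    · rw [h1]
      rfl
    · rw [h2]
      rfl
  rw [h3]
  exact gen_core D hπ1 hπ2 hπ3 p a hT

end Pool.Agent.Lib.MP_021685_agO
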