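import Mathlib

/-!
# Block S, first part: a field acting on a space with a rational structure
-/

set_option autoImplicit false
set_option linter.unusedSectionVars false

namespace Pool.Agent.Lib.MP_021685_agO

open Module Polynomial

/-- A ring homomorphism from a field of characteristic zero commutes with the evaluation of rational
polynomials. -/
theorem S_aeval {k F V : Type*} [Field k] [CharZero k] [Field F] [CharZero F] [AddCommGroup V]
    [Module k V] (ρ : F →+* End k V) (θ : F) (f : ℚ[X]) :
    ρ (aeval θ f) = aeval (ρ θ) (f.map (algebraMap ℚ k)) := by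
  rw [aeval_def, hom_eval₂, aeval_def, eval₂_map]
  congr 1
  exact Subsingleton.elim _ _

section

variable {k F V : Type*} [Field k] [CharZero k] [Field F] [CharZero F] [AddCommGroup V]
  [Module k V] {r : ℕ}

theorem S_coeff {b : Fin r → V} (hb : LinearIndependent k b) {x y : Fin r → ℚ}
    (h : ∑ j, (x j : k) • b j = ∑ j, (y j : k) • b j) : x = y := by
  funext j
  have h1 : ∑ j, ((x j : k) - (y j : k)) • b j = 0 := by
    simp only [sub_smul, Finset.sum_sub_distrib]
    rw [h, sub_self]
  have h2 := Fintype.linearIndependent_iff.1 hb _ h1 j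
  have h3 := sub_eq_zero.1 h2
  exact_mod_cast h3

/-- The field `F` is of finite degree. -/
theorem S_finite (ρ : F →+* End k V) {b : Fin r → V} (hb : LinearIndependent k b) (hr : 0 < r)
    (hq : ∀ a i, ∃ q : Fin r → ℚ, ρ a (b i) = ∑ j, (q j : k) • b j) :
    FiniteDimensional ℚ F := by
  classical
  choose q hq using hq
  let M : F →+ Matrix (Fin r) (Fin r) ℚ :=
    { toFun := fun a => Matrix.of fun i j => q a i j
      map_zero' := by
        ext i j
        have h1 := hq 0 i
        rw [map_zero, LinearMap.zero_apply] at h1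
        have h2 : ∑ j, (((0 : Fin r → ℚ) j : ℚ) : k) • b j = ∑ j, (q 0 i j : k) • b j := by
          rw [← h1]
          simp
        have h3 := S_coeff hb h2
        rw [Matrix.of_apply, ← h3]
        rfl
      map_add' := fun x y => by
        ext i j
        have h1 := hq (x + y) i
        rw [map_add, LinearMap.add_apply, hq x i, hq y i, ← Finset.sum_add_distrib] at h1
        have h2 : ∑ j, (((q x i + q y i) j : ℚ) : k) • b j = ∑ j, (q (x + y) i j : k) • b j := by
          rw [← h1]
          refine Finset.sum_congr rfl fun j _ => ?_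
          rw [Pi.add_apply, Rat.cast_add, add_smul]
        have h3 := S_coeff hb h2
        rw [Matrix.of_apply, Matrix.add_apply, Matrix.of_apply, Matrix.of_apply, ← h3]
        rfl }
  have hinj : Function.Injective M.toRatLinearMap := by
    rw [← LinearMap.ker_eq_bot, LinearMap.ker_eq_bot']
    intro a ha
    by_contra hne
    have h1 := hq a ⟨0, hr⟩
    have h2 : ∀ j, q a ⟨0, hr⟩ j = 0 := fun j => by
      have h3 := congrFun (congrFun (show M a = 0 from ha) ⟨0, hr⟩) j
      exact h3
    simp only [h2, Rat.cast_zero, zero_smul, Finset.sum_const_zero] at h1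
    have h3 : ρ (a⁻¹ * a) (b ⟨0, hr⟩) = 0 := by
      rw [map_mul, Module.End.mul_apply, h1, map_zero]
    rw [inv_mul_cancel₀ hne, map_one, Module.End.one_apply] at h3
    exact hb.ne_zero _ h3
  exact FiniteDimensional.of_injective M.toRatLinearMap hinj

/-- The characteristic polynomial on the span of `b` is rational. -/
theorem S_charpoly [FiniteDimensional k V] {T : End k V} {b : Fin r → V}
    (hb : LinearIndependent k b) (hq : ∀ i, ∃ q : Fin r → ℚ, T (b i) = ∑ j, (q j : k) • b j)
    (hP : ∀ v ∈ Submodule.span k (Set.range b), T v ∈ Submodule.span k (Set.range b)) :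
    ∃ χ : ℚ[X], χ.Monic ∧ χ.natDegree = r ∧
      (T.restrict hP).charpoly = χ.map (algebraMap ℚ k) := by
  classical
  choose q hq using hq
  refine ⟨(Matrix.of fun j i => q i j).charpoly, Matrix.charpoly_monic _, ?_, ?_⟩
  · rw [Matrix.charpoly_natDegree_eq_dim, Fintype.card_fin]
  · rw [← LinearMap.charpoly_toMatrix (T.restrict hP) (Basis.span hb), ← Matrix.charpoly_map]
    congr 1
    ext j i
    rw [LinearMap.toMatrix_apply, Matrix.map_apply, Matrix.of_apply]
    have h1 : (T.restrict hP) (Basis.span hb i) = ∑ l, (q i l : k) • Basis.span hb l := by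
      apply Subtype.ext
      rw [LinearMap.coe_restrict_apply, Basis.span_apply, hq i]
      rw [AddSubmonoidClass.coe_finsetSum]
      refine Finset.sum_congr rfl fun l _ => ?_
      rw [Submodule.coe_smul, Basis.span_apply]
    rw [h1, map_sum, Finset.sum_apply']
    simp only [map_smul, Finsupp.smul_apply, Basis.repr_self, smul_eq_mul]
    rw [Finset.sum_eq_single j]
    · rw [Finsupp.single_eq_same, mul_one, eq_ratCast]
    · intro l _ hl
      rw [Finsupp.single_eq_of_ne (Ne.symm hl), mul_zero]
    · intro h
      exact absurd (Finset.mem_univ j) h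

/-- The multiplicities of the roots of a rational polynomial whose roots are the roots of the
irreducible polynomial `μ`. -/
theorem S_mult [IsAlgClosed k] {μ χ : ℚ[X]} (hμ : Irreducible μ) (hχ : χ.Monic)
    (hroot : ∀ s : k, (χ.map (algebraMap ℚ k)).IsRoot s → (μ.map (algebraMap ℚ k)).IsRoot s)
    {s : k} (hs : (μ.map (algebraMap ℚ k)).IsRoot s) :
    (χ.map (algebraMap ℚ k)).rootMultiplicity s * μ.natDegree = χ.natDegree := by
  obtain ⟨m, ψ, hψ, hfac⟩ := WfDvdMonoid.max_power_factor hχ.ne_zero hμ
  have hcop : IsCoprime μ ψ := hμ.coprime_iff_not_dvd.2 hψ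
  have hμ0 : μ ≠ 0 := hμ.ne_zero
  have hψ0 : ψ ≠ 0 := by
    rintro rfl
    exact hψ (dvd_zero μ)
  have hinj : Function.Injective (algebraMap ℚ k) := (algebraMap ℚ k).injective
  have hψs : ∀ t : k, (μ.map (algebraMap ℚ k)).IsRoot t → ¬ (ψ.map (algebraMap ℚ k)).IsRoot t := by
    intro t h1 h2
    obtain ⟨u, v, huv⟩ := hcop
    have h3 := congrArg (fun p => eval t (p.map (algebraMap ℚ k))) huv
    simp only [Polynomial.map_add, Polynomial.map_mul, eval_add, eval_mul, Polynomial.map_one,
      eval_one] at h3
    rw [show eval t (μ.map (algebraMap ℚ k)) = 0 from h1,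
      show eval t (ψ.map (algebraMap ℚ k)) = 0 from h2] at h3
    simp at h3
  have hψdeg : ψ.natDegree = 0 := by
    by_contra hne
    have h1 : (ψ.map (algebraMap ℚ k)).degree ≠ 0 := by
      rw [degree_map]
      intro h0
      exact hne (natDegree_eq_of_degree_eq_some h0)
    obtain ⟨t, ht⟩ := IsAlgClosed.exists_root (ψ.map (algebraMap ℚ k)) h1
    have h2 : (χ.map (algebraMap ℚ k)).IsRoot t := by
      rw [hfac, Polynomial.map_mul, IsRoot.def, eval_mul, show eval t (ψ.map (algebraMap ℚ k)) = 0
        from ht, mul_zero]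
    exact hψs t (hroot t h2) ht
  have hsep : (μ.map (algebraMap ℚ k)).Separable := hμ.separable.map
  have h1 : (μ.map (algebraMap ℚ k)).rootMultiplicity s = 1 := by
    refine le_antisymm (rootMultiplicity_le_one_of_separable hsep s) ?_
    exact (rootMultiplicity_pos ((Polynomial.map_ne_zero_iff hinj).2 hμ0)).2 hs
  have h2 : (ψ.map (algebraMap ℚ k)).rootMultiplicity s = 0 := rootMultiplicity_eq_zero (hψs s hs)
  have h3 : (χ.map (algebraMap ℚ k)).rootMultiplicity s = m := by
    rw [hfac, Polynomial.map_mul, Polynomial.map_pow, rootMultiplicity_mul, h2, add_zero]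
    · have h4 : ∀ n : ℕ, ((μ.map (algebraMap ℚ k)) ^ n).rootMultiplicity s = n := by
        intro n
        induction n with
        | zero => rw [pow_zero]; exact rootMultiplicity_eq_zero (by simp)
        | succ n ih =>
          rw [pow_succ, rootMultiplicity_mul, ih, h1]
          rw [← pow_succ]
          exact pow_ne_zero _ ((Polynomial.map_ne_zero_iff hinj).2 hμ0)
      exact h4 m
    · exact mul_ne_zero (pow_ne_zero _ ((Polynomial.map_ne_zero_iff hinj).2 hμ0))
        ((Polynomial.map_ne_zero_iff hinj).2 hψ0)
  rw [h3]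
  conv_rhs => rw [hfac]
  rw [natDegree_mul (pow_ne_zero _ hμ0) hψ0, natDegree_pow, hψdeg, add_zero]

/-- The main result of this file: a field `F` of characteristic zero acts on `V`; the span of the
linearly independent vectors `b i` is stable, with rational coefficients. -/
theorem S_core [IsAlgClosed k] [FiniteDimensional k V] (ρ : F →+* End k V) {b : Fin r → V}
    (hb : LinearIndependent k b) (hr : 0 < r)
    (hq : ∀ a i, ∃ q : Fin r → ℚ, ρ a (b i) = ∑ j, (q j : k) • b j) :
    ∃ (θ : F) (μ : ℚ[X]), Irreducible μ ∧ aeval (ρ θ) (μ.map (algebraMap ℚ k)) = 0 ∧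
      (∀ a, ∃ f : ℚ[X], ρ a = aeval (ρ θ) (f.map (algebraMap ℚ k))) ∧
      (∀ s : k, (μ.map (algebraMap ℚ k)).IsRoot s →
        finrank k (LinearMap.ker (ρ θ - algebraMap k (End k V) s) ⊓
          Submodule.span k (Set.range b) : Submodule k V) * μ.natDegree = r) := by
  classical
  have hfin := S_finite ρ hb hr hq
  obtain ⟨θ, hθ⟩ := Field.exists_primitive_element ℚ F
  have hint : IsIntegral ℚ θ := Algebra.IsIntegral.isIntegral θ
  have hirr := minpoly.irreducible hint
  have h0 : aeval (ρ θ) ((minpoly ℚ θ).map (algebraMap ℚ k)) = 0 := by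
    rw [← S_aeval, minpoly.aeval, map_zero]
  have hP : ∀ v ∈ Submodule.span k (Set.range b), ρ θ v ∈ Submodule.span k (Set.range b) := by
    intro v hv
    induction hv using Submodule.span_induction with
    | mem v hv =>
      obtain ⟨i, rfl⟩ := hv
      obtain ⟨q, hq⟩ := hq θ i
      rw [hq]
      exact Submodule.sum_mem _ fun j _ => Submodule.smul_mem _ _ (Submodule.subset_span ⟨j, rfl⟩)
    | zero => rw [map_zero]; exact Submodule.zero_mem _
    | add x y _ _ hx hy => rw [map_add]; exact Submodule.add_mem _ hx hy
    | smul c x _ hx => rw [map_smul]; exact Submodule.smul_mem _ c hx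
  obtain ⟨χ, hχ, hdeg, hch⟩ := S_charpoly hb (hq θ) hP
  set T := (ρ θ).restrict hP with hT
  have hTpow : ∀ (n : ℕ) (v : Submodule.span k (Set.range b)), ((T ^ n) v : V) = (ρ θ ^ n) v := by
    intro n
    induction n with
    | zero => intro v; rfl
    | succ n ih =>
      intro v
      rw [pow_succ, pow_succ, Module.End.mul_apply, Module.End.mul_apply, ih]
      rfl
  have hTa : ∀ (p : k[X]) (v : Submodule.span k (Set.range b)),
      ((aeval T p v : Submodule.span k (Set.range b)) : V) = aeval (ρ θ) p (v : V) := by
    intro p v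
    induction p using Polynomial.induction_on' with
    | add p q hp hq => rw [map_add, map_add, LinearMap.add_apply, LinearMap.add_apply,
        Submodule.coe_add, hp, hq]
    | monomial n c =>
      rw [aeval_monomial, aeval_monomial, ← Algebra.smul_def, ← Algebra.smul_def,
        LinearMap.smul_apply, LinearMap.smul_apply, Submodule.coe_smul, hTpow]
  have hT0 : aeval T ((minpoly ℚ θ).map (algebraMap ℚ k)) = 0 := by
    refine LinearMap.ext fun v => Subtype.ext ?_
    rw [hTa, h0]
    rfl
  refine ⟨θ, minpoly ℚ θ, hirr, h0, fun a => ?_, fun s hs => ?_⟩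
  · have h1 : a ∈ Algebra.adjoin ℚ ({θ} : Set F) := by
      have h2 : a ∈ IntermediateField.adjoin ℚ ({θ} : Set F) := by
        rw [hθ]
        exact IntermediateField.mem_top
      have h3 := IntermediateField.adjoin_simple_toSubalgebra_of_isAlgebraic
        (F := ℚ) (α := θ) hint.isAlgebraic
      rw [← h3]
      exact h2
    rw [Algebra.adjoin_singleton_eq_range_aeval] at h1
    obtain ⟨f, hf⟩ := h1
    refine ⟨f, ?_⟩
    rw [← S_aeval]
    congr 1
    exact hf.symm
  · have hroot : ∀ t : k, (χ.map (algebraMap ℚ k)).IsRoot t →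
        ((minpoly ℚ θ).map (algebraMap ℚ k)).IsRoot t := by
      intro t ht
      rw [← hch, ← Module.End.hasEigenvalue_iff_isRoot_charpoly] at ht
      obtain ⟨v, hv⟩ := ht.exists_hasEigenvector
      have h1 := Module.End.aeval_apply_of_hasEigenvector (p := (minpoly ℚ θ).map (algebraMap ℚ k)) hv
      rw [hT0, LinearMap.zero_apply] at h1
      exact (smul_eq_zero.1 h1.symm).resolve_right hv.2
    have h1 := S_mult hirr hχ hroot hs
    rw [hdeg, ← hch, ← LinearMap.finrank_maxGenEigenspace_eq] at h1
    have hss : Module.End.IsSemisimple T := by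
      refine Module.End.isSemisimple_of_squarefree_aeval_eq_zero ?_ hT0
      exact (hirr.separable.map).squarefree
    rw [hss.isFinitelySemisimple.maxGenEigenspace_eq_eigenspace] at h1
    refine Eq.trans ?_ h1
    congr 1
    have h2 : (LinearMap.ker (ρ θ - algebraMap k (End k V) s) ⊓
        Submodule.span k (Set.range b) : Submodule k V) =
        (Module.End.eigenspace T s).map (Submodule.span k (Set.range b)).subtype := by
      ext v
      rw [Submodule.mem_inf, LinearMap.mem_ker, Submodule.mem_map]
      constructor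
      · rintro ⟨h3, h4⟩
        refine ⟨⟨v, h4⟩, ?_, rfl⟩
        rw [Module.End.mem_eigenspace_iff]
        apply Subtype.ext
        rw [LinearMap.sub_apply, sub_eq_zero, Module.algebraMap_end_apply] at h3
        exact h3
      · rintro ⟨w, h3, rfl⟩
        rw [Module.End.mem_eigenspace_iff] at h3
        refine ⟨?_, w.2⟩
        have h4 := congrArg (Submodule.span k (Set.range b)).subtype h3
        rw [LinearMap.sub_apply, sub_eq_zero, Module.algebraMap_end_apply]
        exact h4
    rw [h2, Submodule.finrank_map_subtype_eq]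

end

end Pool.Agent.Lib.MP_021685_agO
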