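import Pool.Agent.Lib.MP_021685_agO.OA
import Pool.Agent.Lib.MP_021685_agO.OQ
import Pool.Agent.Lib.MP_021685_agO.OS

/-!
# Block S, second part: subspaces with an action of a division algebra
-/

set_option autoImplicit false
set_option linter.unusedSectionVars false

namespace Pool.Agent.Lib.MP_021685_agO

open Module Polynomial

/-- The rank of an alternating form is even. -/
theorem S_even_rank {k V : Type*} [Field k] [CharZero k] [AddCommGroup V] [Module k V]
    [FiniteDimensional k V] (ω : V →ₗ[k] V →ₗ[k] k) (halt : ∀ v, ω v v = 0) :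
    Even (finrank k (LinearMap.range ω)) := by
  obtain ⟨C, hC⟩ := Submodule.exists_isCompl (LinearMap.ker ω)
  have hsk : ∀ u v, ω u v = - ω v u := by
    intro u v
    have h := halt (u + v)
    simp only [map_add, LinearMap.add_apply, halt, zero_add, add_zero] at h
    linear_combination h
  obtain ⟨r, b, -⟩ := exists_symp (k := k) (V := C) (ω.compl₁₂ C.subtype C.subtype)
    (fun v => halt v.1) (by
      intro v hv
      have h1 : v.1 ∈ LinearMap.ker ω := by
        rw [LinearMap.mem_ker]
        refine LinearMap.ext fun w => ?_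
        obtain ⟨a, ha, c, hc, rfl⟩ : ∃ a ∈ LinearMap.ker ω, ∃ c ∈ C, a + c = w :=
          Submodule.mem_sup.1 (by rw [hC.sup_eq_top]; exact Submodule.mem_top)
        have h2 : ω v.1 c = 0 := hv ⟨c, hc⟩
        rw [map_add, hsk v.1 a, LinearMap.mem_ker.1 ha, h2]
        simp
      have h3 : v.1 ∈ LinearMap.ker ω ⊓ C := ⟨h1, v.2⟩
      rw [hC.inf_eq_bot] at h3
      exact Subtype.ext ((Submodule.mem_bot k).1 h3))
  have h2 : finrank k C = r + r := by
    rw [finrank_eq_card_basis b, Fintype.card_sum, Fintype.card_fin]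
  have h3 := LinearMap.finrank_range_add_finrank_ker ω
  have h4 := Submodule.finrank_add_eq_of_isCompl hC
  refine ⟨r, ?_⟩
  omega

variable {k H : Type*} [Field k] [CharZero k] [IsAlgClosed k] [AddCommGroup H] [Module k H]
  [FiniteDimensional k H] {g : Submodule k (End k H)} {c : End k H → k} {V : Submodule k H}
  {β : H →ₗ[k] H →ₗ[k] k}

/-- The multiplier of a homogeneous element is zero. -/
theorem S_cN (hg : IsGaloisAlg g c) (hst : IsStable g V) (hne : V ≠ ⊥) (hs : IsSympl g c V β)
    {N : End k H} (hN : IsMonodromy g c N) : c N = 0 := by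
  obtain ⟨hNg, h, hh, hd⟩ := hN
  have h1 := hs.c_bracket hne hst hh.1 hNg (hg.lie h hh.1 N hNg)
  rcases hd with hd | hd
  · rwa [hd] at h1
  · rw [hd] at h1
    have h2 := hs.c_smul hne (-1) hNg
    rw [neg_one_smul, h1] at h2
    linear_combination h2

/-- A skew-adjoint invertible endomorphism which commutes with `g` does not exist if the rank of `N` is
odd. -/
theorem S_skew (hst : IsStable g V) (hs : IsSympl g c V β) {N : End k H} (hN : N ∈ g)
    (hcN : c N = 0) (hodd : Odd (finrank k (LinearMap.range (N.restrict (hst N hN)))))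
    {n n' : End k V} (hcomm : CommutesOn g V n) (hnn : n * n' = 1)
    (hsk : ∀ u v : V, β (n u) v = - β u (n v)) : False := by
  set Nv : End k V := N.restrict (hst N hN) with hNv
  have hNva : ∀ u : V, ((Nv u : V) : H) = N u := fun u => rfl
  let ω : V →ₗ[k] V →ₗ[k] k := ((β.compl₁₂ V.subtype V.subtype).compl₂ (Nv * n)).flip
  have hω : ∀ u v : V, ω v u = β u (N (n v)) := fun u v => rfl
  have halt : ∀ v, ω v v = 0 := by
    intro v
    rw [hω]
    have h1 := hs.mult N hN v v.2 (n v) (n v).2
    rw [hcN, zero_mul] at h1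
    have h2 := hsk (Nv v) v
    rw [hNva] at h2
    have h3 : ((n (Nv v) : V) : H) = N (n v) := hcomm N hN v (Nv v) rfl
    rw [h3] at h2
    have h4 := hs.neg (hst N hN (n v) (n v).2) v.2
    have h5 : (2 : k) * β v (N (n v)) = 0 := by linear_combination h1 - h2 + h4
    exact (mul_eq_zero.1 h5).resolve_left two_ne_zero
  have hev := S_even_rank ω halt
  have hker : LinearMap.ker ω = LinearMap.ker (Nv * n) := by
    ext v
    rw [LinearMap.mem_ker, LinearMap.mem_ker]
    constructor
    · intro h
      apply Subtype.ext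
      refine hs.nondeg _ ((Nv * n) v).2 fun u hu => ?_
      rw [hs.neg ((Nv * n) v).2 hu]
      have h1 := LinearMap.congr_fun h ⟨u, hu⟩
      rw [hω] at h1
      rw [neg_eq_zero]
      exact h1
    · intro h
      refine LinearMap.ext fun u => ?_
      rw [hω]
      have h1 : N (n v) = 0 := congrArg Subtype.val h
      rw [h1, map_zero, LinearMap.zero_apply]
  have h3 := LinearMap.finrank_range_add_finrank_ker ω
  have h4 := LinearMap.finrank_range_add_finrank_ker (Nv * n)
  rw [hker] at h3
  have h5 : LinearMap.range (Nv * n) = LinearMap.range Nv := by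
    apply le_antisymm
    · rintro _ ⟨v, rfl⟩
      exact ⟨n v, rfl⟩
    · rintro _ ⟨v, rfl⟩
      refine ⟨n' v, ?_⟩
      rw [Module.End.mul_apply, ← Module.End.mul_apply n n', hnn, Module.End.one_apply]
  rw [h5] at h4
  have h6 : finrank k (LinearMap.range ω) = finrank k (LinearMap.range Nv) := by omega
  rw [h6] at hev
  exact (Nat.not_even_iff_odd.2 hodd) hev

/-- Simplicity of the eigenspaces. -/
theorem S_simple (hg : IsGaloisAlg g c) {U₀ : Submodule k V}
    (hU₀ : IsStable g (U₀.map V.subtype)) (hne : U₀ ≠ ⊥)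
    (hsc : ∀ φ : End k V, CommutesOn g V φ → ∃ x : k, ∀ u ∈ U₀, φ u = x • u) :
    IsSimpleSub g (U₀.map V.subtype) := by
  have hle : U₀.map V.subtype ≤ V := Submodule.map_subtype_le V U₀
  refine ⟨?_, hU₀, fun U hU hUst => ?_⟩
  · intro h
    obtain ⟨u, hu, hu0⟩ := (Submodule.ne_bot_iff U₀).1 hne
    have h1 : (u : H) ∈ U₀.map V.subtype := ⟨u, hu, rfl⟩
    rw [h, Submodule.mem_bot] at h1
    exact hu0 (Subtype.ext h1)
  · by_cases hbot : U = ⊥
    · exact Or.inl hbot
    · right
      obtain ⟨U', hU', hc⟩ := hg.semisimple U hUst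
      set P := U.projection U' hc with hP
      have hPm : ∀ v, P v ∈ U := fun v => Submodule.projection_apply_mem hc v
      have hPU : ∀ v ∈ U, P v = v := fun v hv => Submodule.projection_apply_of_mem_left hc hv
      have hPU' : ∀ v ∈ U', P v = 0 := fun v hv => Submodule.projection_apply_of_mem_right hc hv
      have hPc : ∀ X ∈ g, ∀ v, P (X v) = X (P v) := by
        intro X hX v
        obtain ⟨a, ha, a', ha', rfl⟩ : ∃ a ∈ U, ∃ a' ∈ U', a + a' = v :=
          Submodule.mem_sup.1 (by rw [hc.sup_eq_top]; exact Submodule.mem_top)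
        rw [map_add, map_add, map_add, hPU a ha, hPU' a' ha', hPU _ (hUst X hX a ha),
          hPU' _ (hU' X hX a' ha'), add_zero, add_zero]
      let p : End k V := P.restrict (p := V) (q := V) fun v _ => hle (hU (hPm v))
      have hpa : ∀ v : V, ((p v : V) : H) = P v := fun v => rfl
      obtain ⟨x, hx⟩ := hsc p (by
        intro X hX u v hv
        rw [hpa, hpa, hv, hPc X hX])
      obtain ⟨u, hu, hu0⟩ := (Submodule.ne_bot_iff U).1 hbot
      obtain ⟨u', hu', hu'u⟩ := hU hu
      have h1 := hx u' hu'
      have h2 : P u = x • u := by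
        have h3 := congrArg Subtype.val h1
        rw [hpa] at h3
        rw [← hu'u]
        exact h3
      rw [hPU u hu] at h2
      have hx1 : x = 1 := by
        by_contra hne1
        have h3 : (1 - x) • u = 0 := by rw [sub_smul, one_smul, ← h2, sub_self]
        rcases smul_eq_zero.1 h3 with h4 | h4
        · exact hne1 (sub_eq_zero.1 h4).symm
        · exact hu0 h4
      refine le_antisymm hU ?_
      rintro _ ⟨v, hv, rfl⟩
      have h3 := hx v hv
      rw [hx1, one_smul] at h3
      have h4 := congrArg Subtype.val h3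
      rw [hpa] at h4
      show (v : H) ∈ U
      rw [← h4]
      exact hPm _

/-- The commutator with `N` of polynomials in `t`. -/
theorem S_comm {t M : End k V} (h : M * t = t * M) (p : k[X]) : M * aeval t p = aeval t p * M := by
  induction p using Polynomial.induction_on' with
  | add p q hp hq => rw [map_add, mul_add, add_mul, hp, hq]
  | monomial n a =>
    have h1 : M * t ^ n = t ^ n * M := (Commute.pow_right (show Commute M t from h) n).eq
    rw [aeval_monomial, ← Algebra.smul_def, mul_smul_comm, smul_mul_assoc, h1]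

/-- The eigenspaces of a self-adjoint semisimple operator which generates the commutant. -/
theorem S_eig (hg : IsGaloisAlg g c) (hst : IsStable g V) (hs : IsSympl g c V β) {N : End k H}
    (hN : IsMonodromy g c N) {t : End k V} (htc : CommutesOn g V t)
    (hta : ∀ u v : V, β (t u) v = β u (t v)) {M : k[X]} (hM : M.Separable) (hMt : aeval t M = 0)
    (hsp : ∀ φ : End k V, CommutesOn g V φ → ∃ p : k[X], φ = aeval t p)
    (hodd : ∀ s : k, M.IsRoot s → Odd (finrank k (LinearMap.ker (t - algebraMap k (End k V) s) ⊓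
      LinearMap.range (N.restrict (hst N hN.1)) : Submodule k V))) :
    V ≤ sSup {W | OddSimple g c W} := by
  have hss : Module.End.IsSemisimple t :=
    Module.End.isSemisimple_of_squarefree_aeval_eq_zero hM.squarefree hMt
  have htop : ⨆ s : k, Module.End.eigenspace t s = ⊤ := by
    have h1 := Module.End.iSup_maxGenEigenspace_eq_top t
    simp only [hss.isFinitelySemisimple.maxGenEigenspace_eq_eigenspace] at h1
    exact h1
  have hroot : ∀ s : k, Module.End.eigenspace t s ≠ ⊥ → M.IsRoot s := by
    intro s hne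
    obtain ⟨u, hu, hu0⟩ := (Submodule.ne_bot_iff _).1 hne
    rw [Module.End.mem_eigenspace_iff] at hu
    have h1 := Module.End.aeval_apply_of_mem_apply_eq_smul (p := M) hu
    rw [hMt, LinearMap.zero_apply] at h1
    exact (smul_eq_zero.1 h1.symm).resolve_right hu0
  set Nv : End k V := N.restrict (hst N hN.1) with hNv
  have hNva : ∀ u : V, ((Nv u : V) : H) = N u := fun u => rfl
  have hNt : Nv * t = t * Nv := by
    refine LinearMap.ext fun v => Subtype.ext ?_
    rw [Module.End.mul_apply, Module.End.mul_apply, hNva, htc N hN.1 v (Nv v) rfl]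
  -- each eigenspace
  have key : ∀ s : k, (Module.End.eigenspace t s).map V.subtype ≤ sSup {W | OddSimple g c W} := by
    intro s
    by_cases hbot : Module.End.eigenspace t s = ⊥
    · rw [hbot, Submodule.map_bot]
      exact bot_le
    have hr := hroot s hbot
    refine le_sSup ?_
    have hstab : IsStable g ((Module.End.eigenspace t s).map V.subtype) := by
      rintro X hX _ ⟨u, hu, rfl⟩
      refine ⟨⟨X u, hst X hX u u.2⟩, ?_, rfl⟩
      rw [SetLike.mem_coe, Module.End.mem_eigenspace_iff] at hu ⊢
      apply Subtype.ext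
      rw [htc X hX u ⟨X u, hst X hX u u.2⟩ rfl, hu]
      rw [Submodule.coe_smul, map_smul, Submodule.coe_smul]
    refine ⟨S_simple hg hstab hbot ?_, ⟨β, ?_⟩, N, hN, Or.inl ?_⟩
    · intro φ hφ
      obtain ⟨p, rfl⟩ := hsp φ hφ
      exact ⟨p.eval s, fun u hu => Module.End.aeval_apply_of_mem_apply_eq_smul
        (Module.End.mem_eigenspace_iff.1 hu)⟩
    · have hle : (Module.End.eigenspace t s).map V.subtype ≤ V := Submodule.map_subtype_le V _
      refine ⟨fun X hX u hu v hv => hs.mult X hX u (hle hu) v (hle hv), fun u hu => hs.alt u (hle hu),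
        fun u hu h0 => ?_⟩
      refine hs.nondeg u (hle hu) fun v hv => ?_
      obtain ⟨u, hu, rfl⟩ := hu
      rw [SetLike.mem_coe, Module.End.mem_eigenspace_iff] at hu
      have hv' : (⟨v, hv⟩ : V) ∈ ⨆ s : k, Module.End.eigenspace t s := by
        rw [htop]; exact Submodule.mem_top
      have h1 : ∀ w : V, w ∈ ⨆ s : k, Module.End.eigenspace t s → β u w = 0 := by
        intro w hw
        induction hw using Submodule.iSup_induction' with
        | mem x w hw =>
          by_cases hx : x = s
          · subst hx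
            exact h0 w ⟨w, hw, rfl⟩
          · rw [Module.End.mem_eigenspace_iff] at hw
            have h2 := hta u w
            rw [hu, hw, Submodule.coe_smul, Submodule.coe_smul, map_smul, map_smul,
              LinearMap.smul_apply, smul_eq_mul, smul_eq_mul] at h2
            have h3 : (s - x) * β u w = 0 := by linear_combination h2
            exact (mul_eq_zero.1 h3).resolve_left (sub_ne_zero.2 (Ne.symm hx))
        | zero => rw [Submodule.coe_zero, map_zero]
        | add x y _ _ hx hy => rw [Submodule.coe_add, map_add, hx, hy, add_zero]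
      exact h1 ⟨v, hv⟩ hv'
    · have h1 : ((Module.End.eigenspace t s).map V.subtype).map N =
          (LinearMap.ker (t - algebraMap k (End k V) s) ⊓ LinearMap.range Nv : Submodule k V).map
            V.subtype := by
        apply le_antisymm
        · rintro _ ⟨_, ⟨u, hu, rfl⟩, rfl⟩
          refine ⟨Nv u, ⟨?_, ⟨u, rfl⟩⟩, rfl⟩
          rw [SetLike.mem_coe, Module.End.mem_eigenspace_iff] at hu
          rw [SetLike.mem_coe, LinearMap.mem_ker, LinearMap.sub_apply, Module.algebraMap_end_apply,
            sub_eq_zero, ← Module.End.mul_apply, ← hNt, Module.End.mul_apply, hu, map_smul]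
        · rintro _ ⟨_, ⟨h2, ⟨u, rfl⟩⟩, rfl⟩
          rw [SetLike.mem_coe, LinearMap.mem_ker, LinearMap.sub_apply, Module.algebraMap_end_apply,
            sub_eq_zero] at h2
          obtain ⟨ν, hν⟩ := dvd_iff_isRoot.2 hr
          have hνs : ν.eval s ≠ 0 := by
            intro h3
            have h4 : (X - C s) * (X - C s) ∣ M := by
              obtain ⟨ν', hν'⟩ := dvd_iff_isRoot.2 (show ν.IsRoot s from h3)
              refine ⟨ν', ?_⟩
              rw [hν, hν', mul_assoc]
            have h5 := hM.squarefree _ h4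
            exact Polynomial.not_isUnit_X_sub_C s h5
          set w := aeval t ν u with hw
          have h3 : t w = s • w := by
            have h4 : (aeval t ((X - C s) * ν)) u = 0 := by rw [← hν, hMt, LinearMap.zero_apply]
            rw [map_mul, Module.End.mul_apply, map_sub, aeval_X, aeval_C, LinearMap.sub_apply,
              Module.algebraMap_end_apply, sub_eq_zero] at h4
            exact h4
          have h4 : Nv w = ν.eval s • Nv u := by
            rw [hw, ← Module.End.mul_apply, S_comm hNt, Module.End.mul_apply]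
            exact Module.End.aeval_apply_of_mem_apply_eq_smul h2
          refine ⟨((ν.eval s)⁻¹ • w : V), ⟨(ν.eval s)⁻¹ • w, ?_, rfl⟩, ?_⟩
          · rw [SetLike.mem_coe, Module.End.mem_eigenspace_iff, map_smul, h3, smul_comm]
          · rw [← hNva, map_smul, h4, smul_smul, inv_mul_cancel₀ hνs, one_smul]
            rfl
      rw [h1, Submodule.finrank_map_subtype_eq]
      exact hodd s hr
  have h2 : V = (⨆ s : k, Module.End.eigenspace t s).map V.subtype := by
    rw [htop, Submodule.map_top, Submodule.range_subtype]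
  rw [h2, Submodule.map_iSup]
  exact iSup_le key

/-- A subspace with an action of a division algebra, as in `OddDiv`, is a sum of simple subspaces as in
`OddSimple`. -/
theorem oddDiv_le (hg : IsGaloisAlg g c) (hV : OddDiv g c V) : V ≤ sSup {W | OddSimple g c W} := by
  obtain ⟨hst, β, N, E, r, b, hs, hN, hinv, hcomm, hspan, hadj, hodd, hb, hbN, hbE⟩ := hV
  have hr : 0 < r := hodd.pos
  have hne : V ≠ ⊥ := by
    intro h
    have h2 : V ≤ ⊥ := le_of_eq h
    have h1 := (Submodule.mem_bot k).1 (h2 (b ⟨0, hr⟩).2)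
    exact hb.ne_zero ⟨0, hr⟩ (Subtype.ext h1)
  have hcN := S_cN hg hst hne hs hN
  set Nv : End k V := N.restrict (hst N hN.1) with hNv
  have hNva : ∀ u : V, ((Nv u : V) : H) = N u := fun u => rfl
  have hrange : LinearMap.range Nv = Submodule.span k (Set.range b) := by
    ext v
    rw [hbN, LinearMap.mem_range]
    constructor
    · rintro ⟨u, hu⟩
      exact ⟨u, u.2, by rw [← hu]; rfl⟩
    · rintro ⟨u, hu, h1⟩
      exact ⟨⟨u, hu⟩, Subtype.ext h1⟩
  have hrk : finrank k (LinearMap.range Nv) = r := by
    rw [hrange, finrank_span_eq_card hb, Fintype.card_fin]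
  have hsk : ∀ n ∈ E, (∀ u v : V, β (n u) v = - β u (n v)) → n = 0 := by
    intro n hn h1
    by_contra hn0
    obtain ⟨n', -, h2⟩ := hinv n hn hn0
    exact S_skew hst hs hN.1 hcN (by rw [← hNv, hrk]; exact hodd) (hcomm n hn) h2 h1
  have hself : ∀ a ∈ E, ∀ u v : V, β (a u) v = β u (a v) := by
    intro a ha
    obtain ⟨a', ha', h1⟩ := hadj a ha
    have h2 : ∀ u v : V, β (a' u) v = β u (a v) := by
      intro u v
      rw [hs.neg (a' u).2 v.2, ← h1 v u, hs.neg (a v).2 u.2, neg_neg]
    have h3 : a - a' = 0 := by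
      refine hsk _ (E.sub_mem ha ha') fun u v => ?_
      rw [LinearMap.sub_apply, LinearMap.sub_apply, AddSubgroupClass.coe_sub,
        AddSubgroupClass.coe_sub, map_sub, map_sub, LinearMap.sub_apply, h1, h2]
      ring
    intro u v
    rw [h1 u v, ← sub_eq_zero.1 h3]
  have hcom : ∀ a ∈ E, ∀ a' ∈ E, a * a' = a' * a := by
    intro a ha a' ha'
    refine LinearMap.ext fun v => ?_
    rw [← sub_eq_zero]
    apply Subtype.ext
    refine hs.nondeg _ (Subtype.mem _) fun u hu => ?_
    have h1 := hself (a * a') (E.mul_mem ha ha') v ⟨u, hu⟩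
    have h2 : β ((a' * a) v) u = β v ((a * a') ⟨u, hu⟩) := by
      rw [Module.End.mul_apply, Module.End.mul_apply]
      exact (hself a' ha' (a v) ⟨u, hu⟩).trans (hself a ha v (a' ⟨u, hu⟩))
    rw [AddSubgroupClass.coe_sub, map_sub, LinearMap.sub_apply, h2]
    exact sub_eq_zero.2 h1
  let iC : CommRing E :=
    { (inferInstance : Ring E) with
      mul_comm := fun a a' => Subtype.ext (hcom a a.2 a' a'.2) }
  have hF : IsField E :=
    { exists_pair_ne := by
        refine ⟨0, 1, fun h => ?_⟩
        have h1 : (0 : End k V) = 1 := congrArg Subtype.val h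
        have h2 := LinearMap.congr_fun h1 (b ⟨0, hr⟩)
        rw [LinearMap.zero_apply, Module.End.one_apply] at h2
        exact hb.ne_zero ⟨0, hr⟩ h2.symm
      mul_comm := mul_comm
      mul_inv_cancel := by
        intro a ha
        obtain ⟨a', ha', h1⟩ := hinv a a.2 (fun h => ha (Subtype.ext h))
        exact ⟨⟨a', ha'⟩, Subtype.ext h1⟩ }
  let iF : Field E := hF.toField
  let ρ : E →+* End k V :=
    { toFun := fun a => a.1
      map_one' := rfl
      map_mul' := fun _ _ => rfl
      map_zero' := rfl
      map_add' := fun _ _ => rfl }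
  have hCZ : CharZero E := charZero_of_inj_zero fun n hn => by
    have h1 : ρ (n : E) = 0 := by rw [hn, map_zero]
    rw [map_natCast] at h1
    have h2 := LinearMap.congr_fun h1 (b ⟨0, hr⟩)
    rw [Module.End.natCast_apply, LinearMap.zero_apply, ← Nat.cast_smul_eq_nsmul k] at h2
    have h3 := (smul_eq_zero.1 h2).resolve_right (hb.ne_zero _)
    exact_mod_cast h3
  obtain ⟨θ, μ, hμ, h0, h1, h2⟩ := S_core ρ hb hr (fun a i => hbE a.1 a.2 i)
  refine S_eig hg hst hs hN (t := ρ θ) (M := μ.map (algebraMap ℚ k)) (hcomm θ.1 θ.2)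
    (hself θ.1 θ.2) hμ.separable.map h0 ?_ ?_
  · intro φ hφ
    have h3 := hspan φ hφ
    clear hφ
    induction h3 using Submodule.span_induction with
    | mem a ha =>
      obtain ⟨f, hf⟩ := h1 ⟨a, ha⟩
      exact ⟨_, hf⟩
    | zero => exact ⟨0, by rw [map_zero]⟩
    | add x y _ _ hx hy =>
      obtain ⟨p, rfl⟩ := hx
      obtain ⟨q, rfl⟩ := hy
      exact ⟨p + q, by rw [map_add]⟩
    | smul a x _ hx =>
      obtain ⟨p, rfl⟩ := hx
      exact ⟨a • p, by rw [map_smul]⟩
  · intro s hs'
    have h3 := h2 s hs'
    rw [← hNv, hrange]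
    rw [← h3] at hodd
    exact (Nat.odd_mul.1 hodd).1

end Pool.Agent.Lib.MP_021685_agO
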