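import Pool.Agent.Lib.MP_021685_agO.OT
import Pool.Agent.Lib.MP_021685_agO.OS2
import Pool.Agent.Lib.MP_021685_agO.OR1
import Pool.Agent.Lib.MP_021685_agO.OR2

/-!
# Odd toric rank: the main theorem
-/

set_option autoImplicit false

namespace Pool.Agent.Lib.MP_021685_agO

open Module

variable {k H : Type*} [Field k] [CharZero k] [IsAlgClosed k] [AddCommGroup H] [Module k H]
  [FiniteDimensional k H] {g : Submodule k (End k H)} {c : End k H → k}

theorem assemble (hg : IsGaloisAlg g c) {H₀ H₁ : Submodule k H} (hc : IsCompl H₀ H₁)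
    (h₀ : IsStable g H₀) (h₁ : IsStable g H₁)
    (hHom : ∀ φ : End k H, (∀ X ∈ g, φ * X = X * φ) → ∀ u ∈ H₁, φ u ∈ H₁)
    (hfull : ∀ U ≤ H₁, IsSimpleSub g U → ∃ W β, IsSimpleSub g W ∧ IsSympl g c W β ∧
      Full g W β ∧ Iso g W U)
    {s : ℕ} {T : MultilinearMap k (fun _ : Fin s => H) k} (hT : IsTateForm g c s T) :
    IsGenOver g c H₁ s T := by
  obtain ⟨D⟩ := exists_dec hg hc h₀ h₁ hHom hfull
  exact gen_of_dec hg D hT

theorem main (hg : IsGaloisAlg g c) {H₀ H₁ : Submodule k H} (hc : IsCompl H₀ H₁)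
    (h₀ : IsStable g H₀) (h₁ : IsStable g H₁)
    (hHom : ∀ φ : End k H, (∀ X ∈ g, φ * X = X * φ) → ∀ u ∈ H₁, φ u ∈ H₁)
    (hodd : H₁ ≤ sSup {V | OddSimple g c V ∨ OddDiv g c V})
    (s : ℕ) (T : MultilinearMap k (fun _ : Fin s => H) k) (hT : IsTateForm g c s T) :
    IsGenOver g c H₁ s T := by
  refine assemble hg hc h₀ h₁ hHom (fun U hU hUs => ?_) hT
  have h1 : sSup {V | OddSimple g c V ∨ OddDiv g c V} ≤ sSup {W | OddSimple g c W} := by
    refine sSup_le fun V hV => ?_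
    rcases hV with hV | hV
    · exact le_sSup hV
    · exact oddDiv_le hg hV
  obtain ⟨W, hW, hiso⟩ := iso_of_le_sSup hg (S := {W | OddSimple g c W})
    (fun W hW => hW.1.2.1) hUs (hU.trans (hodd.trans h1))
  obtain ⟨β, hs, hfull⟩ := full_of_odd hg hW
  exact ⟨W, β, hW.1, hs, hfull, hiso⟩

end Pool.Agent.Lib.MP_021685_agO
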