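import Pool.Agent.Lib.MP_021685_agO.OM

/-!
# Block N: transvections, first part
-/

set_option autoImplicit false

namespace Pool.Agent.Lib.MP_021685_agO

open Module

variable {k H : Type*} [Field k] [CharZero k] [AddCommGroup H] [Module k H] [FiniteDimensional k H]
  {g : Submodule k (End k H)} {c : End k H → k} {W : Submodule k H} {β : H →ₗ[k] H →ₗ[k] k}

/-- The vectors `a` of `W` such that some `X ∈ g` acts on `W` as `u ↦ β u a • a` and by zero on the simple subspaces which are not isomorphic to `W`. -/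
def QQ (g : Submodule k (End k H)) (W : Submodule k H) (β : H →ₗ[k] H →ₗ[k] k) : Set H :=
  {a | a ∈ W ∧ ∃ X ∈ g, (∀ u ∈ W, X u = β u a • a) ∧
    ∀ U, IsSimpleSub g U → ¬ Iso g W U → ∀ u ∈ U, X u = 0}

/-- PROOF. `W.map e = k a` with `a ≠ 0` (`rank_one`, `finrank_eq_one_iff'`). For `u ∈ W` let `e u = φ u • a`. `c e = 0` (`IsSympl.c_gm`): `β (e u) v + β u (e v) = 0`, i.e.
`φ u * β a v = - φ v * β u a = φ v * β a u`. Choose `v₀ ∈ W` with `β a v₀ ≠ 0` (`nondeg`); `φ u = (φ v₀ / β a v₀) β a u = r β u a` with `r = - φ v₀ / β a v₀`; `r ≠ 0` as `e ≠ 0` on `W`.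
Take `s` with `s² = r` (`IsAlgClosed.exists_pow_nat_eq` / `IsSquare`), and `a₀ = s a`: `e u = r β u a • a = β u a₀ • a₀`. `e = 0` on the simple `U` not isomorphic to `W` by `Big.iso_of_ne`. -/
theorem Big.QQ_ne [IsAlgClosed k] {h e f : End k H} (hB : Big g c W β h e f) :
    ∃ a ∈ QQ g W β, a ≠ 0 := by
  have hst : IsStable g W := hB.hW.2.1
  have heg : e ∈ g := hB.pr.he.1
  have hce : c e = 0 := hB.hs.c_gm hB.hW.1 hst hB.hh.1 hB.pr.he
  obtain ⟨⟨a, ha⟩, ha0, hall⟩ := finrank_eq_one_iff'.1 hB.rank_one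
  have haW : a ∈ W := by
    obtain ⟨w, hw, rfl⟩ := Submodule.mem_map.1 ha
    exact hst e heg w hw
  have hane : a ≠ 0 := fun h0 => ha0 (Subtype.ext h0)
  have hφ : ∀ u ∈ W, ∃ s : k, e u = s • a := by
    intro u hu
    obtain ⟨s, hs⟩ := hall ⟨e u, Submodule.mem_map_of_mem hu⟩
    exact ⟨s, (congrArg Subtype.val hs).symm⟩
  obtain ⟨v₀, hv₀, hv₀a⟩ : ∃ v₀ ∈ W, β a v₀ ≠ 0 := by
    by_contra hcon
    push Not at hcon
    exact hane (hB.hs.nondeg a haW hcon)
  obtain ⟨s₀, hs₀⟩ := hφ v₀ hv₀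
  have key : ∀ u ∈ W, e u = ((-(s₀ / β a v₀)) * β u a) • a := by
    intro u hu
    obtain ⟨s, hs⟩ := hφ u hu
    have h1 := hB.hs.mult e heg u hu v₀ hv₀
    rw [hce, zero_mul, hs, hs₀, map_smul, LinearMap.smul_apply, map_smul, smul_eq_mul,
      smul_eq_mul] at h1
    have h2 : s = -(s₀ / β a v₀) * β u a := by
      field_simp
      linear_combination h1
    rw [hs, h2]
  have hr : -(s₀ / β a v₀) ≠ 0 := by
    intro h0
    obtain ⟨w, hw, hwa⟩ := Submodule.mem_map.1 ha
    rw [key w hw, h0, zero_mul, zero_smul] at hwa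
    exact hane hwa.symm
  obtain ⟨z, hz⟩ := IsAlgClosed.exists_pow_nat_eq (-(s₀ / β a v₀)) (n := 2) (by norm_num)
  have hz0 : z ≠ 0 := by
    rintro rfl
    rw [zero_pow (by norm_num)] at hz
    exact hr hz.symm
  refine ⟨z • a, ⟨W.smul_mem z haW, e, heg, fun u hu => ?_, fun U hU hnU u hu => ?_⟩,
    smul_ne_zero hz0 hane⟩
  · rw [key u hu, map_smul, smul_eq_mul, smul_smul, ← hz]
    congr 1
    ring
  · by_contra hne
    refine hnU (hB.iso_of_ne hU fun h0 => hne ?_)
    have h1 : e u ∈ U.map e := Submodule.mem_map_of_mem hu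
    rw [h0] at h1
    exact (Submodule.mem_bot k).1 h1

/-- PROOF. `β u (s a) • (s a) = s² β u a • a`: take `s² • X`. -/
theorem QQ_smul {a : H} (ha : a ∈ QQ g W β) (s : k) : s • a ∈ QQ g W β := by
  obtain ⟨haW, X, hX, hXW, hXU⟩ := ha
  refine ⟨W.smul_mem s haW, s ^ 2 • X, g.smul_mem _ hX, fun u hu => ?_, fun U hU hnU u hu => ?_⟩
  · rw [LinearMap.smul_apply, hXW u hu, map_smul, smul_eq_mul, smul_smul, smul_smul]
    congr 1
    ring
  · rw [LinearMap.smul_apply, hXU U hU hnU u hu, smul_zero]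

/-- PROOF. Let `X`, `X'` belong to `a`, `a'`, `Y = X X' - X' X ∈ g` and `X'' = X' + s Y + (s²/2) (X Y - Y X) ∈ g`. On `W` (stable): `X X u = 0` for `u ∈ W` (`β a a = 0`), so
`X'' u = X' u + s (X X' u - X' X u) - s² X X' X u`. With `t = β a' a`, `β a a' = -t`: `X' u = β u a' • a'`, `X X' u = β u a' t • a`, `X' X u = β u a * (-t) • a'`, `X X' X u = β u a (-t) t • a`. So
`X'' u = β u a' • a' + s t β u a' • a + s t β u a • a' + s² t² β u a • a = β u (a' + s t a) • (a' + s t a)`. On the simple `U` not isomorphic to `W` all terms vanish (`U` is stable). -/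
theorem QQ_add (hg : IsGaloisAlg g c) (hW : IsSimpleSub g W) (hs : IsSympl g c W β) {a a' : H}
    (ha : a ∈ QQ g W β) (ha' : a' ∈ QQ g W β) (s : k) : a' + (s * β a' a) • a ∈ QQ g W β := by
  obtain ⟨haW, X, hX, hXW, hXU⟩ := ha
  obtain ⟨haW', X', hX', hXW', hXU'⟩ := ha'
  have hY : X * X' - X' * X ∈ g := hg.lie X hX X' hX'
  have hZ : X * (X * X' - X' * X) - (X * X' - X' * X) * X ∈ g := hg.lie X hX _ hY
  have haa : β a a = 0 := hs.alt a haW
  have haa' : β a' a' = 0 := hs.alt a' haW'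
  have hneg : β a a' = - β a' a := hs.neg haW haW'
  have h1 : X a = 0 := by rw [hXW a haW, haa, zero_smul]
  have h2 : X a' = β a' a • a := hXW a' haW'
  have h3 : X' a = -(β a' a) • a' := by rw [hXW' a haW, hneg]
  have h4 : X' a' = 0 := by rw [hXW' a' haW', haa', zero_smul]
  refine ⟨W.add_mem haW' (W.smul_mem _ haW),
    X' + s • (X * X' - X' * X) + (s ^ 2 / 2) • (X * (X * X' - X' * X) - (X * X' - X' * X) * X),
    g.add_mem (g.add_mem hX' (g.smul_mem _ hY)) (g.smul_mem _ hZ), fun u hu => ?_,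
    fun U hU hnU u hu => ?_⟩
  · simp only [LinearMap.add_apply, LinearMap.smul_apply, LinearMap.sub_apply, Module.End.mul_apply,
      hXW u hu, hXW' u hu, map_smul, map_sub, map_add, h1, h2, h3, h4, smul_zero, map_zero,
      smul_eq_mul]
    module
  · simp only [LinearMap.add_apply, LinearMap.smul_apply, LinearMap.sub_apply, Module.End.mul_apply,
      hXU U hU hnU u hu, hXU' U hU hnU u hu, map_zero, sub_zero, smul_zero, add_zero]

/-- PROOF. Let `X` belong to `a`. `X₁ = h' X (1 - h') ∈ gp ≤ g` (`hcomp`). For `u ∈ W`, `c h' = 1`: `β (h' u) v + β u (h' v) = β u v`, so `β (u - h' u) a = β u a - β (h' u) a = β u (h' a)`: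
`X₁ u = h' (β (u - h' u) a • a) = β u (h' a) • h' a`. `X₁ = 0` on `U` (`U` is stable under `h'`). The same for `X₂ = (1 - h') X h'`: `β (h' u) a = β u (a - h' a)`, `X₂ u = β u (a - h' a) • (a - h' a)`. -/
theorem QQ_hodge (hg : IsGaloisAlg g c) (hW : IsSimpleSub g W) (hs : IsSympl g c W β)
    {h' : End k H} (hh' : IsHodgeElt g c h') {a : H} (ha : a ∈ QQ g W β) :
    h' a ∈ QQ g W β ∧ a - h' a ∈ QQ g W β := by
  obtain ⟨haW, X, hX, hXW, hXU⟩ := ha
  obtain ⟨hhg, hh2, hhc⟩ := hh'
  have hst : IsStable g W := hW.2.1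
  obtain ⟨hp, hm, -⟩ := hcomp hg.lie hhg hh2 hX
  have hmul : ∀ u ∈ W, β (h' u) a = β u a - β u (h' a) := by
    intro u hu
    have h1 := hs.mult h' hhg u hu a haW
    rw [hhc, one_mul] at h1
    rw [← h1]
    ring
  constructor
  · refine ⟨hst h' hhg a haW, h' * X * (1 - h'), hp.1, fun u hu => ?_, fun U hU hnU u hu => ?_⟩
    · have h2 : u - h' u ∈ W := W.sub_mem hu (hst h' hhg u hu)
      rw [Module.End.mul_apply, Module.End.mul_apply, LinearMap.sub_apply, Module.End.one_apply,
        hXW _ h2, map_smul, map_sub, LinearMap.sub_apply, hmul u hu]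
      congr 1
      ring
    · have h2 : u - h' u ∈ U := U.sub_mem hu (hU.2.1 h' hhg u hu)
      rw [Module.End.mul_apply, Module.End.mul_apply, LinearMap.sub_apply, Module.End.one_apply,
        hXU U hU hnU _ h2, map_zero]
  · refine ⟨W.sub_mem haW (hst h' hhg a haW), (1 - h') * X * h', hm.1, fun u hu => ?_,
      fun U hU hnU u hu => ?_⟩
    · have h2 : h' u ∈ W := hst h' hhg u hu
      rw [Module.End.mul_apply, Module.End.mul_apply, hXW _ h2, map_smul, LinearMap.sub_apply,
        Module.End.one_apply, hmul u hu, map_sub]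
    · have h2 : h' u ∈ U := hU.2.1 h' hhg u hu
      rw [Module.End.mul_apply, Module.End.mul_apply, hXU U hU hnU _ h2, map_zero]

/-- A subset of `W` which, together with `0`, is stable under the idempotents of multiplier `1`, and contains a non-zero vector, spans `W`.
PROOF. `span S` is stable under the idempotents of multiplier `1`, hence under `g` (`hg.span`), contained in `W` and non-zero. -/
theorem span_eq (hg : IsGaloisAlg g c) (hW : IsSimpleSub g W) {S : Set H} (hS : ∀ a ∈ S, a ∈ W)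
    (hne : ∃ a ∈ S, a ≠ 0) (hst : ∀ h', IsHodgeElt g c h' → ∀ a ∈ S, h' a = 0 ∨ h' a ∈ S) :
    Submodule.span k S = W := by
  have hle : Submodule.span k S ≤ W := Submodule.span_le.2 fun a ha => hS a ha
  have hstab : IsStable g (Submodule.span k S) := by
    intro X hX
    refine Submodule.span_induction (p := fun X _ => ∀ u ∈ Submodule.span k S,
      X u ∈ Submodule.span k S) ?_ ?_ ?_ ?_ (hg.span X hX)
    · intro h' hh' u hu
      refine Submodule.span_induction (p := fun u _ => h' u ∈ Submodule.span k S) ?_ ?_ ?_ ?_ hu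
      · intro a ha
        rcases hst h' hh' a ha with h0 | h1
        · rw [h0]
          exact Submodule.zero_mem _
        · exact Submodule.subset_span h1
      · rw [map_zero]
        exact Submodule.zero_mem _
      · intro x y _ _ h1 h2
        rw [map_add]
        exact Submodule.add_mem _ h1 h2
      · intro r x _ h1
        rw [map_smul]
        exact Submodule.smul_mem _ _ h1
    · intro u _
      rw [LinearMap.zero_apply]
      exact Submodule.zero_mem _
    · intro x y _ _ h1 h2 u hu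
      rw [LinearMap.add_apply]
      exact Submodule.add_mem _ (h1 u hu) (h2 u hu)
    · intro r x _ h1 u hu
      rw [LinearMap.smul_apply]
      exact Submodule.smul_mem _ _ (h1 u hu)
  rcases hW.2.2 _ hle hstab with h0 | h1
  · obtain ⟨a, ha, ha0⟩ := hne
    have h1 : a ∈ Submodule.span k S := Submodule.subset_span ha
    rw [h0] at h1
    exact absurd ((Submodule.mem_bot k).1 h1) ha0
  · exact h1

end Pool.Agent.Lib.MP_021685_agO
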