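import Pool.Agent.Lib.MP_021685_agO.ON

/-!
# Block N: transvections, second part: `g` contains the symplectic Lie algebra of `W`
-/

set_option autoImplicit false

namespace Pool.Agent.Lib.MP_021685_agO

open Module

variable {k H : Type*} [Field k] [CharZero k] [AddCommGroup H] [Module k H] [FiniteDimensional k H]
  {g : Submodule k (End k H)} {c : End k H → k} {W : Submodule k H} {β : H →ₗ[k] H →ₗ[k] k}

/-- The elements of `QQ` at distance at most two from `a`. -/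
def CC (g : Submodule k (End k H)) (W : Submodule k H) (β : H →ₗ[k] H →ₗ[k] k) (a : H) : Set H :=
  {b | b ∈ QQ g W β ∧ (β a b ≠ 0 ∨ ∃ d ∈ QQ g W β, β a d ≠ 0 ∧ β d b ≠ 0)}

private theorem ON2_span (hg : IsGaloisAlg g c) (hW : IsSimpleSub g W) (hs : IsSympl g c W β)
    (hne : ∃ a ∈ QQ g W β, a ≠ 0) : Submodule.span k (QQ g W β) = W :=
  span_eq hg hW (fun _ ha => ha.1) hne (fun _ hh' _ ha => Or.inr (QQ_hodge hg hW hs hh' ha).1)

private theorem ON2_exists (hs : IsSympl g c W β) {S : Set H} (hS : Submodule.span k S = W)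
    {b : H} (hb : b ∈ W) (hb0 : b ≠ 0) : ∃ d ∈ S, β b d ≠ 0 := by
  by_contra hcon
  push Not at hcon
  apply hb0
  apply hs.nondeg b hb
  intro v hv
  have hle : Submodule.span k S ≤ LinearMap.ker (β b) := by
    rw [Submodule.span_le]
    intro d hd
    exact LinearMap.mem_ker.mpr (hcon d hd)
  rw [hS] at hle
  exact LinearMap.mem_ker.mp (hle hv)

private theorem ON2_swap (hs : IsSympl g c W β) {u v : H} (hu : u ∈ W) (hv : v ∈ W)
    (h : β u v ≠ 0) : β v u ≠ 0 := by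
  intro h0
  exact h (by rw [hs.neg hu hv, h0, neg_zero])

private theorem ON2_add (hg : IsGaloisAlg g c) (hW : IsSimpleSub g W) (hs : IsSympl g c W β)
    {a a' : H} (ha : a ∈ QQ g W β) (ha' : a' ∈ QQ g W β) (h : β a' a ≠ 0) :
    a' + a ∈ QQ g W β := by
  have h1 := QQ_add hg hW hs ha ha' (β a' a)⁻¹
  rwa [inv_mul_cancel₀ h, one_smul] at h1

/-- PROOF. `span QQ = W` (`span_eq`, `QQ_hodge`, `QQ_ne`); if `β b d = 0` for all `d ∈ QQ` then `β b = 0` on `W`, and `b = 0` by `nondeg`. -/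
theorem exists_adj (hg : IsGaloisAlg g c) (hW : IsSimpleSub g W) (hs : IsSympl g c W β)
    (hne : ∃ a ∈ QQ g W β, a ≠ 0) {b : H} (hb : b ∈ W) (hb0 : b ≠ 0) :
    ∃ d ∈ QQ g W β, β b d ≠ 0 := by
  exact ON2_exists hs (ON2_span hg hW hs hne) hb hb0

/-- `CC a` is closed under adjacency.
PROOF. Case `β a b ≠ 0`: `b` is a middle vertex: `b' ∈ CC a`. Case `β a d ≠ 0`, `β d b ≠ 0`: if `β a b ≠ 0` as before; if `β d b' ≠ 0` then `d` is a middle vertex. Otherwise `β a b = 0`,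
`β d b' = 0`. `d' = d + b ∈ QQ` (`QQ_add` with `a := b`, `a' := d`, `s = (β d b)⁻¹`). `β a d' = β a d ≠ 0` and `β d' b' = β b b' ≠ 0`. -/
theorem CC_adj (hg : IsGaloisAlg g c) (hW : IsSimpleSub g W) (hs : IsSympl g c W β) {a b b' : H}
    (ha : a ∈ QQ g W β) (hb : b ∈ CC g W β a) (hb' : b' ∈ QQ g W β) (h1 : β b b' ≠ 0) :
    b' ∈ CC g W β a := by
  obtain ⟨hbQ, hb2⟩ := hb
  refine ⟨hb', Or.inr ?_⟩
  by_cases hab : β a b = 0
  · rcases hb2 with h2 | ⟨d, hd, had, hdb⟩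
    · exact absurd hab h2
    · by_cases hdb' : β d b' = 0
      · refine ⟨d + b, ON2_add hg hW hs hbQ hd hdb, ?_, ?_⟩
        · rw [map_add, hab, add_zero]
          exact had
        · rw [map_add, LinearMap.add_apply, hdb', zero_add]
          exact h1
      · exact ⟨d, hd, had, hdb'⟩
  · exact ⟨b, hbQ, hab, h1⟩

/-- `CC a ∪ {0}` is stable under the idempotents of multiplier `1`.
PROOF. Let `b ∈ CC a`, `h' b ≠ 0`; `h' b`, `b - h' b ∈ QQ` (`QQ_hodge`). There is `d ∈ QQ` with `β (h' b) d ≠ 0` (`exists_adj`). If `β b d ≠ 0` then `d ∈ CC a` (`CC_adj`) and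
`h' b ∈ CC a` (`CC_adj` for `d`, `h' b`, `IsSympl.neg`). Otherwise `β (b - h' b) d = - β (h' b) d ≠ 0`. `b ≠ 0`, so there is `d' ∈ QQ` with `β b d' ≠ 0`, `d' ∈ CC a`; then
`β (h' b) d' ≠ 0`, and `h' b ∈ CC a`, or `β (b - h' b) d' ≠ 0`, and `b - h' b ∈ CC a`, so `d ∈ CC a`, so `h' b ∈ CC a`. -/
theorem CC_hodge (hg : IsGaloisAlg g c) (hW : IsSimpleSub g W) (hs : IsSympl g c W β)
    (hne : ∃ a ∈ QQ g W β, a ≠ 0) {a b : H} (ha : a ∈ QQ g W β) (hb : b ∈ CC g W β a)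
    {h' : End k H} (hh' : IsHodgeElt g c h') : h' b = 0 ∨ h' b ∈ CC g W β a := by
  by_cases hb0 : h' b = 0
  · exact Or.inl hb0
  right
  obtain ⟨hx1, hx2⟩ := QQ_hodge hg hW hs hh' hb.1
  obtain ⟨d, hd, hbd⟩ := exists_adj hg hW hs hne hx1.1 hb0
  have hfin : d ∈ CC g W β a → h' b ∈ CC g W β a := fun hdC =>
    CC_adj hg hW hs ha hdC hx1 (ON2_swap hs hx1.1 hd.1 hbd)
  by_cases hbd' : β b d = 0
  · have h2 : β (b - h' b) d ≠ 0 := by
      rw [map_sub, LinearMap.sub_apply, hbd', zero_sub]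
      exact neg_ne_zero.mpr hbd
    have hbne : b ≠ 0 := by
      intro h0
      exact hb0 (by rw [h0, map_zero])
    obtain ⟨d', hd', hbd''⟩ := exists_adj hg hW hs hne hb.1.1 hbne
    have hd'C : d' ∈ CC g W β a := CC_adj hg hW hs ha hb hd' hbd''
    by_cases h3 : β (h' b) d' = 0
    · have h4 : β (b - h' b) d' ≠ 0 := by
        rw [map_sub, LinearMap.sub_apply, h3, sub_zero]
        exact hbd''
      have h5 : b - h' b ∈ CC g W β a :=
        CC_adj hg hW hs ha hd'C hx2 (ON2_swap hs hx2.1 hd'.1 h4)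
      exact hfin (CC_adj hg hW hs ha h5 hd h2)
    · exact CC_adj hg hW hs ha hd'C hx1 (ON2_swap hs hx1.1 hd'.1 h3)
  · exact hfin (CC_adj hg hW hs ha hb hd hbd')

/-- PROOF. `CC a` contains a non-zero vector (`exists_adj` for `a ≠ 0`: `d ∈ QQ` with `β a d ≠ 0` is in `CC a` and non-zero), so `span (CC a) = W` (`span_eq`, `CC_hodge`). `b ≠ 0`: there is
`d ∈ CC a` with `β b d ≠ 0` (otherwise `β b = 0` on `W`), so `b ∈ CC a` by `CC_adj`. -/
theorem mem_CC (hg : IsGaloisAlg g c) (hW : IsSimpleSub g W) (hs : IsSympl g c W β)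
    {a b : H} (ha : a ∈ QQ g W β) (ha0 : a ≠ 0) (hb : b ∈ QQ g W β) (hb0 : b ≠ 0) :
    b ∈ CC g W β a := by
  have hne : ∃ a ∈ QQ g W β, a ≠ 0 := ⟨a, ha, ha0⟩
  obtain ⟨d, hd, had⟩ := exists_adj hg hW hs hne ha.1 ha0
  have hdC : d ∈ CC g W β a := ⟨hd, Or.inl had⟩
  have hd0 : d ≠ 0 := by
    intro h0
    exact had (by rw [h0, map_zero])
  have hsp : Submodule.span k (CC g W β a) = W :=
    span_eq hg hW (fun _ h => h.1.1) ⟨d, hdC, hd0⟩
      (fun _ hh' _ hb' => CC_hodge hg hW hs hne ha hb' hh')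
  obtain ⟨d', hd', hbd'⟩ := ON2_exists hs hsp hb.1 hb0
  exact CC_adj hg hW hs ha hd' hb (ON2_swap hs hb.1 hd'.1.1 hbd')

/-- The pairs `(a, b)` for which the conclusion of `Full` holds. -/
def TT (g : Submodule k (End k H)) (W : Submodule k H) (β : H →ₗ[k] H →ₗ[k] k) (a b : H) : Prop :=
  ∃ X ∈ g, (∀ u ∈ W, X u = β u a • b + β u b • a) ∧
    ∀ U, IsSimpleSub g U → ¬ Iso g W U → ∀ u ∈ U, X u = 0

private theorem ON2_zero {a : H} : TT g W β a 0 :=
  ⟨0, g.zero_mem, fun u _ => by rw [LinearMap.zero_apply, map_zero, smul_zero, zero_smul, add_zero],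
    fun _ _ _ _ _ => LinearMap.zero_apply _⟩

/-- PROOF. Linear combinations of the `X`. -/
theorem TT_add {a b b' : H} (h : TT g W β a b) (h' : TT g W β a b') (s : k) :
    TT g W β a (b + s • b') := by
  obtain ⟨X, hX, hX1, hX2⟩ := h
  obtain ⟨Y, hY, hY1, hY2⟩ := h'
  refine ⟨X + s • Y, g.add_mem hX (g.smul_mem s hY), ?_, ?_⟩
  · intro u hu
    rw [LinearMap.add_apply, LinearMap.smul_apply, hX1 u hu, hY1 u hu, map_add, map_smul,
      smul_eq_mul]
    module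
  · intro U hU hiso u hu
    rw [LinearMap.add_apply, LinearMap.smul_apply, hX2 U hU hiso u hu, hY2 U hU hiso u hu,
      smul_zero, add_zero]

theorem TT_symm {a b : H} (h : TT g W β a b) : TT g W β b a := by
  obtain ⟨X, hX, hX1, hX2⟩ := h
  refine ⟨X, hX, ?_, hX2⟩
  intro u hu
  rw [hX1 u hu, add_comm]

/-- PROOF. If `β a b ≠ 0`: `a + b = a + (s β a b) b ∈ QQ` with `s = (β a b)⁻¹` (`QQ_add`), and `X_{a+b} - X_a - X_b` acts on `W` as `β u a • b + β u b • a`. -/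
theorem TT_of_ne (hg : IsGaloisAlg g c) (hW : IsSimpleSub g W) (hs : IsSympl g c W β) {a b : H}
    (ha : a ∈ QQ g W β) (hb : b ∈ QQ g W β) (h1 : β a b ≠ 0) : TT g W β a b := by
  obtain ⟨_, Z, hZ, hZ1, hZ2⟩ := ON2_add hg hW hs hb ha h1
  obtain ⟨_, X, hX, hX1, hX2⟩ := ha
  obtain ⟨_, Y, hY, hY1, hY2⟩ := hb
  refine ⟨Z - X - Y, g.sub_mem (g.sub_mem hZ hX) hY, ?_, ?_⟩
  · intro u hu
    rw [LinearMap.sub_apply, LinearMap.sub_apply, hX1 u hu, hY1 u hu, hZ1 u hu, map_add]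
    module
  · intro U hU hiso u hu
    rw [LinearMap.sub_apply, LinearMap.sub_apply, hX2 U hU hiso u hu, hY2 U hU hiso u hu,
      hZ2 U hU hiso u hu, sub_zero, sub_zero]

/-- PROOF. `a = 0` or `b = 0`: `X = 0`. Otherwise `b ∈ CC a` (`mem_CC`). If `β a b ≠ 0`: `TT_of_ne`. If `β a b = 0` there is `d ∈ QQ` with `β a d ≠ 0`, `β d b ≠ 0`; `b + d = b + (s β b d) d ∈ QQ`
(`QQ_add`, `s = (β b d)⁻¹`), `β a (b + d) = β a d ≠ 0`, so `TT a (b + d)` and `TT a d` by `TT_of_ne`, so `TT a b` by `TT_add` (`s = -1`). -/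
theorem TT_QQ (hg : IsGaloisAlg g c) (hW : IsSimpleSub g W) (hs : IsSympl g c W β) {a b : H}
    (ha : a ∈ QQ g W β) (hb : b ∈ QQ g W β) : TT g W β a b := by
  by_cases ha0 : a = 0
  · rw [ha0]
    exact TT_symm ON2_zero
  by_cases hb0 : b = 0
  · rw [hb0]
    exact ON2_zero
  by_cases hab : β a b = 0
  · rcases (mem_CC hg hW hs ha ha0 hb hb0).2 with h | ⟨d, hd, had, hdb⟩
    · exact absurd hab h
    · have hbd : β b d ≠ 0 := ON2_swap hs hd.1 hb.1 hdb
      have h1 : b + d ∈ QQ g W β := ON2_add hg hW hs hd hb hbd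
      have h2 : β a (b + d) ≠ 0 := by
        rw [map_add, hab, zero_add]
        exact had
      have h3 := TT_add (TT_of_ne hg hW hs ha h1 h2) (TT_of_ne hg hW hs ha hd had) (-1)
      rwa [neg_one_smul, add_neg_cancel_right] at h3
  · exact TT_of_ne hg hW hs ha hb hab

/-- PROOF. `span QQ = W` (`span_eq`); `TT` is additive and homogeneous in both arguments (`TT_add`, `TT_symm`; `TT a 0` with `X = 0`): `Submodule.span_induction` twice. -/
theorem full_of_QQ (hg : IsGaloisAlg g c) (hW : IsSimpleSub g W) (hs : IsSympl g c W β)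
    (hne : ∃ a ∈ QQ g W β, a ≠ 0) : Full g W β := by
  have hsp := ON2_span hg hW hs hne
  have hlin : ∀ a : H, (∀ b ∈ QQ g W β, TT g W β a b) → ∀ b ∈ W, TT g W β a b := by
    intro a h b hb
    rw [← hsp] at hb
    induction hb using Submodule.span_induction with
    | mem x hx => exact h x hx
    | zero => exact ON2_zero
    | add x y _ _ hx hy =>
      have h1 := TT_add hx hy 1
      rwa [one_smul] at h1
    | smul s x _ hx =>
      have h1 := TT_add (ON2_zero (g := g) (W := W) (β := β) (a := a)) hx s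
      rwa [zero_add] at h1
  intro a ha b hb
  refine hlin a (fun b' hb' => TT_symm (hlin b' (fun a' ha' => ?_) a ha)) b hb
  exact TT_QQ hg hW hs hb' ha'

end Pool.Agent.Lib.MP_021685_agO
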