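import Pool.Agent.Lib.MP_021685_agO.Ctx

/-!
# Block R: the decomposition of `H`
-/

set_option autoImplicit false

namespace Pool.Agent.Lib.MP_021685_agO

open Module

variable {k H : Type*} [Field k] [AddCommGroup H] [Module k H]

/-- The decomposition of `H`: the identity is the sum of an equivariant projection to `H₀`, zero on
`H₁`, and of the equivariant endomorphisms `θ a * ψ a` which factor through the pairwise non-isomorphic
simple symplectic subspaces `W φ`; and `g` contains the symplectic Lie algebras of the `W φ`. -/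
structure Dec (g : Submodule k (End k H)) (c : End k H → k) (H₀ H₁ : Submodule k H) where
  n : ℕ
  Φ : Type
  W : Φ → Submodule k H
  β : Φ → H →ₗ[k] H →ₗ[k] k
  f : Fin n → Φ
  P₀ : End k H
  ψ : Fin n → End k H
  θ : Fin n → End k H
  P₀_comm : ∀ X ∈ g, P₀ * X = X * P₀
  P₀_mem : ∀ v, P₀ v ∈ H₀
  P₀_zero : ∀ u ∈ H₁, P₀ u = 0
  sum_eq : P₀ + ∑ a, θ a * ψ a = 1
  ψ_comm : ∀ a, ∀ X ∈ g, ψ a * X = X * ψ a
  θ_comm : ∀ a, ∀ X ∈ g, θ a * X = X * θ a
  ψ_mem : ∀ a v, ψ a v ∈ W (f a)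
  simple : ∀ φ, IsSimpleSub g (W φ)
  sympl : ∀ φ, IsSympl g c (W φ) (β φ)
  full : ∀ φ, ∀ x ∈ W φ, ∀ y ∈ W φ, ∃ X ∈ g, c X = 0 ∧
    (∀ u ∈ W φ, X u = β φ u x • y + β φ u y • x) ∧
    (∀ φ', φ' ≠ φ → ∀ u ∈ W φ', X u = 0) ∧ ∀ u ∈ H₀, X u = 0

end Pool.Agent.Lib.MP_021685_agO
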