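import Pool.Agent.Lib.MP_021685_agO.OZ

/-!
# Simple subspaces of a sum of odd simple subspaces
-/

set_option autoImplicit false

namespace Pool.Agent.Lib.MP_021685_agO

open Module

variable {k H : Type*} [Field k] [CharZero k] [AddCommGroup H] [Module k H] [FiniteDimensional k H]
  {g : Submodule k (End k H)} {c : End k H → k}

/-- A simple subspace of a sum of stable subspaces is isomorphic to a quotient of one of them. -/
theorem iso_of_le_sSup (hg : IsGaloisAlg g c) {S : Set (Submodule k H)}
    (hS : ∀ W ∈ S, IsStable g W) {U : Submodule k H} (hU : IsSimpleSub g U) (hle : U ≤ sSup S) :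
    ∃ W ∈ S, Iso g W U := by
  obtain ⟨U', hU', hc⟩ := hg.semisimple U hU.2.1
  obtain ⟨p, hp1, hp2, -, hp4⟩ := exists_proj hU.2.1 hU' hc
  by_contra hno
  push Not at hno
  have h1 : sSup S ≤ LinearMap.ker p := by
    refine sSup_le fun W hW => ?_
    have hst : IsStable g (W.map p) := by
      rintro X hX _ ⟨w, hw, rfl⟩
      refine ⟨X w, hS W hW X hX w hw, ?_⟩
      exact congrArg (fun φ : End k H => φ w) (hp1 X hX)
    have hle' : W.map p ≤ U := by
      rintro _ ⟨w, -, rfl⟩
      exact hp4 w
    rcases hU.2.2 _ hle' hst with h2 | h2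
    · intro w hw
      have h3 : p w ∈ W.map p := ⟨w, hw, rfl⟩
      rw [h2] at h3
      exact h3
    · exact absurd ⟨p, hp1, h2⟩ (hno W hW)
  apply hU.1
  rw [eq_bot_iff]
  intro u hu
  have h2 : p u = 0 := h1 (hle hu)
  rw [hp2 u hu] at h2
  exact h2

end Pool.Agent.Lib.MP_021685_agO
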