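import Pool.Agent.Lib.MP_021685_agO.Defs3

/-!
# OV: two commuting conjugate idempotents

`h`, `h'`: commuting idempotents in `g`, `h'` conjugate to `h` by the group generated by the
`t ^ e = t e + (1 - e)`, `e` an idempotent in `g` with `c e = 1`, `t ≠ 0`. Then there is `N` in `g` with
`[h, N] = -N` which kills the kernel of `h (1 - h')` and is injective on its image. So the rank of `N` on a
`g`-stable subspace is the rank of `h (1 - h')`.

The proof: a polynomial path `P t` from `1` to the conjugating element, the conjugate `h t` of `h` by a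
general element `P t` of this path, and the element `z` of `g` whose graph is the image of `h t`.
-/

set_option autoImplicit false

open Module Polynomial

namespace Pool.Agent.Lib.MP_021685_agO

variable {k H : Type*} [Field k] [AddCommGroup H] [Module k H]

/-- `InnerConj g c h h'`: `h'` is obtained from `h` by finitely many conjugations by elements
`t ^ e = t e + (1 - e)`, where `e` is an idempotent of multiplier `1` in `g` and `t ≠ 0` -/
inductive InnerConj (g : Submodule k (End k H)) (c : End k H → k) (h : End k H) : End k H → Prop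
  | refl : InnerConj g c h h
  | step {h' e : End k H} {t : k} : InnerConj g c h h' → IsHodgeElt g c e → t ≠ 0 →
      InnerConj g c h ((t • e + (1 - e)) * h' * (t⁻¹ • e + (1 - e)))

theorem InnerConj.of_conjIn {g : Submodule k (End k H)} {c : End k H → k} {h h' : End k H} (hc : ConjIn g c h h') :
    InnerConj g c h h' := by
  obtain ⟨u, hu, huh⟩ := hc
  have key : (∀ f, InnerConj g c h f → InnerConj g c h ((u : End k H) * f * (↑u⁻¹ : End k H))) ∧
      ∀ f, InnerConj g c h f → InnerConj g c h ((↑u⁻¹ : End k H) * f * (u : End k H)) := by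
    refine Subgroup.closure_induction
      (p := fun (u : (End k H)ˣ) _ => (∀ f, InnerConj g c h f → InnerConj g c h ((u : End k H) * f * (↑u⁻¹ : End k H))) ∧
        ∀ f, InnerConj g c h f → InnerConj g c h ((↑u⁻¹ : End k H) * f * (u : End k H))) ?_ ?_ ?_ ?_ hu
    · rintro u ⟨e, t, he, ht, hut⟩
      have hec : e * (1 - e) = 0 := by rw [mul_sub, mul_one, he.2.1, sub_self]
      have hce : (1 - e) * e = 0 := by rw [sub_mul, one_mul, he.2.1, sub_self]
      have hcc : (1 - e) * (1 - e) = 1 - e := by rw [mul_sub, mul_one, hce, sub_zero]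
      have h1 : (u : End k H) * (t⁻¹ • e + (1 - e)) = 1 := by
        rw [hut, add_mul, mul_add, mul_add]
        simp only [smul_mul_assoc, mul_smul_comm, hec, hce, he.2.1, hcc, smul_zero, add_zero, zero_add, smul_smul,
          inv_mul_cancel₀ ht, one_smul, add_sub_cancel]
      have h2 : (↑u⁻¹ : End k H) = t⁻¹ • e + (1 - e) := by
        have := congrArg (fun x => (↑u⁻¹ : End k H) * x) h1
        simp only [mul_one, ← mul_assoc, Units.inv_mul, one_mul] at this
        exact this.symm
      refine ⟨fun f hf => ?_, fun f hf => ?_⟩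
      · rw [h2, hut]
        exact InnerConj.step hf he ht
      · rw [h2, hut]
        have := InnerConj.step (t := t⁻¹) hf he (inv_ne_zero ht)
        rwa [inv_inv] at this
    · refine ⟨fun f hf => ?_, fun f hf => ?_⟩ <;> simpa using hf
    · rintro u v _ _ ⟨u1, u2⟩ ⟨v1, v2⟩
      refine ⟨fun f hf => ?_, fun f hf => ?_⟩
      · have := u1 _ (v1 f hf)
        simpa only [mul_inv_rev, Units.val_mul, mul_assoc] using this
      · have := v2 _ (u2 f hf)
        simpa only [mul_inv_rev, Units.val_mul, mul_assoc] using this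
    · rintro u _ ⟨u1, u2⟩
      rw [inv_inv]
      exact ⟨u2, u1⟩
  have h1 := key.1 h InnerConj.refl
  rwa [huh, mul_assoc, Units.mul_inv, mul_one] at h1

section components

variable [NeZero (2 : k)] {g : Submodule k (End k H)}

/-- the components of `X` for the grading by the idempotent `e` are in `g` -/
theorem v_comp_mem (hlie : ∀ X ∈ g, ∀ Y ∈ g, X * Y - Y * X ∈ g) {e X : End k H} (he : e ∈ g) (hee : e * e = e)
    (hX : X ∈ g) : e * X * (1 - e) ∈ g ∧ (1 - e) * X * e ∈ g ∧ e * X * e + (1 - e) * X * (1 - e) ∈ g := by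
  have h1 := hlie e he X hX
  have h2 := hlie e he _ h1
  have e1 : e * (e * X - X * e) - (e * X - X * e) * e = e * X * (1 - e) + (1 - e) * X * e := by
    have : e * (e * X) = e * X := by rw [← mul_assoc, hee]
    have h3 : X * e * e = X * e := by rw [mul_assoc, hee]
    simp only [mul_sub, sub_mul, mul_one, one_mul, this, h3, ← mul_assoc]
    abel
  have e2 : e * X - X * e = e * X * (1 - e) - (1 - e) * X * e := by
    simp only [mul_sub, sub_mul, mul_one, one_mul]
    abel
  rw [e1] at h2
  rw [e2] at h1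
  have two : (2 : k) ≠ 0 := NeZero.ne 2
  have h3 : e * X * (1 - e) ∈ g := by
    have := g.smul_mem (2 : k)⁻¹ (g.add_mem h2 h1)
    have e3 : (2 : k)⁻¹ • (e * X * (1 - e) + (1 - e) * X * e + (e * X * (1 - e) - (1 - e) * X * e)) = e * X * (1 - e) := by
      have : e * X * (1 - e) + (1 - e) * X * e + (e * X * (1 - e) - (1 - e) * X * e) = (2 : k) • (e * X * (1 - e)) := by
        rw [two_smul]; abel
      rw [this, smul_smul, inv_mul_cancel₀ two, one_smul]
    rwa [e3] at this
  have h4 : (1 - e) * X * e ∈ g := by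
    have := g.sub_mem h2 h3
    have e3 : e * X * (1 - e) + (1 - e) * X * e - e * X * (1 - e) = (1 - e) * X * e := by abel
    rwa [e3] at this
  refine ⟨h3, h4, ?_⟩
  have h5 := g.sub_mem hX (g.add_mem h3 h4)
  have e4 : X - (e * X * (1 - e) + (1 - e) * X * e) = e * X * e + (1 - e) * X * (1 - e) := by
    simp only [mul_sub, sub_mul, mul_one, one_mul]
    abel
  rwa [e4] at h5

/-- conjugation by `t ^ e` (times `t`) -/
theorem v_conj_mem (hlie : ∀ X ∈ g, ∀ Y ∈ g, X * Y - Y * X ∈ g) {e X : End k H} (he : e ∈ g) (hee : e * e = e)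
    (hX : X ∈ g) (t : k) : (t • e + (1 - e)) * X * (e + t • (1 - e)) ∈ g := by
  obtain ⟨h1, h2, h3⟩ := v_comp_mem hlie he hee hX
  have e1 : (t • e + (1 - e)) * X * (e + t • (1 - e)) =
      t • (e * X * e + (1 - e) * X * (1 - e)) + (t * t) • (e * X * (1 - e)) + (1 - e) * X * e := by
    rw [add_mul, add_mul, mul_add, mul_add]
    simp only [smul_mul_assoc, mul_smul_comm, smul_add, smul_smul]
    abel
  rw [e1]
  exact g.add_mem (g.add_mem (g.smul_mem _ h3) (g.smul_mem _ h1)) h2

end components

section graph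

variable [NeZero (2 : k)] [FiniteDimensional k H] {g : Submodule k (End k H)}

/-- `f` is an idempotent in `g` and `h f h` is invertible on the image of `h`: the image of `f` is
the graph of an element `z` of `g` -/
theorem v_exists_graph (hlie : ∀ X ∈ g, ∀ Y ∈ g, X * Y - Y * X ∈ g) {h f : End k H} (hg : h ∈ g) (hh : h * h = h)
    (hf : f ∈ g) (hff : f * f = f) (hu : IsUnit (h * f * h + (1 - h))) :
    ∃ z ∈ g, (1 - h) * z = z ∧ z * h = z ∧ ∀ v, h v = v → ∃ w, f w = v + z v := by
  set A := h * f * h with hA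
  set C := (1 - h) * f * h with hC
  have hhc : h * (1 - h) = 0 := by rw [mul_sub, mul_one, hh, sub_self]
  have hch : (1 - h) * h = 0 := by rw [sub_mul, one_mul, hh, sub_self]
  have hcc : (1 - h) * (1 - h) = 1 - h := by rw [mul_sub, mul_one, hch, sub_zero]
  have hAh : A * h = A := by rw [hA, mul_assoc, hh]
  have hhA : h * A = A := by rw [hA, ← mul_assoc, ← mul_assoc, hh]
  have hCh : C * h = C := by rw [hC, mul_assoc, hh]
  have hcC : (1 - h) * C = C := by rw [hC, ← mul_assoc, ← mul_assoc, hcc]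
  have hT := (v_comp_mem hlie hg hh hf).2.2
  have hCg : C ∈ g := (v_comp_mem hlie hg hh hf).2.1
  -- `D C = C - C A`
  have hDC : (1 - h) * f * (1 - h) * C = C - C * A := by
    have e1 : (1 - h) * f * (1 - h) * C = (1 - h) * f * C := by rw [mul_assoc, hcC]
    have e2 : C * A = (1 - h) * f * h * f * h := by
      rw [hC, hA, mul_assoc ((1 - h) * f) h, ← mul_assoc h, ← mul_assoc h, hh]
      simp only [mul_assoc]
    have e3 : (1 - h) * f * C = (1 - h) * (f * f) * h - (1 - h) * f * h * f * h := by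
      rw [hC]
      simp only [mul_sub, sub_mul, one_mul, mul_assoc]
    rw [e1, e2, e3, hff]
  have hpow : ∀ n : ℕ, C * A ^ n ∈ g ∧ (C * A ^ n) * (1 - h) = 0 := by
    intro n
    induction n with
    | zero =>
      rw [pow_zero, mul_one]
      exact ⟨hCg, by rw [mul_sub, mul_one, hCh, sub_self]⟩
    | succ n ih =>
      obtain ⟨i1, i2⟩ := ih
      refine ⟨?_, ?_⟩
      · have h1 := hlie _ hT _ i1
        have hhC : h * C = 0 := by rw [← hcC, ← mul_assoc, hhc, zero_mul]
        have e1 : (h * f * h + (1 - h) * f * (1 - h)) * (C * A ^ n) = C * A ^ n - C * A ^ (n + 1) := by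
          rw [add_mul, ← mul_assoc ((1 - h) * f * (1 - h)), hDC, ← mul_assoc (h * f * h), mul_assoc (h * f) h C, hhC,
            mul_zero, zero_mul, zero_add, sub_mul, mul_assoc C A, ← pow_succ']
        have e2 : C * A ^ n * (h * f * h + (1 - h) * f * (1 - h)) = C * A ^ (n + 1) := by
          rw [mul_add, ← mul_assoc _ ((1 - h) * f), ← mul_assoc _ (1 - h) f, i2, zero_mul, zero_mul, add_zero, ← hA,
            mul_assoc, ← pow_succ]
        rw [e1, e2] at h1
        have two : (2 : k) ≠ 0 := NeZero.ne 2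
        have h2 := g.smul_mem (2 : k)⁻¹ (g.sub_mem i1 h1)
        have e3 : (2 : k)⁻¹ • (C * A ^ n - (C * A ^ n - C * A ^ (n + 1) - C * A ^ (n + 1))) = C * A ^ (n + 1) := by
          have : C * A ^ n - (C * A ^ n - C * A ^ (n + 1) - C * A ^ (n + 1)) = (2 : k) • (C * A ^ (n + 1)) := by
            rw [two_smul]; abel
          rw [this, smul_smul, inv_mul_cancel₀ two, one_smul]
        rwa [e3] at h2
      · have e1 : C * A ^ (n + 1) * (1 - h) = C * A ^ n * (A - A * h) := by
          rw [pow_succ, mul_sub, mul_one, mul_sub]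
          simp only [mul_assoc]
        rw [e1, hAh, sub_self, mul_zero]
  -- the span of the `C A ^ n` is stable under right multiplication by `A + (1 - h)`
  let S : Submodule k (End k H) := Submodule.span k (Set.range fun n : ℕ => C * A ^ n)
  have hSg : S ≤ g := Submodule.span_le.mpr (by rintro _ ⟨n, rfl⟩; exact (hpow n).1)
  obtain ⟨u, hu'⟩ := hu
  let R : End k H →ₗ[k] End k H := LinearMap.mulRight k (u : End k H)
  have hR : Function.Injective R := by
    intro X Y hXY
    have h1 : X * (u : End k H) = Y * (u : End k H) := hXY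
    exact u.isUnit.mul_right_cancel h1
  have hRS : S.map R ≤ S := by
    rw [Submodule.map_span_le]
    rintro _ ⟨n, rfl⟩
    have e1 : R (C * A ^ n) = C * A ^ (n + 1) := by
      change C * A ^ n * (u : End k H) = _
      rw [hu', mul_add, (hpow n).2, add_zero, mul_assoc, ← pow_succ]
    rw [e1]
    exact Submodule.subset_span ⟨n + 1, rfl⟩
  have hRS' : S.map R = S := by
    refine Submodule.eq_of_le_of_finrank_eq hRS ?_
    exact LinearEquiv.finrank_eq (Submodule.equivMapOfInjective R hR S).symm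
  have hCS : C ∈ S.map R := by
    rw [hRS']
    exact Submodule.subset_span ⟨0, by simp⟩
  obtain ⟨z, hz, hzC⟩ := hCS
  have hzC' : z * (h * f * h + (1 - h)) = C := by
    rw [← hu']; exact hzC
  have hzS : (1 - h) * z = z ∧ z * h = z := by
    refine Submodule.span_induction (p := fun z _ => (1 - h) * z = z ∧ z * h = z) ?_ ?_ ?_ ?_ hz
    · rintro _ ⟨n, rfl⟩
      refine ⟨by change (1 - h) * (C * A ^ n) = C * A ^ n; rw [← mul_assoc, hcC], ?_⟩
      have := (hpow n).2
      rw [mul_sub, mul_one, sub_eq_zero] at this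
      exact this.symm
    · simp
    · rintro x y _ _ ⟨h1, h2⟩ ⟨h3, h4⟩
      exact ⟨by rw [mul_add, h1, h3], by rw [add_mul, h2, h4]⟩
    · rintro a x _ ⟨h1, h2⟩
      exact ⟨by rw [mul_smul_comm, h1], by rw [smul_mul_assoc, h2]⟩
  refine ⟨z, hSg hz, hzS.1, hzS.2, ?_⟩
  intro v hv
  -- `w = B v`, `B` the inverse of `A + (1 - h)`
  refine ⟨(↑u⁻¹ : End k H) v, ?_⟩
  set w := (↑u⁻¹ : End k H) v with hw
  have huw : (h * f * h + (1 - h)) w = v := by
    rw [← hu', hw, ← Module.End.mul_apply, Units.mul_inv]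
    rfl
  have hhw : (1 - h) w = 0 := by
    have h1 : (1 - h) ((h * f * h + (1 - h)) w) = (1 - h) v := by rw [huw]
    have h2 : (1 - h) * (h * f * h + (1 - h)) = 1 - h := by
      rw [mul_add, hcc, ← mul_assoc, ← mul_assoc, hch, zero_mul, zero_mul, zero_add]
    rw [← Module.End.mul_apply, h2] at h1
    rw [h1, LinearMap.sub_apply, Module.End.one_apply, hv, sub_self]
  have hw1 : h w = w := by
    rw [LinearMap.sub_apply, Module.End.one_apply, sub_eq_zero] at hhw
    exact hhw.symm
  have h3 : h (f w) = v := by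
    have := huw
    rw [LinearMap.add_apply, hhw, add_zero, Module.End.mul_apply, Module.End.mul_apply, hw1] at this
    exact this
  have h4 : (1 - h) (f w) = z v := by
    have h5 : z ((h * f * h + (1 - h)) w) = z v := by rw [huw]
    rw [← Module.End.mul_apply, hzC', hC, Module.End.mul_apply, Module.End.mul_apply, hw1] at h5
    exact h5
  have h6 : f w = h (f w) + (1 - h) (f w) := by
    rw [LinearMap.sub_apply, Module.End.one_apply]; abel
  rw [h6, h3, h4]

end graph

section poly

variable [FiniteDimensional k H]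

/-- polynomial functions -/
def PolyF (f : k → k) : Prop := ∃ p : k[X], ∀ t, f t = p.eval t

/-- polynomial functions with values in the endomorphisms -/
def PolyE (F : k → End k H) : Prop :=
  ∃ M : Matrix (Fin (finrank k H)) (Fin (finrank k H)) k[X], ∀ t,
    LinearMap.toMatrixAlgEquiv (finBasis k H) (F t) = (Polynomial.evalRingHom t).mapMatrix M

theorem PolyF.mul {f f' : k → k} (h : PolyF f) (h' : PolyF f') : PolyF (fun t => f t * f' t) := by
  obtain ⟨p, hp⟩ := h
  obtain ⟨p', hp'⟩ := h'
  exact ⟨p * p', fun t => by simp only [hp, hp', Polynomial.eval_mul]⟩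

theorem polyF_const (a : k) : PolyF (fun _ : k => a) := ⟨Polynomial.C a, fun t => by simp⟩

theorem polyE_const (X : End k H) : PolyE (fun _ : k => X) := by
  refine ⟨(LinearMap.toMatrixAlgEquiv (finBasis k H) X).map Polynomial.C, fun t => ?_⟩
  ext i j
  simp

theorem PolyE.mul {F F' : k → End k H} (h : PolyE F) (h' : PolyE F') : PolyE (fun t => F t * F' t) := by
  obtain ⟨p, hp⟩ := h
  obtain ⟨p', hp'⟩ := h'
  exact ⟨p * p', fun t => by rw [map_mul, hp, hp', map_mul]⟩

theorem PolyE.add {F F' : k → End k H} (h : PolyE F) (h' : PolyE F') : PolyE (fun t => F t + F' t) := by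
  obtain ⟨p, hp⟩ := h
  obtain ⟨p', hp'⟩ := h'
  exact ⟨p + p', fun t => by rw [map_add, hp, hp', map_add]⟩

theorem PolyE.smul {f : k → k} {F : k → End k H} (hf : PolyF f) (h : PolyE F) : PolyE (fun t => f t • F t) := by
  obtain ⟨p, hp⟩ := hf
  obtain ⟨M, hM⟩ := h
  refine ⟨p • M, fun t => ?_⟩
  rw [map_smul, hM, hp]
  ext i j
  simp

theorem PolyE.det {F : k → End k H} (h : PolyE F) : PolyF (fun t => LinearMap.det (F t)) := by
  obtain ⟨M, hM⟩ := h
  refine ⟨M.det, fun t => ?_⟩
  change LinearMap.det (F t) = _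
  have h1 := LinearMap.det_toMatrix (finBasis k H) (F t)
  have h2 : LinearMap.toMatrix (finBasis k H) (finBasis k H) (F t) = (Polynomial.evalRingHom t).mapMatrix M := hM t
  rw [← h1, h2, ← RingHom.map_det]
  rfl

/-- a polynomial function with a non-zero value at some point, and so on: a common point -/
theorem v_exists_ne_zero [Infinite k] {f : k → k} (hf : PolyF f) {a : k} (ha : f a ≠ 0) {f' : k → k} (hf' : PolyF f')
    {a' : k} (ha' : f' a' ≠ 0) : ∃ b, f b * f' b ≠ 0 := by
  obtain ⟨p, hp⟩ := hf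
  obtain ⟨p', hp'⟩ := hf'
  have h1 : p ≠ 0 := by
    rintro rfl
    exact ha (by rw [hp]; simp)
  have h2 : p' ≠ 0 := by
    rintro rfl
    exact ha' (by rw [hp']; simp)
  by_contra hcon
  push Not at hcon
  have h3 : p * p' = 0 := by
    refine Polynomial.funext fun b => ?_
    rw [Polynomial.eval_mul, ← hp, ← hp', hcon b, Polynomial.eval_zero]
  exact (mul_ne_zero h1 h2) h3

variable [NeZero (2 : k)] {g : Submodule k (End k H)} {c : End k H → k}

/-- the polynomial path from `1` to the conjugating element -/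
theorem v_exists_path (hlie : ∀ X ∈ g, ∀ Y ∈ g, X * Y - Y * X ∈ g) {h h' : End k H} (hconj : InnerConj g c h h') :
    ∃ (P Q : k → End k H) (d : k → k), PolyE P ∧ PolyE Q ∧ PolyF d ∧ P 0 = 1 ∧ Q 0 = 1 ∧ d 0 = 1 ∧ d 1 ≠ 0 ∧
      (∀ t, P t * Q t = d t • (1 : End k H)) ∧ (∀ t, Q t * P t = d t • (1 : End k H)) ∧
      (∀ t, ∀ X ∈ g, P t * X * Q t ∈ g) ∧ P 1 * h * Q 1 = d 1 • h' ∧
      ∀ t, d t ≠ 0 → InnerConj g c h ((d t)⁻¹ • (P t * h * Q t)) := by
  induction hconj with
  | refl =>
    exact ⟨fun _ => 1, fun _ => 1, fun _ => 1, polyE_const 1, polyE_const 1, polyF_const 1, rfl, rfl, rfl, one_ne_zero,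
      fun t => by simp, fun t => by simp, fun t X hX => by simpa using hX, by simp,
      fun t _ => by simpa using InnerConj.refl⟩
  | @step h₁ e s hc he hs ih =>
    obtain ⟨P, Q, d, hP, hQ, hd, hP0, hQ0, hd0, hd1, hPQ, hQP, hPQg, h1, hin⟩ := ih
    have heH : IsHodgeElt g c e := he
    obtain ⟨heg, hee, -⟩ := he
    have hτ : PolyF (fun t : k => 1 + t * (s - 1)) := ⟨Polynomial.C 1 + Polynomial.X * Polynomial.C (s - 1), fun t => by simp⟩
    have hec : e * (1 - e) = 0 := by rw [mul_sub, mul_one, hee, sub_self]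
    have hce : (1 - e) * e = 0 := by rw [sub_mul, one_mul, hee, sub_self]
    have hcc : (1 - e) * (1 - e) = 1 - e := by rw [mul_sub, mul_one, hce, sub_zero]
    have hm : ∀ τ : k, (τ • e + (1 - e)) * (e + τ • (1 - e)) = τ • (1 : End k H) := by
      intro τ
      rw [add_mul, mul_add, mul_add]
      simp only [smul_mul_assoc, mul_smul_comm, hec, hce, hee, hcc, smul_zero, add_zero, zero_add]
      rw [← smul_add]
      congr 1
      abel
    have hm' : ∀ τ : k, (e + τ • (1 - e)) * (τ • e + (1 - e)) = τ • (1 : End k H) := by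
      intro τ
      rw [add_mul, mul_add, mul_add]
      simp only [smul_mul_assoc, mul_smul_comm, hec, hce, hee, hcc, smul_zero, add_zero, zero_add]
      rw [← smul_add]
      congr 1
      abel
    refine ⟨fun t => ((1 + t * (s - 1)) • e + (1 - e)) * P t, fun t => Q t * (e + (1 + t * (s - 1)) • (1 - e)),
      fun t => d t * (1 + t * (s - 1)), ?_, ?_, hd.mul hτ, ?_, ?_, ?_, ?_, ?_, ?_, ?_, ?_, ?_⟩
    · exact ((PolyE.smul hτ (polyE_const e)).add (polyE_const (1 - e))).mul hP
    · exact hQ.mul ((polyE_const e).add (PolyE.smul hτ (polyE_const (1 - e))))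
    · simp [hP0]
    · simp [hQ0]
    · simp [hd0]
    · change d 1 * (1 + 1 * (s - 1)) ≠ 0
      have : (1 + 1 * (s - 1) : k) = s := by ring
      rw [this]
      exact mul_ne_zero hd1 hs
    · intro t
      change ((1 + t * (s - 1)) • e + (1 - e)) * P t * (Q t * (e + (1 + t * (s - 1)) • (1 - e))) = _
      rw [mul_assoc, ← mul_assoc (P t), hPQ, smul_mul_assoc, one_mul, mul_smul_comm, hm, smul_smul]
    · intro t
      change Q t * (e + (1 + t * (s - 1)) • (1 - e)) * (((1 + t * (s - 1)) • e + (1 - e)) * P t) = _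
      rw [mul_assoc, ← mul_assoc (e + (1 + t * (s - 1)) • (1 - e)), hm', smul_mul_assoc, one_mul, mul_smul_comm, hQP,
        smul_smul, mul_comm (1 + t * (s - 1))]
    · intro t X hX
      have h2 := v_conj_mem hlie heg hee (hPQg t X hX) (1 + t * (s - 1))
      have e1 : ((1 + t * (s - 1)) • e + (1 - e)) * P t * X * (Q t * (e + (1 + t * (s - 1)) • (1 - e))) =
          ((1 + t * (s - 1)) • e + (1 - e)) * (P t * X * Q t) * (e + (1 + t * (s - 1)) • (1 - e)) := by
        simp only [mul_assoc]
      rw [e1]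
      exact h2
    · have e0 : (1 + 1 * (s - 1) : k) = s := by ring
      change ((1 + 1 * (s - 1)) • e + (1 - e)) * P 1 * h * (Q 1 * (e + (1 + 1 * (s - 1)) • (1 - e))) =
        (d 1 * (1 + 1 * (s - 1))) • ((s • e + (1 - e)) * h₁ * (s⁻¹ • e + (1 - e)))
      rw [e0]
      have e1 : (s • e + (1 - e)) * P 1 * h * (Q 1 * (e + s • (1 - e))) =
          (s • e + (1 - e)) * (P 1 * h * Q 1) * (e + s • (1 - e)) := by
        simp only [mul_assoc]
      have e2 : e + s • (1 - e) = s • (s⁻¹ • e + (1 - e)) := by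
        rw [smul_add, smul_smul, mul_inv_cancel₀ hs, one_smul]
      rw [e1, h1, e2]
      simp only [smul_mul_assoc, mul_smul_comm, smul_smul]
      rw [mul_comm s]
    · intro t ht
      change d t * (1 + t * (s - 1)) ≠ 0 at ht
      have ht1 : d t ≠ 0 := left_ne_zero_of_mul ht
      have ht2 : 1 + t * (s - 1) ≠ 0 := right_ne_zero_of_mul ht
      have h2 := InnerConj.step (hin t ht1) heH ht2
      change InnerConj g c h ((d t * (1 + t * (s - 1)))⁻¹ • (((1 + t * (s - 1)) • e + (1 - e)) * P t * h *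
        (Q t * (e + (1 + t * (s - 1)) • (1 - e)))))
      have e2 : e + (1 + t * (s - 1)) • (1 - e) = (1 + t * (s - 1)) • ((1 + t * (s - 1))⁻¹ • e + (1 - e)) := by
        rw [smul_add, smul_smul, mul_inv_cancel₀ ht2, one_smul]
      have e3 : (d t * (1 + t * (s - 1)))⁻¹ • (((1 + t * (s - 1)) • e + (1 - e)) * P t * h *
          (Q t * (e + (1 + t * (s - 1)) • (1 - e)))) =
          ((1 + t * (s - 1)) • e + (1 - e)) * ((d t)⁻¹ • (P t * h * Q t)) * ((1 + t * (s - 1))⁻¹ • e + (1 - e)) := by
        rw [e2, mul_inv]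
        simp only [smul_mul_assoc, mul_smul_comm, smul_smul, mul_assoc]
        congr 1
        field_simp
      rw [e3]
      exact h2

omit [NeZero (2 : k)] in
theorem v_isUnit_of_det {X : End k H} (hX : LinearMap.det X ≠ 0) : IsUnit X :=
  LinearMap.isUnit_iff_isUnit_det X |>.mpr (isUnit_iff_ne_zero.mpr hX)

/-- **two commuting conjugate idempotents** -/
theorem exists_conj_N [Infinite k] (hlie : ∀ X ∈ g, ∀ Y ∈ g, X * Y - Y * X ∈ g) {h h' : End k H}
    (hg : h ∈ g) (hh : h * h = h) (hg' : h' ∈ g) (hh' : h' * h' = h') (hcomm : h * h' = h' * h)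
    (hconj : InnerConj g c h h') :
    ∃ N ∈ g, h * N - N * h = -N ∧ N * (h * (1 - h')) = N ∧ ∀ v, N v = 0 → (h * (1 - h')) v = 0 := by
  obtain ⟨P, Q, d, hP, hQ, hd, hP0, hQ0, hd0, hd1, hPQ, hQP, hPQg, h1, -⟩ := v_exists_path hlie hconj
  have hhc : h * (1 - h) = 0 := by rw [mul_sub, mul_one, hh, sub_self]
  have hch : (1 - h) * h = 0 := by rw [sub_mul, one_mul, hh, sub_self]
  have hcc : (1 - h) * (1 - h) = 1 - h := by rw [mul_sub, mul_one, hch, sub_zero]
  -- the polynomial conditions
  have f1 : PolyF (fun t => LinearMap.det (h * P t * h + (1 - h))) :=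
    ((((polyE_const h).mul hP).mul (polyE_const h)).add (polyE_const (1 - h))).det
  have f2 : PolyF (fun t => LinearMap.det (h * Q t * h + (1 - h))) :=
    ((((polyE_const h).mul hQ).mul (polyE_const h)).add (polyE_const (1 - h))).det
  have f3 : PolyF (fun t => LinearMap.det (h * (Q 1 * P t) * h + (1 - h))) :=
    ((((polyE_const h).mul ((polyE_const (Q 1)).mul hP)).mul (polyE_const h)).add (polyE_const (1 - h))).det
  have g12 : LinearMap.det (h * P 0 * h + (1 - h)) * LinearMap.det (h * Q 0 * h + (1 - h)) * d 0 ≠ 0 := by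
    rw [hP0, hQ0, hd0, mul_one, mul_one h, hh, add_sub_cancel]
    simp
  have g3 : LinearMap.det (h * (Q 1 * P 1) * h + (1 - h)) ≠ 0 := by
    rw [hQP, mul_smul_comm, mul_one, smul_mul_assoc, hh]
    intro h0
    have h2 : (d 1 • h + (1 - h)) * ((d 1)⁻¹ • h + (1 - h)) = 1 := by
      rw [add_mul, mul_add, mul_add]
      simp only [smul_mul_assoc, mul_smul_comm, hhc, hch, hh, hcc, smul_zero, add_zero, zero_add, smul_smul,
        inv_mul_cancel₀ hd1, one_smul]
      abel
    have h3 := congrArg LinearMap.det h2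
    rw [map_mul, h0, zero_mul, map_one] at h3
    exact zero_ne_one h3
  obtain ⟨t, ht⟩ := v_exists_ne_zero ((f1.mul f2).mul hd) (a := 0) g12 f3 g3
  have ht1 : LinearMap.det (h * P t * h + (1 - h)) ≠ 0 := fun h0 => ht (by
    rw [h0, zero_mul, zero_mul, zero_mul])
  have ht2 : LinearMap.det (h * Q t * h + (1 - h)) ≠ 0 := fun h0 => ht (by
    rw [h0, mul_zero, zero_mul, zero_mul])
  have ht3 : d t ≠ 0 := fun h0 => ht (by
    rw [h0, mul_zero, zero_mul])
  have ht4 : LinearMap.det (h * (Q 1 * P t) * h + (1 - h)) ≠ 0 := fun h0 => ht (by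
    rw [h0, mul_zero])
  -- the conjugate `f` of `h`
  set f : End k H := (d t)⁻¹ • (P t * h * Q t) with hf
  have hfg : f ∈ g := g.smul_mem _ (hPQg t h hg)
  have hff : f * f = f := by
    rw [hf, smul_mul_assoc, mul_smul_comm]
    have e1 : P t * h * Q t * (P t * h * Q t) = d t • (P t * h * Q t) := by
      have : P t * h * Q t * (P t * h * Q t) = P t * h * (Q t * P t) * h * Q t := by simp only [mul_assoc]
      rw [this, hQP, mul_smul_comm, mul_one, smul_mul_assoc, smul_mul_assoc, mul_assoc (P t) h h, hh]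
    rw [e1, smul_smul, smul_smul]
    congr 1
    field_simp
  have hu : IsUnit (h * f * h + (1 - h)) := by
    have e1 : h * f * h + (1 - h) = (h * P t * h + (1 - h)) * ((d t)⁻¹ • h + (1 - h)) * (h * Q t * h + (1 - h)) := by
      have e2 : (h * P t * h + (1 - h)) * ((d t)⁻¹ • h + (1 - h)) = (d t)⁻¹ • (h * P t * h) + (1 - h) := by
        rw [add_mul, mul_add, mul_add]
        simp only [mul_smul_comm, mul_assoc, hhc, hch, hh, hcc, smul_zero, add_zero, zero_add, mul_zero]
      rw [e2, add_mul, mul_add, mul_add, hcc]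
      have e3 : (1 - h) * (h * Q t * h) = 0 := by rw [← mul_assoc, ← mul_assoc, hch, zero_mul, zero_mul]
      have e4 : (d t)⁻¹ • (h * P t * h) * (1 - h) = 0 := by rw [smul_mul_assoc, mul_assoc, hhc, mul_zero, smul_zero]
      rw [e3, e4, add_zero, zero_add, hf]
      congr 1
      rw [mul_smul_comm, smul_mul_assoc, smul_mul_assoc]
      congr 1
      have e5 : h * P t * h * (h * Q t * h) = h * P t * (h * h) * Q t * h := by simp only [mul_assoc]
      rw [e5, hh]
      simp only [mul_assoc]
    rw [e1]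
    refine ((v_isUnit_of_det ht1).mul ?_).mul (v_isUnit_of_det ht2)
    refine ⟨⟨(d t)⁻¹ • h + (1 - h), d t • h + (1 - h), ?_, ?_⟩, rfl⟩
    · rw [add_mul, mul_add, mul_add]
      simp only [smul_mul_assoc, mul_smul_comm, hhc, hch, hh, hcc, smul_zero, add_zero, zero_add, smul_smul,
        mul_inv_cancel₀ ht3, one_smul, add_sub_cancel]
    · rw [add_mul, mul_add, mul_add]
      simp only [smul_mul_assoc, mul_smul_comm, hhc, hch, hh, hcc, smul_zero, add_zero, zero_add, smul_smul,
        inv_mul_cancel₀ ht3, one_smul, add_sub_cancel]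
  obtain ⟨z, hzg, hz1, hz2, hz3⟩ := v_exists_graph hlie hg hh hfg hff hu
  have hN := (v_comp_mem hlie hg' hh' hzg).1
  have hc' : h * (1 - h') = (1 - h') * h := by rw [mul_sub, sub_mul, mul_one, one_mul, hcomm]
  have hcc' : (1 - h') * (1 - h') = 1 - h' := by
    rw [mul_sub, mul_one, sub_mul, one_mul, hh', sub_self, sub_zero]
  have hhz : h * z = 0 := by rw [← hz1, ← mul_assoc, hhc, zero_mul]
  refine ⟨h' * z * (1 - h'), hN, ?_, ?_, ?_⟩
  · have e1 : h * (h' * z * (1 - h')) = 0 := by
      rw [← mul_assoc, ← mul_assoc, hcomm, mul_assoc h' h z, hhz, mul_zero, zero_mul]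
    have e2 : h' * z * (1 - h') * h = h' * z * (1 - h') := by
      rw [mul_assoc, ← hc', ← mul_assoc, mul_assoc h' z h, hz2]
    rw [e1, e2, zero_sub]
  · rw [hc', ← mul_assoc, mul_assoc (h' * z), hcc', mul_assoc, ← hc', ← mul_assoc, mul_assoc h' z h, hz2]
  · intro v hv
    -- `v₁` is the component of `v`
    set v₁ := (h * (1 - h')) v with hv₁
    have a1 : h v₁ = v₁ := by
      rw [hv₁, ← Module.End.mul_apply, ← mul_assoc, hh]
    have a2 : (1 - h') v₁ = v₁ := by
      rw [hv₁, ← Module.End.mul_apply, hc', ← mul_assoc, hcc']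
    have a3 : h' v₁ = 0 := by
      have := a2
      rw [LinearMap.sub_apply, Module.End.one_apply, sub_eq_self] at this
      exact this
    have a4 : h' (z v₁) = 0 := by
      have e1 : h' * z * (1 - h') * (h * (1 - h')) = h' * z * (1 - h') := by
        rw [hc', ← mul_assoc, mul_assoc (h' * z), hcc', mul_assoc, ← hc', ← mul_assoc, mul_assoc h' z h, hz2]
      have e2 : (h' * z * (1 - h')) v₁ = 0 := by
        rw [hv₁, ← Module.End.mul_apply, e1, hv]
      rw [Module.End.mul_apply, a2, Module.End.mul_apply] at e2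
      exact e2
    obtain ⟨w, hw⟩ := hz3 v₁ a1
    -- `v₁ + z v₁ = P t w₁`, `h w₁ = w₁`
    set w₁ := (d t)⁻¹ • (h * Q t) w with hw₁
    have b1 : h w₁ = w₁ := by
      rw [hw₁, map_smul, ← Module.End.mul_apply, ← mul_assoc, hh]
    have b2 : P t w₁ = v₁ + z v₁ := by
      rw [← hw, hf, hw₁, map_smul, ← Module.End.mul_apply, ← mul_assoc]
      rfl
    have b3 : h' (P t w₁) = 0 := by
      rw [b2, map_add, a3, a4, add_zero]
    have b4 : (h * (Q 1 * P t)) w₁ = 0 := by
      have e1 : (Q 1 * (d 1 • h') * P t) w₁ = 0 := by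
        rw [Module.End.mul_apply, Module.End.mul_apply, LinearMap.smul_apply, b3, smul_zero, map_zero]
      rw [← h1] at e1
      have e2 : Q 1 * (P 1 * h * Q 1) * P t = d 1 • (h * (Q 1 * P t)) := by
        have : Q 1 * (P 1 * h * Q 1) * P t = (Q 1 * P 1) * (h * (Q 1 * P t)) := by simp only [mul_assoc]
        rw [this, hQP, smul_mul_assoc, one_mul]
      rw [e2, LinearMap.smul_apply] at e1
      exact (smul_eq_zero.mp e1).resolve_left hd1
    have b5 : (h * (Q 1 * P t) * h + (1 - h)) w₁ = 0 := by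
      rw [LinearMap.add_apply, Module.End.mul_apply, b1, b4, LinearMap.sub_apply, Module.End.one_apply, b1, sub_self,
        add_zero]
    have b6 : w₁ = 0 := by
      obtain ⟨u, hu2⟩ := v_isUnit_of_det ht4
      have e1 : (↑u⁻¹ : End k H) ((u : End k H) w₁) = 0 := by rw [hu2, b5, map_zero]
      rwa [← Module.End.mul_apply, Units.inv_mul, Module.End.one_apply] at e1
    rw [b6, map_zero] at b2
    have b7 : h (v₁ + z v₁) = 0 := by rw [← b2, map_zero]
    rw [map_add, a1, ← Module.End.mul_apply, hhz, LinearMap.zero_apply, add_zero] at b7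
    exact b7

/-- the rank of `N` on a subspace is the rank of `h (1 - h')` -/
theorem exists_conj_N_rank [Infinite k] (hlie : ∀ X ∈ g, ∀ Y ∈ g, X * Y - Y * X ∈ g) {h h' : End k H}
    (hg : h ∈ g) (hh : h * h = h) (hg' : h' ∈ g) (hh' : h' * h' = h') (hcomm : h * h' = h' * h)
    (hconj : InnerConj g c h h') :
    ∃ N ∈ g, h * N - N * h = -N ∧
      ∀ W : Submodule k H, finrank k (W.map N) = finrank k (W.map (h * (1 - h'))) := by
  obtain ⟨N, hN, h1, h2, h3⟩ := exists_conj_N hlie hg hh hg' hh' hcomm hconj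
  refine ⟨N, hN, h1, fun W => ?_⟩
  -- `W.map N = (W.map (h (1 - h'))).map N` and `N` is injective on the image of `h (1 - h')`
  have e1 : W.map N = (W.map (h * (1 - h'))).map N := by
    rw [← Submodule.map_comp]
    congr 1
    exact h2.symm
  have hidem : ∀ v, (h * (1 - h')) ((h * (1 - h')) v) = (h * (1 - h')) v := by
    intro v
    have hc' : h * (1 - h') = (1 - h') * h := by rw [mul_sub, sub_mul, mul_one, one_mul, hcomm]
    have hcc' : (1 - h') * (1 - h') = 1 - h' := by
      rw [mul_sub, mul_one, sub_mul, one_mul, hh', sub_self, sub_zero]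
    have : h * (1 - h') * (h * (1 - h')) = h * (1 - h') := by
      calc h * (1 - h') * (h * (1 - h')) = h * ((1 - h') * h) * (1 - h') := by simp only [mul_assoc]
        _ = (h * h) * ((1 - h') * (1 - h')) := by rw [← hc']; simp only [mul_assoc]
        _ = h * (1 - h') := by rw [hh, hcc']
    rw [← Module.End.mul_apply, this]
  rw [e1]
  refine (LinearEquiv.finrank_eq (LinearEquiv.ofBijective
    ((N.domRestrict (W.map (h * (1 - h')))).codRestrict ((W.map (h * (1 - h'))).map N) fun v =>
      Submodule.mem_map_of_mem v.2) ⟨?_, ?_⟩)).symm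
  · rw [← LinearMap.ker_eq_bot, LinearMap.ker_eq_bot']
    intro v hv
    have h4 : N (v : H) = 0 := congrArg Subtype.val hv
    obtain ⟨w, -, hw⟩ := v.2
    have h5 := h3 _ h4
    rw [← hw, hidem] at h5
    apply Subtype.ext
    rw [← hw, h5]
    rfl
  · rintro ⟨_, v, hv, rfl⟩
    exact ⟨⟨v, hv⟩, rfl⟩

end poly

end Pool.Agent.Lib.MP_021685_agO
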