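import Pool.Agent.Lib.MP_021685_agO.OV

/-!
# OW: two conjugate idempotents

`h`, `h'`: conjugate idempotents in `g` (they need not commute). Then there are a conjugate `h₀` of `h` and
an element `N` of `g` with `[h₀, N] = -N`, such that `1 - h'` maps the image of `N` isomorphically to the
image of `(1 - h') h`. So the rank of `N` on a `g`-stable subspace `W` is the codimension of
`h W ∩ h' W` in `h W`.

The proof: let `h₀` be a general conjugate; then `h V` and `h' V` are the graphs of elements `z₁`, `z₂` of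
`g` over the image of `h₀`, and `N = z₁ - z₂`.
-/

set_option autoImplicit false

open Module

namespace Pool.Agent.Lib.MP_021685_agO

variable {k H : Type*} [Field k] [AddCommGroup H] [Module k H] [FiniteDimensional k H]
  {g : Submodule k (End k H)} {c : End k H → k}

theorem w_exists_ne_zero [Infinite k] {f : k → k} (hf : PolyF f) {a : k} (ha : f a ≠ 0) {f' : k → k} (hf' : PolyF f')
    {a' : k} (ha' : f' a' ≠ 0) : ∃ b, f b ≠ 0 ∧ f' b ≠ 0 := by
  obtain ⟨b, hb⟩ := v_exists_ne_zero hf ha hf' ha'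
  exact ⟨b, left_ne_zero_of_mul hb, right_ne_zero_of_mul hb⟩

/-- the image of the idempotent `f` is the graph of `z` over the image of `h` -/
theorem w_graph [NeZero (2 : k)] (hlie : ∀ X ∈ g, ∀ Y ∈ g, X * Y - Y * X ∈ g) {h f : End k H} (hg : h ∈ g)
    (hh : h * h = h) (hf : f ∈ g) (hff : f * f = f) (hu : IsUnit (h * f * h + (1 - h)))
    (hu' : IsUnit (f * h * f + (1 - f))) :
    ∃ z ∈ g, h * z = 0 ∧ z * h = z ∧ f * (h + z) = h + z ∧ (h + z) * f = f := by
  obtain ⟨z, hz, h1, h2, h3⟩ := v_exists_graph hlie hg hh hf hff hu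
  have hhz : h * z = 0 := by rw [← h1, ← mul_assoc, mul_sub, mul_one, hh, sub_self, zero_mul]
  have h4 : f * (h + z) = h + z := by
    refine LinearMap.ext fun v => ?_
    obtain ⟨w, hw⟩ := h3 (h v) (by rw [← Module.End.mul_apply, hh])
    have e : (h + z) v = f w := by
      rw [hw, ← Module.End.mul_apply z, h2, LinearMap.add_apply]
    rw [Module.End.mul_apply, e, ← Module.End.mul_apply, hff]
  refine ⟨z, hz, hhz, h2, h4, ?_⟩
  -- `h` is injective on the image of `f`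
  have hinj : ∀ w, f w = w → h w = 0 → w = 0 := by
    intro w hw hw0
    obtain ⟨u, hu1⟩ := hu'
    have e1 : (u : End k H) w = 0 := by
      rw [hu1, LinearMap.add_apply, Module.End.mul_apply, Module.End.mul_apply, hw, hw0, map_zero, zero_add,
        LinearMap.sub_apply, Module.End.one_apply, hw, sub_self]
    have e2 : (↑u⁻¹ : End k H) ((u : End k H) w) = 0 := by rw [e1, map_zero]
    rwa [← Module.End.mul_apply, Units.inv_mul, Module.End.one_apply] at e2
  refine LinearMap.ext fun v => ?_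
  have e1 : f (f v - (h + z) (f v)) = f v - (h + z) (f v) := by
    rw [map_sub, ← Module.End.mul_apply, ← Module.End.mul_apply f (h + z), hff, h4]
  have e2 : h (f v - (h + z) (f v)) = 0 := by
    rw [map_sub, ← Module.End.mul_apply h (h + z), mul_add, hh, hhz, add_zero, sub_self]
  have e3 := hinj _ e1 e2
  rw [Module.End.mul_apply]
  exact (sub_eq_zero.mp e3).symm

variable [NeZero (2 : k)] [Infinite k]

/-- a general conjugate of `h` -/
theorem w_exists_general (hlie : ∀ X ∈ g, ∀ Y ∈ g, X * Y - Y * X ∈ g) {h h' : End k H}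
    (hg : h ∈ g) (hh : h * h = h) (hh' : h' * h' = h') (hconj : InnerConj g c h h') :
    ∃ h₀ ∈ g, h₀ * h₀ = h₀ ∧ InnerConj g c h h₀ ∧ IsUnit (h₀ * h * h₀ + (1 - h₀)) ∧
      IsUnit (h * h₀ * h + (1 - h)) ∧ IsUnit (h₀ * h' * h₀ + (1 - h₀)) ∧ IsUnit (h' * h₀ * h' + (1 - h')) := by
  obtain ⟨P, Q, d, hP, hQ, hd, hP0, hQ0, hd0, hd1, hPQ, hQP, hPQg, h1, hin⟩ := v_exists_path hlie hconj
  let Y : k → End k H := fun t => P t * h * Q t
  have hY : PolyE Y := (hP.mul (polyE_const h)).mul hQ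
  have hYY : ∀ t, Y t * Y t = d t • Y t := by
    intro t
    have : P t * h * Q t * (P t * h * Q t) = P t * h * (Q t * P t) * h * Q t := by simp only [mul_assoc]
    change P t * h * Q t * (P t * h * Q t) = d t • (P t * h * Q t)
    rw [this, hQP, mul_smul_comm, mul_one, smul_mul_assoc, smul_mul_assoc, mul_assoc (P t) h h, hh]
  have hdm : PolyF fun t => -(d t) := (polyF_const (-1)).mul hd |> fun ⟨p, hp⟩ => ⟨p, fun t => by rw [← hp]; ring⟩
  -- the polynomial conditions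
  have f1 : ∀ X : End k H, PolyF (fun t => LinearMap.det (Y t * X * Y t + (d t * d t) • 1 + (-(d t)) • Y t)) :=
    fun X => (((hY.mul (polyE_const X)).mul hY).add (PolyE.smul (hd.mul hd) (polyE_const 1))).add
      (PolyE.smul hdm hY) |>.det
  have f2 : ∀ X : End k H, PolyF (fun t => LinearMap.det (X * Y t * X + d t • (1 - X))) :=
    fun X => ((((polyE_const X).mul hY).mul (polyE_const X)).add (PolyE.smul hd (polyE_const (1 - X)))).det
  have hY0 : Y 0 = h := by
    change P 0 * h * Q 0 = h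
    rw [hP0, hQ0, one_mul, mul_one]
  have v1 : LinearMap.det (Y 0 * h * Y 0 + (d 0 * d 0) • 1 + (-(d 0)) • Y 0) * LinearMap.det (h * Y 0 * h + d 0 • (1 - h)) *
      d 0 ≠ 0 := by
    rw [hY0, hd0, hh, hh, one_mul, one_smul, one_smul]
    have e1 : h + 1 + (-1 : k) • h = 1 := by rw [neg_one_smul]; abel
    have e2 : h + (1 - h) = 1 := by abel
    rw [e1, e2]
    simp
  have v2 : LinearMap.det (Y 1 * h' * Y 1 + (d 1 * d 1) • 1 + (-(d 1)) • Y 1) * LinearMap.det (h' * Y 1 * h' + d 1 • (1 - h')) ≠ 0 := by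
    have hY1 : Y 1 = d 1 • h' := h1
    rw [hY1]
    have e1 : d 1 • h' * h' * d 1 • h' + (d 1 * d 1) • (1 : End k H) + (-(d 1)) • (d 1 • h') = (d 1 * d 1) • 1 := by
      simp only [smul_mul_assoc, mul_smul_comm, hh', smul_smul]
      rw [neg_mul, neg_smul]
      abel
    have e2 : h' * d 1 • h' * h' + d 1 • (1 - h') = d 1 • 1 := by
      simp only [smul_mul_assoc, mul_smul_comm, hh']
      rw [← smul_add]
      congr 1
      abel
    rw [e1, e2, LinearMap.det_smul, LinearMap.det_smul, map_one, mul_one]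
    simp [hd1]
  obtain ⟨t, ht, ht'⟩ := w_exists_ne_zero (((f1 h).mul (f2 h)).mul hd) (a := 0) v1 ((f1 h').mul (f2 h')) (a' := 1) v2
  have d1 : d t ≠ 0 := right_ne_zero_of_mul ht
  have a1 := left_ne_zero_of_mul (left_ne_zero_of_mul ht)
  have a2 := right_ne_zero_of_mul (left_ne_zero_of_mul ht)
  have a3 := left_ne_zero_of_mul ht'
  have a4 := right_ne_zero_of_mul ht'
  have k1 : ∀ X : End k H, LinearMap.det (Y t * X * Y t + (d t * d t) • 1 + (-(d t)) • Y t) ≠ 0 →
      IsUnit ((d t)⁻¹ • Y t * X * (d t)⁻¹ • Y t + (1 - (d t)⁻¹ • Y t)) := by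
    intro X hX
    have e : (d t)⁻¹ • Y t * X * (d t)⁻¹ • Y t + (1 - (d t)⁻¹ • Y t) =
        (d t * d t)⁻¹ • (Y t * X * Y t + (d t * d t) • 1 + (-(d t)) • Y t) := by
      rw [smul_add, smul_add, smul_smul, smul_smul, inv_mul_cancel₀ (mul_ne_zero d1 d1), one_smul]
      simp only [smul_mul_assoc, mul_smul_comm, smul_smul]
      rw [← mul_inv]
      have e2 : (d t * d t)⁻¹ * -d t = -(d t)⁻¹ := by field_simp
      rw [e2, neg_smul]
      abel
    rw [e]
    refine v_isUnit_of_det ?_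
    rw [LinearMap.det_smul]
    exact mul_ne_zero (pow_ne_zero _ (inv_ne_zero (mul_ne_zero d1 d1))) hX
  have k2 : ∀ X : End k H, LinearMap.det (X * Y t * X + d t • (1 - X)) ≠ 0 →
      IsUnit (X * (d t)⁻¹ • Y t * X + (1 - X)) := by
    intro X hX
    have e : X * (d t)⁻¹ • Y t * X + (1 - X) = (d t)⁻¹ • (X * Y t * X + d t • (1 - X)) := by
      rw [smul_add, smul_smul, inv_mul_cancel₀ d1, one_smul]
      simp only [smul_mul_assoc, mul_smul_comm]
    rw [e]
    refine v_isUnit_of_det ?_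
    rw [LinearMap.det_smul]
    exact mul_ne_zero (pow_ne_zero _ (inv_ne_zero d1)) hX
  refine ⟨(d t)⁻¹ • Y t, g.smul_mem _ (hPQg t h hg), ?_, hin t d1, k1 h a1, k2 h a2, k1 h' a3, k2 h' a4⟩
  rw [smul_mul_assoc, mul_smul_comm, hYY, smul_smul, smul_smul]
  congr 1
  field_simp

/-- **two conjugate idempotents** -/
theorem exists_pair_N (hlie : ∀ X ∈ g, ∀ Y ∈ g, X * Y - Y * X ∈ g) {h h' : End k H}
    (hg : h ∈ g) (hh : h * h = h) (hg' : h' ∈ g) (hh' : h' * h' = h') (hconj : InnerConj g c h h') :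
    ∃ h₀ ∈ g, ∃ N ∈ g, ∃ s ∈ g, h₀ * h₀ = h₀ ∧ InnerConj g c h h₀ ∧ h₀ * N = 0 ∧ N * h₀ = N ∧ h * s = s ∧
      N * s = N ∧ (1 - h') * N * h = (1 - h') * h ∧ ∀ v, (1 - h') (N v) = 0 → N v = 0 := by
  obtain ⟨h₀, h₀g, h₀₀, hin, u1, u2, u3, u4⟩ := w_exists_general hlie hg hh hh' hconj
  obtain ⟨z₁, z₁g, a1, a2, a3, a4⟩ := w_graph hlie h₀g h₀₀ hg hh u1 u2
  obtain ⟨z₂, z₂g, b1, b2, b3, b4⟩ := w_graph hlie h₀g h₀₀ hg' hh' u3 u4
  refine ⟨h₀, h₀g, z₁ - z₂, g.sub_mem z₁g z₂g, h₀ + z₁, g.add_mem h₀g z₁g, h₀₀, hin, ?_, ?_, a3, ?_, ?_, ?_⟩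
  · rw [mul_sub, a1, b1, sub_self]
  · rw [sub_mul, a2, b2]
  · -- `(z₁ - z₂) (h₀ + z₁) = z₁ - z₂`, `z_i z_j = z_i h₀ z_j = 0`
    have e1 : z₁ * z₁ = 0 := by rw [← a2, mul_assoc, a2, a1, mul_zero]
    have e2 : z₂ * z₁ = 0 := by rw [← b2, mul_assoc, a1, mul_zero]
    rw [sub_mul, mul_add, mul_add, a2, b2, e1, e2, add_zero, add_zero]
  · -- `(1 - h') (z₁ - z₂) h = (1 - h') h`
    have e1 : (z₁ - z₂) * h = h - (h₀ + z₂) * h := by
      have : z₁ * h = h - h₀ * h := by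
        rw [eq_sub_iff_add_eq, add_comm, ← add_mul, a4]
      rw [sub_mul, this, add_mul]
      abel
    have e2 : (1 - h') * (h₀ + z₂) = 0 := by rw [sub_mul, one_mul, b3, sub_self]
    rw [mul_assoc, e1, mul_sub, ← mul_assoc, e2, zero_mul, sub_zero]
  · intro v hv
    -- `N v` is in the image of `h'` and killed by `h₀`
    have e1 : h' ((z₁ - z₂) v) = (z₁ - z₂) v := by
      rw [LinearMap.sub_apply, Module.End.one_apply, sub_eq_zero] at hv
      exact hv.symm
    have e2 : h₀ ((z₁ - z₂) v) = 0 := by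
      rw [← Module.End.mul_apply, mul_sub, a1, b1, sub_self, LinearMap.zero_apply]
    have e3 : (h₀ + z₂) (h' ((z₁ - z₂) v)) = h' ((z₁ - z₂) v) := by
      rw [← Module.End.mul_apply (h₀ + z₂), b4]
    have e4 : z₂ ((z₁ - z₂) v) = 0 := by
      have h5 := congrArg (fun x => z₂ x) e2
      simp only [map_zero] at h5
      rwa [← Module.End.mul_apply z₂ h₀, b2] at h5
    rw [e1, LinearMap.add_apply, e2, e4, add_zero] at e3
    exact e3.symm

/-- the rank of `N` on a stable subspace -/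
theorem exists_pair_N_rank (hlie : ∀ X ∈ g, ∀ Y ∈ g, X * Y - Y * X ∈ g) {h h' : End k H}
    (hg : h ∈ g) (hh : h * h = h) (hg' : h' ∈ g) (hh' : h' * h' = h') (hconj : InnerConj g c h h') :
    ∃ h₀ ∈ g, ∃ N ∈ g, h₀ * h₀ = h₀ ∧ InnerConj g c h h₀ ∧ h₀ * N = 0 ∧ N * h₀ = N ∧
      ∀ W : Submodule k H, IsStable g W → finrank k (W.map N) = finrank k (W.map ((1 - h') * h)) := by
  obtain ⟨h₀, h₀g, N, hN, s, hs, h₀₀, hin, c1, c2, c3, c4, c5, c6⟩ := exists_pair_N hlie hg hh hg' hh' hconj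
  refine ⟨h₀, h₀g, N, hN, h₀₀, hin, c1, c2, fun W hW => ?_⟩
  have e1 : W.map ((1 - h') * h) = (W.map N).map (1 - h') := by
    apply le_antisymm
    · rintro _ ⟨w, hw, rfl⟩
      refine ⟨N (h w), ⟨h w, hW h hg w hw, rfl⟩, ?_⟩
      rw [← c5]
      rfl
    · rintro _ ⟨_, ⟨w, hw, rfl⟩, rfl⟩
      refine ⟨s w, hW s hs w hw, ?_⟩
      rw [← c5]
      change (1 - h') (N (h (s w))) = (1 - h') (N w)
      rw [← Module.End.mul_apply h s, c3, ← Module.End.mul_apply N s, c4]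
  rw [e1]
  refine (LinearEquiv.finrank_eq (LinearEquiv.ofBijective
    (((1 - h').domRestrict (W.map N)).codRestrict ((W.map N).map (1 - h')) fun v =>
      Submodule.mem_map_of_mem v.2) ⟨?_, ?_⟩))
  · rw [← LinearMap.ker_eq_bot, LinearMap.ker_eq_bot']
    rintro ⟨_, v, hv, rfl⟩ h0
    have h4 : (1 - h') (N v) = 0 := congrArg Subtype.val h0
    exact Subtype.ext (c6 v h4)
  · rintro ⟨_, v, hv, rfl⟩
    exact ⟨⟨v, hv⟩, rfl⟩

end Pool.Agent.Lib.MP_021685_agO
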