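import Pool.Agent.Lib.MP_021685_agO.OW2

/-!
# OW3: a homogeneous element gives a pair of Hodge elements
-/

set_option autoImplicit false

open Module

namespace Pool.Agent.Lib.MP_021685_agO

variable {k H : Type*} [Field k] [CharZero k] [AddCommGroup H] [Module k H]
  {g : Submodule k (End k H)} {c : End k H → k}

/-- a homogeneous element `N` of degree `-1` (the logarithm of the monodromy) gives the pair `h`, `h + N`, if
the multiplier of `h + s N` is `1` for all `s` -/
theorem isRelPos_of_monodromy {h N : End k H} (hh : IsHodgeElt g c h) (hN : N ∈ g) (hd : h * N - N * h = -N)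
    (hc : ∀ s : k, c (h + s • N) = 1) : IsRelPos g c (-N) := by
  obtain ⟨hg, h2, -⟩ := hh
  have e1 : h * N = N * h - N := by rw [sub_eq_iff_eq_add] at hd; rw [hd]; abel
  have e3 : h * N = 0 := by
    have h5 : h * (h * N) = h * N := by rw [← mul_assoc, h2]
    have h7 : h * N * h = 0 := by rw [e1, sub_mul, mul_assoc, h2, sub_self]
    have h6 : h * (h * N) = h * (N * h) - h * N := by rw [e1, mul_sub, ← e1]
    rw [h5, ← mul_assoc, h7, zero_sub] at h6
    have h8 : (2 : k) • (h * N) = 0 := by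
      rw [two_smul]
      nth_rewrite 1 [h6]
      exact neg_add_cancel _
    exact (smul_eq_zero.mp h8).resolve_left two_ne_zero
  have e4 : N * h = N := by rw [e3] at e1; exact sub_eq_zero.mp e1.symm
  have e5 : N * N = 0 := by
    calc N * N = N * h * N := by rw [e4]
      _ = 0 := by rw [mul_assoc, e3, mul_zero]
  have hel : ∀ s : k, IsHodgeElt g c (h + s • N) := by
    intro s
    refine ⟨g.add_mem hg (g.smul_mem _ hN), ?_, hc s⟩
    rw [add_mul, mul_add, mul_add]
    simp only [smul_mul_assoc, mul_smul_comm, h2, e3, e4, e5, smul_zero, add_zero]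
  have he0 : IsHodgeElt g c h := by simpa using hel 0
  have he1 : IsHodgeElt g c (h + N) := by simpa using hel 1
  refine ⟨h, h + N, he0, he1, ?_, ?_⟩
  · -- `u = t^(h + N) t^(-h)` with `t = 2` is `1 + N / 2`
    have hhc : h * (1 - h) = 0 := by rw [mul_sub, mul_one, h2, sub_self]
    have hch : (1 - h) * h = 0 := by rw [sub_mul, one_mul, h2, sub_self]
    have hcc : (1 - h) * (1 - h) = 1 - h := by rw [mul_sub, mul_one, hch, sub_zero]
    have two : (2 : k) ≠ 0 := two_ne_zero
    have unit : ∀ e : End k H, e * e = e → ∀ t : k, t ≠ 0 →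
        ∃ u : (End k H)ˣ, (u : End k H) = t • e + (1 - e) := by
      intro e he t ht
      have hec : e * (1 - e) = 0 := by rw [mul_sub, mul_one, he, sub_self]
      have hce : (1 - e) * e = 0 := by rw [sub_mul, one_mul, he, sub_self]
      have hcc : (1 - e) * (1 - e) = 1 - e := by rw [mul_sub, mul_one, hce, sub_zero]
      refine ⟨⟨t • e + (1 - e), t⁻¹ • e + (1 - e), ?_, ?_⟩, rfl⟩
      · rw [add_mul, mul_add, mul_add]
        simp only [smul_mul_assoc, mul_smul_comm, hec, hce, he, hcc, smul_zero, add_zero, zero_add, smul_smul,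
          inv_mul_cancel₀ ht, one_smul, add_sub_cancel]
      · rw [add_mul, mul_add, mul_add]
        simp only [smul_mul_assoc, mul_smul_comm, hec, hce, he, hcc, smul_zero, add_zero, zero_add, smul_smul,
          mul_inv_cancel₀ ht, one_smul, add_sub_cancel]
    obtain ⟨u₁, hu₁⟩ := unit (h + N) he1.2.1 2 two
    obtain ⟨u₂, hu₂⟩ := unit h h2 (2 : k)⁻¹ (inv_ne_zero two)
    -- `u = (u₁ u₂) ^ 2 = 1 + N`
    have hu : (u₁ : End k H) * u₂ = 1 + (2 : k)⁻¹ • N := by
      rw [hu₁, hu₂]
      simp only [add_mul, mul_add, sub_mul, mul_sub, smul_add, smul_mul_assoc, mul_smul_comm, h2, e4, mul_one,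
        one_mul, smul_smul, inv_mul_cancel₀ two, one_smul]
      module
    have huu : ((u₁ * u₂ * (u₁ * u₂) : (End k H)ˣ) : End k H) = 1 + N := by
      rw [Units.val_mul, Units.val_mul, hu, add_mul, mul_add, mul_add]
      simp only [smul_mul_assoc, mul_smul_comm, e5, smul_zero, add_zero, mul_one, one_mul]
      rw [add_assoc, ← add_smul]
      norm_num
    have hm₁ : u₁ ∈ Subgroup.closure {u : (End k H)ˣ | ∃ (e : End k H) (t : k), IsHodgeElt g c e ∧ t ≠ 0 ∧
        (u : End k H) = t • e + (1 - e)} := Subgroup.subset_closure ⟨h + N, 2, he1, two, hu₁⟩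
    have hm₂ : u₂ ∈ Subgroup.closure {u : (End k H)ˣ | ∃ (e : End k H) (t : k), IsHodgeElt g c e ∧ t ≠ 0 ∧
        (u : End k H) = t • e + (1 - e)} := Subgroup.subset_closure ⟨h, 2⁻¹, he0, inv_ne_zero two, hu₂⟩
    refine ⟨u₁ * u₂ * (u₁ * u₂), mul_mem (mul_mem hm₁ hm₂) (mul_mem hm₁ hm₂), ?_⟩
    rw [huu, add_mul, one_mul, mul_add, mul_one, e4, add_mul, e3, e5]
    abel
  · rw [sub_mul, one_mul, add_mul, h2, e4]
    abel

end Pool.Agent.Lib.MP_021685_agO
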