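import Pool.Agent.Lib.MP_021685_agO.OE
import Pool.Agent.Lib.MP_021685_agO.ON2

/-!
# The symplectic Lie algebra of an odd simple subspace
-/

set_option autoImplicit false

namespace Pool.Agent.Lib.MP_021685_agO

open Module

variable {k H : Type*} [Field k] [CharZero k] [IsAlgClosed k] [AddCommGroup H] [Module k H]
  [FiniteDimensional k H] {g : Submodule k (End k H)} {c : End k H → k} {W : Submodule k H}

/-- For an odd simple subspace `W` the Lie algebra `g` contains the symplectic Lie algebra of `W`. -/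
theorem full_of_odd (hg : IsGaloisAlg g c) (hW : OddSimple g c W) :
    ∃ β : H →ₗ[k] H →ₗ[k] k, IsSympl g c W β ∧ Full g W β := by
  obtain ⟨hsim, ⟨β, hs⟩, N, hN, ho⟩ := hW
  obtain ⟨h, e, f, hh, hp, ho'⟩ := exists_prim hg hsim.2.1 hN ho
  have hB : Big g c W β h e f := ⟨hg, hsim, hs, hh, hp, by
    rcases ho' with h1 | h1
    · exact h1
    · exact absurd h1 (not_two hg hsim hs hh hp)⟩
  exact ⟨β, hs, full_of_QQ hg hsim hs hB.QQ_ne⟩

end Pool.Agent.Lib.MP_021685_agO
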